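import Pool.Agent.Lib.MP_f75418_nt.FF.Defs
import Pool.Agent.Lib.MP_45349e_nt.LS.Rough

/-!
Row B2. The actual numbers, divisible by `l.prod` and without prime factors `< w`: `fund_general` (AP/FLG.lean).

`AA univ (aA n w) (HA n) l` is the number of `b` with `l.prod ∣ av n b` (distinct primes) and no prime of `P 2 w` dividing
`av n b`; `2` and `3` never divide `av n b` (`not_two_dvd_av`, `not_three_dvd_av`), so it is
`#{b ∈ S : ∀ r ∈ P5 (w-1), ¬ r ∣ av n b}` with `S = {b : l.prod ∣ av n b}`. `fund_general` with `z = w`, `P = P5 (w-1)`,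
`f = av n`, `X = 3^n / l.prod`; `∏_{r ∈ P5 (w-1)} (1 - 1/r) = 3 V w` (`w ≥ 5`; `V w = ∏_{p ∈ P 2 w} (1 - 1/p)` contains the
factors `1/2` and `2/3`); `errSum w b (P5 (w-1)) S (av n) X` has the same index set as `RA` and for `e` coprime to `l.prod`
(prime factors `< w`, resp. `≥ w`) `#{b ∈ S : e ∣ av n b} = Ad n (l.prod * e)`, `X / e = 3^n / (l.prod * e)`.
-/

open Finset

namespace Pool.Agent.Lib.MP_f75418_nt.FF

open Pool.Agent.Lib.MP_f75418_nt
open Pool.Agent.Lib.MP_45349e_nt.LS (P Chn AA V)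
open Pool.Agent.Lib.GT (K₀)

private theorem b2_prime_dvd {l : List ℕ} (hl : ∀ p ∈ l, p.Prime) {q : ℕ} (hq : q.Prime)
    (h : q ∣ l.prod) : q ∈ l := by
  obtain ⟨a, ha, hqa⟩ := (hq.prime.dvd_prod_iff).mp h
  rcases (Nat.prime_dvd_prime_iff_eq hq (hl a ha)).mp hqa with rfl
  exact ha

private theorem b2_prod_dvd (a : ℕ) : ∀ l : List ℕ, l.Pairwise (· < ·) → (∀ p ∈ l, p.Prime) →
    ((∀ p ∈ l, p ∣ a) ↔ l.prod ∣ a)
  | [], _, _ => by simp
  | p :: t, hs, hp => by
    rw [List.pairwise_cons] at hs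
    have ih := b2_prod_dvd a t hs.2 (fun q hq => hp q (List.mem_cons_of_mem _ hq))
    rw [List.prod_cons, List.forall_mem_cons, ih]
    have hpp := hp p List.mem_cons_self
    have hco : Nat.Coprime p t.prod := by
      rw [Nat.Prime.coprime_iff_not_dvd hpp]
      intro h
      have := b2_prime_dvd (fun q hq => hp q (List.mem_cons_of_mem _ hq)) hpp h
      exact lt_irrefl p (hs.1 p this)
    constructor
    · rintro ⟨h1, h2⟩
      exact hco.mul_dvd_of_dvd_of_dvd h1 h2
    · intro h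
      exact ⟨dvd_trans (dvd_mul_right _ _) h, dvd_trans (dvd_mul_left _ _) h⟩

private theorem b2_P (w : ℕ) (hw : 5 ≤ w) : P 2 w = insert 2 (insert 3 (P5 (w - 1))) := by
  ext p
  rw [Finset.mem_insert, Finset.mem_insert, mem_P5]
  unfold P
  rw [Finset.mem_filter, Finset.mem_Ico]
  constructor
  · rintro ⟨⟨h1, h2⟩, h3⟩
    by_cases h5 : 5 ≤ p
    · exact Or.inr (Or.inr ⟨⟨h5, by omega⟩, h3⟩)
    · have : p = 2 ∨ p = 3 ∨ p = 4 := by omega
      rcases this with rfl | rfl | rfl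
      · exact Or.inl rfl
      · exact Or.inr (Or.inl rfl)
      · exact absurd h3 (by decide)
  · rintro (rfl | rfl | ⟨⟨h1, h2⟩, h3⟩)
    · exact ⟨⟨le_refl _, by omega⟩, Nat.prime_two⟩
    · exact ⟨⟨by omega, by omega⟩, Nat.prime_three⟩
    · exact ⟨⟨by omega, by omega⟩, h3⟩

private theorem b2_V (w : ℕ) (hw : 5 ≤ w) : ∏ r ∈ P5 (w - 1), (1 - 1 / (r : ℝ)) = 3 * V w := by
  unfold V
  rw [b2_P w hw, Finset.prod_insert, Finset.prod_insert]
  · push_cast
    ring
  · rw [mem_P5]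
    omega
  · rw [Finset.mem_insert, mem_P5]
    omega

private theorem b2_iff {n w : ℕ} (hw : 5 ≤ w) (b : Fin n → Fin 3) :
    (∀ p ∈ P 2 w, ¬ p ∣ av n b) ↔ ∀ r ∈ P5 (w - 1), ¬ r ∣ av n b := by
  rw [b2_P w hw]
  constructor
  · intro h r hr
    exact h r (Finset.mem_insert_of_mem (Finset.mem_insert_of_mem hr))
  · intro h r hr
    rw [Finset.mem_insert, Finset.mem_insert] at hr
    rcases hr with rfl | rfl | hr
    · exact not_two_dvd_av n b
    · exact not_three_dvd_av n b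
    · exact h r hr

theorem AAA (n w z b : ℕ) (hw : 5 ≤ w) (hb : 1 ≤ b) (l : List ℕ) (hl : Chn w z 0 l) :
    |AA Finset.univ (aA n w) (HA n) l - 3 * 3 ^ n / l.prod * V w| ≤
      K₀ * (1 / 2) ^ b * (3 * 3 ^ n / l.prod * V w) + RA n w b l.prod := by
  classical
  obtain ⟨hpw, hl'⟩ := hl
  have hlp : ∀ p ∈ l, p.Prime := fun p hp => (hl' p hp).1
  set S : Finset (Fin n → Fin 3) := Finset.univ.filter (fun c => l.prod ∣ av n c) with hS
  have hprod0 : 0 < l.prod := List.prod_pos fun p hp => (hlp p hp).pos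
  have hX : (0 : ℝ) ≤ 3 ^ n / l.prod := by positivity
  have hmain := fund_general (ι := Fin n → Fin 3) (b := b) (z := w) hb (by omega) (P := P5 (w - 1))
    (fun r hr => ⟨(mem_P5.mp hr).2, by have := (mem_P5.mp hr).1.2; omega⟩) S (av n) hX
  rw [b2_V w hw] at hmain
  have h1 : AA Finset.univ (aA n w) (HA n) l =
      ((S.filter (fun i => ∀ r ∈ P5 (w - 1), ¬ r ∣ av n i)).card : ℝ) := by
    unfold AA
    rw [hS, Finset.filter_filter, Finset.card_filter]
    push_cast
    refine Finset.sum_congr rfl fun c _ => ?_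
    unfold aA HA
    by_cases h2 : ∀ p ∈ l, p ∣ av n c
    · have h3 := (b2_prod_dvd (av n c) l hpw hlp).mp h2
      rw [if_pos h2]
      by_cases h4 : ∀ p ∈ P 2 w, ¬ p ∣ av n c
      · rw [if_pos h4, if_pos ⟨h3, (b2_iff hw c).mp h4⟩]
      · rw [if_neg h4, if_neg (fun h5 => h4 ((b2_iff hw c).mpr h5.2))]
    · rw [if_neg h2, if_neg (fun h5 => h2 ((b2_prod_dvd (av n c) l hpw hlp).mpr h5.1))]
  have h6 : (3 : ℝ) ^ n / l.prod * (3 * V w) = 3 * 3 ^ n / l.prod * V w := by ring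
  rw [h6] at hmain
  have h7 : (((Pool.Agent.Lib.GT.NJ w : ℕ) : ℝ) + 1) * errSum w b (P5 (w - 1)) S (av n) (3 ^ n / l.prod)
      = RA n w b l.prod := by
    unfold RA errSum
    congr 1
    refine Finset.sum_congr rfl fun e he => ?_
    rw [Finset.mem_filter, Finset.mem_Icc] at he
    have hco : Nat.Coprime l.prod e := by
      by_contra hc
      obtain ⟨q, hq, hq1, hq2⟩ := Nat.Prime.not_coprime_iff_dvd.mp hc
      have h8 := (mem_P5.mp (he.2 q hq hq2)).1.2
      have h9 := (hl' q (b2_prime_dvd hlp hq hq1)).2.1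
      omega
    have h10 : (S.filter (fun i => e ∣ av n i)).card = Ad n (l.prod * e) := by
      unfold Ad
      rw [hS, Finset.filter_filter]
      congr 1
      ext c
      simp only [Finset.mem_filter, Finset.mem_univ, true_and]
      constructor
      · rintro ⟨h1, h2⟩
        exact hco.mul_dvd_of_dvd_of_dvd h1 h2
      · intro h
        exact ⟨dvd_trans (dvd_mul_right _ _) h, dvd_trans (dvd_mul_left _ _) h⟩
    rw [h10]
    congr 2
    rw [div_div]
  rw [h1, ← h7]
  convert hmain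

end Pool.Agent.Lib.MP_f75418_nt.FF
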