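import Pool.Agent.Lib.MP_f75418_nt.FF.Defs

/-!
Row A0. Basic facts on the digit factor and the reduction of `Ad n d` to the sums `WW n q`.

* `ff_eq_norm`: the computation at the start of `norm_three` (AP/Char.lean): `1 + ee x + ee (2x) = ee x * (1 + 2 cos 2πx)`.
* `ff_le_exp`: `norm_three` divided by `3`.
* `ff_nonneg`, `ff_le_one`: `|1 + 2 cos| ≤ 3`.
* `charsum_eq`: as `charsum_le` in AP/Char.lean, but with equality: the norm of the sum over `t : Fin 3` of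
  `ee (-(θ cr n (j+1)) t)` is `3 ff (θ cr n (j+1))` (`ff` is even).
* `Ad_sub_le_WW`: as `Ad_sub_le` and `Ad_sub_le'` in AP/Equi.lean with `charsum_eq` in place of `charsum_le`
  (`sum_fractions_le` with `F = gg n`).
* `gg_le_GG`, `WW_le_W`: `3^n gg = norm ≤ 3^n GG (4/15) (n/2) (24 θ)` by `charsum_le`.
-/

open Finset

namespace Pool.Agent.Lib.MP_f75418_nt.FF

open Pool.Agent.Lib.MP_f75418_nt

theorem ff_nonneg (x : ℝ) : 0 ≤ ff x := by
  unfold ff
  positivity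

theorem ff_le_one (x : ℝ) : ff x ≤ 1 := by
  unfold ff
  have h1 := Real.cos_le_one (2 * Real.pi * x)
  have h2 := Real.neg_one_le_cos (2 * Real.pi * x)
  rw [div_le_one (by norm_num), abs_le]
  constructor <;> linarith

theorem ff_eq_norm (x : ℝ) : ‖1 + ee x + ee (2 * x)‖ = 3 * ff x := by
  have h1 : 1 + ee x + ee (2 * x) = ee x * ((1 + 2 * Real.cos (2 * Real.pi * x) : ℝ) : ℂ) := by
    have e2 : ee (2 * x) = ee x * ee x := by rw [← ee_add]; congr 1; ring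
    have e3 : ee x * ee (-x) = 1 := by rw [← ee_add, add_neg_cancel, ee_zero]
    have e4 : ((2 * Real.cos (2 * Real.pi * x) : ℝ) : ℂ) = ee x + ee (-x) := by
      push_cast
      rw [Complex.cos]
      unfold ee
      push_cast
      have : (-(2 * (Real.pi : ℂ) * x) * Complex.I) = 2 * Real.pi * (-x) * Complex.I := by ring
      rw [this]
      ring
    have e5 : ((1 + 2 * Real.cos (2 * Real.pi * x) : ℝ) : ℂ) = 1 + (ee x + ee (-x)) := by
      rw [← e4]
      push_cast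
      ring
    rw [e2, e5]
    linear_combination - e3
  rw [h1, norm_mul, norm_ee, one_mul, Complex.norm_real, Real.norm_eq_abs]
  unfold ff
  ring

theorem ff_le_exp (x : ℝ) : ff x ≤ Real.exp (-(8 / 3 * nn x ^ 2)) := by
  have h := norm_three x
  rw [ff_eq_norm] at h
  linarith

theorem gg_nonneg (n : ℕ) (θ : ℝ) : 0 ≤ gg n θ :=
  Finset.prod_nonneg fun _ _ => ff_nonneg _

theorem gg_le_one (n : ℕ) (θ : ℝ) : gg n θ ≤ 1 :=
  Finset.prod_le_one (fun _ _ => ff_nonneg _) fun _ _ => ff_le_one _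

private theorem a0_ff_neg (x : ℝ) : ff (-x) = ff x := by
  unfold ff
  rw [mul_neg, Real.cos_neg]

theorem charsum_eq (n : ℕ) (θ : ℝ) :
    ‖∑ b : Fin n → Fin 3, ee (θ * (av n b : ℕ))‖ = 3 ^ n * gg n θ := by
  obtain ⟨K, hK⟩ := av_cast n
  have h1 : ∑ b : Fin n → Fin 3, ee (θ * (av n b : ℕ)) =
      ee (θ * K) * ∏ j : Fin n, ∑ t : Fin 3, ee (-(θ * cr n (j + 1)) * (t : ℕ)) := by
    rw [Finset.prod_univ_sum, Finset.mul_sum, Fintype.piFinset_univ]
    refine Finset.sum_congr rfl fun b _ => ?_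
    rw [hK, ← ee_sum, ← ee_add]
    congr 1
    rw [mul_sub, Finset.mul_sum, sub_eq_add_neg, ← Finset.sum_neg_distrib]
    congr 1
    refine Finset.sum_congr rfl fun j _ => ?_
    ring
  rw [h1, norm_mul, norm_ee, one_mul, norm_prod]
  have h2 : ∀ j : Fin n, ‖∑ t : Fin 3, ee (-(θ * cr n (j + 1)) * (t : ℕ))‖ =
      3 * ff (θ * cr n (j + 1)) := by
    intro j
    have := ff_eq_norm (-(θ * cr n (j + 1)))
    rw [a0_ff_neg] at this
    rw [← this]
    congr 1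
    rw [Fin.sum_univ_three]
    simp only [Fin.val_zero, Fin.val_one, Fin.val_two]
    push_cast
    rw [mul_zero, ee_zero, mul_one, mul_comm (2 : ℝ)]
  rw [Finset.prod_congr rfl fun j _ => h2 j, Finset.prod_mul_distrib, Finset.prod_const,
    Finset.card_univ, Fintype.card_fin]
  rfl

theorem gg_le_GG (n : ℕ) (θ : ℝ) : gg n θ ≤ GG (4 / 15) (n / 2) (24 * θ) := by
  have h := charsum_le n θ
  rw [charsum_eq] at h
  exact le_of_mul_le_mul_left h (by positivity)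

theorem WW_nonneg (n q : ℕ) : 0 ≤ WW n q := Finset.sum_nonneg fun _ _ => gg_nonneg _ _

theorem WW_le_W (n q : ℕ) : WW n q ≤ W (n / 2) q := Finset.sum_le_sum fun _ _ => gg_le_GG _ _

theorem Ad_sub_le_WW {n d : ℕ} (hd : 0 < d) :
    |(Ad n d : ℝ) - 3 ^ n / d| ≤ 3 ^ n / d * ∑ q ∈ d.divisors.erase 1, WW n q := by
  have hd' : (0 : ℝ) < d := by exact_mod_cast hd
  have h1 : (d : ℂ) * (Ad n d : ℂ) = ∑ h ∈ Finset.range d, ∑ b : Fin n → Fin 3,
      ee ((h : ℝ) / d * (av n b : ℕ)) := by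
    rw [Finset.sum_comm]
    simp_rw [sum_ee hd]
    rw [← Finset.sum_filter, Finset.sum_const, nsmul_eq_mul, mul_comm]
    rfl
  have h2 : ∑ b : Fin n → Fin 3, ee (((0 : ℕ) : ℝ) / d * (av n b : ℕ)) = 3 ^ n := by
    simp [ee_zero]
  have h3 : (d : ℂ) * (Ad n d : ℂ) - 3 ^ n = ∑ h ∈ Finset.Ico 1 d, ∑ b : Fin n → Fin 3,
      ee ((h : ℝ) / d * (av n b : ℕ)) := by
    rw [h1, Finset.range_eq_Ico, Finset.sum_eq_sum_Ico_succ_bot hd, h2]
    ring
  have h4 : (d : ℝ) * |(Ad n d : ℝ) - 3 ^ n / d| = ‖(d : ℂ) * (Ad n d : ℂ) - 3 ^ n‖ := by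
    rw [← abs_of_pos hd', ← abs_mul, abs_of_pos hd']
    have e : (d : ℝ) * ((Ad n d : ℝ) - 3 ^ n / d) = d * Ad n d - 3 ^ n := by
      field_simp
    rw [e, ← Real.norm_eq_abs, ← Complex.norm_real]
    push_cast
    rfl
  have h5 : (d : ℝ) * |(Ad n d : ℝ) - 3 ^ n / d| ≤
      ∑ h ∈ Finset.Ico 1 d, 3 ^ n * gg n ((h : ℝ) / d) := by
    rw [h4, h3]
    refine (norm_sum_le _ _).trans (Finset.sum_le_sum fun h _ => ?_)
    exact (charsum_eq n _).le
  rw [← Finset.mul_sum] at h5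
  have h6 := sum_fractions_le hd (fun x => gg n x) (fun x => gg_nonneg n x)
  calc |(Ad n d : ℝ) - 3 ^ n / d| = (d * |(Ad n d : ℝ) - 3 ^ n / d|) / d := by field_simp
    _ ≤ (3 ^ n * ∑ h ∈ Finset.Ico 1 d, gg n ((h : ℝ) / d)) / d := by gcongr
    _ = 3 ^ n / d * ∑ h ∈ Finset.Ico 1 d, gg n ((h : ℝ) / d) := by ring
    _ ≤ _ := by
      refine mul_le_mul_of_nonneg_left ?_ (by positivity)
      exact h6

end Pool.Agent.Lib.MP_f75418_nt.FF
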