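import Pool.Agent.Lib.MP_f75418_nt.FF.LevelAll

/-!
# Antipalindromic numbers in residue classes
-/

open Finset

namespace Pool.Agent.Lib.MP_f75418_nt.FF

open Pool.Agent.Lib.MP_f75418_nt

theorem val_cons_zero (N : ℕ) (b : Fin N → Fin 3) :
    val (N + 1) (Fin.cons 0 b) = av N b + (3 ^ (2 * (N + 1)) - 1) := by
  unfold av val
  rw [Fin.sum_univ_succ, Fin.sum_univ_succ]
  simp only [Fin.cons_zero, Fin.cons_succ, Fin.val_zero, pow_zero, Nat.sub_zero]
  have h : 1 ≤ 3 ^ (2 * (N + 1)) := Nat.one_le_pow _ _ (by norm_num)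
  have h1 : ((1 : Fin 3) : ℕ) = 1 := rfl
  rw [h1, show 2 - 1 = 1 from rfl, zero_mul, one_mul, one_mul, zero_add]
  omega

theorem av_mod_three (N : ℕ) (b : Fin N → Fin 3) : av N b % 3 = 1 := by
  have h1 : ((av N b : ℕ) : ZMod 3) = ((1 : ℕ) : ZMod 3) := by
    unfold av
    rw [val_mod_three, Fin.cons_zero]
    rfl
  have h2 := (ZMod.natCast_eq_natCast_iff _ _ _).mp h1
  exact h2

theorem good_cons_zero (N : ℕ) (b : Fin N → Fin 3) : ∀ h0 : 0 < N + 1,
    (Fin.cons 0 b : Fin (N + 1) → Fin 3) ⟨0, h0⟩ ≠ 2 := by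
  intro h0
  have : (⟨0, h0⟩ : Fin (N + 1)) = 0 := rfl
  rw [this, Fin.cons_zero]
  decide

theorem antipals_split (N : ℕ) : antipals (N + 1) =
    (Finset.univ : Finset (Fin N → Fin 3)).image (av N) ∪
    (Finset.univ : Finset (Fin N → Fin 3)).image (fun b => av N b + (3 ^ (2 * (N + 1)) - 1)) := by
  classical
  ext m
  rw [Finset.mem_union, Finset.mem_image, Finset.mem_image]
  constructor
  · intro hm
    have hm2 := mem_antipals.mp hm
    obtain ⟨a, ha⟩ := exists_val hm2.1.1 hm2.1.2 hm2.2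
    have h0 : a 0 ≠ 2 := by
      intro h
      have := val_lt_of_two N a h
      rw [ha] at this
      exact absurd hm2.1.1 (by omega)
    by_cases h1 : a 0 = 0
    · right
      refine ⟨Fin.tail a, Finset.mem_univ _, ?_⟩
      rw [← val_cons_zero, ← h1, Fin.cons_self_tail, ha]
    · left
      have h2 : a 0 = 1 := by
        have h4 := (a 0).2
        have h5 : (a 0 : ℕ) ≠ 0 := fun h => h1 (Fin.ext h)
        have h6 : (a 0 : ℕ) ≠ 2 := fun h => h0 (Fin.ext h)
        apply Fin.ext
        change (a 0 : ℕ) = 1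
        omega
      refine ⟨Fin.tail a, Finset.mem_univ _, ?_⟩
      unfold av
      rw [← h2, Fin.cons_self_tail, ha]
  · rintro (⟨b, -, rfl⟩ | ⟨b, -, rfl⟩)
    · exact av_mem N b
    · rw [← val_cons_zero]
      exact mem_antipals.mpr ⟨⟨val_ge _ _ (good_cons_zero N b), val_lt _ _⟩,
        val_isAntipal _ _ (good_cons_zero N b)⟩

theorem modEq_iff_dvd_add {d : ℕ} (hd : 0 < d) (m a : ℕ) :
    m ≡ a [MOD d] ↔ d ∣ m + (d - a % d) := by
  have h1 : a % d < d := Nat.mod_lt _ hd
  have h2 : a + (d - a % d) = d * (a / d + 1) := by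
    have := Nat.div_add_mod a d
    rw [mul_add, mul_one]
    omega
  constructor
  · intro h
    have h3 : m + (d - a % d) ≡ a + (d - a % d) [MOD d] := Nat.ModEq.add_right _ h
    rw [h2] at h3
    exact (Nat.modEq_zero_iff_dvd.mp (h3.trans (Nat.modEq_zero_iff_dvd.mpr ⟨_, rfl⟩)))
  · intro h
    have h3 : m + (d - a % d) ≡ a + (d - a % d) [MOD d] := by
      rw [h2]
      exact (Nat.modEq_zero_iff_dvd.mpr h).trans (Nat.modEq_zero_iff_dvd.mpr ⟨_, rfl⟩).symm
    exact Nat.ModEq.add_right_cancel' _ h3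

/-- the antipalindromic numbers in a residue class -/
theorem card_class (N d : ℕ) (hd : 0 < d) (a : ℕ) :
    ((antipals (N + 1)).filter (fun m => m ≡ a [MOD d])).card =
      Ak N d (d - a % d) + Ak N d (3 ^ (2 * (N + 1)) - 1 + (d - a % d)) := by
  classical
  rw [antipals_split, Finset.filter_union, Finset.card_union_of_disjoint]
  · congr 1
    · rw [Finset.filter_image, Finset.card_image_of_injective _ (av_injective N)]
      unfold Ak
      congr 1
      ext b
      rw [Finset.mem_filter, Finset.mem_filter, modEq_iff_dvd_add hd]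
    · rw [Finset.filter_image, Finset.card_image_of_injective]
      · unfold Ak
        congr 1
        ext b
        rw [Finset.mem_filter, Finset.mem_filter, modEq_iff_dvd_add hd, add_assoc]
      · intro b c hbc
        exact av_injective N (Nat.add_right_cancel hbc)
  · rw [Finset.disjoint_left]
    intro m h1 h2
    rw [Finset.mem_filter, Finset.mem_image] at h1 h2
    obtain ⟨⟨b, -, rfl⟩, -⟩ := h1
    obtain ⟨⟨c, -, hc⟩, -⟩ := h2
    have e1 := av_mod_three N b
    have e2 := av_mod_three N c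
    have e3 : 3 ^ (2 * (N + 1)) % 3 = 0 := by
      rw [show 2 * (N + 1) = (2 * N + 1) + 1 by ring, pow_succ]
      exact Nat.mul_mod_left _ _
    have e4 : 1 ≤ 3 ^ (2 * (N + 1)) := Nat.one_le_pow _ _ (by norm_num)
    omega

theorem card_antipals (N : ℕ) : (antipals (N + 1)).card = 2 * 3 ^ N := by
  have h := card_class N 1 one_pos 0
  have h1 : (antipals (N + 1)).filter (fun m => m ≡ 0 [MOD 1]) = antipals (N + 1) := by
    rw [Finset.filter_true_of_mem]
    intro m _
    exact Nat.modEq_one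
  have h2 : ∀ k, Ak N 1 k = 3 ^ N := by
    intro k
    unfold Ak
    rw [Finset.filter_true_of_mem (fun b _ => one_dvd _), Finset.card_univ, Fintype.card_fun]
    simp
  rw [h1, h2, h2] at h
  rw [h]
  ring

end Pool.Agent.Lib.MP_f75418_nt.FF
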