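import Pool.Agent.Lib.MP_f75418_nt.FF.Defs

/-!
Row F0. Small facts on the parameters, used by many rows.
-/

open Finset

namespace Pool.Agent.Lib.MP_f75418_nt.FF

open Pool.Agent.Lib.MP_f75418_nt
open Pool.Agent.Lib.MP_45349e_nt.LS (P)
open Pool.Agent.Lib.MP_092512_nt.P3 (PP lg)

theorem mem_P {w y p : ℕ} : p ∈ P w y ↔ (w ≤ p ∧ p < y) ∧ p.Prime := by
  unfold MP_45349e_nt.LS.P
  rw [mem_filter, mem_Ico]

theorem lt_zz (N : ℕ) : (N : ℝ) ^ (4 / 19 : ℝ) < zz N := by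
  unfold zz
  push_cast
  exact Nat.lt_floor_add_one _

theorem zz_le (N : ℕ) : (zz N : ℝ) ≤ (N : ℝ) ^ (4 / 19 : ℝ) + 1 := by
  unfold zz
  push_cast
  have := Nat.floor_le (show (0 : ℝ) ≤ (N : ℝ) ^ (4 / 19 : ℝ) by positivity)
  linarith

theorem lt_yy (N : ℕ) : (N : ℝ) ^ (124 / 125 : ℝ) < yy N := by
  unfold yy
  push_cast
  exact Nat.lt_floor_add_one _

theorem P_eq_PP (N : ℕ) : P (zz N) (yy N) = PP N (4 / 19) (124 / 125) := by
  ext p
  rw [mem_P]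
  unfold MP_092512_nt.P3.PP zz yy
  rw [mem_filter, mem_Ioc]
  constructor
  · rintro ⟨⟨h1, h2⟩, h3⟩
    exact ⟨⟨by omega, by omega⟩, h3⟩
  · rintro ⟨⟨h1, h2⟩, h3⟩
    exact ⟨⟨by omega, by omega⟩, h3⟩

/-- the primes of the weights -/
theorem mem_zy {N p : ℕ} : p ∈ P (zz N) (yy N) ↔
    p.Prime ∧ (N : ℝ) ^ (4 / 19 : ℝ) < p ∧ (p : ℝ) ≤ (N : ℝ) ^ (124 / 125 : ℝ) := by
  rw [P_eq_PP, MP_092512_nt.P3.mem_PP]

theorem yp_le (N p : ℕ) : yp N p ≤ zz N := min_le_left _ _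

private theorem log_pos' {N : ℕ} (hN : 2 ≤ N) : 0 < Real.log N :=
  Real.log_pos (by exact_mod_cast (show 1 < N by omega))

theorem wt_nonneg {N p : ℕ} (hN : 2 ≤ N) (hp : p ∈ P (zz N) (yy N)) : 0 ≤ wt N p := by
  obtain ⟨h1, -, h2⟩ := mem_zy.mp hp
  have hl := log_pos' hN
  have hN0 : (0 : ℝ) < N := by exact_mod_cast (show 0 < N by omega)
  have hp0 : (0 : ℝ) < p := by exact_mod_cast h1.pos
  have h3 : Real.log p ≤ 124 / 125 * Real.log N := by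
    rw [← Real.log_rpow hN0]
    exact Real.log_le_log hp0 h2
  unfold wt
  rw [sub_nonneg, div_le_one (by positivity)]
  exact h3

theorem wt_le {N p : ℕ} (hN : 2 ≤ N) (hp : p ∈ P (zz N) (yy N)) : wt N p ≤ 464 / 589 := by
  obtain ⟨h1, h2, -⟩ := mem_zy.mp hp
  have hl := log_pos' hN
  have hN0 : (0 : ℝ) < N := by exact_mod_cast (show 0 < N by omega)
  have h3 : 4 / 19 * Real.log N ≤ Real.log p := by
    rw [← Real.log_rpow hN0]
    exact Real.log_le_log (by positivity) h2.le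
  unfold wt
  have h4 : (125 : ℝ) / 589 ≤ Real.log p / (124 / 125 * Real.log N) := by
    rw [le_div_iff₀ (by positivity)]
    nlinarith
  linarith

theorem wt_neg {N p : ℕ} (hN : 2 ≤ N) (hp : yy N ≤ p) : wt N p ≤ 0 := by
  have hl := log_pos' hN
  have hN0 : (0 : ℝ) < N := by exact_mod_cast (show 0 < N by omega)
  have h1 : (N : ℝ) ^ (124 / 125 : ℝ) ≤ p := by
    have h2 := lt_yy N
    have h3 : ((yy N : ℕ) : ℝ) ≤ p := by exact_mod_cast hp
    linarith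
  have h3 : 124 / 125 * Real.log N ≤ Real.log p := by
    rw [← Real.log_rpow hN0]
    exact Real.log_le_log (by positivity) h1
  unfold wt
  rw [sub_nonpos, one_le_div (by positivity)]
  exact h3

theorem zz_pow (N : ℕ) : N < zz N ^ 5 := by
  rcases Nat.eq_zero_or_pos N with rfl | hN
  · have : 0 < zz 0 := by unfold zz; omega
    positivity
  have hN1 : (1 : ℝ) ≤ N := by exact_mod_cast hN
  have h1 := lt_zz N
  have h2 : ((N : ℝ) ^ (4 / 19 : ℝ)) ^ 5 < (zz N : ℝ) ^ 5 :=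
    pow_lt_pow_left₀ h1 (by positivity) (by norm_num)
  have h3 : (N : ℝ) ≤ ((N : ℝ) ^ (4 / 19 : ℝ)) ^ 5 := by
    rw [← Real.rpow_natCast, ← Real.rpow_mul (by linarith)]
    conv_lhs => rw [← Real.rpow_one (N : ℝ)]
    apply Real.rpow_le_rpow_of_exponent_le hN1
    norm_num
  exact_mod_cast lt_of_le_of_lt h3 h2

theorem Nn_le (n : ℕ) : ((Nn n : ℕ) : ℝ) ≤ Real.exp (29 / 50 * n) :=
  Nat.floor_le (Real.exp_pos _).le

private theorem Nn_pos (n : ℕ) : 1 ≤ Nn n := by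
  unfold Nn
  apply Nat.le_floor
  push_cast
  apply Real.one_le_exp
  positivity

theorem log_Nn_le (n : ℕ) : Real.log (Nn n : ℕ) ≤ 29 / 50 * n := by
  have h1 : (0 : ℝ) < (Nn n : ℕ) := by exact_mod_cast Nn_pos n
  rw [Real.log_le_iff_le_exp h1]
  exact Nn_le n

theorem log_Nn_ge (n : ℕ) (hn : 2 ≤ n) : 29 / 50 * n - 1 ≤ Real.log (Nn n : ℕ) := by
  have h1 : (0 : ℝ) < (Nn n : ℕ) := by exact_mod_cast Nn_pos n
  rw [Real.le_log_iff_exp_le h1]
  have h2 : Real.exp (29 / 50 * n) < (Nn n : ℕ) + 1 := Nat.lt_floor_add_one _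
  have h3 : Real.exp (29 / 50 * n) = Real.exp (29 / 50 * n - 1) * Real.exp 1 := by
    rw [← Real.exp_add]
    congr 1
    ring
  have h4 := Real.add_one_le_exp (29 / 50 * n - 1 : ℝ)
  have h5 : (2 : ℝ) ≤ n := by exact_mod_cast hn
  have h6 := Real.exp_one_gt_d9
  have h7 : (1 : ℝ) ≤ Real.exp (29 / 50 * n - 1) := Real.one_le_exp (by linarith)
  by_contra hcon
  push Not at hcon
  nlinarith

/-- `Nn n → ∞` -/
theorem Nn_large (k : ℕ) : ∃ n₀ : ℕ, ∀ n : ℕ, n₀ ≤ n → k ≤ Nn n := by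
  refine ⟨2 * k, fun n hn => ?_⟩
  unfold Nn
  apply Nat.le_floor
  have h1 := Real.add_one_le_exp (29 / 50 * n : ℝ)
  have h2 : (2 : ℝ) * k ≤ n := by exact_mod_cast hn
  have h3 : (0 : ℝ) ≤ k := Nat.cast_nonneg k
  linarith

theorem log_Nn_half : ∃ n₀ : ℕ, ∀ n : ℕ, n₀ ≤ n → (n : ℝ) / 2 ≤ Real.log (Nn n : ℕ) := by
  refine ⟨13, fun n hn => ?_⟩
  have h1 := log_Nn_ge n (by omega)
  have h2 : (13 : ℝ) ≤ n := by exact_mod_cast hn
  linarith

end Pool.Agent.Lib.MP_f75418_nt.FF
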