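import Pool.Agent.Lib.MP_f75418_nt.FF.Defs
import Pool.Agent.Lib.MP_45349e_nt.LS.Diff
import Pool.Agent.Lib.MP_45349e_nt.LS.Liou

/-!
Row B3. The model: exactly the proof of `diff` (LS/Diff.lean) without the part about `ac` (`actA`): `modA`, `diff_sum`,
`diff_ev`, `V_le`, `liou`.
-/

open Finset Filter

namespace Pool.Agent.Lib.MP_f75418_nt.FF

open Pool.Agent.Lib.MP_f75418_nt
open Pool.Agent.Lib.MP_45349e_nt.LS (P Chn AA V am Hm Lsum)
open Pool.Agent.Lib.MP_45349e_nt.LS (modA diff_sum diff_ev V_le V_pos liou)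

theorem modelAA : ∃ C : ℝ, 0 < C ∧ ∃ K : ℕ, 1 ≤ K ∧ ∀ η : ℝ, 0 < η → η ≤ 1 / (8 * K) →
    ∃ N₁ : ℕ, ∀ N : ℕ, N₁ ≤ N → ∀ (z : ℕ) (l : List ℕ),
    Chn (ww η N) z 0 l → (l.prod : ℝ) < (N : ℝ) ^ (1 - η) →
    |AA (Finset.Icc 1 N) (am (ww η N)) Hm l - (N : ℝ) / l.prod * V (ww η N)| ≤
      C * (2 : ℝ) ^ (-(1 / (4 * η * K))) / η ^ 2 * (N / Real.log N) / l.prod := by
  obtain ⟨CL, hCL, hL⟩ := liou
  obtain ⟨K, hK, hM⟩ := modA
  obtain ⟨Cv, hCv, hV⟩ := V_le
  refine ⟨4 * (K : ℕ) * Cv + 2, by positivity, K, hK, fun η hη hηK => ?_⟩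
  have hK1R : (1 : ℝ) ≤ K := by exact_mod_cast hK
  have hK0 : (0 : ℝ) < K := by linarith
  have hηK' : η * K ≤ 1 / 8 := by
    rw [le_div_iff₀ (by positivity)] at hηK
    linarith
  have hη1 : η ≤ 1 := by nlinarith
  set E : ℝ := (2 : ℝ) ^ (-(1 / (4 * η * K))) with hE
  have hE0 : 0 < E := Real.rpow_pos_of_pos (by norm_num) _
  obtain ⟨N₁, hN₁⟩ := eventually_atTop.1
    (diff_ev η (E / η ^ 2) (K + 6) (128 * CL / η ^ 3) hη (by positivity))
  refine ⟨N₁, fun N hN z l hl hd => ?_⟩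
  obtain ⟨e1, e2, e3, e4, e5⟩ := hN₁ N hN
  have hN0 : 0 < N := by
    rcases Nat.eq_zero_or_pos N with h | h
    · subst h
      norm_num at e1
    · exact h
  have hNR : (0 : ℝ) < N := by exact_mod_cast hN0
  have hN1 : (1 : ℝ) ≤ N := by exact_mod_cast hN0
  set L := Real.log N with hLdef
  obtain ⟨w, hw⟩ : ∃ w, w = ⌈(N : ℝ) ^ (η ^ 2)⌉₊ := ⟨_, rfl⟩
  have hww : ww η N = w := by rw [hw]; rfl
  rw [hww] at hl ⊢
  have hwge : (N : ℝ) ^ (η ^ 2) ≤ w := by rw [hw]; exact Nat.le_ceil _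
  have hw2 : 2 ≤ w := by
    have : (2 : ℝ) ≤ w := le_trans e2 hwge
    exact_mod_cast this
  have hwle : (w : ℝ) ≤ (N : ℝ) ^ (2 * η ^ 2) := by
    have h1 : (w : ℝ) ≤ (N : ℝ) ^ (η ^ 2) + 1 := by
      rw [hw]
      exact (Nat.ceil_lt_add_one (by positivity)).le
    have h2 : (N : ℝ) ^ (2 * η ^ 2) = (N : ℝ) ^ (η ^ 2) * (N : ℝ) ^ (η ^ 2) := by
      rw [← Real.rpow_add hNR]
      congr 1
      ring
    rw [h2]
    nlinarith
  -- the parameter `b`
  set b : ℕ := ⌊1 / (4 * η * K)⌋₊ with hb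
  have hq : 2 ≤ 1 / (4 * η * K) := by
    rw [le_div_iff₀ (by positivity)]
    nlinarith
  have hb1 : 1 ≤ b := by
    rw [hb]
    apply Nat.le_floor
    push_cast
    linarith
  have hble : (b : ℝ) ≤ 1 / (4 * η * K) := Nat.floor_le (by positivity)
  have hbgt : 1 / (4 * η * K) < (b : ℝ) + 1 := Nat.lt_floor_add_one _
  have hhalf : (1 / 2 : ℝ) ^ b ≤ 2 * E := by
    have h1 : (1 / 2 : ℝ) ^ b = (2 : ℝ) ^ (-(b : ℝ)) := by
      rw [Real.rpow_neg (by norm_num), Real.rpow_natCast, one_div, inv_pow]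
    have h2 : 2 * E = (2 : ℝ) ^ (1 + -(1 / (4 * η * K))) := by
      rw [Real.rpow_add (by norm_num), Real.rpow_one]
    rw [h1, h2]
    apply Real.rpow_le_rpow_of_exponent_le (by norm_num)
    linarith
  have hpow : ∀ K' : ℕ, K' ≤ K → (w : ℝ) ^ (K' * b) ≤ (N : ℝ) ^ (η / 2) := by
    intro K' hK'
    have hw1 : (1 : ℝ) ≤ w := by exact_mod_cast (by omega : 1 ≤ w)
    calc (w : ℝ) ^ (K' * b) ≤ (w : ℝ) ^ (K * b) :=
          pow_le_pow_right₀ hw1 (Nat.mul_le_mul_right b hK')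
      _ ≤ ((N : ℝ) ^ (2 * η ^ 2)) ^ (K * b) := pow_le_pow_left₀ (by positivity) hwle _
      _ = (N : ℝ) ^ (2 * η ^ 2 * ((K * b : ℕ) : ℝ)) := by
          rw [← Real.rpow_natCast, ← Real.rpow_mul hNR.le]
      _ ≤ (N : ℝ) ^ (η / 2) := by
          apply Real.rpow_le_rpow_of_exponent_le hN1
          push_cast
          have h1 : (K : ℝ) * b ≤ 1 / (4 * η) := by
            calc (K : ℝ) * b ≤ K * (1 / (4 * η * K)) := mul_le_mul_of_nonneg_left hble hK0.le
              _ = 1 / (4 * η) := by field_simp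
          calc 2 * η ^ 2 * ((K : ℝ) * b) ≤ 2 * η ^ 2 * (1 / (4 * η)) :=
                mul_le_mul_of_nonneg_left h1 (by positivity)
            _ = η / 2 := by
                field_simp
                ring
  -- the modulus
  set d : ℕ := l.prod with hddef
  have hd0 : 0 < d := by
    rw [hddef]
    apply List.prod_pos
    intro p hp
    exact (hl.2 p hp).1.pos
  have hdR : (0 : ℝ) < d := by exact_mod_cast hd0
  have hT : (N : ℝ) ^ η ≤ (N : ℝ) / d := by
    rw [le_div_iff₀ hdR]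
    calc (N : ℝ) ^ η * d ≤ (N : ℝ) ^ η * (N : ℝ) ^ (1 - η) :=
          mul_le_mul_of_nonneg_left hd.le (by positivity)
      _ = N := by
          rw [← Real.rpow_add hNR]
          simp
  have hsum := diff_sum hCL hL N d (w ^ (K * b)) hd0 η hη hη1 e1 e3 hT
    (by push_cast; exact hpow K le_rfl)
  have hVw : V w ≤ Cv / (η ^ 2 * L) := by
    refine (hV w hw2).trans ?_
    apply div_le_div_of_nonneg_left hCv.le (by positivity)
    have h1 : Real.log ((N : ℝ) ^ (η ^ 2)) = η ^ 2 * L := Real.log_rpow hNR _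
    rw [← h1]
    exact Real.log_le_log (by positivity) hwge
  set T : ℝ := (N : ℝ) / d with hTdef
  have hT0 : 0 < T := by positivity
  have hV0 : 0 < V w := V_pos w
  have hmod := hM b hb1 w z N hw2 l hl
  rw [← hddef, ← hTdef] at hmod
  have hL0 : 0 < L := by linarith
  -- first term
  have t1 : 2 * K * (1 / 2 : ℝ) ^ b * (T * V w) ≤ 4 * K * Cv * (E / η ^ 2 * (T / L)) := by
    calc 2 * K * (1 / 2 : ℝ) ^ b * (T * V w)
        ≤ (2 * K) * (2 * E) * (T * (Cv / (η ^ 2 * L))) := by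
          apply mul_le_mul
          · exact mul_le_mul le_rfl hhalf (by positivity) (by positivity)
          · exact mul_le_mul_of_nonneg_left hVw hT0.le
          · positivity
          · positivity
      _ = 4 * K * Cv * (E / η ^ 2 * (T / L)) := by
          field_simp
          ring
  -- second term
  have t2 : 2 * (w : ℝ) ^ (K * b) + 1 ≤ E / η ^ 2 * (T / L) := by
    have s2 := hpow K le_rfl
    have s3 : (1 : ℝ) ≤ (N : ℝ) ^ (η / 2) := Real.one_le_rpow hN1 (by positivity)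
    have s4 : (K + 6) * (N : ℝ) ^ (η / 2) ≤ E / η ^ 2 * (T / L) := by
      rw [← mul_div_assoc, le_div_iff₀ hL0]
      have s5 : (N : ℝ) ^ η = (N : ℝ) ^ (η / 2) * (N : ℝ) ^ (η / 2) := by
        rw [← Real.rpow_add hNR]
        congr 1
        ring
      calc (K + 6) * (N : ℝ) ^ (η / 2) * L = ((K + 6) * L) * (N : ℝ) ^ (η / 2) := by ring
        _ ≤ (E / η ^ 2 * (N : ℝ) ^ (η / 2)) * (N : ℝ) ^ (η / 2) :=
            mul_le_mul_of_nonneg_right e4 (by positivity)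
        _ = E / η ^ 2 * (N : ℝ) ^ η := by rw [s5]; ring
        _ ≤ E / η ^ 2 * T := mul_le_mul_of_nonneg_left hT (by positivity)
    nlinarith
  -- third term
  have t3 : 128 * CL / η ^ 3 * T / L ^ 2 ≤ E / η ^ 2 * (T / L) := by
    have s1 : 128 * CL / η ^ 3 * T / L ^ 2 = (128 * CL / η ^ 3) * (T / L ^ 2) := by ring
    rw [s1]
    calc (128 * CL / η ^ 3) * (T / L ^ 2) ≤ (E / η ^ 2 * L) * (T / L ^ 2) :=
          mul_le_mul_of_nonneg_right e5 (by positivity)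
      _ = E / η ^ 2 * (T / L) := by
          field_simp
  have hfin : (4 * (K : ℝ) * Cv + 2) * E / η ^ 2 * (N / L) / d =
      4 * K * Cv * (E / η ^ 2 * (T / L)) + E / η ^ 2 * (T / L) + E / η ^ 2 * (T / L) := by
    rw [hTdef]
    field_simp
    ring
  rw [hfin]
  linarith

end Pool.Agent.Lib.MP_f75418_nt.FF
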