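import Pool.Agent.Lib.MP_f75418_nt.FF.Defs
import Pool.Agent.Lib.MP_f75418_nt.FF.AAA
import Pool.Agent.Lib.MP_f75418_nt.FF.ModelAA
import Pool.Agent.Lib.MP_f75418_nt.FF.Facts

/-!
Row B4. Comparison of the antipalindromic numbers with the model.

Let `K = max K₃ 12` (`K₃` of `modelAA`; `2^(-1/(4 η K₃)) ≤ 2^(-1/(4 η K))`), `b = max 1 ⌊1/(48 η)⌋` (note `η ≤ 1/(8K) ≤ 1/96`, so
`1/(48η) ≥ 2`): `(1/2)^b ≤ 2 * 2^(-1/(48η)) ≤ 2 * 2^(-1/(4ηK))`; for large `N`, `w = ww η N ≤ N^(2η²)`, so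
`w^(12b) ≤ N^(24 b η²) ≤ N^(η/2)`. Then `|AA_A - 3·3^n/N AA_M| ≤ |AA_A - 3·3^n/l.prod V w| + 3·3^n/N |AA_M - N/l.prod V w|`,
row B2 with `V w ≤ C/log w ≤ C/(η² log N)` (`V_le`, LS/Rough.lean) and `log N ≥ n/2` for `N = Nn n` and large `n`.
-/

open Finset

namespace Pool.Agent.Lib.MP_f75418_nt.FF

open Pool.Agent.Lib.MP_f75418_nt
open Pool.Agent.Lib.MP_45349e_nt.LS (P Chn AA V am Hm)

/-- conditions on the level -/
private theorem cmp_ev (η : ℝ) (hη : 0 < η) :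
    ∃ N₀ : ℕ, ∀ N : ℕ, N₀ ≤ N → 1 ≤ Real.log N ∧ 5 ≤ (N : ℝ) ^ (η ^ 2) := by
  have hcast : Filter.Tendsto (fun N : ℕ => (N : ℝ)) Filter.atTop Filter.atTop :=
    tendsto_natCast_atTop_atTop
  have h1 : ∀ᶠ N : ℕ in Filter.atTop, 1 ≤ Real.log N :=
    (Real.tendsto_log_atTop.comp hcast).eventually_ge_atTop 1
  have h2 : ∀ᶠ N : ℕ in Filter.atTop, 5 ≤ (N : ℝ) ^ (η ^ 2) :=
    ((tendsto_rpow_atTop (by positivity)).comp hcast).eventually_ge_atTop 5
  exact Filter.eventually_atTop.1 (h1.and h2)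

theorem cmp : ∃ C : ℝ, 0 < C ∧ ∃ K : ℕ, 1 ≤ K ∧ ∀ η : ℝ, 0 < η → η ≤ 1 / (8 * K) →
    ∃ b : ℕ, 1 ≤ b ∧ ∃ n₁ : ℕ, ∀ n : ℕ, n₁ ≤ n →
    ((ww η (Nn n) : ℕ) : ℝ) ^ (12 * b) ≤ ((Nn n : ℕ) : ℝ) ^ (η / 2) ∧
    ∀ (z : ℕ) (l : List ℕ), Chn (ww η (Nn n)) z 0 l →
      (l.prod : ℝ) < ((Nn n : ℕ) : ℝ) ^ (1 - η) →
      |AA Finset.univ (aA n (ww η (Nn n))) (HA n) l -
        3 * 3 ^ n / (Nn n : ℕ) * AA (Finset.Icc 1 (Nn n)) (am (ww η (Nn n))) Hm l| ≤
        C * (2 : ℝ) ^ (-(1 / (4 * η * K))) / η ^ 2 * (3 ^ n / n) / l.prod +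
          RA n (ww η (Nn n)) b l.prod := by
  obtain ⟨C₃, hC₃, K₃, hK₃, hM⟩ := modelAA
  obtain ⟨Cv, hCv, hV⟩ := Pool.Agent.Lib.MP_45349e_nt.LS.V_le
  have hK0 : 0 < Pool.Agent.Lib.GT.K₀ := mul_pos Pool.Agent.Lib.GT.κ₀_pos (Real.exp_pos _)
  refine ⟨12 * Pool.Agent.Lib.GT.K₀ * Cv + 6 * C₃, by positivity, max K₃ 12, by omega,
    fun η hη hηK => ?_⟩
  obtain ⟨K, hK⟩ : ∃ K, K = max K₃ 12 := ⟨_, rfl⟩
  rw [← hK] at hηK ⊢
  have hKa : K₃ ≤ K := by omega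
  have hKb : 12 ≤ K := by omega
  have hKR : (12 : ℝ) ≤ K := by exact_mod_cast hKb
  have hK3R : (1 : ℝ) ≤ K₃ := by exact_mod_cast hK₃
  have hK3K : (K₃ : ℝ) ≤ K := by exact_mod_cast hKa
  have hKpos : (0 : ℝ) < K := by linarith
  have hηK' : η * K ≤ 1 / 8 := by
    rw [le_div_iff₀ (by positivity)] at hηK
    linarith
  have hη96 : η * 96 ≤ 1 := by nlinarith
  have hη3 : η ≤ 1 / (8 * K₃) := by
    rw [le_div_iff₀ (by positivity)]
    nlinarith
  set E : ℝ := (2 : ℝ) ^ (-(1 / (4 * η * K))) with hE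
  have hE0 : 0 < E := Real.rpow_pos_of_pos (by norm_num) _
  have hE3 : (2 : ℝ) ^ (-(1 / (4 * η * K₃))) ≤ E := by
    rw [hE]
    apply Real.rpow_le_rpow_of_exponent_le (by norm_num)
    have : 1 / (4 * η * K) ≤ 1 / (4 * η * K₃) := by
      apply one_div_le_one_div_of_le (by positivity)
      exact mul_le_mul_of_nonneg_left hK3K (by positivity)
    linarith
  obtain ⟨N₁, hN₁⟩ := hM η hη hη3
  obtain ⟨N₂, hN₂⟩ := cmp_ev η hη
  obtain ⟨n₁, hn₁⟩ := Nn_large (max N₁ N₂)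
  obtain ⟨n₂, hn₂⟩ := log_Nn_half
  -- the parameter `b`
  obtain ⟨b, hb⟩ : ∃ b, b = ⌊1 / (48 * η)⌋₊ := ⟨_, rfl⟩
  have hq : 2 ≤ 1 / (48 * η) := by
    rw [le_div_iff₀ (by positivity)]
    nlinarith
  have hb1 : 1 ≤ b := by
    rw [hb]
    apply Nat.le_floor
    push_cast
    linarith
  have hble : (b : ℝ) ≤ 1 / (48 * η) := by rw [hb]; exact Nat.floor_le (by positivity)
  have hbgt : 1 / (48 * η) < (b : ℝ) + 1 := by rw [hb]; exact Nat.lt_floor_add_one _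
  have hhalf : (1 / 2 : ℝ) ^ b ≤ 2 * E := by
    have h1 : (1 / 2 : ℝ) ^ b = (2 : ℝ) ^ (-(b : ℝ)) := by
      rw [Real.rpow_neg (by norm_num), Real.rpow_natCast, one_div, inv_pow]
    have h2 : 2 * E = (2 : ℝ) ^ (1 + -(1 / (4 * η * K))) := by
      rw [Real.rpow_add (by norm_num), Real.rpow_one]
    have h3 : 1 / (4 * η * K) ≤ 1 / (48 * η) := by
      apply one_div_le_one_div_of_le (by positivity)
      nlinarith
    rw [h1, h2]
    apply Real.rpow_le_rpow_of_exponent_le (by norm_num)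
    linarith
  refine ⟨b, hb1, max n₁ (max n₂ 1), fun n hn => ?_⟩
  have hn1 : n₁ ≤ n := le_trans (le_max_left _ _) hn
  have hn2 : n₂ ≤ n := le_trans (le_trans (le_max_left _ _) (le_max_right _ _)) hn
  have hn3 : 1 ≤ n := le_trans (le_trans (le_max_right _ _) (le_max_right _ _)) hn
  obtain ⟨N, hN⟩ : ∃ N, N = Nn n := ⟨_, rfl⟩
  have hNge := hn₁ n hn1
  have hlogn := hn₂ n hn2
  rw [← hN] at hNge hlogn ⊢
  obtain ⟨e1, e2⟩ := hN₂ N (le_trans (le_max_right _ _) hNge)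
  have hN₁' := hN₁ N (le_trans (le_max_left _ _) hNge)
  have hN0 : 0 < N := by
    rcases Nat.eq_zero_or_pos N with h | h
    · rw [h] at e1
      norm_num at e1
    · exact h
  have hNR : (0 : ℝ) < N := by exact_mod_cast hN0
  have hN1 : (1 : ℝ) ≤ N := by exact_mod_cast hN0
  have hnR : (1 : ℝ) ≤ n := by exact_mod_cast hn3
  have hnR0 : (0 : ℝ) < n := by linarith
  set L := Real.log N with hLdef
  have hL0 : 0 < L := by linarith
  obtain ⟨w, hw⟩ : ∃ w, w = ww η N := ⟨_, rfl⟩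
  rw [← hw] at hN₁' ⊢
  have hwge : (N : ℝ) ^ (η ^ 2) ≤ w := by rw [hw, ww]; exact Nat.le_ceil _
  have hw5 : 5 ≤ w := by
    have : (5 : ℝ) ≤ w := le_trans e2 hwge
    exact_mod_cast this
  have hwle : (w : ℝ) ≤ (N : ℝ) ^ (2 * η ^ 2) := by
    have h1 : (w : ℝ) ≤ (N : ℝ) ^ (η ^ 2) + 1 := by
      rw [hw, ww]
      exact (Nat.ceil_lt_add_one (by positivity)).le
    have h2 : (N : ℝ) ^ (2 * η ^ 2) = (N : ℝ) ^ (η ^ 2) * (N : ℝ) ^ (η ^ 2) := by
      rw [← Real.rpow_add hNR]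
      congr 1
      ring
    rw [h2]
    nlinarith
  have hw1 : (1 : ℝ) ≤ w := by exact_mod_cast (by omega : 1 ≤ w)
  refine ⟨?_, fun z l hl hd => ?_⟩
  · calc (w : ℝ) ^ (12 * b) ≤ ((N : ℝ) ^ (2 * η ^ 2)) ^ (12 * b) :=
          pow_le_pow_left₀ (by positivity) hwle _
      _ = (N : ℝ) ^ (2 * η ^ 2 * ((12 * b : ℕ) : ℝ)) := by
          rw [← Real.rpow_natCast, ← Real.rpow_mul hNR.le]
      _ ≤ (N : ℝ) ^ (η / 2) := by
          apply Real.rpow_le_rpow_of_exponent_le hN1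
          push_cast
          have h1 : (12 : ℝ) * b ≤ 1 / (4 * η) := by
            calc (12 : ℝ) * b ≤ 12 * (1 / (48 * η)) := by linarith
              _ = 1 / (4 * η) := by
                field_simp
                norm_num
          calc 2 * η ^ 2 * (12 * b) ≤ 2 * η ^ 2 * (1 / (4 * η)) :=
                mul_le_mul_of_nonneg_left h1 (by positivity)
            _ = η / 2 := by
                field_simp
                ring
  · have hd0 : 0 < l.prod := by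
      apply List.prod_pos
      intro p hp
      exact (hl.2 p hp).1.pos
    have hm := hN₁' z l hl hd
    have ha := AAA n w z b hw5 hb1 l hl
    obtain ⟨d, hdd⟩ : ∃ d, d = l.prod := ⟨_, rfl⟩
    rw [← hdd] at hm ha hd0 ⊢
    have hdR : (0 : ℝ) < d := by exact_mod_cast hd0
    have hVw : V w ≤ Cv * 2 / (η ^ 2 * n) := by
      refine (hV w (by omega)).trans ?_
      have h1 : Real.log ((N : ℝ) ^ (η ^ 2)) = η ^ 2 * L := Real.log_rpow hNR _
      have h2 : η ^ 2 * L ≤ Real.log w := by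
        rw [← h1]
        exact Real.log_le_log (by positivity) hwge
      have h3 : η ^ 2 * (n / 2) ≤ Real.log w :=
        le_trans (mul_le_mul_of_nonneg_left hlogn (by positivity)) h2
      calc Cv / Real.log w ≤ Cv / (η ^ 2 * (n / 2)) :=
            div_le_div_of_nonneg_left hCv.le (by positivity) h3
        _ = Cv * 2 / (η ^ 2 * n) := by
            field_simp
    have hV0 : 0 < V w := Pool.Agent.Lib.MP_45349e_nt.LS.V_pos w
    obtain ⟨A1, hA1⟩ : ∃ x, x = AA Finset.univ (aA n w) (HA n) l := ⟨_, rfl⟩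
    obtain ⟨A2, hA2⟩ : ∃ x, x = AA (Finset.Icc 1 N) (am w) Hm l := ⟨_, rfl⟩
    obtain ⟨R, hR⟩ : ∃ x, x = RA n w b d := ⟨_, rfl⟩
    rw [← hA1, ← hR] at ha
    rw [← hA2] at hm
    rw [← hA1, ← hA2, ← hR]
    have h3n : (0 : ℝ) < 3 ^ n := by positivity
    -- the first part
    have t1 : Pool.Agent.Lib.GT.K₀ * (1 / 2) ^ b * (3 * 3 ^ n / d * V w) ≤
        12 * Pool.Agent.Lib.GT.K₀ * Cv * (E / η ^ 2 * (3 ^ n / n) / d) := by
      calc Pool.Agent.Lib.GT.K₀ * (1 / 2) ^ b * (3 * 3 ^ n / d * V w)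
          ≤ Pool.Agent.Lib.GT.K₀ * (2 * E) * (3 * 3 ^ n / d * (Cv * 2 / (η ^ 2 * n))) := by
            apply mul_le_mul
            · exact mul_le_mul_of_nonneg_left hhalf hK0.le
            · exact mul_le_mul_of_nonneg_left hVw (by positivity)
            · positivity
            · positivity
        _ = 12 * Pool.Agent.Lib.GT.K₀ * Cv * (E / η ^ 2 * (3 ^ n / n) / d) := by
            field_simp
            ring
    -- the second part
    have t2 : 3 * 3 ^ n / N * |A2 - (N : ℝ) / d * V w| ≤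
        6 * C₃ * (E / η ^ 2 * (3 ^ n / n) / d) := by
      have s1 : (N : ℝ) / L ≤ 2 * N / n := by
        rw [div_le_div_iff₀ hL0 hnR0]
        nlinarith
      have s2 : C₃ * (2 : ℝ) ^ (-(1 / (4 * η * K₃))) / η ^ 2 * (N / L) / d ≤
          C₃ * E / η ^ 2 * (2 * N / n) / d := by
        apply div_le_div_of_nonneg_right _ hdR.le
        apply mul_le_mul _ s1 (by positivity) (by positivity)
        apply div_le_div_of_nonneg_right _ (by positivity)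
        exact mul_le_mul_of_nonneg_left hE3 hC₃.le
      calc 3 * 3 ^ n / N * |A2 - (N : ℝ) / d * V w|
          ≤ 3 * 3 ^ n / N * (C₃ * E / η ^ 2 * (2 * N / n) / d) :=
            mul_le_mul_of_nonneg_left (hm.trans s2) (by positivity)
        _ = 6 * C₃ * (E / η ^ 2 * (3 ^ n / n) / d) := by
            field_simp
            ring
    have e : A1 - 3 * 3 ^ n / N * A2 =
        (A1 - 3 * 3 ^ n / d * V w) - 3 * 3 ^ n / N * (A2 - (N : ℝ) / d * V w) := by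
      field_simp
      ring
    rw [e]
    calc |(A1 - 3 * 3 ^ n / d * V w) - 3 * 3 ^ n / N * (A2 - (N : ℝ) / d * V w)|
        ≤ |A1 - 3 * 3 ^ n / d * V w| + |3 * 3 ^ n / N * (A2 - (N : ℝ) / d * V w)| :=
          abs_sub _ _
      _ = |A1 - 3 * 3 ^ n / d * V w| + 3 * 3 ^ n / N * |A2 - (N : ℝ) / d * V w| := by
          rw [abs_mul, abs_of_nonneg (show (0 : ℝ) ≤ 3 * 3 ^ n / N by positivity)]
      _ ≤ (12 * Pool.Agent.Lib.GT.K₀ * Cv * (E / η ^ 2 * (3 ^ n / n) / d) + R) +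
          6 * C₃ * (E / η ^ 2 * (3 ^ n / n) / d) := by
          linarith
      _ = (12 * Pool.Agent.Lib.GT.K₀ * Cv + 6 * C₃) * E / η ^ 2 * (3 ^ n / n) / d + R := by
          ring

end Pool.Agent.Lib.MP_f75418_nt.FF
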