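import Pool.Agent.Lib.MP_f75418_nt.FF.Defs
import Pool.Agent.Lib.MP_45349e_nt.LS.LinB

/-!
Row B1. `LU_bound` (LS/LinB.lean) with a second, arithmetic error term.

Same induction on the fuel as `LU_bound`. For the `R` part: the term `e = 1` is `R (l.prod)` (`l.prod < D0`, so
`1 ∈ Ee w y l.prod D0`), the chains `p :: l` give `R (p * l.prod * e')` with `e'` having all prime factors in `[w, p)`,
and `(p, e') ↦ p * e'` is injective into `Ee w y l.prod D0` minus `{1}` (`p` is the largest prime factor of `p * e'`; all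
prime factors of `p * e'` are in `[w, y)`; `l.prod * (p * e') < D0`). The set `Ee w y d D0` only depends on `d` through the
condition `d * e < D0`.
-/

open Finset

namespace Pool.Agent.Lib.MP_f75418_nt.FF

open Pool.Agent.Lib.MP_f75418_nt
open Pool.Agent.Lib.MP_45349e_nt.LS (P Chn LU)

private theorem mem_Ee {w y d : ℕ} {D0 : ℝ} {e : ℕ} : e ∈ Ee w y d D0 ↔
    (1 ≤ e ∧ e ≤ ⌊D0⌋₊) ∧ (∀ p, p.Prime → p ∣ e → w ≤ p ∧ p < y) ∧ (d : ℝ) * e < D0 := by
  simp only [Ee, Finset.mem_filter, Finset.mem_Icc]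

private theorem one_mem_Ee {w y d : ℕ} {D0 : ℝ} (hd : 1 ≤ d) (hdD : (d : ℝ) < D0) :
    1 ∈ Ee w y d D0 := by
  have h1 : (1 : ℝ) ≤ (d : ℝ) := by exact_mod_cast hd
  refine mem_Ee.2 ⟨⟨le_rfl, Nat.le_floor ?_⟩, fun p hp h => ?_, ?_⟩
  · rw [Nat.cast_one]; linarith
  · exact absurd (Nat.dvd_one.1 h) hp.one_lt.ne'
  · rw [Nat.cast_one, mul_one]; exact hdD

private theorem sumR_nonneg {w y d : ℕ} {D0 : ℝ} {R : ℕ → ℝ} (hR : ∀ d, 0 ≤ R d) :
    0 ≤ ∑ e ∈ Ee w y d D0, R (d * e) := Finset.sum_nonneg fun _ _ => hR _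

private theorem sumR_one {w y d : ℕ} {D0 : ℝ} {R : ℕ → ℝ} (hR : ∀ d, 0 ≤ R d)
    (hd : 1 ≤ d) (hdD : (d : ℝ) < D0) :
    R d ≤ ∑ e ∈ Ee w y d D0, R (d * e) := by
  have h := Finset.single_le_sum (f := fun e => R (d * e)) (fun e _ => hR (d * e))
    (one_mem_Ee (w := w) (y := y) hd hdD)
  simpa using h

private theorem sumR_step {w y d : ℕ} {D0 : ℝ} {R : ℕ → ℝ} (hR : ∀ d, 0 ≤ R d)
    (hd : 1 ≤ d) (hdD : (d : ℝ) < D0) :
    R d + ∑ p ∈ P w y, ∑ e ∈ Ee w p (p * d) D0, R (p * d * e) ≤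
      ∑ e ∈ Ee w y d D0, R (d * e) := by
  classical
  have hinj : Set.InjOn (fun x : (Σ _ : ℕ, ℕ) => x.1 * x.2)
      ↑((P w y).sigma fun p => Ee w p (p * d) D0) := by
    rintro ⟨p, e⟩ hx ⟨q, f⟩ hy hxy
    rw [Finset.mem_coe, Finset.mem_sigma] at hx hy
    obtain ⟨hp, he⟩ := hx
    obtain ⟨hq, hf⟩ := hy
    simp only [P, Finset.mem_filter, Finset.mem_Ico] at hp hq
    have he' := (mem_Ee.1 he).2.1
    have hf' := (mem_Ee.1 hf).2.1
    have hxy' : p * e = q * f := hxy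
    have hpq : p = q := by
      have h1 : p ∣ q * f := hxy' ▸ Dvd.intro _ rfl
      have h2 : q ∣ p * e := hxy' ▸ Dvd.intro _ rfl
      rcases hp.2.dvd_mul.1 h1 with h3 | h3
      · exact (Nat.prime_dvd_prime_iff_eq hp.2 hq.2).1 h3
      · rcases hq.2.dvd_mul.1 h2 with h4 | h4
        · exact ((Nat.prime_dvd_prime_iff_eq hq.2 hp.2).1 h4).symm
        · have h5 := (hf' p hp.2 h3).2
          have h6 := (he' q hq.2 h4).2
          exact absurd (lt_trans h5 h6) (lt_irrefl _)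
    subst hpq
    have hef : e = f := Nat.eq_of_mul_eq_mul_left hp.2.pos hxy'
    subst hef
    rfl
  have hsub : insert 1 (((P w y).sigma fun p => Ee w p (p * d) D0).image
      (fun x : (Σ _ : ℕ, ℕ) => x.1 * x.2)) ⊆ Ee w y d D0 := by
    intro a ha
    rw [Finset.mem_insert, Finset.mem_image] at ha
    rcases ha with ha | ⟨⟨p, e⟩, hx, ha⟩
    · rw [ha]; exact one_mem_Ee hd hdD
    · rw [Finset.mem_sigma] at hx
      obtain ⟨hp, he⟩ := hx
      simp only [P, Finset.mem_filter, Finset.mem_Ico] at hp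
      obtain ⟨he1, he2, he3⟩ := mem_Ee.1 he
      have ha' : p * e = a := ha
      rw [← ha']
      have hlt : (d : ℝ) * ((p * e : ℕ) : ℝ) < D0 := by
        have h1 : (d : ℝ) * ((p * e : ℕ) : ℝ) = ((p * d : ℕ) : ℝ) * e := by push_cast; ring
        rw [h1]; exact he3
      have hdR : (1 : ℝ) ≤ (d : ℝ) := by exact_mod_cast hd
      refine mem_Ee.2 ⟨⟨Nat.mul_pos hp.2.pos he1.1, Nat.le_floor ?_⟩, fun q hq h => ?_, hlt⟩
      · have h2 : (0 : ℝ) ≤ ((p * e : ℕ) : ℝ) := Nat.cast_nonneg _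
        nlinarith
      · rcases hq.dvd_mul.1 h with h3 | h3
        · rw [(Nat.prime_dvd_prime_iff_eq hq hp.2).1 h3]
          exact ⟨hp.1.1, hp.1.2⟩
        · have h4 := he2 q hq h3
          exact ⟨h4.1, h4.2.trans hp.1.2⟩
  have hnot : 1 ∉ ((P w y).sigma fun p => Ee w p (p * d) D0).image
      (fun x : (Σ _ : ℕ, ℕ) => x.1 * x.2) := by
    rw [Finset.mem_image]
    rintro ⟨⟨p, e⟩, hx, ha⟩
    rw [Finset.mem_sigma] at hx
    obtain ⟨hp, -⟩ := hx
    simp only [P, Finset.mem_filter, Finset.mem_Ico] at hp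
    have ha' : p * e = 1 := ha
    exact hp.2.one_lt.ne' (Nat.eq_one_of_mul_eq_one_right ha')
  have h1 : ∑ p ∈ P w y, ∑ e ∈ Ee w p (p * d) D0, R (p * d * e) =
      ∑ a ∈ ((P w y).sigma fun p => Ee w p (p * d) D0).image
        (fun x : (Σ _ : ℕ, ℕ) => x.1 * x.2), R (d * a) := by
    rw [Finset.sum_image hinj, Finset.sum_sigma]
    refine Finset.sum_congr rfl fun p _ => Finset.sum_congr rfl fun e _ => ?_
    have h2 : p * d * e = d * (p * e) := by ring
    rw [h2]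
  rw [h1]
  calc R d + ∑ a ∈ ((P w y).sigma fun p => Ee w p (p * d) D0).image
        (fun x : (Σ _ : ℕ, ℕ) => x.1 * x.2), R (d * a)
      = ∑ a ∈ insert 1 (((P w y).sigma fun p => Ee w p (p * d) D0).image
        (fun x : (Σ _ : ℕ, ℕ) => x.1 * x.2)), R (d * a) := by
        rw [Finset.sum_insert hnot, mul_one]
    _ ≤ _ := Finset.sum_le_sum_of_subset_of_nonneg hsub fun a _ _ => hR _

theorem LU_bound2 (w z : ℕ) (A : List ℕ → ℝ) (B D0 : ℝ) (hB : 0 ≤ B) (R : ℕ → ℝ)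
    (hR : ∀ d, 0 ≤ R d)
    (hA : ∀ l, Chn w z 0 l → (l.prod : ℝ) < D0 → |A l| ≤ B / l.prod + R l.prod) :
    ∀ (k : ℕ) (b : Bool) (D : ℝ) (y : ℕ) (l : List ℕ), Chn w z y l → y ≤ z → 1 < D →
      D * l.prod ≤ D0 → (if b then (y : ℝ) ≤ D else (y : ℝ) ^ 2 ≤ D) →
      |LU w A k b D y l| ≤ B / l.prod * ∏ p ∈ P w y, (1 + 1 / (p : ℝ)) +
        ∑ e ∈ Ee w y l.prod D0, R (l.prod * e) := by
  have hR1 : ∀ y, 1 ≤ ∏ p ∈ P w y, (1 + 1 / (p : ℝ)) := by
    intro y
    refine Finset.prod_induction _ (fun x : ℝ => 1 ≤ x)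
      (fun a b ha hb => one_le_mul_of_one_le_of_one_le ha hb) le_rfl fun p _ => ?_
    have : (0 : ℝ) ≤ 1 / (p : ℝ) := by positivity
    linarith
  have hlpN : ∀ y l, Chn w z y l → 0 < l.prod := by
    intro y l hl
    exact List.prod_pos fun p hp => (hl.2 p hp).1.pos
  have hlp : ∀ y l, Chn w z y l → (0 : ℝ) < (l.prod : ℝ) := by
    intro y l hl
    exact_mod_cast hlpN y l hl
  have hlt : ∀ (D : ℝ) (y : ℕ) (l : List ℕ), Chn w z y l → 1 < D → D * l.prod ≤ D0 →
      (l.prod : ℝ) < D0 := by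
    intro D y l hl hD hDl
    have h1 := hlp y l hl
    nlinarith
  have hA' : ∀ (D : ℝ) (y : ℕ) (l : List ℕ), Chn w z y l → 1 < D → D * l.prod ≤ D0 →
      |A l| ≤ B / l.prod + R l.prod := by
    intro D y l hl hD hDl
    exact hA l ⟨hl.1, fun p hp => ⟨(hl.2 p hp).1, (hl.2 p hp).2.1, Nat.zero_le _,
      (hl.2 p hp).2.2.2⟩⟩ (hlt D y l hl hD hDl)
  intro k
  induction k with
  | zero =>
    intro b D y l hl hy hD hDl _
    have h1 := hA' D y l hl hD hDl
    have h2 : 0 ≤ B / (l.prod : ℝ) := div_nonneg hB (hlp y l hl).le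
    have h3 := mul_le_mul_of_nonneg_left (hR1 y) h2
    rw [mul_one] at h3
    have h4 := sumR_one (w := w) (y := y) hR (hlpN y l hl) (hlt D y l hl hD hDl)
    exact h1.trans (add_le_add h3 h4)
  | succ k ih =>
    intro b D y l hl hy hD hDl hb
    have h1 := hA' D y l hl hD hDl
    have hpos := hlp y l hl
    have h2 : 0 ≤ B / (l.prod : ℝ) := div_nonneg hB hpos.le
    have hterm : ∀ p ∈ P w y, |(if b = true ∧ D ≤ (p : ℝ) ^ 3 then (0 : ℝ) else
        LU w A k (!b) (D / p) p (p :: l))| ≤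
        B / (l.prod : ℝ) * (1 / (p : ℝ) * ∏ q ∈ P w p, (1 + 1 / (q : ℝ))) +
          ∑ e ∈ Ee w p (p * l.prod) D0, R (p * l.prod * e) := by
      intro p hp
      simp only [P, Finset.mem_filter, Finset.mem_Ico] at hp
      obtain ⟨⟨hwp, hpy⟩, hpp⟩ := hp
      have hp1 : (1 : ℝ) < (p : ℝ) := by exact_mod_cast hpp.one_lt
      have hp0 : (0 : ℝ) < (p : ℝ) := by linarith
      have hpyR : (p : ℝ) < (y : ℝ) := by exact_mod_cast hpy
      by_cases hc : b = true ∧ D ≤ (p : ℝ) ^ 3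
      · rw [if_pos hc, abs_zero]
        refine add_nonneg (mul_nonneg h2 (mul_nonneg (by positivity) ?_)) (sumR_nonneg hR)
        have := hR1 p
        linarith
      · rw [if_neg hc]
        have hchn : Chn w z p (p :: l) := by
          refine ⟨List.pairwise_cons.2 ⟨fun q hq => lt_of_lt_of_le hpy (hl.2 q hq).2.2.1, hl.1⟩,
            fun q hq => ?_⟩
          rcases List.mem_cons.1 hq with hq | hq
          · rw [hq]; exact ⟨hpp, hwp, le_rfl, lt_of_lt_of_le hpy hy⟩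
          · exact ⟨(hl.2 q hq).1, (hl.2 q hq).2.1, hpy.le.trans (hl.2 q hq).2.2.1,
              (hl.2 q hq).2.2.2⟩
        have hprodN : (p :: l).prod = p * l.prod := List.prod_cons
        have hprod : (((p :: l).prod : ℕ) : ℝ) = (p : ℝ) * (l.prod : ℝ) := by
          rw [hprodN, Nat.cast_mul]
        have hDp : D / (p : ℝ) * (((p :: l).prod : ℕ) : ℝ) ≤ D0 := by
          rw [hprod]
          calc D / (p : ℝ) * ((p : ℝ) * (l.prod : ℝ)) = D * l.prod := by
                field_simp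
            _ ≤ D0 := hDl
        have hcond : 1 < D / (p : ℝ) ∧
            (if (!b) = true then (p : ℝ) ≤ D / p else (p : ℝ) ^ 2 ≤ D / p) := by
          cases b with
          | false =>
            simp only [Bool.not_false, if_true]
            have hb' : (y : ℝ) ^ 2 ≤ D := by simpa using hb
            rw [lt_div_iff₀ hp0, le_div_iff₀ hp0]
            constructor <;> nlinarith
          | true =>
            have hc' : ¬ D ≤ (p : ℝ) ^ 3 := fun h => hc ⟨rfl, h⟩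
            push Not at hc'
            simp only [Bool.not_true, Bool.false_eq_true, if_false]
            rw [lt_div_iff₀ hp0, le_div_iff₀ hp0]
            have h5 : (p : ℝ) ≤ (p : ℝ) ^ 3 := le_self_pow₀ hp1.le (by norm_num)
            constructor
            · linarith
            · nlinarith
        have h6 := ih (!b) (D / p) p (p :: l) hchn (hpy.le.trans hy) hcond.1 hDp hcond.2
        refine h6.trans (le_of_eq ?_)
        rw [hprod, hprodN]
        congr 1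
        field_simp
    have hLU : LU w A (k + 1) b D y l = A l - ∑ p ∈ P w y,
        if b = true ∧ D ≤ (p : ℝ) ^ 3 then 0 else LU w A k (!b) (D / p) p (p :: l) := rfl
    rw [hLU]
    have hstep := sumR_step (w := w) (y := y) hR (hlpN y l hl) (hlt D y l hl hD hDl)
    calc _ ≤ |A l| + |∑ p ∈ P w y,
          if b = true ∧ D ≤ (p : ℝ) ^ 3 then 0 else LU w A k (!b) (D / p) p (p :: l)| :=
          abs_sub _ _
      _ ≤ (B / l.prod + R l.prod) + ∑ p ∈ P w y,
          (B / (l.prod : ℝ) * (1 / (p : ℝ) * ∏ q ∈ P w p, (1 + 1 / (q : ℝ))) +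
            ∑ e ∈ Ee w p (p * l.prod) D0, R (p * l.prod * e)) :=
          add_le_add h1 ((Finset.abs_sum_le_sum_abs _ _).trans (Finset.sum_le_sum hterm))
      _ = B / l.prod * (1 + ∑ p ∈ P w y, 1 / (p : ℝ) * ∏ q ∈ P w p, (1 + 1 / (q : ℝ))) +
          (R l.prod + ∑ p ∈ P w y, ∑ e ∈ Ee w p (p * l.prod) D0, R (p * l.prod * e)) := by
          rw [Finset.sum_add_distrib, ← Finset.mul_sum]; ring
      _ ≤ B / l.prod * (1 + ∑ p ∈ P w y, 1 / (p : ℝ) * ∏ q ∈ P w p, (1 + 1 / (q : ℝ))) +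
          ∑ e ∈ Ee w y l.prod D0, R (l.prod * e) := by linarith
      _ = _ := by rw [MP_45349e_nt.LS.prod_step]

end Pool.Agent.Lib.MP_f75418_nt.FF
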