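import Pool.Agent.Lib.MP_f75418_nt.FF.Defs

/-!
Row B1r. Regrouping the remainders. `sumR_one`: `Ee w z 1 D0 ⊆ DD w ⌊D0⌋₊`. `sumR_p`: `(p, e) ↦ p * e` is injective (all prime
factors of `e` are `< f p ≤ p`, so `p` is the largest prime factor of `p * e`) into `DD w ⌊D0⌋₊` (`w ≤ z0 ≤ p`).
-/

open Finset

namespace Pool.Agent.Lib.MP_f75418_nt.FF

open Pool.Agent.Lib.MP_f75418_nt
open Pool.Agent.Lib.MP_45349e_nt.LS (P)

theorem sumR_one (w z : ℕ) (D0 : ℝ) (R : ℕ → ℝ) (hR : ∀ d, 0 ≤ R d) :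
    ∑ e ∈ Ee w z 1 D0, R (1 * e) ≤ ∑ d ∈ DD w ⌊D0⌋₊, R d := by
  classical
  simp only [one_mul]
  refine Finset.sum_le_sum_of_subset_of_nonneg ?_ (fun d _ _ => hR d)
  intro e he
  obtain ⟨h1, h2, _⟩ := Finset.mem_filter.1 he
  exact Finset.mem_filter.2 ⟨h1, fun p hp hpe => (h2 p hp hpe).1⟩

private theorem sumR_lt {f : ℕ → ℕ} {w : ℕ} {D0 : ℝ} {p p' e e' : ℕ} (hp : p.Prime)
    (hp' : p'.Prime) (hf : f p ≤ p) (he : e ∈ Ee w (f p) p D0) (h : p * e = p' * e') :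
    p' ≤ p := by
  classical
  obtain ⟨_, h2, _⟩ := Finset.mem_filter.1 he
  have hd : p' ∣ p * e := by rw [h]; exact Dvd.intro _ rfl
  rcases hp'.dvd_mul.1 hd with h3 | h3
  · exact Nat.le_of_dvd hp.pos h3
  · exact le_of_lt (lt_of_lt_of_le (h2 p' hp' h3).2 hf)

theorem sumR_p (w z0 y0 : ℕ) (D0 : ℝ) (R : ℕ → ℝ) (hR : ∀ d, 0 ≤ R d) (f : ℕ → ℕ)
    (hw : w ≤ z0) (hf : ∀ p ∈ P z0 y0, f p ≤ p) :
    ∑ p ∈ P z0 y0, ∑ e ∈ Ee w (f p) p D0, R (p * e) ≤ ∑ d ∈ DD w ⌊D0⌋₊, R d := by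
  classical
  rw [Finset.sum_sigma']
  have hP : ∀ p ∈ P z0 y0, p.Prime ∧ z0 ≤ p := by
    intro p hp
    simp only [P, Finset.mem_filter, Finset.mem_Ico] at hp
    exact ⟨hp.2, hp.1.1⟩
  have hinj : Set.InjOn (fun x : (_ : ℕ) × ℕ => x.1 * x.2)
      ((P z0 y0).sigma (fun p => Ee w (f p) p D0)) := by
    rintro ⟨p, e⟩ hx ⟨p', e'⟩ hx' h
    obtain ⟨h1, h2⟩ := Finset.mem_sigma.1 (Finset.mem_coe.1 hx)
    obtain ⟨h1', h2'⟩ := Finset.mem_sigma.1 (Finset.mem_coe.1 hx')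
    simp only at h1 h2 h1' h2' h
    have hp := hP p h1
    have hp' := hP p' h1'
    have e1 := sumR_lt hp.1 hp'.1 (hf p h1) h2 h
    have e2 := sumR_lt hp'.1 hp.1 (hf p' h1') h2' h.symm
    have e3 : p = p' := le_antisymm e2 e1
    subst e3
    have e4 : e = e' := Nat.eq_of_mul_eq_mul_left hp.1.pos h
    rw [e4]
  rw [← Finset.sum_image (f := R) (g := fun x : (_ : ℕ) × ℕ => x.1 * x.2) hinj]
  refine Finset.sum_le_sum_of_subset_of_nonneg ?_ (fun d _ _ => hR d)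
  intro d hd
  obtain ⟨⟨p, e⟩, hx, rfl⟩ := Finset.mem_image.1 hd
  obtain ⟨h1, h2⟩ := Finset.mem_sigma.1 hx
  simp only at h1 h2
  have hp := hP p h1
  obtain ⟨h3, h4, h5⟩ := Finset.mem_filter.1 h2
  rw [Finset.mem_Icc] at h3
  refine Finset.mem_filter.2 ⟨Finset.mem_Icc.2 ⟨Nat.mul_pos hp.1.pos h3.1, ?_⟩, ?_⟩
  · refine Nat.le_floor ?_
    push_cast
    exact h5.le
  · intro q hq hqd
    rcases hq.dvd_mul.1 hqd with h6 | h6
    · rw [(Nat.prime_dvd_prime_iff_eq hq hp.1).1 h6]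
      exact hw.trans hp.2
    · exact (h4 q hq h6).1

end Pool.Agent.Lib.MP_f75418_nt.FF
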