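import Pool.Agent.Lib.MP_f75418_nt.FF.Defs
import Pool.Agent.Lib.MP_f75418_nt.FF.LU2
import Pool.Agent.Lib.MP_f75418_nt.FF.SumR
import Pool.Agent.Lib.MP_45349e_nt.LS.Main1

/-!
Row B5a. `main1` (LS/Main1.lean) for an arbitrary sequence, with the factor `ρ` and the arithmetic error `R`: same proof,
`LU_bound2` (row B1, applied to `A l = AA I a H l - ρ AA_M l`, `LU_sub`, linearity in `ρ`: `LU w (ρ A) = ρ LU w A`) in place
of `LU_bound`; `sumR_one`. `SS_A = LU_A + RR_A ≥ LU_A`, `SS_M = LU_M + RR_M`, `RR_bound` + `modS` for `RR_M`.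
-/

open Finset

namespace Pool.Agent.Lib.MP_f75418_nt.FF

open Pool.Agent.Lib.MP_f75418_nt
open Pool.Agent.Lib.MP_45349e_nt.LS (P Chn AA SS V am Hm)

private theorem lowA_smul (w : ℕ) (ρ : ℝ) (A : List ℕ → ℝ) (k : ℕ) (b : Bool) (D : ℝ) (y : ℕ)
    (l : List ℕ) : MP_45349e_nt.LS.LU w (fun l => ρ * A l) k b D y l =
      ρ * MP_45349e_nt.LS.LU w A k b D y l := by
  induction k generalizing b D y l with
  | zero => rfl
  | succ k ih =>
    unfold MP_45349e_nt.LS.LU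
    have h : ∀ p ∈ P w y, (if b = true ∧ D ≤ (p : ℝ) ^ 3 then (0 : ℝ) else
        MP_45349e_nt.LS.LU w (fun l => ρ * A l) k (!b) (D / p) p (p :: l)) =
        ρ * (if b = true ∧ D ≤ (p : ℝ) ^ 3 then 0 else
          MP_45349e_nt.LS.LU w A k (!b) (D / p) p (p :: l)) := by
      intro p _
      by_cases hc : b = true ∧ D ≤ (p : ℝ) ^ 3
      · rw [if_pos hc, if_pos hc, mul_zero]
      · rw [if_neg hc, if_neg hc, ih]
    rw [Finset.sum_congr rfl h, ← Finset.mul_sum]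
    ring

theorem lowA : ∃ C : ℝ, 0 < C ∧ ∀ {ι : Type} (I : Finset ι) (a : ι → ℝ) (H : ℕ → ι → Prop),
    (∀ i ∈ I, 0 ≤ a i) → ∀ (w z N : ℕ) (D0 B ρ : ℝ) (R : ℕ → ℝ), 2 ≤ w → 1 ≤ N → 1 < D0 →
    (z : ℝ) ^ 2 ≤ D0 → 0 ≤ B → 0 ≤ ρ → (∀ d, 0 ≤ R d) →
    (∀ l, Chn w z 0 l → (l.prod : ℝ) < D0 →
      |AA I a H l - ρ * AA (Finset.Icc 1 N) (am w) Hm l| ≤ B / l.prod + R l.prod) →
    ρ * SS w (Finset.Icc 1 N) (am w) Hm [] z - B * ∏ p ∈ P w z, (1 + 1 / (p : ℝ)) -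
      ∑ d ∈ DD w ⌊D0⌋₊, R d -
      ρ * (2 * D0 * ∏ p ∈ P w z, (1 + 1 / (p : ℝ)) +
        C * N * ∑ j ∈ Finset.range (z + 1), MP_45349e_nt.LS.W w (N / D0) j false D0 z) ≤
      SS w I a H [] z := by
  obtain ⟨C, hC, hmod⟩ := MP_45349e_nt.LS.modS
  refine ⟨C, hC, ?_⟩
  intro ι I a H ha w z N D0 B ρ R hw hN hD0 hz hB hρ hR hA
  have hchn : Chn w z z [] := ⟨List.Pairwise.nil, fun p hp => by simp at hp⟩
  have h1 := MP_45349e_nt.LS.buch_LU w I a H z false D0 z [] le_rfl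
  have h2 := MP_45349e_nt.LS.buch_LU w (Finset.Icc 1 N) (am w) Hm z false D0 z [] le_rfl
  have h3 : 0 ≤ MP_45349e_nt.LS.RR w (SS w I a H) z false D0 z [] :=
    MP_45349e_nt.LS.RR_nonneg w _ (fun l y => MP_45349e_nt.LS.SS_nonneg w _ _ _ ha l y) _ _ _ _ _
  have h4 := MP_45349e_nt.LS.LU_sub w (AA I a H)
    (fun l => ρ * AA (Finset.Icc 1 N) (am w) Hm l) z false D0 z []
  have h4' := lowA_smul w ρ (AA (Finset.Icc 1 N) (am w) Hm) z false D0 z []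
  have h5 := LU_bound2 w z (fun l => AA I a H l - ρ * AA (Finset.Icc 1 N) (am w) Hm l)
    B D0 hB R hR hA z false D0 z [] hchn le_rfl hD0 (by simp) (by simpa using hz)
  have h6 := MP_45349e_nt.LS.RR_bound w z (SS w (Finset.Icc 1 N) (am w) Hm) D0 (N / D0) 2 (C * N)
    (by norm_num) (by positivity) (hmod w z N D0 hw hN (by linarith)) z false D0 z [] hchn le_rfl
    (by linarith) (by simp) (by simp) (by simpa using hz)
  have h8 := sumR_one w z D0 R hR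
  simp only [List.prod_nil, Nat.cast_one, div_one, if_false, Bool.false_eq_true, one_mul]
    at h1 h2 h5 h6 h8
  have h7 := (abs_le.mp h5).1
  rw [h4, h4'] at h7
  have h9 : MP_45349e_nt.LS.RR w (SS w (Finset.Icc 1 N) (am w) Hm) z false D0 z [] ≤
      2 * D0 * ∏ p ∈ P w z, (1 + 1 / (p : ℝ)) +
        C * N * ∑ j ∈ Finset.range (z + 1), MP_45349e_nt.LS.W w (N / D0) j false D0 z := by
    nlinarith [h6, hD0]
  have h10 := mul_le_mul_of_nonneg_left h9 hρ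
  have h11 : ρ * SS w (Finset.Icc 1 N) (am w) Hm [] z =
      ρ * MP_45349e_nt.LS.LU w (AA (Finset.Icc 1 N) (am w) Hm) z false D0 z [] +
      ρ * MP_45349e_nt.LS.RR w (SS w (Finset.Icc 1 N) (am w) Hm) z false D0 z [] := by
    rw [← mul_add, ← h2]
  linarith

end Pool.Agent.Lib.MP_f75418_nt.FF
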