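import Pool.Agent.Lib.MP_f75418_nt.FF.Defs

/-!
Row A3. Fourier expansion of `pp` and its average over `c/q` (all `c` modulo `q`).

`ph t x = ∑_{k ∈ [-2,2]} ka t k * ee (k x)` (as complex numbers; `cos 2πx = (ee x + ee (-x))/2`), so
`pp n τ θ = ∑_δ (∏_j ka (τ j) (δ j)) * ee (θ * Nd n δ)` (`Finset.prod_univ_sum`, `ee_sum`; `cr n (j+1)` is the cast of
`3 ^ (2 * (n + 1) - (j + 1)) - 3 ^ (j + 1)`), and `∑_{c < q} ee (c/q * m) = q` if `q ∣ m`, else `0`, for integers `m`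
(as `sum_ee` in AP/Equi.lean, which is for naturals; for negative `m` conjugate, or repeat the proof with `ee_int`).
-/

open Finset

namespace Pool.Agent.Lib.MP_f75418_nt.FF

open Pool.Agent.Lib.MP_f75418_nt

theorem ka_nonneg (t : Fin 3) (k : ℤ) : 0 ≤ ka t k := by
  unfold ka
  split_ifs <;> norm_num

private theorem four_Icc : Finset.Icc (-2 : ℤ) 2 = {-2, -1, 0, 1, 2} := by decide

theorem ka_sum (t : Fin 3) : ∑ k ∈ Finset.Icc (-2 : ℤ) 2, ka t k = 1 := by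
  rw [four_Icc]
  fin_cases t <;> norm_num [ka]

private theorem four_cos (x : ℝ) : ((Real.cos (2 * Real.pi * x) : ℝ) : ℂ) = (ee x + ee (-x)) / 2 := by
  push_cast
  rw [Complex.cos]
  unfold ee
  push_cast
  congr 3
  ring_nf

private theorem four_ph (t : Fin 3) (x : ℝ) :
    ((ph t x : ℝ) : ℂ) = ∑ k ∈ Finset.Icc (-2 : ℤ) 2, (ka t k : ℂ) * ee (k * x) := by
  have h2 : ((Real.cos (4 * Real.pi * x) : ℝ) : ℂ) = (ee (2 * x) + ee (-(2 * x))) / 2 := by
    rw [← four_cos]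
    congr 2
    ring
  rw [four_Icc]
  have h3 : ee (((-2 : ℤ) : ℝ) * x) = ee (-(2 * x)) := by congr 1; push_cast; ring
  have h4 : ee (((-1 : ℤ) : ℝ) * x) = ee (-x) := by congr 1; push_cast; ring
  have h5 : ee (((0 : ℤ) : ℝ) * x) = 1 := by rw [Int.cast_zero, zero_mul, ee_zero]
  have h6 : ee (((1 : ℤ) : ℝ) * x) = ee x := by rw [Int.cast_one, one_mul]
  have h7 : ee (((2 : ℤ) : ℝ) * x) = ee (2 * x) := by congr 1
  rw [Finset.sum_insert (by decide), Finset.sum_insert (by decide), Finset.sum_insert (by decide),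
    Finset.sum_insert (by decide), Finset.sum_singleton, h3, h4, h5, h6, h7]
  fin_cases t
  · norm_num [ph, ka]
  · have e1 : ph (((fun i => i) ⟨1, by decide⟩ : Fin 3)) x = ph1 x := by norm_num [ph]
    rw [e1]
    unfold ph1
    rw [Complex.ofReal_add, Complex.ofReal_add, Complex.ofReal_mul, Complex.ofReal_mul, h2, four_cos]
    norm_num [ka]
    ring
  · have e1 : ph (((fun i => i) ⟨2, by decide⟩ : Fin 3)) x = ph2 x := by norm_num [ph]
    rw [e1]
    unfold ph2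
    rw [Complex.ofReal_add, Complex.ofReal_mul, four_cos]
    norm_num [ka]
    ring

private theorem four_pp (n : ℕ) (τ : ℕ → Fin 3) (θ : ℝ) :
    ((pp n τ θ : ℝ) : ℂ) = ∑ δ ∈ Fintype.piFinset (fun _ : Fin n => Finset.Icc (-2 : ℤ) 2),
      ((∏ j : Fin n, ka (τ j) (δ j) : ℝ) : ℂ) * ee (θ * (Nd n δ : ℤ)) := by
  unfold pp
  rw [Complex.ofReal_prod, Finset.prod_congr rfl fun (j : Fin n) _ => four_ph (τ j) (θ * cr n (j + 1)),
    Finset.prod_univ_sum]
  refine Finset.sum_congr rfl fun δ _ => ?_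
  rw [Finset.prod_mul_distrib, Complex.ofReal_prod, ← ee_sum]
  congr 2
  unfold Nd
  rw [Int.cast_sum, Finset.mul_sum]
  refine Finset.sum_congr rfl fun j _ => ?_
  unfold cr
  push_cast
  ring

private theorem four_ee {q : ℕ} (hq : 0 < q) (m : ℤ) :
    ∑ c ∈ Finset.range q, ee ((c : ℝ) / q * (m : ℤ)) = if (q : ℤ) ∣ m then (q : ℂ) else 0 := by
  have hq' : (q : ℝ) ≠ 0 := by exact_mod_cast hq.ne'
  have hqz : (q : ℤ) ≠ 0 := by exact_mod_cast hq.ne'
  set r : ℕ := (m % q).toNat with hr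
  have hr' : (r : ℤ) = m % q := Int.toNat_of_nonneg (Int.emod_nonneg _ hqz)
  have h1 : ∀ c ∈ Finset.range q, ee ((c : ℝ) / q * (m : ℤ)) = ee ((c : ℝ) / q * (r : ℕ)) := by
    intro c _
    have h2 : (m : ℝ) = r + q * ((m / q : ℤ) : ℝ) := by
      have h3 : m = (r : ℤ) + q * (m / q) := by rw [hr', Int.emod_add_mul_ediv]
      exact_mod_cast h3
    have h3 : (c : ℝ) / q * (m : ℤ) = (c : ℝ) / q * (r : ℕ) + ((c * (m / q) : ℤ) : ℝ) := by
      rw [h2]
      push_cast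
      field_simp
    rw [h3, ee_add, ee_int, mul_one]
  rw [Finset.sum_congr rfl h1, sum_ee hq]
  have h4 : q ∣ r ↔ (q : ℤ) ∣ m := by
    rw [← Int.natCast_dvd_natCast, hr', Int.dvd_iff_emod_eq_zero, Int.dvd_iff_emod_eq_zero,
      Int.emod_emod_of_dvd _ dvd_rfl]
  simp only [h4]

theorem pp_avg (n q : ℕ) (hq : 0 < q) (τ : ℕ → Fin 3) :
    ∑ c ∈ Finset.range q, pp n τ ((c : ℝ) / q) =
      q * ∑ δ ∈ Fintype.piFinset (fun _ : Fin n => Finset.Icc (-2 : ℤ) 2),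
        (∏ j : Fin n, ka (τ j) (δ j)) * (if (q : ℤ) ∣ Nd n δ then 1 else 0) := by
  have h : ((∑ c ∈ Finset.range q, pp n τ ((c : ℝ) / q) : ℝ) : ℂ) =
      ((q * ∑ δ ∈ Fintype.piFinset (fun _ : Fin n => Finset.Icc (-2 : ℤ) 2),
        (∏ j : Fin n, ka (τ j) (δ j)) * (if (q : ℤ) ∣ Nd n δ then 1 else 0) : ℝ) : ℂ) := by
    rw [Complex.ofReal_sum, Finset.sum_congr rfl fun (c : ℕ) _ => four_pp n τ ((c : ℝ) / q),
      Finset.sum_comm, Complex.ofReal_mul, Complex.ofReal_sum, Finset.mul_sum]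
    refine Finset.sum_congr rfl fun δ _ => ?_
    rw [← Finset.mul_sum, four_ee hq, Complex.ofReal_mul]
    split_ifs
    · push_cast
      ring
    · push_cast
      ring
  exact_mod_cast h

end Pool.Agent.Lib.MP_f75418_nt.FF
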