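import Pool.Agent.Lib.MP_f75418_nt.FF.Defs

/-!
Row A4. The frequencies are not zero.

`Nd_ne_zero`: let `j` be the smallest index with `δ j ≠ 0`. All other terms, and `3^(2(n+1)-(j+1))`, are divisible by
`3^(j+2)` (exponents `2(n+1)-(i+1) ≥ n+2 ≥ j+3` as `i, j ≤ n-1`; `i + 1 ≥ j + 2` for `i > j`). So `Nd = 0` gives
`3^(j+2) ∣ δ j * 3^(j+1)`, `3 ∣ δ j`, and `|δ j| ≤ 2` gives `δ j = 0`.
`Nd_abs_le`: `|Nd| ≤ ∑_j 2 * 3^(2n+1-j) ≤ 2 * 3^(2n+1) * 3/2 = 9^(n+1)`.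
-/

open Finset

namespace Pool.Agent.Lib.MP_f75418_nt.FF

open Pool.Agent.Lib.MP_f75418_nt

private theorem nnz_aux (n : ℕ) (δ : Fin n → ℤ) (h : ∀ j, |δ j| ≤ 2) (h0 : Nd n δ = 0) :
    ∀ j : ℕ, ∀ hj : j < n, δ ⟨j, hj⟩ = 0 := by
  intro j
  induction j using Nat.strong_induction_on with
  | _ j ih =>
    intro hj
    have hdvd : (3 : ℤ) ^ (j + 2) ∣ Nd n δ + δ ⟨j, hj⟩ * 3 ^ (j + 1) := by
      unfold Nd
      rw [← Finset.add_sum_erase Finset.univ _ (Finset.mem_univ (⟨j, hj⟩ : Fin n))]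
      have e : ∀ s : ℤ, δ ⟨j, hj⟩ * (3 ^ (2 * (n + 1) - (j + 1)) - 3 ^ (j + 1)) + s +
          δ ⟨j, hj⟩ * 3 ^ (j + 1) = δ ⟨j, hj⟩ * 3 ^ (2 * (n + 1) - (j + 1)) + s := by
        intro s
        ring
      rw [e]
      refine dvd_add (Dvd.dvd.mul_left (pow_dvd_pow 3 (by omega)) _) ?_
      refine Finset.dvd_sum ?_
      intro i hi
      have hij : i ≠ ⟨j, hj⟩ := (Finset.mem_erase.mp hi).1
      have hij' : (i : ℕ) ≠ j := fun hh => hij (Fin.ext hh)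
      rcases lt_or_gt_of_ne hij' with hlt | hgt
      · have : δ i = 0 := ih i hlt i.2
        rw [this, zero_mul]
        exact dvd_zero _
      · have hi2 := i.2
        refine Dvd.dvd.mul_left (dvd_sub (pow_dvd_pow 3 (by omega)) (pow_dvd_pow 3 (by omega))) _
    rw [h0, zero_add, pow_succ' (3 : ℤ) (j + 1)] at hdvd
    have h3 : (3 : ℤ) ∣ δ ⟨j, hj⟩ :=
      Int.dvd_of_mul_dvd_mul_right (pow_ne_zero _ (by norm_num)) hdvd
    have hb := abs_le.mp (h ⟨j, hj⟩)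
    omega

theorem Nd_ne_zero (n : ℕ) (δ : Fin n → ℤ) (h : ∀ j, |δ j| ≤ 2) (h0 : δ ≠ 0) : Nd n δ ≠ 0 := by
  intro hN
  apply h0
  funext j
  exact nnz_aux n δ h hN j j.2

private theorem nnz_geo (n m : ℕ) (hm : m ≤ 2 * n + 2) :
    ∑ j ∈ Finset.range m, 2 * (3 : ℤ) ^ (2 * n + 1 - j) + 3 ^ (2 * n + 2 - m) = 3 ^ (2 * n + 2) := by
  induction m with
  | zero => simp
  | succ m ih =>
    have ih' := ih (by omega)
    rw [Finset.sum_range_succ, ← ih']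
    have e : 2 * n + 2 - m = (2 * n + 1 - m) + 1 := by omega
    have e2 : 2 * n + 2 - (m + 1) = 2 * n + 1 - m := by omega
    rw [e, e2, pow_succ]
    ring

theorem Nd_natAbs_le (n : ℕ) (δ : Fin n → ℤ) (h : ∀ j, |δ j| ≤ 2) :
    (Nd n δ).natAbs ≤ 9 ^ (n + 1) := by
  have h1 : |Nd n δ| ≤ 3 ^ (2 * n + 2) := by
    calc |Nd n δ| ≤ ∑ j : Fin n, |δ j * (3 ^ (2 * (n + 1) - ((j : ℕ) + 1)) - 3 ^ ((j : ℕ) + 1))| :=
          Finset.abs_sum_le_sum_abs _ _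
      _ ≤ ∑ j : Fin n, 2 * (3 : ℤ) ^ (2 * n + 1 - (j : ℕ)) := by
          refine Finset.sum_le_sum ?_
          intro j _
          have hj := j.2
          have e : 2 * (n + 1) - ((j : ℕ) + 1) = 2 * n + 1 - (j : ℕ) := by omega
          have hle : (3 : ℤ) ^ ((j : ℕ) + 1) ≤ 3 ^ (2 * n + 1 - (j : ℕ)) :=
            pow_le_pow_right₀ (by norm_num) (by omega)
          have hpos : (0 : ℤ) < 3 ^ ((j : ℕ) + 1) := by positivity
          rw [abs_mul, e]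
          have h2 : |(3 : ℤ) ^ (2 * n + 1 - (j : ℕ)) - 3 ^ ((j : ℕ) + 1)| ≤
              3 ^ (2 * n + 1 - (j : ℕ)) := by
            rw [abs_of_nonneg (by linarith)]
            linarith
          exact mul_le_mul (h j) h2 (abs_nonneg _) (by norm_num)
      _ = ∑ j ∈ Finset.range n, 2 * (3 : ℤ) ^ (2 * n + 1 - j) :=
          Fin.sum_univ_eq_sum_range (fun j => 2 * (3 : ℤ) ^ (2 * n + 1 - j)) n
      _ ≤ 3 ^ (2 * n + 2) := by
          have := nnz_geo n n (by omega)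
          have hpos : (0 : ℤ) < 3 ^ (2 * n + 2 - n) := by positivity
          linarith
  have h2 : ((Nd n δ).natAbs : ℤ) ≤ ((9 ^ (n + 1) : ℕ) : ℤ) := by
    rw [Int.natCast_natAbs]
    refine h1.trans (le_of_eq ?_)
    push_cast
    rw [show (9 : ℤ) = 3 ^ 2 by norm_num, ← pow_mul]
    congr 1
  exact_mod_cast h2

end Pool.Agent.Lib.MP_f75418_nt.FF
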