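import Pool.Agent.Lib.MP_f75418_nt.FF.Defs
import Pool.Agent.Lib.MP_f75418_nt.FF.Four
import Pool.Agent.Lib.MP_f75418_nt.FF.NNz

/-!
Row A5. The sum over a family of moduli: only `δ = 0` and the divisors of the other frequencies.

By `pp_avg` the left side is `∑_δ (∏_j ka (τ j) (δ j)) * #{q ∈ Q : q ∣ Nd n δ}`. `δ = 0`: `#Q * ∏_j ka (τ j) 0`. `δ ≠ 0`
(`|δ j| ≤ 2` as `δ` is in the `piFinset`): `Nd n δ ≠ 0`, the `q` divide `(Nd n δ).natAbs ≤ 9^(n+1)`, at most `T` of them; and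
`∑_δ ∏_j ka (τ j) (δ j) = ∏_j ∑_k ka (τ j) k = 1` (`Finset.prod_univ_sum`, `ka_sum`), `T ≥ 1 > 0` from `m = 1`.
-/

open Finset

namespace Pool.Agent.Lib.MP_f75418_nt.FF

open Pool.Agent.Lib.MP_f75418_nt

theorem fam_sum (n : ℕ) (τ : ℕ → Fin 3) (Q : Finset ℕ) (hQ : ∀ q ∈ Q, 0 < q) (T : ℝ)
    (hT : ∀ m : ℕ, m ≠ 0 → m ≤ 9 ^ (n + 1) → (m.divisors.card : ℝ) ≤ T) :
    ∑ q ∈ Q, 1 / (q : ℝ) * ∑ c ∈ Finset.range q, pp n τ ((c : ℝ) / q) ≤
      Q.card * ∏ j : Fin n, ka (τ j) 0 + T := by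
  classical
  have hT0 : 0 ≤ T :=
    le_trans (Nat.cast_nonneg _) (hT 1 one_ne_zero (Nat.one_le_pow _ _ (by norm_num)))
  set P := Fintype.piFinset (fun _ : Fin n => Finset.Icc (-2 : ℤ) 2) with hP
  have hprod : ∑ δ ∈ P, ∏ j : Fin n, ka (τ j) (δ j) = 1 := by
    rw [hP, ← Finset.prod_univ_sum]
    exact Finset.prod_eq_one fun j _ => ka_sum _
  have h1 : ∀ q ∈ Q, 1 / (q : ℝ) * ∑ c ∈ Finset.range q, pp n τ ((c : ℝ) / q) =
      ∑ δ ∈ P, (∏ j : Fin n, ka (τ j) (δ j)) * (if (q : ℤ) ∣ Nd n δ then (1 : ℝ) else 0) := by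
    intro q hq
    have hq0 : (q : ℝ) ≠ 0 := by exact_mod_cast (hQ q hq).ne'
    rw [pp_avg n q (hQ q hq) τ, ← mul_assoc, one_div_mul_cancel hq0, one_mul]
  rw [Finset.sum_congr rfl h1, Finset.sum_comm]
  have h2 : ∀ δ ∈ P, ∑ q ∈ Q, (∏ j : Fin n, ka (τ j) (δ j)) *
      (if (q : ℤ) ∣ Nd n δ then (1 : ℝ) else 0) ≤
      (∏ j : Fin n, ka (τ j) (δ j)) * T +
        (if δ = 0 then (Q.card : ℝ) * ∏ j : Fin n, ka (τ j) 0 else 0) := by
    intro δ hδ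
    have hδ' : ∀ j, |δ j| ≤ 2 := by
      intro j
      have := Fintype.mem_piFinset.mp hδ j
      rw [Finset.mem_Icc] at this
      exact abs_le.mpr this
    rw [← Finset.mul_sum]
    have hp : 0 ≤ ∏ j : Fin n, ka (τ j) (δ j) := Finset.prod_nonneg fun j _ => ka_nonneg _ _
    rw [Finset.sum_boole]
    by_cases h0 : δ = 0
    · rw [if_pos h0]
      have h3 : ((Q.filter (fun q : ℕ => (q : ℤ) ∣ Nd n δ)).card : ℝ) ≤ Q.card := by
        exact_mod_cast Finset.card_filter_le _ _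
      have h4 : (∏ j : Fin n, ka (τ j) (δ j)) = ∏ j : Fin n, ka (τ j) 0 := by rw [h0]; rfl
      rw [h4] at hp ⊢
      have h5 := mul_le_mul_of_nonneg_left h3 hp
      have h6 := mul_nonneg hp hT0
      linarith
    · rw [if_neg h0, add_zero]
      refine mul_le_mul_of_nonneg_left ?_ hp
      have hne : (Nd n δ).natAbs ≠ 0 := Int.natAbs_ne_zero.mpr (Nd_ne_zero n δ hδ' h0)
      refine le_trans ?_ (hT (Nd n δ).natAbs hne (Nd_natAbs_le n δ hδ'))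
      have h3 : (Q.filter (fun q : ℕ => (q : ℤ) ∣ Nd n δ)).card ≤ (Nd n δ).natAbs.divisors.card := by
        apply Finset.card_le_card
        intro q hq
        rw [Finset.mem_filter] at hq
        rw [Nat.mem_divisors]
        exact ⟨Int.natCast_dvd.mp hq.2, hne⟩
      exact_mod_cast h3
  refine (Finset.sum_le_sum h2).trans ?_
  rw [Finset.sum_add_distrib, ← Finset.sum_mul, hprod, one_mul, Finset.sum_ite_eq']
  have h0 : (0 : Fin n → ℤ) ∈ P := by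
    rw [hP, Fintype.mem_piFinset]
    intro j
    simp
  rw [if_pos h0]
  linarith

end Pool.Agent.Lib.MP_f75418_nt.FF
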