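import Pool.Agent.Lib.MP_f75418_nt.FF.Defs

/-!
Row A6. The constant coefficient. `ka 0 0 = 1`, `ka 1 0 = 17/50`, `ka 2 0 = 359/500`. The digits `j < 6VK` outside the
block `[6Vk, 6V(k+1))` are `6V(K-1)` digits and each class modulo `3` has `2V(K-1)` of them (the block and the whole range
start and end at multiples of `6V`). Suggestion: turn the product over `Fin n` into one over `range n`, split
`range (6VK)` into `K` blocks of `6V` and each block into `2V` triples `(3m, 3m+1, 3m+2)`: each triple outside block `k`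
contributes `17/50 * (359/500)^2`.
-/

open Finset

namespace Pool.Agent.Lib.MP_f75418_nt.FF

open Pool.Agent.Lib.MP_f75418_nt

private theorem p0_ico (i : ℕ) (hi : i < 3) (a m : ℕ) :
    ∏ j ∈ Finset.Ico (3 * a) (3 * (a + m)), (if j % 3 = i then (17 / 50 : ℝ) else 359 / 500) =
      ((17 / 50 : ℝ) * (359 / 500) ^ 2) ^ m := by
  induction m with
  | zero => simp
  | succ m ih =>
    have e : 3 * (a + (m + 1)) = 3 * (a + m) + 1 + 1 + 1 := by ring
    rw [e, Finset.prod_Ico_succ_top (by omega), Finset.prod_Ico_succ_top (by omega),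
      Finset.prod_Ico_succ_top (by omega), ih, pow_succ]
    have h0 : (3 * (a + m)) % 3 = 0 := by omega
    have h1 : (3 * (a + m) + 1) % 3 = 1 := by omega
    have h2 : (3 * (a + m) + 1 + 1) % 3 = 2 := by omega
    rw [h0, h1, h2]
    interval_cases i <;> norm_num <;> ring

theorem p0 (n V K k i : ℕ) (hk : k < K) (hi : i < 3) (hn : 6 * V * K ≤ n) :
    ∏ j : Fin n, ka (tau V K k i j) 0 =
      ((17 / 50 : ℝ) * (359 / 500) ^ 2) ^ (2 * V * (K - 1)) := by
  have h1 : 6 * V * k ≤ 6 * V * (k + 1) := Nat.mul_le_mul_left _ (by omega)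
  have h2 : 6 * V * (k + 1) ≤ 6 * V * K := Nat.mul_le_mul_left _ (by omega)
  rw [Fin.prod_univ_eq_prod_range (fun j => ka (tau V K k i j) 0) n, Finset.range_eq_Ico,
    ← Finset.prod_Ico_consecutive _ (Nat.zero_le _) hn,
    ← Finset.prod_Ico_consecutive _ (Nat.zero_le _) h2,
    ← Finset.prod_Ico_consecutive _ (Nat.zero_le _) h1]
  have k0 : ka 0 0 = 1 := by simp [ka]
  have k1 : ka 1 0 = 17 / 50 := by simp [ka]
  have k2 : ka 2 0 = 359 / 500 := by simp [ka]
  have hA : ∀ j, j < 6 * V * k →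
      ka (tau V K k i j) 0 = if j % 3 = i then (17 / 50 : ℝ) else 359 / 500 := by
    intro j hj
    have : ¬ (6 * V * K ≤ j ∨ (6 * V * k ≤ j ∧ j < 6 * V * (k + 1))) := by omega
    unfold tau
    rw [if_neg this]
    split_ifs <;> assumption
  have hC : ∀ j, 6 * V * (k + 1) ≤ j → j < 6 * V * K →
      ka (tau V K k i j) 0 = if j % 3 = i then (17 / 50 : ℝ) else 359 / 500 := by
    intro j hj hj'
    have : ¬ (6 * V * K ≤ j ∨ (6 * V * k ≤ j ∧ j < 6 * V * (k + 1))) := by omega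
    unfold tau
    rw [if_neg this]
    split_ifs <;> assumption
  have e1 : ∏ j ∈ Finset.Ico 0 (6 * V * k), ka (tau V K k i j) 0 =
      ((17 / 50 : ℝ) * (359 / 500) ^ 2) ^ (2 * V * k) := by
    rw [← p0_ico i hi 0 (2 * V * k)]
    have e : 3 * (0 + 2 * V * k) = 6 * V * k := by ring
    rw [e, Nat.mul_zero]
    exact Finset.prod_congr rfl fun j hj => hA j (Finset.mem_Ico.mp hj).2
  have e2 : ∏ j ∈ Finset.Ico (6 * V * k) (6 * V * (k + 1)), ka (tau V K k i j) 0 = 1 := by
    refine Finset.prod_eq_one fun j hj => ?_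
    rw [Finset.mem_Ico] at hj
    have : 6 * V * K ≤ j ∨ (6 * V * k ≤ j ∧ j < 6 * V * (k + 1)) := Or.inr hj
    unfold tau
    rw [if_pos this, k0]
  have e3 : ∏ j ∈ Finset.Ico (6 * V * (k + 1)) (6 * V * K), ka (tau V K k i j) 0 =
      ((17 / 50 : ℝ) * (359 / 500) ^ 2) ^ (2 * V * (K - 1 - k)) := by
    rw [← p0_ico i hi (2 * V * (k + 1)) (2 * V * (K - 1 - k))]
    have e : 3 * (2 * V * (k + 1)) = 6 * V * (k + 1) := by ring
    have e' : 3 * (2 * V * (k + 1) + 2 * V * (K - 1 - k)) = 6 * V * K := by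
      obtain ⟨c, rfl⟩ : ∃ c, K = k + 1 + c := ⟨K - (k + 1), by omega⟩
      rw [show k + 1 + c - 1 - k = c by omega]
      ring
    rw [e', e]
    exact Finset.prod_congr rfl fun j hj => hC j (Finset.mem_Ico.mp hj).1 (Finset.mem_Ico.mp hj).2
  have e4 : ∏ j ∈ Finset.Ico (6 * V * K) n, ka (tau V K k i j) 0 = 1 := by
    refine Finset.prod_eq_one fun j hj => ?_
    rw [Finset.mem_Ico] at hj
    have : 6 * V * K ≤ j ∨ (6 * V * k ≤ j ∧ j < 6 * V * (k + 1)) := Or.inl hj.1
    unfold tau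
    rw [if_pos this, k0]
  rw [e1, e2, e3, e4, mul_one, mul_one, ← pow_add]
  congr 1
  obtain ⟨c, rfl⟩ : ∃ c, K = k + 1 + c := ⟨K - (k + 1), by omega⟩
  rw [show k + 1 + c - 1 - k = c by omega, show k + 1 + c - 1 = k + c by omega]
  ring

end Pool.Agent.Lib.MP_f75418_nt.FF
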