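import Pool.Agent.Lib.MP_f75418_nt.FF.Defs

/-!
Row A1. The majorant of one digit.

With `u = cos 2πx ∈ [-1, 1]`: `ph1 x = 17/50 + 201/500 u + 129/500 (2u²-1) =: P1 u` (> 0 everywhere, discriminant
negative), `ph2 x = 359/500 + 141/500 u =: P2 u ≥ 0.436`, `ff x = |1 + 2u| / 3`. Two polynomial inequalities:
* `u ≥ -1/2`: `P1 u * P2 u ^ 2 - (1 + 2u)^3 / 27 = (1 - u) h(u)` and the Bernstein coefficients of the cubic `h`
  on each of `[-1/2, -1/4]`, `[-1/4, 0]`, `[0, 1]` are positive (smallest 1.9e-4, exact fractions);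
* `-1 ≤ u ≤ -1/2`: the quartic `P1 u * P2 u ^ 2 + (1 + 2u)^3 / 27` has positive Bernstein coefficients on `[-1, -1/2]`
  (smallest 2.2e-4).
(Bernstein form on `[a,b]`: `h = ∑ c_i C(3,i) (u-a)^i (b-u)^(3-i) / (b-a)^3`, each product nonnegative.)
-/

open Finset

namespace Pool.Agent.Lib.MP_f75418_nt.FF

open Pool.Agent.Lib.MP_f75418_nt

private theorem a1_bern3 {x y c0 c1 c2 c3 : ℝ} (hx : 0 ≤ x) (hy : 0 ≤ y) (h0 : 0 ≤ c0) (h1 : 0 ≤ c1)
    (h2 : 0 ≤ c2) (h3 : 0 ≤ c3) :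
    0 ≤ c0 * y ^ 3 + c1 * (x * y ^ 2) + c2 * (x ^ 2 * y) + c3 * x ^ 3 := by
  positivity

private theorem a1_bern4 {x y c0 c1 c2 c3 c4 : ℝ} (hx : 0 ≤ x) (hy : 0 ≤ y) (h0 : 0 ≤ c0)
    (h1 : 0 ≤ c1) (h2 : 0 ≤ c2) (h3 : 0 ≤ c3) (h4 : 0 ≤ c4) :
    0 ≤ c0 * y ^ 4 + c1 * (x * y ^ 3) + c2 * (x ^ 2 * y ^ 2) + c3 * (x ^ 3 * y) + c4 * x ^ 4 := by
  positivity

private theorem a1_h {u : ℝ} (h1 : -1 / 2 ≤ u) (h2 : u ≤ 1) :
    0 ≤ (17671267 / 3375000000 : ℝ) + (1979473 / 84375000 : ℝ) * u + (48390859 / 3375000000 : ℝ) * u ^ 2 + (-2564649 / 62500000 : ℝ) * u ^ 3 := by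
  rcases le_total u (-1 / 4) with h | h
  · have := a1_bern3 (x := u - (-1 / 2 : ℝ)) (y := (-1 / 4 : ℝ) - u)
      (c0 := (332929 / 2343750 : ℝ)) (c1 := (11207071 / 140625000 : ℝ))
      (c2 := (388112 / 10546875 : ℝ)) (c3 := (3923057 / 67500000 : ℝ))
      (by linarith) (by linarith) (by norm_num) (by norm_num) (by norm_num) (by norm_num)
    refine this.trans_eq ?_
    ring
  · rcases le_total u 0 with h' | h'
    · have := a1_bern3 (x := u - (-1 / 4 : ℝ)) (y := (0 / 1 : ℝ) - u)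
        (c0 := (3923057 / 67500000 : ℝ)) (c1 := (52636063 / 168750000 : ℝ))
        (c2 := (33219071 / 52734375 : ℝ)) (c3 := (17671267 / 52734375 : ℝ))
        (by linarith) (by linarith) (by norm_num) (by norm_num) (by norm_num) (by norm_num)
      refine this.trans_eq ?_
      ring
    · have := a1_bern3 (x := u - (0 / 1 : ℝ)) (y := (1 / 1 : ℝ) - u)
        (c0 := (17671267 / 3375000000 : ℝ)) (c1 := (132192721 / 3375000000 : ℝ))
        (c2 := (2309 / 30000 : ℝ)) (c3 := (1 / 500 : ℝ))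
        (by linarith) (by linarith) (by norm_num) (by norm_num) (by norm_num) (by norm_num)
      refine this.trans_eq ?_
      ring

private theorem a1_polyA {u : ℝ} (h1 : -1 / 2 ≤ u) (h2 : u ≤ 1) :
    (1 + 2 * u) ^ 3 / 27 ≤
      (17 / 50 + 201 / 500 * u + 129 / 500 * (2 * u ^ 2 - 1)) * (359 / 500 + 141 / 500 * u) ^ 2 := by
  have h3 := mul_nonneg (sub_nonneg.2 h2) (a1_h h1 h2)
  rw [← sub_nonneg]
  refine h3.trans_eq ?_
  ring

private theorem a1_polyB {u : ℝ} (h1 : -1 ≤ u) (h2 : u ≤ -1 / 2) :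
    -(1 + 2 * u) ^ 3 / 27 ≤
      (17 / 50 + 201 / 500 * u + 129 / 500 * (2 * u ^ 2 - 1)) * (359 / 500 + 141 / 500 * u) ^ 2 := by
  have h3 := a1_bern4 (x := u - (-1)) (y := (-1 / 2) - u)
    (c0 := (187126 / 52734375 : ℝ)) (c1 := (128615477 / 105468750 : ℝ))
    (c2 := (26474283 / 15625000 : ℝ)) (c3 := (30666973 / 62500000 : ℝ))
    (c4 := (332929 / 6250000 : ℝ)) (by linarith) (by linarith) (by norm_num) (by norm_num) (by norm_num)
    (by norm_num) (by norm_num)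
  rw [← sub_nonneg]
  refine h3.trans_eq ?_
  ring

private theorem a1_P1 (u : ℝ) : 0 ≤ 17 / 50 + 201 / 500 * u + 129 / 500 * (2 * u ^ 2 - 1) := by
  nlinarith [sq_nonneg (u + 201 / 516)]

private theorem a1_cos4 (x : ℝ) :
    Real.cos (4 * Real.pi * x) = 2 * Real.cos (2 * Real.pi * x) ^ 2 - 1 := by
  rw [← Real.cos_two_mul]
  congr 1
  ring

theorem ph_nonneg (t : Fin 3) (x : ℝ) : 0 ≤ ph t x := by
  have h1 := Real.neg_one_le_cos (2 * Real.pi * x)
  unfold ph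
  split_ifs
  · exact zero_le_one
  · unfold ph1
    rw [a1_cos4]
    exact a1_P1 _
  · unfold ph2
    linarith

theorem ff_cube (x : ℝ) : ff x ^ 3 ≤ ph1 x * ph2 x ^ 2 := by
  have h1 := Real.neg_one_le_cos (2 * Real.pi * x)
  have h2 := Real.cos_le_one (2 * Real.pi * x)
  unfold ff ph1 ph2
  rw [a1_cos4]
  generalize Real.cos (2 * Real.pi * x) = u at h1 h2
  rcases le_total (-1 / 2) u with h | h
  · rw [abs_of_nonneg (by linarith)]
    refine le_trans (le_of_eq ?_) (a1_polyA h h2)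
    ring
  · rw [abs_of_nonpos (by linarith)]
    refine le_trans (le_of_eq ?_) (a1_polyB h1 h)
    ring

end Pool.Agent.Lib.MP_f75418_nt.FF
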