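import Pool.Agent.Lib.MP_f75418_nt.FF.Defs
import Pool.Agent.Lib.MP_f75418_nt.FF.Base
import Pool.Agent.Lib.MP_f75418_nt.FF.Maj

/-!
Row A2. The product over the digits: block `k` is kept as an exponential, the other digits `< 6VK` are majorised.

Write `f_j = ff (θ cr n (j+1))`. Digits `j ≥ 6VK`: `f_j ≤ 1`, and `ph 0 = 1`. Digits of the block `[6Vk, 6V(k+1))`:
`f_j ≤ exp (-(8/3 nn (θ cr n (j+1))²))` and, for the pair `2i, 2i+1` (`3Vk ≤ i < 3V(k+1)`), as in the end of `charsum_le`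
(`pair_bound` with `x = θ cr n (2i+2)`, `y = 3^(2i+1) θ`, `cr_step`): the sum of the two squares is at least
`nn (9^i * 24θ)² / 10`; summed over `i = 3Vk + i'` this is `QQ (3V) (9^(3Vk) * (24θ)) / 10`, and `8/3/10 = 4/15`.
Other digits `< 6VK`: `f_j^3 ≤ ph1 * ph2^2 = ∏_{i<3} ph (tau V K k i j) (..)` (exactly one of `j % 3 = 0, 1, 2`), so with
`x_i` = product over these digits of `ph (tau V K k i j)`, `(∏ f_j)^3 ≤ x_0 x_1 x_2 ≤ ((x_0+x_1+x_2)/3)^3`
(`inner_le_nnorm..` not needed: `27abc ≤ (a+b+c)^3` by nlinarith for nonnegative reals, then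
`pow_le_pow_left_iff`), and `pp n (tau V K k i) θ` is exactly `x_i` (the other factors are `ph 0 = 1`).
-/

open Finset

namespace Pool.Agent.Lib.MP_f75418_nt.FF

open Pool.Agent.Lib.MP_f75418_nt

theorem pp_nonneg (n : ℕ) (τ : ℕ → Fin 3) (θ : ℝ) : 0 ≤ pp n τ θ :=
  Finset.prod_nonneg fun _ _ => ph_nonneg _ _

private lemma maj2_amgm {a b c : ℝ} (ha : 0 ≤ a) (hb : 0 ≤ b) (hc : 0 ≤ c) :
    a * b * c ≤ ((a + b + c) / 3) ^ 3 := by
  nlinarith [mul_nonneg ha (sq_nonneg (a - b)), mul_nonneg ha (sq_nonneg (a - c)),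
    mul_nonneg ha (sq_nonneg (b - c)), mul_nonneg hb (sq_nonneg (a - b)),
    mul_nonneg hb (sq_nonneg (a - c)), mul_nonneg hb (sq_nonneg (b - c)),
    mul_nonneg hc (sq_nonneg (a - b)), mul_nonneg hc (sq_nonneg (a - c)),
    mul_nonneg hc (sq_nonneg (b - c))]

/-- the part of one digit outside the block -/
private noncomputable def maj2_g (n V K k : ℕ) (θ : ℝ) (j : ℕ) : ℝ :=
  if 6 * V * K ≤ j ∨ (6 * V * k ≤ j ∧ j < 6 * V * (k + 1)) then 1 else ff (θ * cr n (j + 1))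

/-- the part of one digit in the block -/
private noncomputable def maj2_h (n V k : ℕ) (θ : ℝ) (j : ℕ) : ℝ :=
  if 6 * V * k ≤ j ∧ j < 6 * V * (k + 1) then 8 / 3 * nn (θ * cr n (j + 1)) ^ 2 else 0

private lemma maj2_g_nonneg (n V K k : ℕ) (θ : ℝ) (j : ℕ) : 0 ≤ maj2_g n V K k θ j := by
  unfold maj2_g
  split_ifs
  · exact zero_le_one
  · exact ff_nonneg _

private lemma maj2_h_nonneg (n V k : ℕ) (θ : ℝ) (j : ℕ) : 0 ≤ maj2_h n V k θ j := by
  unfold maj2_h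
  split_ifs
  · positivity
  · exact le_rfl

private lemma maj2_ff_le (n V K k : ℕ) (θ : ℝ) (j : ℕ) :
    ff (θ * cr n (j + 1)) ≤ Real.exp (-(maj2_h n V k θ j)) * maj2_g n V K k θ j := by
  unfold maj2_h maj2_g
  by_cases h2 : 6 * V * k ≤ j ∧ j < 6 * V * (k + 1)
  · rw [if_pos h2, if_pos (Or.inr h2), mul_one]
    exact ff_le_exp _
  · rw [if_neg h2, neg_zero, Real.exp_zero, one_mul]
    by_cases h1 : 6 * V * K ≤ j
    · rw [if_pos (Or.inl h1)]
      exact ff_le_one _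
    · rw [if_neg (by tauto)]

private lemma maj2_cube_le (n V K k : ℕ) (θ : ℝ) (j : ℕ) :
    maj2_g n V K k θ j ^ 3 ≤ ph (tau V K k 0 j) (θ * cr n (j + 1)) *
      ph (tau V K k 1 j) (θ * cr n (j + 1)) * ph (tau V K k 2 j) (θ * cr n (j + 1)) := by
  unfold maj2_g tau
  by_cases h : 6 * V * K ≤ j ∨ (6 * V * k ≤ j ∧ j < 6 * V * (k + 1))
  · simp only [if_pos h]
    simp [ph]
  · simp only [if_neg h]
    have h3 := ff_cube (θ * cr n (j + 1))
    have h4 : j % 3 = 0 ∨ j % 3 = 1 ∨ j % 3 = 2 := by omega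
    have p1 : ∀ x, ph 1 x = ph1 x := fun x => by simp [ph]
    have p2 : ∀ x, ph 2 x = ph2 x := fun x => by simp [ph]
    rcases h4 with h4 | h4 | h4 <;> simp only [h4] <;> norm_num <;> rw [p1, p2] <;>
      refine h3.trans (le_of_eq ?_) <;> ring

private lemma maj2_block (n V K k : ℕ) (hk : k < K) (hn : 6 * V * K ≤ n) (θ : ℝ) :
    4 / 15 * QQ (3 * V) (9 ^ (3 * V * k) * (24 * θ)) ≤
      ∑ j ∈ Finset.range n, maj2_h n V k θ j := by
  have hkn : 6 * V * (k + 1) ≤ n := le_trans (Nat.mul_le_mul_left _ hk) hn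
  have hkk : 6 * V * (k + 1) = 6 * V * k + 6 * V := by ring
  have h1 : ∑ j ∈ Finset.Ico (6 * V * k) (6 * V * (k + 1)), maj2_h n V k θ j ≤
      ∑ j ∈ Finset.range n, maj2_h n V k θ j := by
    refine Finset.sum_le_sum_of_subset_of_nonneg ?_ (fun j _ _ => maj2_h_nonneg _ _ _ _ _)
    intro j hj
    rw [Finset.mem_Ico] at hj
    rw [Finset.mem_range]
    omega
  refine le_trans ?_ h1
  rw [Finset.sum_Ico_eq_sum_range, hkk, Nat.add_sub_cancel_left]
  have h2 : ∑ j ∈ Finset.range (6 * V), maj2_h n V k θ (6 * V * k + j) =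
      ∑ j ∈ Finset.range (6 * V), 8 / 3 * nn (θ * cr n (6 * V * k + j + 1)) ^ 2 := by
    refine Finset.sum_congr rfl fun j hj => ?_
    rw [Finset.mem_range] at hj
    unfold maj2_h
    rw [if_pos ⟨by omega, by omega⟩]
  rw [h2]
  refine le_trans ?_ (sum_pairs_le (fun j => 8 / 3 * nn (θ * cr n (6 * V * k + j + 1)) ^ 2)
    (fun j => by positivity) (6 * V))
  have h6 : 6 * V / 2 = 3 * V := by omega
  rw [h6]
  unfold QQ
  rw [Finset.mul_sum]
  refine Finset.sum_le_sum fun i hi => ?_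
  have hi' := Finset.mem_range.mp hi
  have h3 := pair_bound (θ * cr n (6 * V * k + (2 * i + 1) + 1))
    (3 ^ (6 * V * k + 2 * i + 1) * θ)
  have h4 : 3 * (θ * cr n (6 * V * k + (2 * i + 1) + 1)) +
      8 * (3 ^ (6 * V * k + 2 * i + 1) * θ) = θ * cr n (6 * V * k + 2 * i + 1) := by
    rw [show 6 * V * k + (2 * i + 1) = 6 * V * k + 2 * i + 1 by ring,
      cr_step (n := n) (j := 6 * V * k + 2 * i + 1) (by omega)]
    ring
  have h5 : 8 * (3 ^ (6 * V * k + 2 * i + 1) * θ) =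
      9 ^ i * (9 ^ (3 * V * k) * (24 * θ)) := by
    have e1 : (3 : ℝ) ^ (6 * V * k + 2 * i + 1) = 9 ^ (3 * V * k) * 9 ^ i * 3 := by
      rw [show 6 * V * k + 2 * i + 1 = 2 * (3 * V * k + i) + 1 by ring, pow_succ, pow_mul,
        show (3 : ℝ) ^ 2 = 9 by norm_num, pow_add]
    rw [e1]
    ring
  rw [h4, h5] at h3
  linarith


theorem gg_le_block (n V K k : ℕ) (hk : k < K) (hn : 6 * V * K ≤ n) (θ : ℝ) :
    gg n θ ≤ Real.exp (-(4 / 15 * QQ (3 * V) (9 ^ (3 * V * k) * (24 * θ)))) *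
      ((pp n (tau V K k 0) θ + pp n (tau V K k 1) θ + pp n (tau V K k 2) θ) / 3) := by
  have h1 : gg n θ ≤ ∏ j : Fin n, (Real.exp (-(maj2_h n V k θ j)) * maj2_g n V K k θ j) :=
    Finset.prod_le_prod (fun _ _ => ff_nonneg _) fun j _ => maj2_ff_le n V K k θ j
  refine h1.trans ?_
  rw [Finset.prod_mul_distrib]
  have hg : 0 ≤ ∏ j : Fin n, maj2_g n V K k θ j :=
    Finset.prod_nonneg fun _ _ => maj2_g_nonneg _ _ _ _ _ _
  refine mul_le_mul ?_ ?_ hg (Real.exp_pos _).le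
  · rw [← Real.exp_sum, Real.exp_le_exp, Finset.sum_neg_distrib, neg_le_neg_iff,
      ← Finset.sum_range (fun j => maj2_h n V k θ j)]
    exact maj2_block n V K k hk hn θ
  · have h2 : (∏ j : Fin n, maj2_g n V K k θ j) ^ 3 ≤
        pp n (tau V K k 0) θ * pp n (tau V K k 1) θ * pp n (tau V K k 2) θ := by
      unfold pp
      rw [← Finset.prod_mul_distrib, ← Finset.prod_mul_distrib, ← Finset.prod_pow]
      exact Finset.prod_le_prod (fun _ _ => pow_nonneg (maj2_g_nonneg _ _ _ _ _ _) _)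
        fun j _ => maj2_cube_le n V K k θ j
    have h3 := h2.trans (maj2_amgm (pp_nonneg n (tau V K k 0) θ) (pp_nonneg n (tau V K k 1) θ)
      (pp_nonneg n (tau V K k 2) θ))
    have p0 := pp_nonneg n (tau V K k 0) θ
    have p1 := pp_nonneg n (tau V K k 1) θ
    have p2 := pp_nonneg n (tau V K k 2) θ
    exact le_of_pow_le_pow_left₀ (by norm_num) (by positivity) h3

end Pool.Agent.Lib.MP_f75418_nt.FF
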