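import Pool.Agent.Lib.MP_f75418_nt.FF.Defs
import Pool.Agent.Lib.MP_f75418_nt.FF.Maj2

/-!
Row A7. Structured or not. If `QQ (3VK) (24θ) ≤ s` then `1 ≤ exp (648 s) * GG 648 (3VK) (24θ)` and `gg ≤ 1`
(the other term is `≥ 0`). Otherwise by `QQ_mul` (`QQ (K * (3V)) = ∑_{k<K} QQ (3V) (9^(k*(3V)) ..)`) some `k < K` has
`QQ (3V) (9^(3Vk) * (24θ)) ≥ s/K`, and `gg_le_block` for this `k` gives the claim (`1/3 ≤ 1`, all `pp ≥ 0`).
-/

open Finset

namespace Pool.Agent.Lib.MP_f75418_nt.FF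

open Pool.Agent.Lib.MP_f75418_nt

theorem gg_split (n V K : ℕ) (hK : 0 < K) (hn : 6 * V * K ≤ n) (s : ℝ) (hs : 0 ≤ s) (θ : ℝ) :
    gg n θ ≤ Real.exp (-(4 / 15 * (s / K))) * ∑ k ∈ Finset.range K,
        (pp n (tau V K k 0) θ + pp n (tau V K k 1) θ + pp n (tau V K k 2) θ) +
      Real.exp (648 * s) * GG 648 (3 * V * K) (24 * θ) := by
  have hpp : ∀ k, 0 ≤ pp n (tau V K k 0) θ + pp n (tau V K k 1) θ + pp n (tau V K k 2) θ :=
    fun k => add_nonneg (add_nonneg (pp_nonneg _ _ _) (pp_nonneg _ _ _)) (pp_nonneg _ _ _)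
  have hsum0 : 0 ≤ ∑ k ∈ Finset.range K,
      (pp n (tau V K k 0) θ + pp n (tau V K k 1) θ + pp n (tau V K k 2) θ) :=
    Finset.sum_nonneg fun k _ => hpp k
  by_cases hQ : QQ (3 * V * K) (24 * θ) ≤ s
  · have h1 : 1 ≤ Real.exp (648 * s) * GG 648 (3 * V * K) (24 * θ) := by
      unfold GG
      rw [← Real.exp_add]
      apply Real.one_le_exp
      linarith
    have h2 := gg_le_one n θ
    have h3 : 0 ≤ Real.exp (-(4 / 15 * (s / K))) * ∑ k ∈ Finset.range K,
        (pp n (tau V K k 0) θ + pp n (tau V K k 1) θ + pp n (tau V K k 2) θ) :=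
      mul_nonneg (Real.exp_pos _).le hsum0
    linarith
  · push Not at hQ
    have hKr : (0 : ℝ) < K := by exact_mod_cast hK
    have h1 : ∃ k ∈ Finset.range K, s / K ≤ QQ (3 * V) (9 ^ (3 * V * k) * (24 * θ)) := by
      by_contra hcon
      push Not at hcon
      have h2 : QQ (3 * V * K) (24 * θ) =
          ∑ k ∈ Finset.range K, QQ (3 * V) (9 ^ (3 * V * k) * (24 * θ)) := by
        rw [mul_comm (3 * V) K, QQ_mul]
        refine Finset.sum_congr rfl fun k _ => ?_
        rw [mul_comm k (3 * V)]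
      have h3 : ∑ k ∈ Finset.range K, QQ (3 * V) (9 ^ (3 * V * k) * (24 * θ)) <
          ∑ _k ∈ Finset.range K, s / K :=
        Finset.sum_lt_sum_of_nonempty (Finset.nonempty_range_iff.mpr hK.ne') hcon
      rw [Finset.sum_const, Finset.card_range, nsmul_eq_mul, mul_div_cancel₀ _ hKr.ne'] at h3
      linarith
    obtain ⟨k, hk, hks⟩ := h1
    have hk' := Finset.mem_range.mp hk
    have h2 := gg_le_block n V K k hk' hn θ
    have h3 : Real.exp (-(4 / 15 * QQ (3 * V) (9 ^ (3 * V * k) * (24 * θ)))) ≤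
        Real.exp (-(4 / 15 * (s / K))) := by
      rw [Real.exp_le_exp]
      linarith
    have h4 : (pp n (tau V K k 0) θ + pp n (tau V K k 1) θ + pp n (tau V K k 2) θ) / 3 ≤
        ∑ k ∈ Finset.range K,
          (pp n (tau V K k 0) θ + pp n (tau V K k 1) θ + pp n (tau V K k 2) θ) := by
      have h5 := Finset.single_le_sum (f := fun k =>
        pp n (tau V K k 0) θ + pp n (tau V K k 1) θ + pp n (tau V K k 2) θ) (fun k _ => hpp k) hk
      have h6 := hpp k
      linarith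
    have h5 : 0 ≤ Real.exp (648 * s) * GG 648 (3 * V * K) (24 * θ) :=
      mul_nonneg (Real.exp_pos _).le (GG_pos _ _ _).le
    have h6 := mul_le_mul h3 h4 (div_nonneg (hpp k) (by norm_num)) (Real.exp_pos _).le
    linarith

end Pool.Agent.Lib.MP_f75418_nt.FF
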