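import Pool.Agent.Lib.MP_f75418_nt.FF.Defs
import Pool.Agent.Lib.MP_f75418_nt.FF.Base
import Pool.Agent.Lib.MP_f75418_nt.FF.Fam
import Pool.Agent.Lib.MP_f75418_nt.FF.P0
import Pool.Agent.Lib.MP_f75418_nt.FF.Split
import Pool.Agent.Lib.MP_bc6037_nt.DivBound

/-!
Row A10. The main estimate for a family of moduli.

`core_abs`: sum `gg_split` over `c ∈ red q` with weight `1/q` and over `q ∈ Q`; in the first term enlarge `red q` to
`range q` (`pp ≥ 0`) and use `fam_sum`, `p0` for each `k < K`, `i < 3`.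
`core`: `K = 2000`, `V = n/12000` (natural division; `6VK = 12000 V ≤ n`, `3VK = Mm n`), `s = n/10^8`.
`(17/50 (359/500)^2)^(2V*1999)`: `ln (17/50 (359/500)^2) ≤ -1.7413`, `V ≥ n/12000 - 1`, so the power is at most
`C exp (-(0.58014) n)` and times `#Q ≤ exp (29/50 n)` at most `C` (even `C exp (-n/10^4)`); `T = C (9^(n+1))^(10^(-13))`
(`Pool.Agent.Lib.MP_bc6037_nt.card_divisors_le_rpow`) `≤ C' exp (2.3e-13 n)`; the saving is
`exp (-(4/15)(n/10^8)/2000) = exp (-1.33e-12 n)`. Together `≤ C exp (-n/10^12)`.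
(`ln (17/50 (359/500)^2) ≤ -1.7413`: `17/50 * (359/500)^2 = 0.17527816 ≤ exp (-1.7413)`; e.g. compare powers:
`0.17527816^(10) ≤ ...` or `exp 1.7413 ≤ 1/0.17527816 = 5.70522` by `Real.exp_bound'` after dividing the exponent; any
proof of a constant `≥ 1.7410` suffices: `1.7410 * 3998/12000 = 0.58004`.)
-/

open Finset

namespace Pool.Agent.Lib.MP_f75418_nt.FF

open Pool.Agent.Lib.MP_f75418_nt

theorem core_abs (n V K : ℕ) (hK : 0 < K) (hn : 6 * V * K ≤ n) (s : ℝ) (hs : 0 ≤ s)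
    (Q : Finset ℕ) (hQ : ∀ q ∈ Q, 0 < q) (T : ℝ)
    (hT : ∀ m : ℕ, m ≠ 0 → m ≤ 9 ^ (n + 1) → (m.divisors.card : ℝ) ≤ T) :
    ∑ q ∈ Q, 1 / (q : ℝ) * WW n q ≤
      Real.exp (-(4 / 15 * (s / K))) *
        (3 * K * (Q.card * ((17 / 50 : ℝ) * (359 / 500) ^ 2) ^ (2 * V * (K - 1)) + T)) +
      Real.exp (648 * s) * ∑ q ∈ Q, 1 / (q : ℝ) * WG (3 * V * K) q := by
  have hE := Real.exp_pos (-(4 / 15 * (s / K)))
  -- one type family
  have hfam : ∀ k ∈ Finset.range K, ∀ i, i < 3 →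
      ∑ q ∈ Q, 1 / (q : ℝ) * ∑ c ∈ red q, pp n (tau V K k i) ((c : ℝ) / q) ≤
        Q.card * ((17 / 50 : ℝ) * (359 / 500) ^ 2) ^ (2 * V * (K - 1)) + T := by
    intro k hk i hi
    have h1 := fam_sum n (tau V K k i) Q hQ T hT
    rw [p0 n V K k i (Finset.mem_range.mp hk) hi hn] at h1
    refine le_trans (Finset.sum_le_sum fun q _ => ?_) h1
    refine mul_le_mul_of_nonneg_left ?_ (by positivity)
    unfold red
    exact Finset.sum_le_sum_of_subset_of_nonneg (Finset.filter_subset _ _)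
      fun c _ _ => pp_nonneg _ _ _
  -- one modulus
  have hone : ∀ q ∈ Q, 1 / (q : ℝ) * WW n q ≤
      Real.exp (-(4 / 15 * (s / K))) * (∑ k ∈ Finset.range K,
        (1 / (q : ℝ) * ∑ c ∈ red q, pp n (tau V K k 0) ((c : ℝ) / q) +
          1 / (q : ℝ) * ∑ c ∈ red q, pp n (tau V K k 1) ((c : ℝ) / q) +
          1 / (q : ℝ) * ∑ c ∈ red q, pp n (tau V K k 2) ((c : ℝ) / q))) +
      Real.exp (648 * s) * (1 / (q : ℝ) * WG (3 * V * K) q) := by
    intro q _
    have h1 : WW n q ≤ ∑ c ∈ red q, (Real.exp (-(4 / 15 * (s / K))) * ∑ k ∈ Finset.range K,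
        (pp n (tau V K k 0) ((c : ℝ) / q) + pp n (tau V K k 1) ((c : ℝ) / q) +
          pp n (tau V K k 2) ((c : ℝ) / q)) +
        Real.exp (648 * s) * GG 648 (3 * V * K) (24 * ((c : ℝ) / q))) :=
      Finset.sum_le_sum fun c _ => gg_split n V K hK hn s hs _
    have h2 := mul_le_mul_of_nonneg_left h1 (show (0 : ℝ) ≤ 1 / (q : ℝ) by positivity)
    refine h2.trans (le_of_eq ?_)
    rw [Finset.sum_add_distrib, ← Finset.mul_sum, ← Finset.mul_sum, Finset.sum_comm]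
    simp only [Finset.sum_add_distrib, ← Finset.mul_sum]
    unfold WG
    ring
  refine (Finset.sum_le_sum hone).trans ?_
  rw [Finset.sum_add_distrib, ← Finset.mul_sum, ← Finset.mul_sum]
  refine add_le_add (mul_le_mul_of_nonneg_left ?_ hE.le) le_rfl
  rw [Finset.sum_comm]
  have h3 : ∀ k ∈ Finset.range K, ∑ q ∈ Q,
      (1 / (q : ℝ) * ∑ c ∈ red q, pp n (tau V K k 0) ((c : ℝ) / q) +
          1 / (q : ℝ) * ∑ c ∈ red q, pp n (tau V K k 1) ((c : ℝ) / q) +
          1 / (q : ℝ) * ∑ c ∈ red q, pp n (tau V K k 2) ((c : ℝ) / q)) ≤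
      3 * (Q.card * ((17 / 50 : ℝ) * (359 / 500) ^ 2) ^ (2 * V * (K - 1)) + T) := by
    intro k hk
    rw [Finset.sum_add_distrib, Finset.sum_add_distrib]
    have e0 := hfam k hk 0 (by norm_num)
    have e1 := hfam k hk 1 (by norm_num)
    have e2 := hfam k hk 2 (by norm_num)
    linarith
  refine (Finset.sum_le_sum h3).trans (le_of_eq ?_)
  rw [Finset.sum_const, Finset.card_range, nsmul_eq_mul]
  ring

private lemma a10_exp : Real.exp (1741 / 1000) * ((17 / 50 : ℝ) * (359 / 500) ^ 2) ≤ 1 := by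
  have h1 : Real.exp (1741 / 2000) ≤ 238812 / 100000 := by
    refine (Real.exp_bound' (by norm_num) (by norm_num) (n := 9) (by norm_num)).trans ?_
    simp only [Finset.sum_range_succ, Finset.sum_range_zero, Nat.factorial]
    norm_num
  have h2 : Real.exp (1741 / 1000) = Real.exp (1741 / 2000) ^ 2 := by
    rw [← Real.exp_nat_mul]
    congr 1
    norm_num
  have h0 := Real.exp_pos (1741 / 2000)
  have h3 : Real.exp (1741 / 2000) ^ 2 ≤ (238812 / 100000) ^ 2 := pow_le_pow_left₀ h0.le h1 2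
  rw [h2]
  nlinarith

private lemma a10_pow (N : ℕ) :
    ((17 / 50 : ℝ) * (359 / 500) ^ 2) ^ N ≤ Real.exp (-(1741 / 1000 * N)) := by
  have h : ((17 / 50 : ℝ) * (359 / 500) ^ 2) ≤ Real.exp (-(1741 / 1000)) := by
    rw [Real.exp_neg, ← one_div, le_div_iff₀ (Real.exp_pos _), mul_comm]
    exact a10_exp
  calc ((17 / 50 : ℝ) * (359 / 500) ^ 2) ^ N ≤ Real.exp (-(1741 / 1000)) ^ N :=
        pow_le_pow_left₀ (by positivity) h N
    _ = Real.exp (-(1741 / 1000 * N)) := by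
        rw [← Real.exp_nat_mul]
        congr 1
        ring

theorem core : ∃ C : ℝ, 0 < C ∧ ∀ (n : ℕ) (Q : Finset ℕ), (∀ q ∈ Q, 0 < q) →
    (Q.card : ℝ) ≤ Real.exp (29 / 50 * n) →
    ∑ q ∈ Q, 1 / (q : ℝ) * WW n q ≤ C * Real.exp (-(n / 10 ^ 12)) +
      Real.exp (648 * (n / 10 ^ 8)) * ∑ q ∈ Q, 1 / (q : ℝ) * WG (Mm n) q := by
  obtain ⟨C1, hC1, hdiv⟩ := Pool.Agent.Lib.MP_bc6037_nt.card_divisors_le_rpow
    (η := (1 / 10 ^ 13 : ℝ)) (by norm_num)
  refine ⟨6000 * (Real.exp 6961 + C1 * Real.exp 1), by positivity, fun n Q hQ hc => ?_⟩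
  have hV : 6 * (n / 12000) * 2000 ≤ n := by omega
  have hV2 : (n : ℝ) / 12000 - 1 ≤ ((n / 12000 : ℕ) : ℝ) := by
    have h : n < 12000 * (n / 12000) + 12000 := by omega
    have h' : (n : ℝ) < 12000 * ((n / 12000 : ℕ) : ℝ) + 12000 := by exact_mod_cast h
    linarith
  have hT : ∀ m : ℕ, m ≠ 0 → m ≤ 9 ^ (n + 1) →
      (m.divisors.card : ℝ) ≤ C1 * Real.exp (3 * (n + 1) / 10 ^ 13) := by
    intro m hm hm2
    refine (hdiv m hm).trans ?_
    have h9 : (9 : ℝ) ≤ Real.exp 3 := by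
      have h := Real.exp_one_gt_d9
      have e3 : Real.exp 3 = Real.exp 1 ^ 3 := by
        rw [← Real.exp_nat_mul]
        norm_num
      rw [e3]
      have : (2.7 : ℝ) ^ 3 ≤ Real.exp 1 ^ 3 := pow_le_pow_left₀ (by norm_num) (by linarith) 3
      norm_num at this
      linarith
    have h1 : (m : ℝ) ≤ Real.exp (3 * (n + 1)) := by
      have h2 : (m : ℝ) ≤ 9 ^ (n + 1) := by exact_mod_cast hm2
      refine h2.trans ?_
      have e : Real.exp (3 * (n + 1)) = Real.exp 3 ^ (n + 1) := by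
        rw [← Real.exp_nat_mul]
        congr 1
        push_cast
        ring
      rw [e]
      exact pow_le_pow_left₀ (by norm_num) h9 _
    have h3 : (m : ℝ) ^ (1 / 10 ^ 13 : ℝ) ≤ Real.exp (3 * (n + 1) / 10 ^ 13) := by
      refine (Real.rpow_le_rpow (by positivity) h1 (by positivity)).trans ?_
      rw [← Real.exp_mul]
      apply le_of_eq
      congr 1
      ring
    exact mul_le_mul_of_nonneg_left h3 (by linarith)
  have hn0 : (0 : ℝ) ≤ n := Nat.cast_nonneg n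
  have h := core_abs n (n / 12000) 2000 (by norm_num) hV ((n : ℝ) / 10 ^ 8) (by positivity) Q hQ _ hT
  refine h.trans ?_
  have hMm : 3 * (n / 12000) * 2000 = Mm n := rfl
  rw [hMm]
  refine add_le_add ?_ le_rfl
  have hpw : ((17 / 50 : ℝ) * (359 / 500) ^ 2) ^ (2 * (n / 12000) * (2000 - 1)) ≤
      Real.exp (6961 - 29 / 50 * n) := by
    refine (a10_pow _).trans ?_
    rw [Real.exp_le_exp]
    push_cast
    nlinarith
  have hA : (Q.card : ℝ) * ((17 / 50 : ℝ) * (359 / 500) ^ 2) ^ (2 * (n / 12000) * (2000 - 1)) ≤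
      Real.exp 6961 := by
    calc (Q.card : ℝ) * ((17 / 50 : ℝ) * (359 / 500) ^ 2) ^ (2 * (n / 12000) * (2000 - 1)) ≤
          Real.exp (29 / 50 * n) * Real.exp (6961 - 29 / 50 * n) :=
          mul_le_mul hc hpw (by positivity) (Real.exp_pos _).le
      _ = Real.exp 6961 := by
          rw [← Real.exp_add]
          congr 1
          ring
  have hB : Real.exp (3 * (n + 1) / 10 ^ 13) ≤ Real.exp 1 * Real.exp (3 * n / 10 ^ 13) := by
    rw [← Real.exp_add, Real.exp_le_exp]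
    linarith
  have hE1 : Real.exp (-(4 / 15 * ((n : ℝ) / 10 ^ 8 / (2000 : ℕ)))) ≤
      Real.exp (-(n / 10 ^ 12)) * Real.exp (-(3 * n / 10 ^ 13)) := by
    rw [← Real.exp_add, Real.exp_le_exp]
    push_cast
    linarith
  have hE2 : Real.exp (-(3 * (n : ℝ) / 10 ^ 13)) ≤ 1 := by
    rw [Real.exp_le_one_iff]
    have : 0 ≤ 3 * (n : ℝ) / 10 ^ 13 := by positivity
    linarith
  have hE3 : Real.exp (-(3 * (n : ℝ) / 10 ^ 13)) * Real.exp (3 * n / 10 ^ 13) = 1 := by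
    rw [← Real.exp_add, neg_add_cancel, Real.exp_zero]
  set A := (Q.card : ℝ) * ((17 / 50 : ℝ) * (359 / 500) ^ 2) ^ (2 * (n / 12000) * (2000 - 1))
    with hAdef
  have hA0 : 0 ≤ A := by positivity
  have hin : A + C1 * Real.exp (3 * (n + 1) / 10 ^ 13) ≤
      Real.exp 6961 + C1 * Real.exp 1 * Real.exp (3 * n / 10 ^ 13) := by
    have h1 : C1 * Real.exp (3 * (n + 1) / 10 ^ 13) ≤ C1 * (Real.exp 1 * Real.exp (3 * n / 10 ^ 13)) :=
      mul_le_mul_of_nonneg_left hB (by linarith)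
    linarith
  have h6961 := Real.exp_pos 6961
  have hC1' : 0 < C1 := by linarith
  calc Real.exp (-(4 / 15 * ((n : ℝ) / 10 ^ 8 / (2000 : ℕ)))) *
        (3 * (2000 : ℕ) * (A + C1 * Real.exp (3 * (n + 1) / 10 ^ 13)))
      ≤ (Real.exp (-(n / 10 ^ 12)) * Real.exp (-(3 * n / 10 ^ 13))) *
        (6000 * (Real.exp 6961 + C1 * Real.exp 1 * Real.exp (3 * n / 10 ^ 13))) := by
        refine mul_le_mul hE1 ?_ (by positivity) (by positivity)
        push_cast
        linarith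
    _ = Real.exp (-(n / 10 ^ 12)) * (6000 * (Real.exp 6961 * Real.exp (-(3 * n / 10 ^ 13)) +
        C1 * Real.exp 1 * (Real.exp (-(3 * n / 10 ^ 13)) * Real.exp (3 * n / 10 ^ 13)))) := by ring
    _ ≤ Real.exp (-(n / 10 ^ 12)) * (6000 * (Real.exp 6961 + C1 * Real.exp 1)) := by
        rw [hE3, mul_one]
        refine mul_le_mul_of_nonneg_left ?_ (Real.exp_pos _).le
        nlinarith
    _ = 6000 * (Real.exp 6961 + C1 * Real.exp 1) * Real.exp (-(n / 10 ^ 12)) := by ring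

end Pool.Agent.Lib.MP_f75418_nt.FF
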