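import Pool.Agent.Lib.MP_f75418_nt.FF.Defs
import Pool.Agent.Lib.MP_f75418_nt.FF.Base

/-!
Row A11s. Small denominators: `WW n q ≤ W (n/2) q` (`WW_le_W`) and then exactly the middle part of the proof of `level`
(AP/Level.lean): `Λ = n/9720`, `m₁ = m₂ = n/4`, `D ≤ 3^Λ`, `total m₁ m₂ Λ`, `calc_sum`, `√n/2 - 1 ≤ √m₁`.
-/

open Finset

namespace Pool.Agent.Lib.MP_f75418_nt.FF

open Pool.Agent.Lib.MP_f75418_nt

theorem small : ∃ C : ℝ, 0 < C ∧ ∀ n D : ℕ, (D : ℝ) ≤ Real.exp (n / 20000) →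
    ∑ q ∈ (Finset.Icc 2 D).filter (fun q => Nat.Coprime q 6), 1 / (q : ℝ) * WW n q ≤
      C * Real.exp (-(Real.sqrt n / 100)) := by
  obtain ⟨C, hC, hcalc⟩ := calc_sum
  refine ⟨3 * Real.exp 9 * C * Real.exp 1, by positivity, ?_⟩
  intro n D hD
  set Λ := n / 9720 with hΛ
  set m₁ := n / 4 with hm₁
  set m₂ := n / 4 with hm₂
  have hm : m₂ + m₁ ≤ n / 2 := by omega
  have hΛm : 2430 * Λ ≤ m₂ := by omega
  have hDΛ : D ≤ 3 ^ Λ := by
    rcases Nat.eq_zero_or_pos Λ with h0 | h0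
    · rw [h0, pow_zero]
      have hn : n < 9720 := by omega
      have h1 : (n : ℝ) / 20000 ≤ 1 / 2 := by
        have : (n : ℝ) ≤ 9720 := by exact_mod_cast hn.le
        linarith
      have h2 : Real.exp (n / 20000) < 2 := by
        calc Real.exp (n / 20000) ≤ Real.exp (1 / 2) := Real.exp_le_exp.mpr h1
          _ < 2 := by
            have h3 : Real.exp (1 / 2) ^ 2 = Real.exp 1 := by
              rw [← Real.exp_nat_mul]; norm_num
            have h4 := Real.exp_one_lt_d9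
            have h5 : 0 < Real.exp (1 / 2) := Real.exp_pos _
            nlinarith
      have h3 : (D : ℝ) < 2 := lt_of_le_of_lt hD h2
      have h4 : D < 2 := by exact_mod_cast h3
      omega
    · have h1 : (n : ℝ) / 20000 ≤ Λ := by
        have h2 : n < 9720 * (Λ + 1) := by omega
        have h3 : (n : ℝ) ≤ 9720 * (Λ + 1) := by exact_mod_cast h2.le
        have h4 : (1 : ℝ) ≤ Λ := by exact_mod_cast h0
        linarith
      have h2 : Real.exp (n / 20000) ≤ 3 ^ Λ := by
        calc Real.exp (n / 20000) ≤ Real.exp (Λ : ℝ) := Real.exp_le_exp.mpr h1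
          _ = Real.exp 1 ^ Λ := by rw [← Real.exp_nat_mul, mul_one]
          _ ≤ 3 ^ Λ := by
            refine pow_le_pow_left₀ (Real.exp_pos _).le ?_ _
            have := Real.exp_one_lt_d9
            linarith
      exact_mod_cast hD.trans h2
  have h3 : ∑ q ∈ (Finset.Icc 2 D).filter (fun q => Nat.Coprime q 6), 1 / (q : ℝ) * WW n q ≤
      3 * Real.exp 9 * (C * Real.exp (-(Real.sqrt m₁ / 50))) := by
    refine le_trans (Finset.sum_le_sum (g := fun q : ℕ => (1 / (q : ℝ)) * W (m₂ + m₁) q) ?_)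
      (le_trans ?_ (total m₁ m₂ Λ hΛm |>.trans ?_))
    · intro q _
      refine mul_le_mul_of_nonneg_left ?_ (by positivity)
      refine (WW_le_W n q).trans ?_
      unfold W
      exact Finset.sum_le_sum fun c _ => GG_anti (by norm_num) hm _
    · refine Finset.sum_le_sum_of_subset_of_nonneg ?_ ?_
      · intro q hq
        rw [Finset.mem_filter, Finset.mem_Icc] at hq ⊢
        exact ⟨⟨hq.1.1, hq.1.2.trans hDΛ⟩, hq.2⟩
      · intro q _ _
        exact mul_nonneg (by positivity) (W_nonneg _ q)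
    · exact mul_le_mul_of_nonneg_left (hcalc m₁ Λ) (by positivity)
  have hsq : Real.sqrt n / 2 - 1 ≤ Real.sqrt m₁ := by
    have h4 : n ≤ 4 * (m₁ + 1) := by omega
    have h5 : (n : ℝ) ≤ 4 * (m₁ + 1) := by exact_mod_cast h4
    have hs := Real.sq_sqrt (show (0 : ℝ) ≤ m₁ from Nat.cast_nonneg _)
    have hs0 := Real.sqrt_nonneg (m₁ : ℝ)
    rw [sub_le_iff_le_add, div_le_iff₀ (by norm_num)]
    apply Real.sqrt_le_iff.mpr
    constructor
    · positivity
    · nlinarith
  have h6 : Real.exp (-(Real.sqrt m₁ / 50)) ≤ Real.exp 1 * Real.exp (-(Real.sqrt n / 100)) := by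
    rw [← Real.exp_add, Real.exp_le_exp]
    linarith
  calc ∑ q ∈ (Finset.Icc 2 D).filter (fun q => Nat.Coprime q 6), 1 / (q : ℝ) * WW n q
      ≤ 3 * Real.exp 9 * (C * Real.exp (-(Real.sqrt m₁ / 50))) := h3
    _ ≤ 3 * Real.exp 9 * (C * (Real.exp 1 * Real.exp (-(Real.sqrt n / 100)))) := by
        refine mul_le_mul_of_nonneg_left ?_ (by positivity)
        exact mul_le_mul_of_nonneg_left h6 hC.le
    _ = _ := by ring

end Pool.Agent.Lib.MP_f75418_nt.FF
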