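import Pool.Agent.Lib.MP_f75418_nt.FF.Defs

/-!
Row A8. The grid and Farey lemmas of AP/Grid.lean with `M ≤ L` digits.

* `grid2`: write `b = r + 9^(L-M) * b'` with `r < 9^(L-M)`, `b' < 9^M` (`sum_range_mul_eq`): `b/9^L = r/9^L + b'/9^M`, and
  `grid M` for each `r`.
* `farey_all`: for `L ≤ M` use `GG_anti` (`GG 648 M ≤ GG 648 L`) and `farey L`. For `M < L` repeat the proof of `farey`: the
  fraction `x = c/q`, `q ≤ 3^L`, goes to `b = 9^L c / q` (natural division), `b/9^L ≤ x`, `x - b/9^L ≤ 1/9^L ≤ 1/9^M`,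
  `GG_round` with `M`, the map is injective (same proof), and `grid2`.
* `single_all`: the same for one denominator `q ≤ 9^L`: `c ↦ 9^L c / q` is injective on `c < q` because `9^L/q ≥ 1`.
-/

open Finset

namespace Pool.Agent.Lib.MP_f75418_nt.FF

open Pool.Agent.Lib.MP_f75418_nt

theorem grid2 (L M : ℕ) (h : M ≤ L) (x : ℝ) :
    ∑ b ∈ Finset.range (9 ^ L), GG 324 M (x + (b : ℕ) / 9 ^ L) ≤ 9 ^ (L - M) * 2 ^ M := by
  have e : (9 : ℕ) ^ L = 9 ^ (L - M) * 9 ^ M := by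
    rw [← pow_add, Nat.sub_add_cancel h]
  have e' : (9 : ℝ) ^ L = 9 ^ (L - M) * 9 ^ M := by
    rw [← pow_add, Nat.sub_add_cancel h]
  rw [e, sum_range_mul_eq]
  have h1 : ∀ r ∈ Finset.range (9 ^ (L - M)), ∑ s ∈ Finset.range (9 ^ M),
      GG 324 M (x + ((r + 9 ^ (L - M) * s : ℕ) : ℝ) / 9 ^ L) ≤ 2 ^ M := by
    intro r _
    refine le_trans (le_of_eq ?_) (grid M (x + r / 9 ^ L))
    refine Finset.sum_congr rfl fun s _ => ?_
    congr 1
    push_cast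
    rw [e']
    field_simp
    ring
  refine (Finset.sum_le_sum h1).trans (le_of_eq ?_)
  rw [Finset.sum_const, Finset.card_range, nsmul_eq_mul]
  push_cast
  ring

private theorem far_gen (L M : ℕ) (S : Finset (Σ _ : ℕ, ℕ)) (h1 : ∀ x ∈ S, 1 ≤ x.1 ∧ x.2 < x.1)
    (hinj : Set.InjOn (fun x : Σ _ : ℕ, ℕ => 9 ^ L * x.2 / x.1) S) :
    ∑ x ∈ S, GG 648 M ((x.2 : ℝ) / x.1) ≤ Real.exp 9 * (9 ^ (L - M) * 2 ^ (min L M)) := by
  classical
  set m := min L M with hm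
  have hmL : m ≤ L := min_le_left _ _
  have hmM : m ≤ M := min_le_right _ _
  have hsub : L - M = L - m := by omega
  have h2 : ∀ x ∈ S, GG 648 M ((x.2 : ℝ) / x.1) ≤
      (fun b : ℕ => Real.exp 9 * GG 324 m (0 + (b : ℕ) / 9 ^ L)) (9 ^ L * x.2 / x.1) := by
    intro x hx
    refine (GG_anti (by norm_num) hmM _).trans ?_
    have hx' := h1 x hx
    have hq : (0 : ℝ) < x.1 := by exact_mod_cast hx'.1
    have hp : (0 : ℝ) < 9 ^ L := by positivity
    simp only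
    rw [zero_add]
    apply GG_round
    · rw [div_le_div_iff₀ hp hq]
      have := Nat.div_mul_le_self (9 ^ L * x.2) x.1
      have h : ((9 ^ L * x.2 / x.1 * x.1 : ℕ) : ℝ) ≤ ((9 ^ L * x.2 : ℕ) : ℝ) := by exact_mod_cast this
      push_cast at h
      linarith
    · have h3 : (x.2 : ℝ) / x.1 - ((9 ^ L * x.2 / x.1 : ℕ) : ℝ) / 9 ^ L ≤ 1 / 9 ^ L := by
        rw [div_sub_div _ _ hq.ne' hp.ne', div_le_div_iff₀ (by positivity) hp]
        have h := Nat.lt_div_mul_add (a := 9 ^ L * x.2) (b := x.1) hx'.1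
        have h' : ((9 ^ L * x.2 : ℕ) : ℝ) ≤ ((9 ^ L * x.2 / x.1 * x.1 + x.1 : ℕ) : ℝ) := by
          exact_mod_cast h.le
        push_cast at h'
        have h2 : (x.2 : ℝ) * 9 ^ L - x.1 * ((9 ^ L * x.2 / x.1 : ℕ) : ℝ) ≤ x.1 := by linarith
        calc ((x.2 : ℝ) * 9 ^ L - x.1 * ((9 ^ L * x.2 / x.1 : ℕ) : ℝ)) * 9 ^ L ≤ x.1 * 9 ^ L :=
              mul_le_mul_of_nonneg_right h2 hp.le
          _ = 1 * (x.1 * 9 ^ L) := by ring
      refine h3.trans ?_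
      exact one_div_le_one_div_of_le (by positivity) (pow_le_pow_right₀ (by norm_num) hmL)
  refine (Finset.sum_le_sum h2).trans ?_
  rw [← Finset.sum_image (s := S) (g := fun x : Σ _ : ℕ, ℕ => 9 ^ L * x.2 / x.1)
    (f := fun b : ℕ => Real.exp 9 * GG 324 m (0 + (b : ℕ) / 9 ^ L)) hinj]
  refine le_trans (Finset.sum_le_sum_of_subset_of_nonneg (t := Finset.range (9 ^ L)) ?_
    (fun b _ _ => mul_nonneg (Real.exp_pos _).le (GG_pos _ _ _).le)) ?_
  · intro b hb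
    obtain ⟨x, hx, rfl⟩ := Finset.mem_image.mp hb
    have hx' := h1 x hx
    rw [Finset.mem_range]
    apply Nat.div_lt_of_lt_mul
    rw [mul_comm x.1]
    exact Nat.mul_lt_mul_of_pos_left hx'.2 (by positivity)
  · rw [← Finset.mul_sum, hsub]
    exact mul_le_mul_of_nonneg_left (grid2 L m hmL 0) (Real.exp_pos _).le

theorem farey_all (L M : ℕ) :
    ∑ q ∈ Finset.Icc 1 (3 ^ L), ∑ c ∈ red q, GG 648 M ((c : ℝ) / q) ≤
      Real.exp 9 * (9 ^ (L - M) * 2 ^ (min L M)) := by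
  classical
  rw [Finset.sum_sigma']
  refine far_gen L M ((Finset.Icc 1 (3 ^ L)).sigma red) ?_ ?_
  · intro x hx
    rw [Finset.mem_sigma, Finset.mem_Icc, mem_red] at hx
    exact ⟨hx.1.1, hx.2.1⟩
  · have key : ∀ x ∈ (Finset.Icc 1 (3 ^ L)).sigma red, ∀ y ∈ (Finset.Icc 1 (3 ^ L)).sigma red,
        9 ^ L * x.2 / x.1 = 9 ^ L * y.2 / y.1 → x.2 * y.1 ≤ y.2 * x.1 := by
      intro x hx y hy hxy
      rw [Finset.mem_sigma, Finset.mem_Icc, mem_red] at hx hy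
      have a1 := Nat.lt_div_mul_add (a := 9 ^ L * x.2) (b := x.1) hx.1.1
      have a2 := Nat.div_mul_le_self (9 ^ L * y.2) y.1
      rw [hxy] at a1
      set B := 9 ^ L * y.2 / y.1
      by_contra hcon
      push Not at hcon
      have a3 : 9 ^ L * x.2 * y.1 < (B * x.1 + x.1) * y.1 := Nat.mul_lt_mul_of_pos_right a1 hy.1.1
      have a4 : B * y.1 * x.1 ≤ 9 ^ L * y.2 * x.1 := Nat.mul_le_mul_right x.1 a2
      have a5 : x.1 * y.1 ≤ 9 ^ L := by
        calc x.1 * y.1 ≤ 3 ^ L * 3 ^ L := Nat.mul_le_mul hx.1.2 hy.1.2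
          _ = 9 ^ L := by rw [← mul_pow]; norm_num
      have a6 : 9 ^ L * (y.2 * x.1 + 1) ≤ 9 ^ L * (x.2 * y.1) := Nat.mul_le_mul_left _ hcon
      nlinarith
    intro x hx y hy hxy
    have hx' := Finset.mem_coe.mp hx
    have hy' := Finset.mem_coe.mp hy
    have h1 := key x hx' y hy' hxy
    have h2 := key y hy' x hx' hxy.symm
    have h3 : x.2 * y.1 = y.2 * x.1 := le_antisymm h1 h2
    rw [Finset.mem_sigma, Finset.mem_Icc, mem_red] at hx' hy'
    have d1 : x.1 ∣ y.1 := by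
      have : x.1 ∣ x.2 * y.1 := ⟨y.2, by rw [h3]; ring⟩
      exact (Nat.Coprime.dvd_of_dvd_mul_left hx'.2.2.symm this)
    have d2 : y.1 ∣ x.1 := by
      have : y.1 ∣ y.2 * x.1 := ⟨x.2, by rw [← h3]; ring⟩
      exact (Nat.Coprime.dvd_of_dvd_mul_left hy'.2.2.symm this)
    have h4 : x.1 = y.1 := Nat.dvd_antisymm d1 d2
    have h5 : x.2 = y.2 := by
      rw [h4] at h3
      exact Nat.eq_of_mul_eq_mul_right hy'.1.1 h3
    obtain ⟨x1, x2⟩ := x
    obtain ⟨y1, y2⟩ := y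
    simp only at h4 h5
    subst h4 h5
    rfl

theorem single_all (q L M : ℕ) (hq : 0 < q) (hqL : q ≤ 9 ^ L) :
    ∑ c ∈ red q, GG 648 M ((c : ℝ) / q) ≤ Real.exp 9 * (9 ^ (L - M) * 2 ^ (min L M)) := by
  classical
  have h0 := far_gen L M (({q} : Finset ℕ).sigma red) ?_ ?_
  · rwa [Finset.sum_sigma, Finset.sum_singleton] at h0
  · intro x hx
    rw [Finset.mem_sigma, Finset.mem_singleton] at hx
    obtain ⟨hx1, hx2⟩ := hx
    rw [mem_red] at hx2
    exact ⟨by omega, hx2.1⟩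
  · intro x hx y hy hxy
    have hx' := Finset.mem_coe.mp hx
    have hy' := Finset.mem_coe.mp hy
    rw [Finset.mem_sigma, Finset.mem_singleton] at hx' hy'
    obtain ⟨x1, x2⟩ := x
    obtain ⟨y1, y2⟩ := y
    simp only at hx' hy' hxy
    obtain ⟨rfl, _⟩ := hx'
    obtain ⟨rfl, _⟩ := hy'
    have key : ∀ a b : ℕ, a < b → 9 ^ L * a / y1 < 9 ^ L * b / y1 := by
      intro a b hab
      rw [Nat.lt_iff_add_one_le, ← Nat.add_div_right _ hq]
      apply Nat.div_le_div_right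
      calc 9 ^ L * a + y1 ≤ 9 ^ L * a + 9 ^ L := by omega
        _ = 9 ^ L * (a + 1) := by ring
        _ ≤ 9 ^ L * b := Nat.mul_le_mul_left _ hab
    rcases lt_trichotomy x2 y2 with h | h | h
    · exact absurd hxy (key _ _ h).ne
    · rw [h]
    · exact absurd hxy (key _ _ h).ne'

end Pool.Agent.Lib.MP_f75418_nt.FF
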