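import Pool.Agent.Lib.MP_f75418_nt.FF.Defs
import Pool.Agent.Lib.MP_f75418_nt.FF.Far

/-!
Row A9. The structured fractions, all moduli. By `sum_red_perm` (`k = 24`, `coprime_24` with `j = 0`)
`WG M q = ∑_{c ∈ red q} GG 648 M (c/q)`. Scales: `q ∈ (3^(L-1), 3^L]`, `1 ≤ L`; `1/q ≤ 3 / 3^L`; `farey_all`: the scale `L`
contributes at most `3 e^9 3^(-L) 9^(L-M) 2^(min L M)` (natural subtraction), that is
* `L ≤ M`: `3 e^9 (2/3)^L`, and `L ≥ n / (20000 ln 3)` because `3^L ≥ q > exp (n/20000)`; the geometric sum is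
  `≤ 9 e^9 (2/3)^(L0)` and `(2/3)^(L0) ≤ exp (- (ln 1.5 / ln 3) n / 20000) ≤ exp (-n/54300) `;
* `L > M`: `3 e^9 3^L (2/9)^M` (as `9^(L-M) 2^M / 3^L = 3^L (2/9)^M`), and `3^(L-1) < q ≤ exp (29/50 n)`, `M ≥ n/2 - 6000`,
  `ln (9/2) ≥ 1.5`: at most `C exp ((0.58 - 0.75) n)` each, at most `n + 2` such `L` (or a geometric sum).
Total `≤ C exp (-n/60000)`.
-/

open Finset

namespace Pool.Agent.Lib.MP_f75418_nt.FF

open Pool.Agent.Lib.MP_f75418_nt

theorem a9_WG (M q : ℕ) (hq : 0 < q) (h6 : Nat.Coprime q 6) :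
    WG M q = ∑ c ∈ red q, GG 648 M ((c : ℝ) / q) := by
  unfold WG
  have h := sum_red_perm (k := 24) hq (by simpa using coprime_24 h6 0) 648 M
  push_cast at h
  exact h

theorem a9_fib (M L : ℕ) (hL : 1 ≤ L) (S : Finset ℕ)
    (hS : ∀ q ∈ S, 3 ^ (L - 1) < q ∧ q ≤ 3 ^ L ∧ Nat.Coprime q 6) :
    ∑ q ∈ S, 1 / (q : ℝ) * WG M q ≤
      3 / 3 ^ L * (Real.exp 9 * (9 ^ (L - M) * 2 ^ (min L M))) := by
  have h1 : ∀ q ∈ S, 1 / (q : ℝ) * WG M q ≤ 3 / 3 ^ L * ∑ c ∈ red q, GG 648 M ((c : ℝ) / q) := by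
    intro q hq
    obtain ⟨h1, h2, h3⟩ := hS q hq
    have hq0 : 0 < q := lt_of_le_of_lt (Nat.zero_le _) h1
    have hq0' : (0 : ℝ) < q := by exact_mod_cast hq0
    rw [a9_WG M q hq0 h3]
    refine mul_le_mul_of_nonneg_right ?_ (Finset.sum_nonneg fun _ _ => (GG_pos _ _ _).le)
    have h4 : (3 : ℝ) ^ L ≤ 3 * q := by
      have h6 : (3 : ℝ) ^ L = 3 * 3 ^ (L - 1) := by
        rw [← pow_succ']
        congr 1
        omega
      rw [h6]
      have h5 : ((3 ^ (L - 1) : ℕ) : ℝ) ≤ q := by exact_mod_cast h1.le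
      push_cast at h5
      linarith
    rw [div_le_div_iff₀ hq0' (by positivity)]
    linarith
  refine (Finset.sum_le_sum h1).trans ?_
  rw [← Finset.mul_sum]
  refine mul_le_mul_of_nonneg_left ?_ (by positivity)
  refine le_trans (Finset.sum_le_sum_of_subset_of_nonneg ?_ ?_) (farey_all L M)
  · intro q hq
    rw [Finset.mem_Icc]
    have := hS q hq
    exact ⟨lt_of_le_of_lt (Nat.zero_le _) this.1, this.2.1⟩
  · intro q _ _
    exact Finset.sum_nonneg fun c _ => (GG_pos _ _ _).le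

theorem a9_exp32 : (2 / 9 : ℝ) ≤ Real.exp (-(3 / 2)) := by
  have h1 : Real.exp (3 / 2) ≤ 9 / 2 := by
    have h2 : Real.exp (3 / 2) ^ 2 = Real.exp 1 ^ 3 := by
      rw [← Real.exp_nat_mul, ← Real.exp_nat_mul]
      norm_num
    have h3 : Real.exp 1 ^ 3 ≤ (9 / 2) ^ 2 := by
      have h4 := Real.exp_one_lt_d9
      have h5 : Real.exp 1 ^ 3 ≤ 2.7182818286 ^ 3 :=
        pow_le_pow_left₀ (Real.exp_pos _).le h4.le 3
      refine h5.trans ?_
      norm_num
    rw [← h2] at h3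
    exact le_of_sq_le_sq' h3
  rw [Real.exp_neg, ← one_div, le_div_iff₀ (Real.exp_pos _)]
  linarith
where
  le_of_sq_le_sq' {a : ℝ} (h : a ^ 2 ≤ (9 / 2) ^ 2) : a ≤ 9 / 2 := by
    nlinarith

theorem a9_scale (n M L : ℕ) (hM : (n : ℝ) / 2 - 6000 ≤ M) (hL1 : Real.exp (n / 20000) ≤ 3 ^ L)
    (hL2 : (3 : ℝ) ^ L ≤ 3 * Real.exp (29 / 50 * n)) :
    3 / 3 ^ L * (Real.exp 9 * (9 ^ (L - M) * 2 ^ (min L M))) ≤
      3 * Real.exp 9 * Real.exp (-(n / 60000)) * Real.exp (-(1 / 27)) ^ L +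
        9 * Real.exp 9 * Real.exp 9000 * Real.exp (-(17 / 100 * n)) := by
  have h3 : (0 : ℝ) < 3 ^ L := by positivity
  rcases le_or_gt L M with h | h
  · have e0 : L - M = 0 := by omega
    rw [e0, min_eq_left h, pow_zero, one_mul]
    have h4 : (2 / 3 : ℝ) ^ L ≤ Real.exp (-(n / 60000)) * Real.exp (-(1 / 27)) ^ L := by
      have h5 : ((2 / 3 : ℝ) ^ L) ^ 3 ≤ (Real.exp (-(n / 60000)) * Real.exp (-(1 / 27)) ^ L) ^ 3 := by
        have h6 : ((2 / 3 : ℝ) ^ L) ^ 3 = (8 / 9) ^ L * (3 ^ L)⁻¹ := by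
          rw [← pow_mul, mul_comm L 3, pow_mul, ← inv_pow, ← mul_pow]
          norm_num
        have h7 : (Real.exp (-(n / 60000)) * Real.exp (-(1 / 27)) ^ L) ^ 3 =
            Real.exp (-(1 / 9)) ^ L * (Real.exp (n / 20000))⁻¹ := by
          rw [mul_pow, ← pow_mul, mul_comm L 3, pow_mul, ← Real.exp_nat_mul, ← Real.exp_nat_mul,
            ← Real.exp_neg, mul_comm]
          congr 2
          · congr 1
            norm_num
          · push_cast
            ring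
        rw [h6, h7]
        refine mul_le_mul ?_ ?_ (by positivity) (by positivity)
        · refine pow_le_pow_left₀ (by norm_num) ?_ L
          have := Real.add_one_le_exp (-(1 / 9 : ℝ))
          linarith
        · exact inv_anti₀ (Real.exp_pos _) hL1
      exact le_of_pow_le_pow_left₀ (by norm_num) (by positivity) h5
    have h5 : 3 / 3 ^ L * (Real.exp 9 * 2 ^ L) = 3 * Real.exp 9 * (2 / 3 : ℝ) ^ L := by
      rw [div_pow]
      ring
    rw [h5]
    have h6 : 3 * Real.exp 9 * (2 / 3 : ℝ) ^ L ≤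
        3 * Real.exp 9 * (Real.exp (-(n / 60000)) * Real.exp (-(1 / 27)) ^ L) :=
      mul_le_mul_of_nonneg_left h4 (by positivity)
    have h7 : 0 ≤ 9 * Real.exp 9 * Real.exp 9000 * Real.exp (-(17 / 100 * n)) := by positivity
    linarith
  · rw [min_eq_right h.le]
    have h4 : (3 : ℝ) / 3 ^ L * (Real.exp 9 * (9 ^ (L - M) * 2 ^ M)) =
        3 * Real.exp 9 * (3 ^ L * (2 / 9) ^ M) := by
      have h5 : (9 : ℝ) ^ (L - M) * 9 ^ M = 3 ^ L * 3 ^ L := by
        rw [← pow_add, ← mul_pow]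
        norm_num
        omega
      have h6 : (9 : ℝ) ^ (L - M) = 3 ^ L * 3 ^ L / 9 ^ M := by
        rw [eq_div_iff (by positivity)]
        exact h5
      rw [h6, div_pow]
      field_simp
    rw [h4]
    have h5 : (2 / 9 : ℝ) ^ M ≤ Real.exp 9000 * Real.exp (-(3 / 4 * n)) := by
      calc (2 / 9 : ℝ) ^ M ≤ Real.exp (-(3 / 2)) ^ M := pow_le_pow_left₀ (by norm_num) a9_exp32 M
        _ = Real.exp (M * (-(3 / 2))) := (Real.exp_nat_mul _ _).symm
        _ ≤ Real.exp (9000 + -(3 / 4 * n)) := by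
          rw [Real.exp_le_exp]
          linarith
        _ = _ := Real.exp_add _ _
    have h6 : (3 : ℝ) ^ L * (2 / 9) ^ M ≤
        (3 * Real.exp (29 / 50 * n)) * (Real.exp 9000 * Real.exp (-(3 / 4 * n))) :=
      mul_le_mul hL2 h5 (by positivity) (by positivity)
    have h7 : (3 * Real.exp (29 / 50 * n)) * (Real.exp 9000 * Real.exp (-(3 / 4 * n))) =
        3 * Real.exp 9000 * Real.exp (-(17 / 100 * n)) := by
      have h8 : Real.exp (-(17 / 100 * n)) = Real.exp (29 / 50 * n) * Real.exp (-(3 / 4 * n)) := by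
        rw [← Real.exp_add]
        congr 1
        ring
      rw [h8]
      ring
    rw [h7] at h6
    have h8 : 3 * Real.exp 9 * ((3 : ℝ) ^ L * (2 / 9) ^ M) ≤
        3 * Real.exp 9 * (3 * Real.exp 9000 * Real.exp (-(17 / 100 * n))) :=
      mul_le_mul_of_nonneg_left h6 (by positivity)
    have h9 : 0 ≤ 3 * Real.exp 9 * Real.exp (-(n / 60000)) * Real.exp (-(1 / 27)) ^ L := by
      positivity
    linarith

theorem strSum : ∃ C : ℝ, 0 < C ∧ ∀ n M : ℕ, (n : ℝ) / 2 - 6000 ≤ M → ∀ Q : Finset ℕ,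
    (∀ q ∈ Q, Real.exp (n / 20000) < q ∧ (q : ℝ) ≤ Real.exp (29 / 50 * n) ∧ Nat.Coprime q 6) →
    ∑ q ∈ Q, 1 / (q : ℝ) * WG M q ≤ C * Real.exp (-(n / 60000)) := by
  have hr1 : Real.exp (-(1 / 27)) < 1 := by
    have h := Real.exp_lt_exp.mpr (show (-(1 / 27) : ℝ) < 0 by norm_num)
    rwa [Real.exp_zero] at h
  have hr0 : 0 < Real.exp (-(1 / 27)) := Real.exp_pos _
  refine ⟨3 * Real.exp 9 * (1 - Real.exp (-(1 / 27)))⁻¹ + 90 * Real.exp 9 * Real.exp 9000, ?_, ?_⟩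
  · have : 0 < (1 - Real.exp (-(1 / 27)))⁻¹ := inv_pos.mpr (by linarith)
    positivity
  intro n M hM Q hQ
  have hn0 : (0 : ℝ) ≤ n := Nat.cast_nonneg n
  have hclog : ∀ q ∈ Q, 1 ≤ Nat.clog 3 q ∧ 3 ^ (Nat.clog 3 q - 1) < q ∧ q ≤ 3 ^ Nat.clog 3 q ∧
      Nat.clog 3 q ≤ n := by
    intro q hq
    obtain ⟨h1, h2, h3⟩ := hQ q hq
    have h4 : (1 : ℝ) < q := lt_of_le_of_lt (Real.one_le_exp (by positivity)) h1
    have h5 : 1 < q := by exact_mod_cast h4
    refine ⟨Nat.clog_pos (by norm_num) h5, ?_, Nat.le_pow_clog (by norm_num) q, ?_⟩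
    · have := Nat.pow_pred_clog_lt_self (b := 3) (by norm_num) h5
      rwa [Nat.pred_eq_sub_one] at this
    · apply Nat.clog_le_of_le_pow
      have h6 : (q : ℝ) ≤ 3 ^ n := by
        refine h2.trans ?_
        calc Real.exp (29 / 50 * n) ≤ Real.exp (n * 1) := by
              rw [Real.exp_le_exp]
              linarith
          _ = Real.exp 1 ^ n := Real.exp_nat_mul _ _
          _ ≤ 3 ^ n := by
            refine pow_le_pow_left₀ (Real.exp_pos _).le ?_ _
            have := Real.exp_one_lt_d9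
            linarith
      exact_mod_cast h6
  have h1 : ∑ q ∈ Q, 1 / (q : ℝ) * WG M q =
      ∑ L ∈ Finset.range (n + 1), ∑ q ∈ Q.filter (fun q => Nat.clog 3 q = L), 1 / (q : ℝ) * WG M q := by
    rw [Finset.sum_fiberwise_of_maps_to]
    intro q hq
    rw [Finset.mem_range]
    have := (hclog q hq).2.2.2
    omega
  rw [h1]
  have h2 : ∀ L ∈ Finset.range (n + 1),
      ∑ q ∈ Q.filter (fun q => Nat.clog 3 q = L), 1 / (q : ℝ) * WG M q ≤
        3 * Real.exp 9 * Real.exp (-(n / 60000)) * Real.exp (-(1 / 27)) ^ L +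
        9 * Real.exp 9 * Real.exp 9000 * Real.exp (-(17 / 100 * n)) := by
    intro L _
    rcases (Q.filter (fun q => Nat.clog 3 q = L)).eq_empty_or_nonempty with he | ⟨q, hq⟩
    · rw [he, Finset.sum_empty]
      positivity
    · rw [Finset.mem_filter] at hq
      obtain ⟨hq, hqL⟩ := hq
      obtain ⟨c1, c2, c3, c4⟩ := hclog q hq
      rw [hqL] at c1 c2 c3 c4
      refine (a9_fib M L c1 _ ?_).trans (a9_scale n M L hM ?_ ?_)
      · intro q' hq'
        rw [Finset.mem_filter] at hq'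
        obtain ⟨d1, d2, d3, d4⟩ := hclog q' hq'.1
        rw [hq'.2] at d1 d2 d3 d4
        exact ⟨d2, d3, (hQ q' hq'.1).2.2⟩
      · have h3 : (q : ℝ) ≤ 3 ^ L := by exact_mod_cast c3
        exact ((hQ q hq).1.le).trans h3
      · have h3 : ((3 ^ (L - 1) : ℕ) : ℝ) ≤ q := by exact_mod_cast c2.le
        push_cast at h3
        have h6 : (3 : ℝ) ^ L = 3 * 3 ^ (L - 1) := by
          rw [← pow_succ']
          congr 1
          omega
        rw [h6]
        have := (hQ q hq).2.1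
        linarith
  refine (Finset.sum_le_sum h2).trans ?_
  rw [Finset.sum_add_distrib, ← Finset.mul_sum, Finset.sum_const, Finset.card_range, nsmul_eq_mul]
  have h3 : ∑ L ∈ Finset.range (n + 1), Real.exp (-(1 / 27)) ^ L ≤ (1 - Real.exp (-(1 / 27)))⁻¹ := by
    rw [geom_sum_eq hr1.ne, ← neg_div_neg_eq, neg_sub, neg_sub, inv_eq_one_div]
    have : 0 < Real.exp (-(1 / 27)) ^ (n + 1) := by positivity
    apply div_le_div_of_nonneg_right _ (by linarith)
    linarith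
  have h4 : ((n + 1 : ℕ) : ℝ) * Real.exp (-(17 / 100 * n)) ≤ 10 * Real.exp (-(n / 60000)) := by
    have h5 := Real.add_one_le_exp ((n : ℝ) / 10)
    have h6 : ((n + 1 : ℕ) : ℝ) ≤ 10 * Real.exp (n / 10) := by
      push_cast
      linarith
    calc ((n + 1 : ℕ) : ℝ) * Real.exp (-(17 / 100 * n))
        ≤ (10 * Real.exp (n / 10)) * Real.exp (-(17 / 100 * n)) :=
          mul_le_mul_of_nonneg_right h6 (Real.exp_pos _).le
      _ = 10 * Real.exp (-(7 / 100 * n)) := by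
          rw [mul_assoc, ← Real.exp_add]
          congr 2
          ring
      _ ≤ 10 * Real.exp (-(n / 60000)) := by
          refine mul_le_mul_of_nonneg_left ?_ (by norm_num)
          rw [Real.exp_le_exp]
          linarith
  have h5 : 3 * Real.exp 9 * Real.exp (-(n / 60000)) *
      ∑ L ∈ Finset.range (n + 1), Real.exp (-(1 / 27)) ^ L ≤
      3 * Real.exp 9 * Real.exp (-(n / 60000)) * (1 - Real.exp (-(1 / 27)))⁻¹ :=
    mul_le_mul_of_nonneg_left h3 (by positivity)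
  have h6 : ((n + 1 : ℕ) : ℝ) * (9 * Real.exp 9 * Real.exp 9000 * Real.exp (-(17 / 100 * n))) ≤
      9 * Real.exp 9 * Real.exp 9000 * (10 * Real.exp (-(n / 60000))) := by
    calc ((n + 1 : ℕ) : ℝ) * (9 * Real.exp 9 * Real.exp 9000 * Real.exp (-(17 / 100 * n)))
        = 9 * Real.exp 9 * Real.exp 9000 *
          (((n + 1 : ℕ) : ℝ) * Real.exp (-(17 / 100 * n))) := by ring
      _ ≤ _ := mul_le_mul_of_nonneg_left h4 (by positivity)
  linarith

end Pool.Agent.Lib.MP_f75418_nt.FF
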