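import Pool.Agent.Lib.MP_f75418_nt.FF.Defs
import Pool.Agent.Lib.MP_f75418_nt.FF.Core
import Pool.Agent.Lib.MP_f75418_nt.FF.StrSum
import Pool.Agent.Lib.MP_f75418_nt.FF.Small

/-!
Row A11. **Level of distribution `exp (0.58 n)`.**

`Ad_sub_le_WW`, `exchange D (WW n)` (AP/Level.lean): the sum is at most
`3^n (1 + log D) ∑_{q ∈ [2,D], (q,6)=1} (1/q) WW n q`, `1 + log D ≤ 1 + n`. The `q ≤ D₀ := ⌊exp (n/20000)⌋`: row `small`. The
`q > D₀` (then `exp (n/20000) < q`): `core` with `Q` = these `q` (`#Q ≤ D`), and `strSum` with `M = Mm n`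
(`n/2 - 6000 ≤ Mm n`): `exp (648 n/10^8) * C exp (-n/60000) ≤ C exp (-n/10^6)`. Finally
`(1+n) exp (-√n/100) ≤ C exp (-√n/200)` and the same for `exp (-n/10^12)`.
-/

open Finset

namespace Pool.Agent.Lib.MP_f75418_nt.FF

open Pool.Agent.Lib.MP_f75418_nt

theorem a11_fin1 (n : ℕ) : (1 + (n : ℝ)) * Real.exp (-(Real.sqrt n / 100)) ≤
    80000 * Real.exp (-(Real.sqrt n / 200)) := by
  have hs := Real.sq_sqrt (show (0 : ℝ) ≤ n from Nat.cast_nonneg _)
  have hs0 := Real.sqrt_nonneg (n : ℝ)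
  set x := Real.sqrt n
  have h4 : 1 + (n : ℝ) ≤ 80000 * Real.exp (x / 200) := by
    have h5 := Real.quadratic_le_exp_of_nonneg (show 0 ≤ x / 200 by positivity)
    rw [← hs]
    nlinarith
  calc (1 + (n : ℝ)) * Real.exp (-(x / 100)) ≤ (80000 * Real.exp (x / 200)) * Real.exp (-(x / 100)) :=
        mul_le_mul_of_nonneg_right h4 (Real.exp_pos _).le
    _ = _ := by
      rw [mul_assoc, ← Real.exp_add]
      congr 2
      ring

theorem a11_fin2 (n : ℕ) : (1 + (n : ℝ)) * Real.exp (-(n / 10 ^ 12)) ≤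
    (2 * 10 ^ 12 * Real.exp 12500000) * Real.exp (-(Real.sqrt n / 200)) := by
  have hs := Real.sq_sqrt (show (0 : ℝ) ≤ n from Nat.cast_nonneg _)
  have hs0 := Real.sqrt_nonneg (n : ℝ)
  have h1 : 1 + (n : ℝ) ≤ 2 * 10 ^ 12 * Real.exp (n / (2 * 10 ^ 12)) := by
    have h2 := Real.add_one_le_exp ((n : ℝ) / (2 * 10 ^ 12))
    linarith
  have h3 : Real.sqrt n / 200 ≤ 12500000 + n / (2 * 10 ^ 12) := by
    set x := Real.sqrt n
    rw [← hs]
    have h4 := sq_nonneg (x - 5 * 10 ^ 9)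
    have e : (12500000 : ℝ) + x ^ 2 / (2 * 10 ^ 12) - x / 200 = (x - 5 * 10 ^ 9) ^ 2 / (2 * 10 ^ 12) := by
      ring
    have h5 : 0 ≤ (x - 5 * 10 ^ 9) ^ 2 / (2 * 10 ^ 12) := by positivity
    linarith
  calc (1 + (n : ℝ)) * Real.exp (-(n / 10 ^ 12))
      ≤ (2 * 10 ^ 12 * Real.exp (n / (2 * 10 ^ 12))) * Real.exp (-(n / 10 ^ 12)) :=
        mul_le_mul_of_nonneg_right h1 (Real.exp_pos _).le
    _ = 2 * 10 ^ 12 * Real.exp (-(n / (2 * 10 ^ 12))) := by
        rw [mul_assoc, ← Real.exp_add]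
        congr 2
        ring
    _ ≤ 2 * 10 ^ 12 * Real.exp (12500000 + -(Real.sqrt n / 200)) := by
        refine mul_le_mul_of_nonneg_left ?_ (by positivity)
        rw [Real.exp_le_exp]
        linarith
    _ = _ := by
        rw [Real.exp_add]
        ring

theorem a11_Mm (n : ℕ) : (n : ℝ) / 2 - 6000 ≤ (Mm n : ℕ) := by
  unfold Mm
  have h1 : n ≤ 12000 * (n / 12000) + 12000 := by omega
  have h2 : (n : ℝ) ≤ 12000 * ((n / 12000 : ℕ) : ℝ) + 12000 := by exact_mod_cast h1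
  push_cast
  linarith

theorem level2 : ∃ C : ℝ, 0 < C ∧ ∀ n D : ℕ, (D : ℝ) ≤ Real.exp (29 / 50 * n) →
    ∑ d ∈ (Finset.Icc 1 D).filter (fun d => Nat.Coprime d 6), |(Ad n d : ℝ) - 3 ^ n / d| ≤
      C * 3 ^ n * Real.exp (-(Real.sqrt n / 200)) := by
  classical
  obtain ⟨C1, hC1, hsmall⟩ := small
  obtain ⟨C2, hC2, hcore⟩ := core
  obtain ⟨C3, hC3, hstr⟩ := strSum
  refine ⟨C1 * 80000 + (C2 + C3) * (2 * 10 ^ 12 * Real.exp 12500000), by positivity, ?_⟩
  intro n D hD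
  have hn0 : (0 : ℝ) ≤ n := Nat.cast_nonneg n
  rcases Nat.eq_zero_or_pos D with hD0 | hD0
  · rw [hD0]
    simp
    positivity
  have hDr : (1 : ℝ) ≤ D := by exact_mod_cast hD0
  set S := (Finset.Icc 2 D).filter (fun q => Nat.Coprime q 6) with hS
  set D₀ := ⌊Real.exp (n / 20000)⌋₊ with hD₀
  have h1 : ∑ d ∈ (Finset.Icc 1 D).filter (fun d => Nat.Coprime d 6), |(Ad n d : ℝ) - 3 ^ n / d| ≤
      3 ^ n * ∑ d ∈ (Finset.Icc 1 D).filter (fun d => Nat.Coprime d 6), (1 / (d : ℝ)) *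
        ∑ q ∈ d.divisors.erase 1, WW n q := by
    rw [Finset.mul_sum]
    refine Finset.sum_le_sum fun d hd => ?_
    rw [Finset.mem_filter, Finset.mem_Icc] at hd
    refine (Ad_sub_le_WW (by omega)).trans (le_of_eq ?_)
    rw [← mul_assoc, mul_one_div]
  have h2 := exchange D (fun q => WW n q) (fun q => WW_nonneg _ q)
  -- the splitting
  have h3 : ∑ q ∈ S, (1 / (q : ℝ)) * WW n q ≤
      C1 * Real.exp (-(Real.sqrt n / 100)) + (C2 + C3) * Real.exp (-(n / 10 ^ 12)) := by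
    rw [← Finset.sum_filter_add_sum_filter_not S (fun q => q ≤ D₀)]
    have hfl : (D₀ : ℝ) ≤ Real.exp (n / 20000) := Nat.floor_le (Real.exp_pos _).le
    have h4 : ∑ q ∈ S.filter (fun q => q ≤ D₀), (1 / (q : ℝ)) * WW n q ≤
        C1 * Real.exp (-(Real.sqrt n / 100)) := by
      refine le_trans (Finset.sum_le_sum_of_subset_of_nonneg ?_ ?_) (hsmall n D₀ hfl)
      · intro q hq
        rw [Finset.mem_filter, hS, Finset.mem_filter, Finset.mem_Icc] at hq
        rw [Finset.mem_filter, Finset.mem_Icc]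
        exact ⟨⟨hq.1.1.1, hq.2⟩, hq.1.2⟩
      · intro q _ _
        exact mul_nonneg (by positivity) (WW_nonneg _ q)
    have h5 : ∑ q ∈ S.filter (fun q => ¬ q ≤ D₀), (1 / (q : ℝ)) * WW n q ≤
        (C2 + C3) * Real.exp (-(n / 10 ^ 12)) := by
      have hQ : ∀ q ∈ S.filter (fun q => ¬ q ≤ D₀), Real.exp (n / 20000) < q ∧
          (q : ℝ) ≤ Real.exp (29 / 50 * n) ∧ Nat.Coprime q 6 := by
        intro q hq
        rw [Finset.mem_filter, hS, Finset.mem_filter, Finset.mem_Icc] at hq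
        obtain ⟨⟨⟨h6, h7⟩, h8⟩, h9⟩ := hq
        refine ⟨?_, ?_, h8⟩
        · have h10 := Nat.lt_floor_add_one (Real.exp (n / 20000))
          have h11 : D₀ + 1 ≤ q := by omega
          have h12 : ((D₀ + 1 : ℕ) : ℝ) ≤ q := by exact_mod_cast h11
          push_cast at h12
          exact lt_of_lt_of_le h10 h12
        · have h10 : (q : ℝ) ≤ D := by exact_mod_cast h7
          exact h10.trans hD
      have hcard : ((S.filter (fun q => ¬ q ≤ D₀)).card : ℝ) ≤ Real.exp (29 / 50 * n) := by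
        have h6 : (S.filter (fun q => ¬ q ≤ D₀)).card ≤ D := by
          refine (Finset.card_filter_le _ _).trans ((Finset.card_filter_le _ _).trans ?_)
          rw [Nat.card_Icc]
          omega
        have h7 : ((S.filter (fun q => ¬ q ≤ D₀)).card : ℝ) ≤ D := by exact_mod_cast h6
        exact h7.trans hD
      have hpos : ∀ q ∈ S.filter (fun q => ¬ q ≤ D₀), 0 < q := by
        intro q hq
        rw [Finset.mem_filter, hS, Finset.mem_filter, Finset.mem_Icc] at hq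
        omega
      have h6 := hcore n _ hpos hcard
      have h7 := hstr n (Mm n) (a11_Mm n) _ hQ
      have h8 : Real.exp (648 * (n / 10 ^ 8)) * ∑ q ∈ S.filter (fun q => ¬ q ≤ D₀),
          1 / (q : ℝ) * WG (Mm n) q ≤ C3 * Real.exp (-(n / 10 ^ 12)) := by
        calc Real.exp (648 * (n / 10 ^ 8)) * ∑ q ∈ S.filter (fun q => ¬ q ≤ D₀),
              1 / (q : ℝ) * WG (Mm n) q
            ≤ Real.exp (648 * (n / 10 ^ 8)) * (C3 * Real.exp (-(n / 60000))) :=
              mul_le_mul_of_nonneg_left h7 (Real.exp_pos _).le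
          _ = C3 * Real.exp (648 * (n / 10 ^ 8) + -(n / 60000)) := by
              rw [Real.exp_add]
              ring
          _ ≤ _ := by
              refine mul_le_mul_of_nonneg_left ?_ hC3.le
              rw [Real.exp_le_exp]
              linarith
      linarith
    linarith
  have hlog : 1 + Real.log D ≤ 1 + n := by
    have h4 : Real.log D ≤ 29 / 50 * n := by
      rw [Real.log_le_iff_le_exp (by linarith)]
      exact hD
    linarith
  have hT0 : 0 ≤ ∑ q ∈ S, (1 / (q : ℝ)) * WW n q :=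
    Finset.sum_nonneg fun q _ => mul_nonneg (by positivity) (WW_nonneg _ q)
  have h9 := a11_fin1 n
  have h10 := a11_fin2 n
  calc ∑ d ∈ (Finset.Icc 1 D).filter (fun d => Nat.Coprime d 6), |(Ad n d : ℝ) - 3 ^ n / d|
      ≤ 3 ^ n * ((1 + Real.log D) * ∑ q ∈ S, (1 / (q : ℝ)) * WW n q) :=
        h1.trans (mul_le_mul_of_nonneg_left h2 (by positivity))
    _ ≤ 3 ^ n * ((1 + n) * (C1 * Real.exp (-(Real.sqrt n / 100)) +
          (C2 + C3) * Real.exp (-(n / 10 ^ 12)))) := by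
        refine mul_le_mul_of_nonneg_left ?_ (by positivity)
        exact mul_le_mul hlog h3 hT0 (by positivity)
    _ = 3 ^ n * (C1 * ((1 + (n : ℝ)) * Real.exp (-(Real.sqrt n / 100))) +
          (C2 + C3) * ((1 + (n : ℝ)) * Real.exp (-(n / 10 ^ 12)))) := by ring
    _ ≤ 3 ^ n * (C1 * (80000 * Real.exp (-(Real.sqrt n / 200))) +
          (C2 + C3) * ((2 * 10 ^ 12 * Real.exp 12500000) * Real.exp (-(Real.sqrt n / 200)))) := by
        refine mul_le_mul_of_nonneg_left ?_ (by positivity)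
        exact add_le_add (mul_le_mul_of_nonneg_left h9 hC1.le)
          (mul_le_mul_of_nonneg_left h10 (by positivity))
    _ = _ := by ring

end Pool.Agent.Lib.MP_f75418_nt.FF
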