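import Pool.Agent.Lib.MP_f75418_nt.FF.Defs
import Pool.Agent.Lib.MP_f75418_nt.FF.Level2
import Pool.Agent.Lib.MP_f75418_nt.FF.Facts

/-!
Row B2r. The sum of the remainders.

`RA_sum`: `(d, e) ↦ d * e` is injective for `d` without prime factors `< w` and `e` with all prime factors `< w`, the product
is `≤ D * w^(12b)` and coprime to `6` (`d`: prime factors `≥ w ≥ 5`; `e`: prime factors in `P5 (w-1)`, so `≥ 5`); note
`3^n / (d e)` with casts.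
`rlev`: with `w = ww η N`, `N = Nn n`, `D = ⌊N^(1-η)⌋₊`: `D * w^(12b) ≤ N^(1-η) N^(η/2) ≤ N ≤ exp (29/50 n)`, `level2`,
`NJ w ≤ log₂ w + 1 ≤ n + 1`, and `(n+2) C exp (-√n/200) ≤ 1/n²` for large `n`.
-/

open Finset

namespace Pool.Agent.Lib.MP_f75418_nt.FF

open Pool.Agent.Lib.MP_f75418_nt

private theorem rlev_coprime {w d e : ℕ} (hd : ∀ p, p.Prime → p ∣ d → w ≤ p)
    (he : ∀ p, p.Prime → p ∣ e → p ∈ P5 (w - 1)) : Nat.Coprime d e := by
  rw [Nat.coprime_iff_gcd_eq_one]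
  by_contra h
  obtain ⟨p, hp, hpd⟩ := Nat.exists_prime_and_dvd h
  have h1 := hd p hp (hpd.trans (Nat.gcd_dvd_left _ _))
  have h2 := he p hp (hpd.trans (Nat.gcd_dvd_right _ _))
  rw [mem_P5] at h2
  omega

theorem RA_sum (n w b D : ℕ) (hw : 5 ≤ w) :
    ∑ d ∈ DD w D, RA n w b d ≤ ((Pool.Agent.Lib.GT.NJ w : ℝ) + 1) *
      ∑ m ∈ (Finset.Icc 1 (D * w ^ (12 * b))).filter (fun m => Nat.Coprime m 6),
        |(Ad n m : ℝ) - 3 ^ n / m| := by
  classical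
  unfold RA
  rw [← Finset.mul_sum]
  refine mul_le_mul_of_nonneg_left ?_ (by positivity)
  set E := (Finset.Icc 1 (w ^ (12 * b))).filter (fun e => ∀ p, p.Prime → p ∣ e → p ∈ P5 (w - 1))
    with hE
  have hDD : ∀ d ∈ DD w D, (1 ≤ d ∧ d ≤ D) ∧ ∀ p, p.Prime → p ∣ d → w ≤ p := by
    intro d hd
    unfold DD at hd
    rw [Finset.mem_filter, Finset.mem_Icc] at hd
    exact hd
  have hEE : ∀ e ∈ E, (1 ≤ e ∧ e ≤ w ^ (12 * b)) ∧ ∀ p, p.Prime → p ∣ e → p ∈ P5 (w - 1) := by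
    intro e he
    rw [hE, Finset.mem_filter, Finset.mem_Icc] at he
    exact he
  have h1 : ∑ d ∈ DD w D, ∑ e ∈ E, |(Ad n (d * e) : ℝ) - 3 ^ n / ((d : ℝ) * e)| =
      ∑ x ∈ DD w D ×ˢ E, |(Ad n (x.1 * x.2) : ℝ) - 3 ^ n / ((x.1 * x.2 : ℕ) : ℝ)| := by
    rw [Finset.sum_product]
    refine Finset.sum_congr rfl fun d _ => Finset.sum_congr rfl fun e _ => ?_
    push_cast
    rfl
  have hinj : Set.InjOn (fun x : ℕ × ℕ => x.1 * x.2) ((DD w D ×ˢ E : Finset (ℕ × ℕ)) : Set (ℕ × ℕ)) := by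
    rintro ⟨d, e⟩ hx ⟨d', e'⟩ hy hxy
    have hx' := Finset.mem_product.1 (Finset.mem_coe.1 hx)
    have hy' := Finset.mem_product.1 (Finset.mem_coe.1 hy)
    have hd := hDD d hx'.1
    have hd' := hDD d' hy'.1
    have he := hEE e hx'.2
    have he' := hEE e' hy'.2
    have hxy' : d * e = d' * e' := hxy
    have h2 : d ∣ d' := by
      have h3 : d ∣ d' * e' := ⟨e, hxy'.symm⟩
      exact (rlev_coprime hd.2 he'.2).dvd_of_dvd_mul_right h3
    have h4 : d' ∣ d := by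
      have h3 : d' ∣ d * e := ⟨e', hxy'⟩
      exact (rlev_coprime hd'.2 he.2).dvd_of_dvd_mul_right h3
    have h5 : d = d' := Nat.dvd_antisymm h2 h4
    subst h5
    have h6 : e = e' := Nat.eq_of_mul_eq_mul_left hd.1.1 hxy'
    rw [h6]
  rw [h1, ← Finset.sum_image (f := fun m : ℕ => |(Ad n m : ℝ) - 3 ^ n / (m : ℝ)|) hinj]
  apply Finset.sum_le_sum_of_subset_of_nonneg
  · intro m hm
    obtain ⟨⟨d, e⟩, hx, rfl⟩ := Finset.mem_image.1 hm
    have hx' := Finset.mem_product.1 hx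
    have hd := hDD d hx'.1
    have he := hEE e hx'.2
    rw [Finset.mem_filter, Finset.mem_Icc]
    refine ⟨⟨Nat.mul_pos hd.1.1 he.1.1, Nat.mul_le_mul hd.1.2 he.1.2⟩, ?_⟩
    change Nat.Coprime (d * e) 6
    rw [Nat.coprime_comm, Nat.coprime_iff_gcd_eq_one]
    by_contra h
    obtain ⟨p, hp, hpd⟩ := Nat.exists_prime_and_dvd h
    have h7 : p ∣ 6 := hpd.trans (Nat.gcd_dvd_left _ _)
    have h8 : p ∣ d * e := hpd.trans (Nat.gcd_dvd_right _ _)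
    have h9 : p < 5 := by
      have h10 : p ≤ 6 := Nat.le_of_dvd (by norm_num) h7
      interval_cases p <;> first | omega | (exfalso; revert h7; decide) | (exfalso; revert hp; decide)
    rcases (Nat.Prime.dvd_mul hp).1 h8 with h10 | h10
    · have := hd.2 p hp h10
      omega
    · have := he.2 p hp h10
      rw [mem_P5] at this
      omega
  · intro m _ _
    exact abs_nonneg _

private theorem rlev_decay : ∃ K : ℝ, 0 < K ∧ ∀ n : ℕ, 1 ≤ n →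
    ((n : ℝ) + 2) * Real.exp (-(Real.sqrt n / 200)) ≤ K / (n : ℝ) ^ 3 := by
  refine ⟨3 * (200 ^ 8 * 40320), by positivity, fun n hn => ?_⟩
  have hn1 : (1 : ℝ) ≤ n := by exact_mod_cast hn
  have hs := Real.sq_sqrt (show (0 : ℝ) ≤ n from Nat.cast_nonneg _)
  have hs0 := Real.sqrt_nonneg (n : ℝ)
  set x := Real.sqrt n
  have h1 := Real.pow_div_factorial_le_exp (x / 200) (by positivity) 8
  have h2 : (x / 200) ^ 8 / ((8 : ℕ).factorial : ℝ) = (n : ℝ) ^ 4 / (200 ^ 8 * 40320) := by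
    have e : ((8 : ℕ).factorial : ℝ) = 40320 := by norm_num [Nat.factorial]
    rw [e, ← hs]
    ring
  rw [h2] at h1
  rw [Real.exp_neg, ← div_eq_mul_inv, div_le_div_iff₀ (Real.exp_pos _) (by positivity)]
  have h3 : (n : ℝ) ^ 4 ≤ 200 ^ 8 * 40320 * Real.exp (x / 200) := by
    rw [div_le_iff₀ (by positivity)] at h1
    linarith
  have h4 : ((n : ℝ) + 2) * (n : ℝ) ^ 3 ≤ 3 * (n : ℝ) ^ 4 := by
    have h5 : (0 : ℝ) ≤ (n : ℝ) ^ 3 := by positivity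
    nlinarith
  calc ((n : ℝ) + 2) * (n : ℝ) ^ 3 ≤ 3 * (n : ℝ) ^ 4 := h4
    _ ≤ 3 * (200 ^ 8 * 40320 * Real.exp (x / 200)) := by linarith
    _ = _ := by ring

theorem rlev (η : ℝ) (hη : 0 < η) (hη1 : η ≤ 1 / 8) (b : ℕ) (hb : 1 ≤ b)
    (h : ∃ n₁ : ℕ, ∀ n : ℕ, n₁ ≤ n →
      ((ww η (Nn n) : ℕ) : ℝ) ^ (12 * b) ≤ ((Nn n : ℕ) : ℝ) ^ (η / 2)) :
    ∃ n₂ : ℕ, ∀ n : ℕ, n₂ ≤ n →
      ∑ d ∈ DD (ww η (Nn n)) ⌊((Nn n : ℕ) : ℝ) ^ (1 - η)⌋₊, RA n (ww η (Nn n)) b d ≤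
        3 ^ n / (n : ℝ) ^ 2 := by
  classical
  obtain ⟨C, hC, hlev⟩ := level2
  obtain ⟨n₁, hn₁⟩ := h
  obtain ⟨K, hK, hdec⟩ := rlev_decay
  obtain ⟨n₃, hn₃⟩ := Nn_large (⌈(5 : ℝ) ^ (1 / η ^ 2)⌉₊ + 2)
  refine ⟨n₁ + n₃ + ⌈C * K⌉₊ + 1, fun n hn => ?_⟩
  have hnn1 : n₁ ≤ n := by omega
  have hnn3 : n₃ ≤ n := by omega
  have hnCK : C * K ≤ n := by
    have h1 : ⌈C * K⌉₊ ≤ n := by omega
    exact (Nat.le_ceil _).trans (by exact_mod_cast h1)
  have hn1 : 1 ≤ n := by omega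
  have hN5 := hn₃ n hnn3
  have hNle := Nn_le n
  have hw12 := hn₁ n hnn1
  set N := Nn n with hN
  set w := ww η N with hw
  set D := ⌊(N : ℝ) ^ (1 - η)⌋₊ with hD
  have hN2 : 2 ≤ N := by omega
  have hN2' : (2 : ℝ) ≤ N := by exact_mod_cast hN2
  have hN0 : (0 : ℝ) < N := by linarith
  have hη2 : 0 < η ^ 2 := by positivity
  have hη3 : η ^ 2 ≤ 1 := by nlinarith
  -- `5 ≤ w`
  have hw5 : 5 ≤ w := by
    have h1 : (5 : ℝ) ^ (1 / η ^ 2) ≤ N := by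
      refine (Nat.le_ceil _).trans ?_
      have h2 : ⌈(5 : ℝ) ^ (1 / η ^ 2)⌉₊ ≤ N := by omega
      exact_mod_cast h2
    have h2 : (5 : ℝ) ≤ (N : ℝ) ^ (η ^ 2) := by
      have h3 := Real.rpow_le_rpow (by positivity) h1 hη2.le
      rw [← Real.rpow_mul (by norm_num), one_div, inv_mul_cancel₀ hη2.ne', Real.rpow_one] at h3
      exact h3
    have h4 : (5 : ℝ) ≤ (w : ℝ) := h2.trans (Nat.le_ceil _)
    exact_mod_cast h4
  -- `w ≤ N`
  have hwN : w ≤ N := by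
    rw [hw]
    unfold ww
    rw [Nat.ceil_le]
    calc (N : ℝ) ^ (η ^ 2) ≤ (N : ℝ) ^ (1 : ℝ) :=
          Real.rpow_le_rpow_of_exponent_le (by linarith) hη3
      _ = N := Real.rpow_one _
  -- the range
  have hrange : ((D * w ^ (12 * b) : ℕ) : ℝ) ≤ Real.exp (29 / 50 * n) := by
    push_cast
    have h1 : (D : ℝ) ≤ (N : ℝ) ^ (1 - η) := Nat.floor_le (by positivity)
    calc (D : ℝ) * (w : ℝ) ^ (12 * b) ≤ (N : ℝ) ^ (1 - η) * (N : ℝ) ^ (η / 2) :=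
          mul_le_mul h1 hw12 (by positivity) (by positivity)
      _ = (N : ℝ) ^ (1 - η / 2) := by
          rw [← Real.rpow_add hN0]
          congr 1
          ring
      _ ≤ (N : ℝ) ^ (1 : ℝ) := Real.rpow_le_rpow_of_exponent_le (by linarith) (by linarith)
      _ = N := Real.rpow_one _
      _ ≤ _ := hNle
  -- `NJ w + 1 ≤ n + 2`
  have hNJ : ((Pool.Agent.Lib.GT.NJ w : ℕ) : ℝ) + 1 ≤ n + 2 := by
    have h1 : Nat.log 2 (Nat.log 2 w) ≤ Nat.log 2 w := Nat.log_le_self _ _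
    have h2 : ((Nat.log 2 w : ℕ) : ℝ) ≤ n := by
      have h3 : 2 ^ Nat.log 2 w ≤ w := Nat.pow_log_le_self 2 (by omega)
      have h4 : ((2 : ℝ)) ^ Nat.log 2 w ≤ Real.exp (29 / 50 * n) := by
        have h5 : ((2 : ℝ)) ^ Nat.log 2 w ≤ w := by exact_mod_cast h3
        have h6 : (w : ℝ) ≤ N := by exact_mod_cast hwN
        linarith
      have h5 := Real.log_le_log (by positivity) h4
      rw [Real.log_pow, Real.log_exp] at h5
      have h6 := Real.log_two_gt_d9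
      have h7 : ((Nat.log 2 w : ℕ) : ℝ) * (29 / 50) ≤ ((Nat.log 2 w : ℕ) : ℝ) * Real.log 2 :=
        mul_le_mul_of_nonneg_left (by linarith) (Nat.cast_nonneg _)
      linarith
    have h3 : ((Pool.Agent.Lib.GT.NJ w : ℕ) : ℝ) ≤ ((Nat.log 2 w : ℕ) : ℝ) + 1 := by
      have : Pool.Agent.Lib.GT.NJ w ≤ Nat.log 2 w + 1 := by
        unfold Pool.Agent.Lib.GT.NJ
        omega
      exact_mod_cast this
    linarith
  have h10 := RA_sum n w b D hw5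
  have h11 := hlev n (D * w ^ (12 * b)) hrange
  have hn0 : (1 : ℝ) ≤ n := by exact_mod_cast hn1
  calc ∑ d ∈ DD w D, RA n w b d
      ≤ ((Pool.Agent.Lib.GT.NJ w : ℝ) + 1) *
        ∑ m ∈ (Finset.Icc 1 (D * w ^ (12 * b))).filter (fun m => Nat.Coprime m 6),
          |(Ad n m : ℝ) - 3 ^ n / m| := h10
    _ ≤ (n + 2) * (C * 3 ^ n * Real.exp (-(Real.sqrt n / 200))) := by
        apply mul_le_mul hNJ h11 _ (by positivity)
        exact Finset.sum_nonneg fun m _ => abs_nonneg _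
    _ = C * 3 ^ n * (((n : ℝ) + 2) * Real.exp (-(Real.sqrt n / 200))) := by ring
    _ ≤ C * 3 ^ n * (K / (n : ℝ) ^ 3) := mul_le_mul_of_nonneg_left (hdec n hn1) (by positivity)
    _ ≤ 3 ^ n / (n : ℝ) ^ 2 := by
        rw [← mul_div_assoc, div_le_div_iff₀ (by positivity) (by positivity)]
        have h12 : C * 3 ^ n * K * (n : ℝ) ^ 2 = (C * K) * (3 ^ n * (n : ℝ) ^ 2) := by ring
        rw [h12]
        calc (C * K) * (3 ^ n * (n : ℝ) ^ 2) ≤ n * (3 ^ n * (n : ℝ) ^ 2) :=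
              mul_le_mul_of_nonneg_right hnCK (by positivity)
          _ = 3 ^ n * (n : ℝ) ^ 3 := by ring

end Pool.Agent.Lib.MP_f75418_nt.FF
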