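import Pool.Agent.Lib.MP_f75418_nt.FF.Defs
import Pool.Agent.Lib.MP_45349e_nt.LS.Win
import Pool.Agent.Lib.MP_45349e_nt.LS.Dec

/-!
Row B6w. The sum of the `W` for `b = true`. Only odd `j` count (`W_zero`). `j = 2i+1`, `i < i0`: `win` (part `true`),
`(9Λ²)^i ≤ (9Λ²)^i0`. `i ≥ i0`: `W_le_U`, `dec` (part `true`): `≤ 3 (5/6)^i ho (log D/log y)/log y`, geometric sum `≤ 18
(5/6)^i0`, and `ho s ≤ 1/s` (`s > 0`), so `ho (log D/log y)/log y ≤ 1/log D`.
-/

open Finset

namespace Pool.Agent.Lib.MP_f75418_nt.FF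

open Pool.Agent.Lib.MP_f75418_nt
open Pool.Agent.Lib.MP_45349e_nt.LS (P PS1 Small ho)

theorem sumWT (C : ℝ) (hC : 0 < C) (hPS : PS1 C) (w z : ℕ) (hw : 2 ≤ w) (L : ℝ)
    (hL : Small C w L) (Vv Λ : ℝ) (hV : 1 ≤ Vv) (hΛ1 : 1 ≤ Λ)
    (hΛ : ∑ p ∈ P w z, 1 / (p : ℝ) ≤ Λ) (i0 m : ℕ) (D : ℝ) (y : ℕ) (hD : 1 < D)
    (hDL : Real.log D ≤ L) (hwy : w ≤ y) (hyz : y ≤ z) (hyD : (y : ℝ) ≤ D) :
    ∑ j ∈ Finset.range m, MP_45349e_nt.LS.W w Vv j true D y ≤
      i0 * ((9 * Λ ^ 2) ^ i0 * ((3 * Real.log Vv + 9 * C) / (Real.log D) ^ 2)) +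
        18 * (5 / 6) ^ i0 / Real.log D := by
  have hlV : 0 ≤ Real.log Vv := Real.log_nonneg hV
  have hlD : 0 < Real.log D := Real.log_pos hD
  have hy2 : (2 : ℝ) ≤ (y : ℝ) := by exact_mod_cast hw.trans hwy
  have hly : 0 < Real.log y := Real.log_pos (by linarith)
  have hX : 0 ≤ (3 * Real.log Vv + 9 * C) / (Real.log D) ^ 2 := by positivity
  set A := (9 * Λ ^ 2) ^ i0 * ((3 * Real.log Vv + 9 * C) / (Real.log D) ^ 2) with hA
  have h1 : ∀ i, i < i0 → MP_45349e_nt.LS.W w Vv (2 * i + 1) true D y ≤ A := by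
    intro i hi
    refine ((MP_45349e_nt.LS.win C hC hPS w z hw Vv Λ hV hΛ i).1 D y hD hyz hyD).trans ?_
    rw [hA]
    refine mul_le_mul_of_nonneg_right ?_ hX
    exact pow_le_pow_right₀ (by nlinarith) hi.le
  have hho : ho (Real.log D / Real.log y) / Real.log y ≤ 1 / Real.log D := by
    unfold MP_45349e_nt.LS.ho
    have h2 : Real.exp (-(max (Real.log D / Real.log y - 3) 0)) ≤ 1 := by
      rw [Real.exp_le_one_iff]
      have := le_max_right (Real.log D / Real.log y - 3) 0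
      linarith
    have h3 : Real.exp (-(max (Real.log D / Real.log y - 3) 0)) / (Real.log D / Real.log y) /
        Real.log y = Real.exp (-(max (Real.log D / Real.log y - 3) 0)) / Real.log D := by
      field_simp
    rw [h3]
    exact div_le_div_of_nonneg_right h2 hlD.le
  set K : ℝ := 3 / Real.log D with hK
  have hK0 : 0 < K := by positivity
  have h2 : ∀ i, MP_45349e_nt.LS.W w Vv (2 * i + 1) true D y ≤ K * (5 / 6) ^ i := by
    intro i
    refine le_trans (MP_45349e_nt.LS.W_le_U w Vv _ _ _ _)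
      (le_trans ((MP_45349e_nt.LS.dec C hC hPS w L hL i).1 D y hDL hwy hyD) ?_)
    have h3 : 3 * (5 / 6 : ℝ) ^ i * ho (Real.log D / Real.log y) / Real.log y =
        3 * (5 / 6 : ℝ) ^ i * (ho (Real.log D / Real.log y) / Real.log y) := by ring
    rw [h3]
    have h4 : (0 : ℝ) ≤ 3 * (5 / 6 : ℝ) ^ i := by positivity
    refine (mul_le_mul_of_nonneg_left hho h4).trans (le_of_eq ?_)
    rw [hK]
    ring
  have ha : ∀ k, k ≤ i0 →
      ∑ i ∈ Finset.range k, MP_45349e_nt.LS.W w Vv (2 * i + 1) true D y ≤ k * A := by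
    intro k
    induction k with
    | zero => intro _; simp
    | succ k ih =>
      intro hk
      rw [Finset.sum_range_succ]
      have h3 := ih (by omega)
      have h4 := h1 k (by omega)
      push_cast
      linarith
  have hb : ∀ k, i0 ≤ k →
      ∑ i ∈ Finset.range k, MP_45349e_nt.LS.W w Vv (2 * i + 1) true D y ≤
        i0 * A + K * (6 * (5 / 6) ^ i0 - 6 * (5 / 6) ^ k) := by
    intro k hk
    induction k, hk using Nat.le_induction with
    | base =>
      rw [sub_self, mul_zero, add_zero]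
      exact ha i0 le_rfl
    | succ k hk ih =>
      rw [Finset.sum_range_succ]
      have h3 := h2 k
      have h4 : K * (6 * (5 / 6) ^ i0 - 6 * (5 / 6) ^ (k + 1)) =
          K * (6 * (5 / 6) ^ i0 - 6 * (5 / 6) ^ k) + K * (5 / 6) ^ k := by
        rw [pow_succ]
        ring
      rw [h4]
      linarith
  have hsplit : ∀ k, ∑ j ∈ Finset.range (2 * k), MP_45349e_nt.LS.W w Vv j true D y =
      ∑ i ∈ Finset.range k, MP_45349e_nt.LS.W w Vv (2 * i + 1) true D y := by
    intro k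
    induction k with
    | zero => simp
    | succ k ih =>
      have e : 2 * (k + 1) = 2 * k + 1 + 1 := by ring
      rw [e, Finset.sum_range_succ, Finset.sum_range_succ, Finset.sum_range_succ, ih]
      rw [MP_45349e_nt.LS.W_zero w Vv (2 * k) true D y (by
        rw [if_pos rfl]
        exact even_two_mul k), add_zero]
  calc ∑ j ∈ Finset.range m, MP_45349e_nt.LS.W w Vv j true D y
      ≤ ∑ j ∈ Finset.range (2 * (m + i0)), MP_45349e_nt.LS.W w Vv j true D y := by
        refine Finset.sum_le_sum_of_subset_of_nonneg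
          (Finset.range_subset_range.mpr (by omega)) ?_
        intro j _ _
        exact MP_45349e_nt.LS.W_nonneg w Vv j true D y
    _ = ∑ i ∈ Finset.range (m + i0), MP_45349e_nt.LS.W w Vv (2 * i + 1) true D y := hsplit _
    _ ≤ i0 * A + K * (6 * (5 / 6) ^ i0 - 6 * (5 / 6) ^ (m + i0)) := hb _ (by omega)
    _ ≤ i0 * A + 18 * (5 / 6) ^ i0 / Real.log D := by
        have h5 : (0 : ℝ) ≤ K * (6 * (5 / 6) ^ (m + i0)) := by positivity
        have h6 : K * (6 * (5 / 6 : ℝ) ^ i0) = 18 * (5 / 6) ^ i0 / Real.log D := by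
          rw [hK]
          ring
        have h7 : K * (6 * (5 / 6 : ℝ) ^ i0 - 6 * (5 / 6) ^ (m + i0)) =
            K * (6 * (5 / 6 : ℝ) ^ i0) - K * (6 * (5 / 6) ^ (m + i0)) := by ring
        linarith

end Pool.Agent.Lib.MP_f75418_nt.FF
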