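import Pool.Agent.Lib.MP_f75418_nt.FF.Defs
import Pool.Agent.Lib.MP_f75418_nt.FF.WTrue
import Pool.Agent.Lib.MP_f75418_nt.FF.Facts
import Pool.Agent.Lib.MP_45349e_nt.LS.PSum
import Pool.Agent.Lib.MP_45349e_nt.LS.WSum

/-!
Row B6n. Sizes in the upper bound sieve (see LS/WSum.lean, `wsum`, for the analogous computation).

`prodLe`: `psum4` (`∏_{P w y} (1+1/p) ≤ C log y/log w`), `log w ≥ η² log N`, `log y ≤ log N`.
`invLe`: `psum2`: `∑ 1/p ≤ log (log yy/log zz) + C/log zz`, `log (19/4) = 1.558`.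
`sizes`: for `z ≤ p ≤ N^(124/125)`: `N/p ≥ N^(1/125)`, so `yp N p ≥ N^(1/250) - 2 ≥ N^(η²) + 1 ≥ ww η N` (`4/19 > 1/250`; natural
division and `Nat.sqrt` lose at most `1` each); `(yp)² ≤ N/p` and `yp ≤ N^(-η) N/p` because `(N/p)^(1/2) ≥ N^(1/250) ≥ N^η`;
`N^(1-η)/p ≥ N^(1/125 - 1/1000) > 1`.
`wTrue`: `sumWT` with `L = log N`, `Vv = N^η`, `D = N^(1-η)/p`, `log D ≥ 0.007 log N`, `z = zz N`, `Λ = 1 + log (1/η²)` (as in
`wsum`): `(3 η log N + 9C)/(0.007 log N)² ≤ 10^5 η/log N` for large `N`, `18/0.007 ≤ 2600`.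
-/

open Finset

namespace Pool.Agent.Lib.MP_f75418_nt.FF

open Pool.Agent.Lib.MP_f75418_nt
open Pool.Agent.Lib.MP_45349e_nt.LS (P PS1 Small)

private theorem upNum_large (K : ℝ) : ∃ N₁ : ℕ, ∀ N : ℕ, N₁ ≤ N → K ≤ Real.log N ∧ (1 : ℝ) < N := by
  refine ⟨⌈Real.exp (max K 1)⌉₊, fun N hN => ?_⟩
  have hNe : Real.exp (max K 1) ≤ N := (Nat.le_ceil _).trans (by exact_mod_cast hN)
  have hN0 : (0 : ℝ) < N := (Real.exp_pos _).trans_le hNe
  have h1 : max K 1 ≤ Real.log N := (Real.le_log_iff_exp_le hN0).mpr hNe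
  refine ⟨(le_max_left _ _).trans h1, ?_⟩
  have h2 : (1 : ℝ) < Real.exp (max K 1) :=
    Real.one_lt_exp_iff.2 (lt_of_lt_of_le one_pos (le_max_right _ _))
  exact h2.trans_le hNe

private theorem upNum_logzz {N : ℕ} (hN : (1 : ℝ) < N) (h2 : 2 ≤ Real.log N) :
    Real.log (zz N) ≤ Real.log N := by
  have hN0 : (0 : ℝ) < N := by linarith
  have h3 : (1 : ℝ) ≤ (N : ℝ) ^ (4 / 19 : ℝ) := Real.one_le_rpow hN.le (by norm_num)
  have h4 : (zz N : ℝ) ≤ 2 * (N : ℝ) ^ (4 / 19 : ℝ) := by linarith [zz_le N]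
  have h5 : (0 : ℝ) < zz N := by
    have := lt_zz N
    linarith
  have h6 := Real.log_le_log h5 h4
  rw [Real.log_mul (by norm_num) (by linarith), Real.log_rpow hN0] at h6
  have h7 := Real.log_two_lt_d9
  linarith

private theorem upNum_logww {N : ℕ} {η : ℝ} (hN : (1 : ℝ) < N) :
    η ^ 2 * Real.log N ≤ Real.log (ww η N) := by
  have hN0 : (0 : ℝ) < N := by linarith
  have h1 : (N : ℝ) ^ (η ^ 2) ≤ ww η N := Nat.le_ceil _
  have h2 := Real.log_le_log (Real.rpow_pos_of_pos hN0 _) h1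
  rwa [Real.log_rpow hN0] at h2

private theorem upNum_ww2 {N : ℕ} {η : ℝ} (hη : 0 < η) (hN : (1 : ℝ) < N) : 2 ≤ ww η N := by
  have h1 : (N : ℝ) ^ (η ^ 2) ≤ ww η N := Nat.le_ceil _
  have h2 : (1 : ℝ) < ww η N := (Real.one_lt_rpow hN (by positivity)).trans_le h1
  have h3 : 1 < ww η N := by exact_mod_cast h2
  omega

private theorem upNum_wwz {N : ℕ} {η : ℝ} (hη : 0 < η) (hη1 : η ≤ 1 / 1000) (hN : (1 : ℝ) < N) :
    ww η N ≤ zz N := by
  have h1 : η ^ 2 ≤ 4 / 19 := by nlinarith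
  refine (Nat.ceil_le_ceil (Real.rpow_le_rpow_of_exponent_le hN.le h1)).trans ?_
  exact Nat.ceil_le_floor_add_one _

theorem prodLe : ∃ C : ℝ, 0 < C ∧ ∀ η : ℝ, 0 < η → η ≤ 1 / 1000 → ∃ N₁ : ℕ, ∀ N : ℕ, N₁ ≤ N →
    ∀ y : ℕ, ww η N ≤ y → y ≤ zz N →
      ∏ q ∈ P (ww η N) y, (1 + 1 / (q : ℝ)) ≤ C / η ^ 2 := by
  obtain ⟨C, hC, hp⟩ := MP_45349e_nt.LS.psum4
  refine ⟨C, hC, fun η hη hη1 => ?_⟩
  obtain ⟨N₁, hN₁⟩ := upNum_large 2
  refine ⟨N₁, fun N hN y hwy hyz => ?_⟩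
  obtain ⟨h2, hN1⟩ := hN₁ N hN
  have hl : 0 < Real.log N := by linarith
  have hw2 := upNum_ww2 hη hN1
  refine (hp (ww η N) y hw2 hwy).trans ?_
  have h8 : C / η ^ 2 = C * (1 / η ^ 2) := by ring
  rw [h8]
  refine mul_le_mul_of_nonneg_left ?_ hC.le
  have h3 := upNum_logww (η := η) hN1
  have h4 : Real.log y ≤ Real.log N := by
    refine le_trans (Real.log_le_log ?_ ?_) (upNum_logzz hN1 h2)
    · exact_mod_cast (show 0 < y by omega)
    · exact_mod_cast hyz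
  have h5 : 0 < η ^ 2 * Real.log N := by positivity
  rw [div_le_div_iff₀ (h5.trans_le h3) (by positivity)]
  have h6 := mul_le_mul_of_nonneg_left h4 (show 0 ≤ η ^ 2 by positivity)
  linarith

theorem invLe : ∃ N₁ : ℕ, ∀ N : ℕ, N₁ ≤ N → ∑ p ∈ P (zz N) (yy N), 1 / (p : ℝ) ≤ 2 := by
  obtain ⟨C, hC, hp⟩ := MP_45349e_nt.LS.psum2
  obtain ⟨N₁, hN₁⟩ := upNum_large (100 * C + 10)
  refine ⟨N₁, fun N hN => ?_⟩
  obtain ⟨h2, hN1⟩ := hN₁ N hN
  have hN0 : (0 : ℝ) < N := by linarith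
  have hl : 10 < Real.log N := by linarith
  have hu : (2 : ℝ) ≤ (N : ℝ) ^ (4 / 19 : ℝ) := by
    rw [← Real.log_le_log_iff (by norm_num) (Real.rpow_pos_of_pos hN0 _), Real.log_rpow hN0]
    have h7 := Real.log_two_lt_d9
    linarith
  have huv : (N : ℝ) ^ (4 / 19 : ℝ) ≤ (N : ℝ) ^ (124 / 125 : ℝ) :=
    Real.rpow_le_rpow_of_exponent_le hN1.le (by norm_num)
  have h3 := hp _ _ hu huv (P (zz N) (yy N)) (fun p hp => by
    obtain ⟨h4, h5, h6⟩ := mem_zy.1 hp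
    exact ⟨h4, h5.le, h6⟩)
  rw [Real.log_rpow hN0, Real.log_rpow hN0] at h3
  have h4 : 124 / 125 * Real.log N / (4 / 19 * Real.log N) = 589 / 125 := by
    field_simp
    norm_num
  rw [h4] at h3
  have h5 : Real.log (589 / 125) ≤ 1.9 := by
    rw [Real.log_le_iff_le_exp (by norm_num)]
    have h6 : Real.exp 1.9 = Real.exp 1 * Real.exp 0.9 := by
      rw [← Real.exp_add]
      norm_num
    have h7 := Real.exp_one_gt_d9
    have h8 := Real.add_one_le_exp (0.9 : ℝ)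
    rw [h6]
    nlinarith
  have h6 : C / (4 / 19 * Real.log N) ≤ 0.1 := by
    rw [div_le_iff₀ (by positivity)]
    linarith
  linarith

private theorem upNum_p {N p : ℕ} (hN : (1 : ℝ) < N) (hp : p ∈ P (zz N) (yy N)) :
    (0 : ℝ) < p ∧ Real.log p ≤ 124 / 125 * Real.log N := by
  obtain ⟨h1, h2, h3⟩ := mem_zy.1 hp
  have hp0 : (0 : ℝ) < p := by exact_mod_cast h1.pos
  have hN0 : (0 : ℝ) < N := by linarith
  refine ⟨hp0, ?_⟩
  have := Real.log_le_log hp0 h3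
  rwa [Real.log_rpow hN0] at this

private theorem upNum_logD {N p : ℕ} {η : ℝ} (hN : (1 : ℝ) < N) (hp : (0 : ℝ) < p) :
    Real.log ((N : ℝ) ^ (1 - η) / p) = (1 - η) * Real.log N - Real.log p := by
  have hN0 : (0 : ℝ) < N := by linarith
  rw [Real.log_div (Real.rpow_pos_of_pos hN0 _).ne' hp.ne', Real.log_rpow hN0]

private theorem upNum_sizes {η : ℝ} (hη : 0 < η) (hη1 : η ≤ 1 / 1000) {N : ℕ}
    (hN1 : (1 : ℝ) < N) (hl : 1000 ≤ Real.log N) :
    ∀ p ∈ P (zz N) (yy N), ww η N ≤ yp N p ∧ yp N p ≤ zz N ∧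
      (yp N p : ℝ) ≤ (N : ℝ) ^ (1 - η) / p ∧ 1 < (N : ℝ) ^ (1 - η) / p := by
  intro p hp
  obtain ⟨hp0, hlp⟩ := upNum_p hN1 hp
  have hN0 : (0 : ℝ) < N := by linarith
  have hl0 : 0 < Real.log N := by linarith
  have hpn : 0 < p := by exact_mod_cast hp0
  have hηl : η * Real.log N ≤ 1 / 1000 * Real.log N := mul_le_mul_of_nonneg_right hη1 hl0.le
  have hηl0 : 0 < η * Real.log N := by positivity
  have hD0 : 0 < (N : ℝ) ^ (1 - η) / p := div_pos (Real.rpow_pos_of_pos hN0 _) hp0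
  refine ⟨?_, yp_le N p, ?_, ?_⟩
  · unfold yp
    refine le_min (upNum_wwz hη hη1 hN1) ?_
    rw [Nat.le_sqrt, Nat.le_div_iff_mul_le hpn]
    have h1 : (ww η N : ℝ) ≤ 2 * (N : ℝ) ^ (η ^ 2) := by
      have h2 : (ww η N : ℝ) < (N : ℝ) ^ (η ^ 2) + 1 := Nat.ceil_lt_add_one (by positivity)
      have h3 : 1 ≤ (N : ℝ) ^ (η ^ 2) := Real.one_le_rpow hN1.le (by positivity)
      linarith
    have hw0 : (0 : ℝ) < ww η N := by
      have := upNum_ww2 hη hN1
      exact_mod_cast (show 0 < ww η N by omega)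
    have h4 : Real.log (ww η N) ≤ Real.log 2 + η ^ 2 * Real.log N := by
      have h5 := Real.log_le_log hw0 h1
      rwa [Real.log_mul (by norm_num) (Real.rpow_pos_of_pos hN0 _).ne', Real.log_rpow hN0] at h5
    have h6 : Real.log ((ww η N : ℝ) * ww η N * p) ≤ Real.log N := by
      rw [Real.log_mul (by positivity) hp0.ne', Real.log_mul hw0.ne' hw0.ne']
      have h7 := Real.log_two_lt_d9
      have h8 : η ^ 2 * Real.log N ≤ 1 / 1000 * Real.log N := by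
        refine mul_le_mul_of_nonneg_right ?_ hl0.le
        nlinarith
      linarith
    have h9 := (Real.log_le_log_iff (by positivity) hN0).1 h6
    exact_mod_cast h9
  · rcases Nat.eq_zero_or_pos (yp N p) with h0 | h0
    · rw [h0, Nat.cast_zero]
      exact hD0.le
    have hy0 : (0 : ℝ) < yp N p := by exact_mod_cast h0
    have h1 : yp N p * yp N p * p ≤ N := by
      rw [← Nat.le_div_iff_mul_le hpn, ← Nat.le_sqrt]
      exact min_le_right _ _
    have h2 : (yp N p : ℝ) * yp N p * p ≤ N := by exact_mod_cast h1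
    have h3 := Real.log_le_log (by positivity) h2
    rw [Real.log_mul (by positivity) hp0.ne', Real.log_mul hy0.ne' hy0.ne'] at h3
    rw [← Real.log_le_log_iff hy0 hD0, upNum_logD hN1 hp0]
    linarith
  · rw [← Real.log_lt_log_iff one_pos hD0, upNum_logD hN1 hp0, Real.log_one]
    linarith

theorem sizes (η : ℝ) (hη : 0 < η) (hη1 : η ≤ 1 / 1000) : ∃ N₁ : ℕ, ∀ N : ℕ, N₁ ≤ N →
    ∀ p ∈ P (zz N) (yy N), ww η N ≤ yp N p ∧ yp N p ≤ zz N ∧
      (yp N p : ℝ) ≤ (N : ℝ) ^ (1 - η) / p ∧ 1 < (N : ℝ) ^ (1 - η) / p := by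
  obtain ⟨N₁, hN₁⟩ := upNum_large 1000
  refine ⟨N₁, fun N hN => ?_⟩
  obtain ⟨h2, hN1⟩ := hN₁ N hN
  exact upNum_sizes hη hη1 hN1 h2

theorem wTrue (i0 : ℕ) (η : ℝ) (hη : 0 < η) (hη1 : η ≤ 1 / 1000) : ∃ N₁ : ℕ, ∀ N : ℕ, N₁ ≤ N →
    ∀ p ∈ P (zz N) (yy N), ∑ j ∈ Finset.range (yp N p + 1),
      MP_45349e_nt.LS.W (ww η N) (N / (N : ℝ) ^ (1 - η)) j true ((N : ℝ) ^ (1 - η) / p) (yp N p) ≤
      (i0 * ((9 * (1 + Real.log (1 / η ^ 2)) ^ 2) ^ i0 * (10 ^ 6 * η)) + 3600 * (5 / 6) ^ i0) /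
        Real.log N := by
  obtain ⟨C, hC, hPS⟩ := MP_45349e_nt.LS.psum1
  obtain ⟨C2, hC2, hP2⟩ := MP_45349e_nt.LS.psum2
  have ha : 0 < η ^ 2 := by positivity
  set a := η ^ 2 with hadef
  set K : ℝ := 1000 + 9 * C / a + C / a ^ 2 + 200 * ((200 / a + 1) * C) / a ^ 2 + C2 / a +
    9 * C / η with hK
  have k2 : 0 ≤ 9 * C / a := by positivity
  have k3 : 0 ≤ C / a ^ 2 := by positivity
  have k4 : 0 ≤ 200 * ((200 / a + 1) * C) / a ^ 2 := by positivity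
  have k5 : 0 ≤ C2 / a := by positivity
  have k6 : 0 ≤ 9 * C / η := by positivity
  obtain ⟨N₁, hN₁⟩ := upNum_large K
  refine ⟨N₁, fun N hN p hp => ?_⟩
  obtain ⟨hKl, hN1⟩ := hN₁ N hN
  set l := Real.log N with hl
  have hl1 : 1000 ≤ l := by linarith
  have hl0 : 0 < l := by linarith
  have hN0 : (0 : ℝ) < N := by linarith
  have c2 : 9 * C ≤ a * l := by
    have : 9 * C / a ≤ l := by linarith
    rw [div_le_iff₀ ha] at this
    linarith
  have c3 : C ≤ a ^ 2 * l := by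
    have : C / a ^ 2 ≤ l := by linarith
    rw [div_le_iff₀ (by positivity)] at this
    linarith
  have c4 : 200 * ((200 / a + 1) * C) ≤ a ^ 2 * l := by
    have : 200 * ((200 / a + 1) * C) / a ^ 2 ≤ l := by linarith
    rw [div_le_iff₀ (by positivity)] at this
    linarith
  have c5 : C2 ≤ a * l := by
    have : C2 / a ≤ l := by linarith
    rw [div_le_iff₀ ha] at this
    linarith
  have c6 : 9 * C ≤ η * l := by
    have : 9 * C / η ≤ l := by linarith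
    rw [div_le_iff₀ hη] at this
    linarith
  obtain ⟨hwy, hyz, hyD, hD1⟩ := upNum_sizes hη hη1 hN1 hl1 p hp
  obtain ⟨hp0, hlp⟩ := upNum_p hN1 hp
  set D0 := (N : ℝ) ^ (1 - η) with hD0
  set w := ww η N with hw
  have hlogD0 : Real.log D0 = (1 - η) * l := by rw [hD0, Real.log_rpow hN0]
  have hD0pos : 0 < D0 := Real.rpow_pos_of_pos hN0 _
  have hVlog : Real.log (N / D0) = η * l := by
    rw [Real.log_div hN0.ne' hD0pos.ne', hlogD0]
    ring
  have hV1 : 1 ≤ N / D0 := by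
    rw [le_div_iff₀ hD0pos, one_mul]
    calc D0 ≤ (N : ℝ) ^ (1 : ℝ) := Real.rpow_le_rpow_of_exponent_le hN1.le (by linarith)
      _ = N := Real.rpow_one _
  have hlogD : Real.log (D0 / p) = (1 - η) * l - Real.log p := upNum_logD hN1 hp0
  have hηl : η * l ≤ 1 / 1000 * l := mul_le_mul_of_nonneg_right hη1 hl0.le
  have hηl0 : 0 < η * l := by positivity
  have hp1 : 0 ≤ Real.log p := Real.log_natCast_nonneg p
  have hlogDge : 7 / 1000 * l ≤ Real.log (D0 / p) := by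
    rw [hlogD]
    linarith
  have hlogDle : Real.log (D0 / p) ≤ l := by
    rw [hlogD]
    linarith
  have hw2 : 2 ≤ w := upNum_ww2 hη hN1
  have hlw : a * l ≤ Real.log w := upNum_logww hN1
  have hlw0 : 0 < Real.log w := lt_of_lt_of_le (by positivity) hlw
  have hsmall : Small C w l := by
    obtain ⟨s1, s2, s3⟩ := MP_45349e_nt.LS.WSum_small hC ha hl0 hlw le_rfl hl0 c2 c3 c4
    exact ⟨hw2, s1, s2, s3⟩
  have hwz : w ≤ zz N := upNum_wwz hη hη1 hN1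
  set Λ := 1 + Real.log (1 / a) with hΛdef
  have ha1 : a ≤ 1 := pow_le_one₀ hη.le (by linarith)
  have hΛ1 : 1 ≤ Λ := by
    have h1 : 0 ≤ Real.log (1 / a) := by
      apply Real.log_nonneg
      rw [le_div_iff₀ ha]
      linarith
    linarith
  have hΛ : ∑ p ∈ P w (zz N), 1 / (p : ℝ) ≤ Λ := by
    have h1 := hP2 w (zz N) (by exact_mod_cast hw2) (by exact_mod_cast hwz) (P w (zz N)) (by
      intro p hp
      unfold P at hp
      rw [Finset.mem_filter, Finset.mem_Ico] at hp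
      exact ⟨hp.2, by exact_mod_cast hp.1.1, by exact_mod_cast hp.1.2.le⟩)
    have hz0 : 0 < Real.log (zz N) := by
      refine hlw0.trans_le (Real.log_le_log ?_ ?_)
      · exact_mod_cast (show 0 < w by omega)
      · exact_mod_cast hwz
    have h2 : Real.log (Real.log (zz N) / Real.log w) ≤ Real.log (1 / a) := by
      apply Real.log_le_log (by positivity)
      rw [div_le_div_iff₀ hlw0 ha]
      have h3 := mul_le_mul_of_nonneg_right (upNum_logzz hN1 (by linarith)) ha.le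
      linarith
    have h3 : C2 / Real.log w ≤ 1 := by
      rw [div_le_one hlw0]
      exact c5.trans hlw
    linarith
  have hA := sumWT C hC hPS w (zz N) hw2 l hsmall (N / D0) Λ hV1 hΛ1 hΛ i0 (yp N p + 1) (D0 / p)
    (yp N p) hD1 hlogDle hwy hyz hyD
  refine hA.trans ?_
  rw [hVlog]
  have hΛ0 : 0 ≤ Λ := by linarith
  have hsum : ((i0 : ℝ) * ((9 * Λ ^ 2) ^ i0 * (10 ^ 6 * η)) + 3600 * (5 / 6) ^ i0) / l =
      (i0 : ℝ) * ((9 * Λ ^ 2) ^ i0 * (10 ^ 6 * η)) / l + 3600 * (5 / 6) ^ i0 / l := add_div _ _ _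
  rw [hsum]
  refine add_le_add ?_ ?_
  · have h1 : (3 * (η * l) + 9 * C) / (Real.log (D0 / p)) ^ 2 ≤ 10 ^ 6 * η / l := by
      have h2 : (7 / 1000 * l) ^ 2 ≤ (Real.log (D0 / p)) ^ 2 :=
        pow_le_pow_left₀ (by positivity) hlogDge 2
      refine (div_le_div_of_nonneg_left (by positivity) (by positivity) h2).trans ?_
      rw [div_le_div_iff₀ (by positivity) hl0]
      have h3 : (3 * (η * l) + 9 * C) * l ≤ (4 * (η * l)) * l :=
        mul_le_mul_of_nonneg_right (by linarith) hl0.le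
      refine h3.trans ?_
      have h4 : 0 ≤ η * l * l := by positivity
      have h5 : 10 ^ 6 * η * (7 / 1000 * l) ^ 2 = 49 * (η * l * l) := by ring
      rw [h5]
      linarith
    have h2 : (i0 : ℝ) * ((9 * Λ ^ 2) ^ i0 * (10 ^ 6 * η)) / l =
        i0 * ((9 * Λ ^ 2) ^ i0 * (10 ^ 6 * η / l)) := by ring
    rw [h2]
    gcongr
  · rw [div_le_div_iff₀ ((by positivity : 0 < 7 / 1000 * l).trans_le hlogDge) hl0]
    have h1 : 0 < (5 / 6 : ℝ) ^ i0 := by positivity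
    have h2 := mul_le_mul_of_nonneg_left hlogDge
      (show 0 ≤ 3600 * (5 / 6 : ℝ) ^ i0 by positivity)
    have h3 : 0 < (5 / 6 : ℝ) ^ i0 * l := by positivity
    nlinarith

end Pool.Agent.Lib.MP_f75418_nt.FF
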