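import Pool.Agent.Lib.MP_f75418_nt.FF.Defs
import Pool.Agent.Lib.MP_f75418_nt.FF.Cmp
import Pool.Agent.Lib.MP_f75418_nt.FF.LowA
import Pool.Agent.Lib.MP_f75418_nt.FF.Rlev
import Pool.Agent.Lib.MP_f75418_nt.FF.UpNum
import Pool.Agent.Lib.MP_f75418_nt.FF.Facts
import Pool.Agent.Lib.MP_45349e_nt.LS.Main2
import Pool.Agent.Lib.MP_45349e_nt.LS.ParEta
import Pool.Agent.Lib.MP_45349e_nt.LS.WSum

/-!
Row B5. The lower bound, final form (compare the proof of `linear_sieve` in LS/Main2.lean).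

`ι = Fin n → Fin 3`, `I = univ`, `a = aA n w`, `H = HA n`, `w = ww η N`, `z = zz N = ⌊N^(4/19)⌋ + 1`, `D0 = N^(1-η)`, `ρ = 3·3^n/N`,
`B = C₁ 2^(-1/(4ηK))/η² 3^n/n` (row B4), `R = RA n w b`. `SS_M [] z = M0 N z` (`main2_mod`), `SS_A [] z = SA n z` (primes `< w`
by `aA`, primes in `[w, z)` by `SS`). Errors: `B ∏ ≤ C 2^(-1/(4ηK))/η⁴ 3^n/n` (`prodLe`), `∑ R ≤ 3^n/n²` (`rlev`),
`ρ 2 D0 ∏ ≤ C 3^n N^(-η)/η²`, `ρ C N ∑ W ≤ 3·3^n C (i0 (..) 13η + 15 (5/6)^i0 19/4)/log N` (`wsum (4/19) i0 η`),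
`log N ≥ n/2`. Choose first `i0`, then `η` by `parEta` (also `η ≤ 1/1000`: use `θ = 249/500` in `parEta`, which gives
`η < 1/500`, and `K` at least `125`), then `n` large.
-/

open Finset

namespace Pool.Agent.Lib.MP_f75418_nt.FF

open Pool.Agent.Lib.MP_f75418_nt
open Pool.Agent.Lib.MP_45349e_nt.LS (P Chn AA SS V am Hm)

open Classical in
private theorem low_SA (n w z : ℕ) (hwz : w ≤ z) :
    SS w Finset.univ (aA n w) (HA n) [] z = (SA n z : ℝ) := by
  unfold SS SA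
  rw [Finset.card_filter]
  push_cast
  refine Finset.sum_congr rfl fun b _ => ?_
  by_cases h : ∀ p, p.Prime → p < z → ¬ p ∣ av n b
  · have h1 : (∀ p ∈ ([] : List ℕ), HA n p b) ∧ ∀ p ∈ P w z, ¬ HA n p b := by
      refine ⟨fun p hp => by simp at hp, fun p hp => ?_⟩
      rw [mem_P] at hp
      exact h p hp.2 hp.1.2
    rw [if_pos h1, if_pos h]
    unfold aA
    rw [if_pos]
    intro p hp
    rw [mem_P] at hp
    exact h p hp.2 (lt_of_lt_of_le hp.1.2 hwz)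
  · rw [if_neg h]
    by_cases h1 : (∀ p ∈ ([] : List ℕ), HA n p b) ∧ ∀ p ∈ P w z, ¬ HA n p b
    · rw [if_pos h1]
      unfold aA
      rw [if_neg]
      intro h3
      apply h
      intro p hp hpz
      rcases Nat.lt_or_ge p w with h4 | h4
      · exact h3 p (mem_P.mpr ⟨⟨hp.two_le, h4⟩, hp⟩)
      · exact h1.2 p (mem_P.mpr ⟨⟨h4, hpz⟩, hp⟩)
    · rw [if_neg h1]

private theorem low_M0 (N w z : ℕ) (hwz : w ≤ z) :
    SS w (Finset.Icc 1 N) (am w) Hm [] z = M0 N z := by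
  rw [MP_45349e_nt.LS.main2_mod w z N hwz]
  unfold M0
  rfl

private theorem low_RA_nonneg (n w b d : ℕ) : 0 ≤ RA n w b d := by
  unfold RA
  exact mul_nonneg (by positivity) (Finset.sum_nonneg fun e _ => abs_nonneg _)

private theorem low_aA_nonneg (n w : ℕ) (b : Fin n → Fin 3) : 0 ≤ aA n w b := by
  unfold aA
  split_ifs
  · exact zero_le_one
  · exact le_refl _

theorem low (ε : ℝ) (hε : 0 < ε) : ∃ n₀ : ℕ, ∀ n : ℕ, n₀ ≤ n →
    3 * 3 ^ n / (Nn n : ℕ) * M0 (Nn n) (zz (Nn n)) - ε * 3 ^ n / n ≤ (SA n (zz (Nn n)) : ℝ) := by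
  classical
  obtain ⟨C1, hC1, hmain⟩ := lowA
  obtain ⟨Cd, hCd, K, hK, hcmp⟩ := cmp
  obtain ⟨C4, hC4, hprodLe⟩ := prodLe
  set c : ℝ := ε / 48 with hcdef
  have hc : 0 < c := by positivity
  -- choice of `i0`
  obtain ⟨i0, hi0⟩ : ∃ i0 : ℕ, C1 * (15 * (5 / 6 : ℝ) ^ i0 / (4 / 19)) ≤ c := by
    have h1 := (tendsto_pow_atTop_nhds_zero_of_lt_one (show (0 : ℝ) ≤ 5 / 6 by norm_num)
      (by norm_num)).const_mul (C1 * (15 / (4 / 19)))
    rw [mul_zero] at h1
    obtain ⟨i0, h2⟩ := (h1.eventually (Iic_mem_nhds hc)).exists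
    refine ⟨i0, le_trans (le_of_eq ?_) h2⟩
    ring
  have hK' : 1 ≤ max K 125 := le_trans (by norm_num) (le_max_right _ _)
  obtain ⟨η, hη, hηK, hη1, hη2, hp1, hp2⟩ := MP_45349e_nt.LS.parEta (max K 125) hK' (249 / 500)
    (by norm_num) (by norm_num) i0 (C1 + Cd * C4) c (by positivity) hc
  have hKr : (1 : ℝ) ≤ K := by exact_mod_cast hK
  have hKK : (K : ℝ) ≤ ((max K 125 : ℕ) : ℝ) := by exact_mod_cast le_max_left K 125
  have hK125 : (125 : ℝ) ≤ ((max K 125 : ℕ) : ℝ) := by exact_mod_cast le_max_right K 125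
  have hη1000 : η ≤ 1 / 1000 := by
    refine hηK.trans ?_
    rw [div_le_div_iff₀ (by positivity) (by norm_num)]
    linarith
  have hηK1 : η ≤ 1 / (8 * K) := by
    refine hηK.trans ?_
    exact one_div_le_one_div_of_le (by positivity) (by linarith)
  have hηsq : η ^ 2 < 4 / 19 := by nlinarith
  have hη3 : η < (1 - 2 * (4 / 19)) / 2 := by linarith
  obtain ⟨b, hb, n₁, hcmp⟩ := hcmp η hη hηK1
  obtain ⟨N₁, hprodLe⟩ := hprodLe η hη hη1000
  obtain ⟨n₂, hrlev⟩ := rlev η hη (by linarith) b hb ⟨n₁, fun n hn => (hcmp n hn).1⟩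
  obtain ⟨N₂, hws⟩ := MP_45349e_nt.LS.wsum (4 / 19) (by norm_num) (by norm_num) i0 η hη hη3 hηsq
  obtain ⟨N₃, hlarge⟩ := MP_45349e_nt.LS.main2_large (4 / 19) η (by norm_num) (by norm_num) hη hη3
    hηsq (C4 / η ^ 2) c (by positivity) hc
  obtain ⟨n₃, hNn⟩ := Nn_large (max N₁ (max N₂ N₃))
  obtain ⟨n₄, hlogN⟩ := log_Nn_half
  obtain ⟨n₅, hn₅⟩ := exists_nat_ge (8 / ε)
  refine ⟨max (max (max n₁ n₂) (max n₃ n₄)) (max n₅ 1), fun n hn => ?_⟩
  have hn1 : n₁ ≤ n := by omega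
  have hn2 : n₂ ≤ n := by omega
  have hn3 : n₃ ≤ n := by omega
  have hn4 : n₄ ≤ n := by omega
  have hn5 : n₅ ≤ n := by omega
  have hn6 : 1 ≤ n := by omega
  have hN := hNn n hn3
  have hl2 := hlogN n hn4
  have hcm := (hcmp n hn1).2
  have hrl := hrlev n hn2
  set N : ℕ := Nn n with hNdef
  have hN1 : N₁ ≤ N := (le_max_left _ _).trans hN
  have hN2 : N₂ ≤ N := (le_max_left _ _).trans ((le_max_right _ _).trans hN)
  have hN3 : N₃ ≤ N := (le_max_right _ _).trans ((le_max_right _ _).trans hN)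
  obtain ⟨g2, gw, gwz, gzN, gz2, gD, gsmall⟩ := hlarge N hN3
  have hw := hws N hN2
  have hprod := hprodLe N hN1 (zz N) gwz le_rfl
  set w : ℕ := ww η N with hwdef
  set z : ℕ := zz N with hzdef
  set D0 : ℝ := (N : ℝ) ^ (1 - η) with hD0
  set E : ℝ := (2 : ℝ) ^ (-(1 / (4 * η * K))) with hE
  have hE0 : 0 < E := Real.rpow_pos_of_pos (by norm_num) _
  have hEE : E ≤ (2 : ℝ) ^ (-(1 / (4 * η * ((max K 125 : ℕ) : ℝ)))) := by
    refine Real.rpow_le_rpow_of_exponent_le (by norm_num) ?_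
    rw [neg_le_neg_iff]
    refine one_div_le_one_div_of_le (by positivity) ?_
    exact mul_le_mul_of_nonneg_left hKK (by positivity)
  have hNr : (2 : ℝ) ≤ N := by exact_mod_cast g2
  have hN0 : (0 : ℝ) < N := by linarith
  have hlog : 0 < Real.log N := Real.log_pos (by linarith)
  have hnr : (1 : ℝ) ≤ n := by exact_mod_cast hn6
  have hn0 : (0 : ℝ) < n := by linarith
  set T : ℝ := 3 ^ n with hT
  have hT0 : 0 < T := by positivity
  set Y : ℝ := T / n with hY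
  have hY0 : 0 < Y := by positivity
  have hTlog : T / Real.log N ≤ 2 * Y := by
    rw [hY, mul_div_assoc', div_le_div_iff₀ hlog hn0]
    nlinarith
  have hm := hmain (Finset.univ : Finset (Fin n → Fin 3)) (aA n w) (HA n)
    (fun i _ => low_aA_nonneg n w i) w z N D0 (Cd * E / η ^ 2 * Y) (3 * T / N) (RA n w b)
    gw (by omega) gD gz2 (by positivity) (by positivity) (fun d => low_RA_nonneg n w b d)
    (fun l hl hl2 => hcm z l hl hl2)
  rw [low_M0 N w z gwz, low_SA n w z gwz] at hm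
  have hprod0 : 0 ≤ ∏ p ∈ P w z, (1 + 1 / (p : ℝ)) :=
    Finset.prod_nonneg fun p _ => by positivity
  -- first error
  have t1 : Cd * E / η ^ 2 * Y * ∏ p ∈ P w z, (1 + 1 / (p : ℝ)) ≤ c * Y := by
    have h1 : Cd * E / η ^ 2 * Y * ∏ p ∈ P w z, (1 + 1 / (p : ℝ)) ≤
        Cd * E / η ^ 2 * Y * (C4 / η ^ 2) := mul_le_mul_of_nonneg_left hprod (by positivity)
    have h2 : Cd * E / η ^ 2 * Y * (C4 / η ^ 2) = (Cd * C4 * E / η ^ 4) * Y := by
      field_simp
    have h3 : Cd * C4 * E / η ^ 4 ≤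
        (C1 + Cd * C4) * (2 : ℝ) ^ (-(1 / (4 * η * ((max K 125 : ℕ) : ℝ)))) / η ^ 4 := by
      refine div_le_div_of_nonneg_right ?_ (by positivity)
      refine mul_le_mul (by linarith) hEE hE0.le (by positivity)
    rw [h2] at h1
    exact h1.trans (mul_le_mul_of_nonneg_right (h3.trans hp1) hY0.le)
  -- second error
  have t2 : ∑ d ∈ DD w ⌊D0⌋₊, RA n w b d ≤ ε / 8 * Y := by
    refine hrl.trans ?_
    have h1 : T / (n : ℝ) ^ 2 = 1 / n * Y := by
      rw [hY]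
      field_simp
    rw [h1]
    refine mul_le_mul_of_nonneg_right ?_ hY0.le
    have h2 : 8 / ε ≤ n := hn₅.trans (by exact_mod_cast hn5)
    rw [div_le_iff₀ hε] at h2
    rw [div_le_div_iff₀ hn0 (by norm_num)]
    linarith
  -- third error
  have t3 : 3 * T / N * (2 * D0 * ∏ p ∈ P w z, (1 + 1 / (p : ℝ))) ≤ 6 * c * Y := by
    have h1 : 2 * D0 * ∏ p ∈ P w z, (1 + 1 / (p : ℝ)) ≤ c * (N / Real.log N) :=
      (mul_le_mul_of_nonneg_left hprod (by positivity)).trans gsmall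
    have h2 : 3 * T / N * (c * (N / Real.log N)) = 3 * c * (T / Real.log N) := by
      field_simp
    calc 3 * T / N * (2 * D0 * ∏ p ∈ P w z, (1 + 1 / (p : ℝ))) ≤ 3 * T / N * (c * (N / Real.log N)) :=
          mul_le_mul_of_nonneg_left h1 (by positivity)
      _ = 3 * c * (T / Real.log N) := h2
      _ ≤ 3 * c * (2 * Y) := mul_le_mul_of_nonneg_left hTlog (by positivity)
      _ = 6 * c * Y := by ring
  -- fourth error
  have t4 : 3 * T / N * (C1 * N * ∑ j ∈ Finset.range (z + 1),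
      MP_45349e_nt.LS.W w (N / D0) j false D0 z) ≤ 12 * c * Y := by
    set Q : ℝ := i0 * (4 * (1 + Real.log (1 / η ^ 2)) * (9 * (1 + Real.log (1 / η ^ 2)) ^ 2) ^ i0 *
        (13 * η)) with hQ
    have hQ0 : 0 ≤ Q := by
      have h1 : 0 ≤ Real.log (1 / η ^ 2) := by
        refine Real.log_nonneg ?_
        rw [le_div_iff₀ (by positivity), one_mul]
        have : η < 1 := by linarith
        nlinarith
      positivity
    have hw2 : ∑ j ∈ Finset.range (z + 1), MP_45349e_nt.LS.W w (N / D0) j false D0 z ≤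
        (Q + 15 * (5 / 6) ^ i0 / (4 / 19)) / Real.log N := hw
    have h0 : (0 : ℝ) ≤ 3 * T / N * (C1 * N) := by positivity
    have h1 : 3 * T / N * (C1 * N) * ((Q + 15 * (5 / 6) ^ i0 / (4 / 19)) / Real.log N) =
        3 * (C1 * Q + C1 * (15 * (5 / 6) ^ i0 / (4 / 19))) * (T / Real.log N) := by
      field_simp
    have h2 : C1 * Q ≤ c := by
      refine le_trans ?_ hp2
      refine mul_le_mul_of_nonneg_right ?_ hQ0
      nlinarith [mul_pos hCd hC4]
    have h3 : 0 < T / Real.log N := by positivity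
    calc 3 * T / N * (C1 * N * ∑ j ∈ Finset.range (z + 1),
        MP_45349e_nt.LS.W w (N / D0) j false D0 z)
        = 3 * T / N * (C1 * N) * ∑ j ∈ Finset.range (z + 1),
          MP_45349e_nt.LS.W w (N / D0) j false D0 z := by ring
      _ ≤ 3 * T / N * (C1 * N) * ((Q + 15 * (5 / 6) ^ i0 / (4 / 19)) / Real.log N) :=
          mul_le_mul_of_nonneg_left hw2 h0
      _ = 3 * (C1 * Q + C1 * (15 * (5 / 6) ^ i0 / (4 / 19))) * (T / Real.log N) := h1
      _ ≤ 3 * (c + c) * (T / Real.log N) := by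
          refine mul_le_mul_of_nonneg_right ?_ h3.le
          linarith
      _ ≤ 3 * (c + c) * (2 * Y) := mul_le_mul_of_nonneg_left hTlog (by positivity)
      _ = 12 * c * Y := by ring
  have hcY : c * Y = ε / 48 * Y := rfl
  have hεY : 0 < ε * Y := by positivity
  have hfin : ε * 3 ^ n / n = ε * Y := by
    rw [hY, hT, mul_div_assoc]
  rw [hfin]
  rw [mul_add] at hm
  have e1 : 6 * c * Y = ε / 8 * Y := by rw [hcdef]; ring
  have e2 : 12 * c * Y = ε / 4 * Y := by rw [hcdef]; ring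
  rw [e1] at t3
  rw [e2] at t4
  rw [hcY] at t1
  linarith

end Pool.Agent.Lib.MP_f75418_nt.FF
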