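import Pool.Agent.Lib.MP_f75418_nt.FF.Defs
import Pool.Agent.Lib.MP_f75418_nt.FF.Facts
import Pool.Agent.Lib.MP_45349e_nt.LS.LamB

/-!
Row B7. Evaluation of the model.

* `M0_ge`: every term is `≥ 0` and `1 + lam m = 2` if `m` has exactly `2` or exactly `4` prime factors.
* `M1_le` (`N` large): write `m = p m'`, `m' ≤ N/p`, `lam m = -lam m'` (`lam_mul`, `lam_prime`), so `1 + lam m = 2` exactly if
  `m'` has an odd number of prime factors; `m'` has no prime factor `< y := yp N p ≤ zz N ≤ p`. One prime factor: `m'` is a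
  prime `≤ N/p`: `primeCounting (N/p)`. At least three prime factors: `y^3 ≤ m' ≤ N/p`; if `y = Nat.sqrt (N/p)` this is
  impossible for `N/p ≥ 9` (`N/p ≥ N^(1/125) - 1`). So `y = zz N`, and five or more prime factors are impossible
  (`(zz N)^5 > N`): exactly three: `rk 3 (N/p) (zz N)`.
* `sum_rk3`: `0 ≤ wt N p ≤ 464/589 = 1 - (4/19)/(124/125)` on `P (zz N) (yy N)` (row Facts); `m' ↦ (p, p m')` and each `m ≤ N` with
  exactly four prime factors, all `≥ zz N`, has at most `4` prime divisors `p`.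
-/

open Finset

namespace Pool.Agent.Lib.MP_f75418_nt.FF

open Pool.Agent.Lib.MP_f75418_nt
open Pool.Agent.Lib.MP_45349e_nt.LS (P lam)

private theorem b7_lam_ge (m : ℕ) : 0 ≤ 1 + lam m := by
  have h := MP_45349e_nt.LS.abs_lam m
  have := neg_abs_le (lam m)
  linarith

private theorem b7_lam_even {m : ℕ} (h : Even (ArithmeticFunction.cardFactors m)) :
    lam m = 1 := by
  unfold MP_45349e_nt.LS.lam
  exact h.neg_one_pow

private theorem b7_lam_odd {m : ℕ} (h : Odd (ArithmeticFunction.cardFactors m)) :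
    lam m = -1 := by
  unfold MP_45349e_nt.LS.lam
  exact h.neg_one_pow

private theorem b7_pow_le {m z : ℕ} (hm : m ≠ 0) (h : ∀ p, p.Prime → p < z → ¬ p ∣ m) :
    z ^ (ArithmeticFunction.cardFactors m) ≤ m := by
  have h1 : z ^ m.primeFactorsList.length ≤ m.primeFactorsList.prod := by
    apply List.pow_card_le_prod
    intro q hq
    by_contra hlt
    push Not at hlt
    exact h q (Nat.prime_of_mem_primeFactorsList hq) hlt (Nat.dvd_of_mem_primeFactorsList hq)
  rw [Nat.prod_primeFactorsList hm] at h1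
  rwa [ArithmeticFunction.cardFactors_apply]

theorem M0_ge (N z : ℕ) : 2 * ((rk 2 N z : ℝ) + rk 4 N z) ≤ M0 N z := by
  classical
  unfold M0 rk
  rw [Finset.card_filter, Finset.card_filter]
  push_cast
  rw [← Finset.sum_add_distrib, Finset.mul_sum]
  apply Finset.sum_le_sum
  intro m hm
  by_cases hz : ∀ p, p.Prime → p < z → ¬ p ∣ m
  · rw [if_pos hz]
    by_cases h2 : ArithmeticFunction.cardFactors m = 2
    · have h4 : ¬ (ArithmeticFunction.cardFactors m = 4) := by omega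
      rw [if_pos ⟨h2, hz⟩, if_neg (fun h => h4 h.1), b7_lam_even (by rw [h2]; decide)]
      norm_num
    · rw [if_neg (fun h => h2 h.1)]
      by_cases h4 : ArithmeticFunction.cardFactors m = 4
      · rw [if_pos ⟨h4, hz⟩, b7_lam_even (by rw [h4]; decide)]
        norm_num
      · rw [if_neg (fun h => h4 h.1)]
        have := b7_lam_ge m
        linarith
  · rw [if_neg hz, if_neg (fun h => hz h.2), if_neg (fun h => hz h.2)]
    norm_num

private theorem b7_large : ∃ N₀ : ℕ, ∀ N : ℕ, N₀ ≤ N → ∀ p ∈ P (zz N) (yy N), 9 ≤ N / p := by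
  refine ⟨9 ^ 125, fun N hN p hp => ?_⟩
  obtain ⟨hpr, -, hle⟩ := mem_zy.1 hp
  rw [Nat.le_div_iff_mul_le hpr.pos]
  have hNr : ((9 : ℝ) ^ (125 : ℕ)) ≤ N := by exact_mod_cast hN
  have hN0 : (0 : ℝ) < N := lt_of_lt_of_le (by positivity) hNr
  have h9 : (9 : ℝ) ≤ (N : ℝ) ^ (1 / 125 : ℝ) := by
    have h1 : ((9 : ℝ) ^ (125 : ℕ)) ^ (1 / 125 : ℝ) ≤ (N : ℝ) ^ (1 / 125 : ℝ) :=
      Real.rpow_le_rpow (by positivity) hNr (by norm_num)
    have h2 : ((9 : ℝ) ^ (125 : ℕ)) ^ (1 / 125 : ℝ) = 9 := by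
      rw [← Real.rpow_natCast, ← Real.rpow_mul (by norm_num)]
      norm_num
    linarith
  have h3 : (9 : ℝ) * p ≤ N := by
    calc (9 : ℝ) * p ≤ (N : ℝ) ^ (1 / 125 : ℝ) * (N : ℝ) ^ (124 / 125 : ℝ) := by
          apply mul_le_mul h9 hle (by positivity) (by positivity)
      _ = N := by
          rw [← Real.rpow_add hN0]
          norm_num
  exact_mod_cast h3

private theorem b7_term {N p m : ℕ} (hNp : 9 ≤ N / p) (hm1 : 1 ≤ m) (hm : m ≤ N / p)
    (h : ∀ r, r.Prime → r < yp N p → ¬ r ∣ m)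
    (hodd : Odd (ArithmeticFunction.cardFactors m)) :
    m.Prime ∨ (ArithmeticFunction.cardFactors m = 3 ∧ ∀ r, r.Prime → r < zz N → ¬ r ∣ m) := by
  by_cases h1 : ArithmeticFunction.cardFactors m = 1
  · left
    exact ArithmeticFunction.cardFactors_eq_one_iff_prime.1 h1
  right
  have h3 : 3 ≤ ArithmeticFunction.cardFactors m := by
    obtain ⟨k, hk⟩ := hodd
    omega
  have hm0 : m ≠ 0 := by omega
  have hpow := b7_pow_le hm0 h
  have hs3 : 3 ≤ Nat.sqrt (N / p) := by
    rw [Nat.le_sqrt]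
    omega
  have hy : yp N p = zz N := by
    unfold yp
    by_contra hne
    have hle : Nat.sqrt (N / p) ≤ zz N := by
      by_contra hlt
      push Not at hlt
      exact hne (min_eq_left hlt.le)
    have hy' : yp N p = Nat.sqrt (N / p) := by
      unfold yp
      exact min_eq_right hle
    rw [hy'] at hpow
    set s := Nat.sqrt (N / p) with hs
    have h4 : s ^ 3 ≤ N / p := by
      calc s ^ 3 ≤ s ^ (ArithmeticFunction.cardFactors m) :=
            Nat.pow_le_pow_right (by omega) h3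
        _ ≤ m := hpow
        _ ≤ N / p := hm
    have h5 : N / p < (s + 1) * (s + 1) := Nat.lt_succ_sqrt (N / p)
    nlinarith [h4, h5, hs3, mul_le_mul hs3 hs3 (by norm_num) (by omega : 0 ≤ s)]
  rw [hy] at h
  refine ⟨?_, h⟩
  by_contra h3'
  have h5 : 5 ≤ ArithmeticFunction.cardFactors m := by
    obtain ⟨k, hk⟩ := hodd
    omega
  have hz : 1 ≤ zz N := by unfold zz; omega
  rw [hy] at hpow
  have h6 : zz N ^ 5 ≤ N := by
    calc zz N ^ 5 ≤ zz N ^ (ArithmeticFunction.cardFactors m) :=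
          Nat.pow_le_pow_right hz h5
      _ ≤ m := hpow
      _ ≤ N / p := hm
      _ ≤ N := Nat.div_le_self _ _
  exact absurd (zz_pow N) (by omega)

theorem M1_le : ∃ N₀ : ℕ, ∀ N : ℕ, N₀ ≤ N → ∀ p ∈ P (zz N) (yy N),
    M1 N p (yp N p) ≤ 2 * (Nat.primeCounting (N / p) : ℝ) + 2 * (rk 3 (N / p) (zz N) : ℝ) := by
  classical
  obtain ⟨N₀, hN₀⟩ := b7_large
  refine ⟨N₀, fun N hN p hp => ?_⟩
  have hNp := hN₀ N hN p hp
  obtain ⟨hpr, -, -⟩ := mem_zy.1 hp
  have hzp : zz N ≤ p := (mem_P.1 hp).1.1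
  -- reindex
  have h1 : M1 N p (yp N p) ≤ ∑ m ∈ Finset.Icc 1 (N / p),
      if ∀ r, r.Prime → r < yp N p → ¬ r ∣ m then 1 - lam m else 0 := by
    unfold M1
    rw [← Finset.sum_filter, ← Finset.sum_filter]
    have h2 : ∑ m ∈ (Finset.Icc 1 N).filter
        (fun m => p ∣ m ∧ ∀ r, r.Prime → r < yp N p → ¬ r ∣ m), (1 + lam m) =
        ∑ m ∈ (Finset.Icc 1 N).filter
        (fun m => p ∣ m ∧ ∀ r, r.Prime → r < yp N p → ¬ r ∣ m), (1 - lam (m / p)) := by
      apply Finset.sum_congr rfl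
      intro m hm
      rw [Finset.mem_filter, Finset.mem_Icc] at hm
      obtain ⟨⟨hm1, hmN⟩, ⟨k, rfl⟩, -⟩ := hm
      have hk : k ≠ 0 := by rintro rfl; simp at hm1
      rw [Nat.mul_div_cancel_left k hpr.pos, MP_45349e_nt.LS.lam_mul p k hpr.ne_zero hk,
        MP_45349e_nt.LS.lam_prime p hpr]
      ring
    rw [h2]
    have h3 : ∑ m ∈ (Finset.Icc 1 N).filter
        (fun m => p ∣ m ∧ ∀ r, r.Prime → r < yp N p → ¬ r ∣ m), (1 - lam (m / p)) =
        ∑ k ∈ ((Finset.Icc 1 N).filter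
        (fun m => p ∣ m ∧ ∀ r, r.Prime → r < yp N p → ¬ r ∣ m)).image (fun m => m / p),
          (1 - lam k) := by
      rw [Finset.sum_image]
      intro a ha b hb hab
      simp only [Finset.coe_filter, Set.mem_ofPred_eq] at ha hb
      simp only at hab
      have e1 := Nat.div_mul_cancel ha.2.1
      have e2 := Nat.div_mul_cancel hb.2.1
      rw [← e1, ← e2, hab]
    rw [h3]
    apply Finset.sum_le_sum_of_subset_of_nonneg
    · intro k hk
      rw [Finset.mem_image] at hk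
      obtain ⟨m, hm, rfl⟩ := hk
      rw [Finset.mem_filter, Finset.mem_Icc] at hm
      obtain ⟨⟨hm1, hmN⟩, ⟨k, rfl⟩, hr⟩ := hm
      have hk : k ≠ 0 := by rintro rfl; simp at hm1
      rw [Nat.mul_div_cancel_left k hpr.pos, Finset.mem_filter, Finset.mem_Icc]
      refine ⟨⟨by omega, ?_⟩, fun r hrp hry hrk => hr r hrp hry (Dvd.dvd.mul_left hrk p)⟩
      rw [Nat.le_div_iff_mul_le hpr.pos]
      rw [mul_comm]
      exact hmN
    · intro m _ _
      have h := MP_45349e_nt.LS.abs_lam m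
      have := le_abs_self (lam m)
      linarith
  refine h1.trans ?_
  -- counting
  have h4 : (Nat.primeCounting (N / p) : ℝ) =
      ∑ m ∈ Finset.Icc 1 (N / p), (if m.Prime then (1 : ℝ) else 0) := by
    rw [← Finset.sum_filter, Finset.sum_const, nsmul_eq_mul, mul_one]
    congr 1
    rw [Nat.primeCounting, Nat.primeCounting', Nat.count_eq_card_filter_range]
    congr 1
    ext m
    simp only [Finset.mem_filter, Finset.mem_range, Finset.mem_Icc]
    constructor
    · rintro ⟨ha, hb⟩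
      exact ⟨⟨hb.one_lt.le, by omega⟩, hb⟩
    · rintro ⟨ha, hb⟩
      exact ⟨by omega, hb⟩
  have h5 : (rk 3 (N / p) (zz N) : ℝ) = ∑ m ∈ Finset.Icc 1 (N / p),
      (if ArithmeticFunction.cardFactors m = 3 ∧ ∀ r, r.Prime → r < zz N → ¬ r ∣ m
        then (1 : ℝ) else 0) := by
    unfold rk
    rw [Finset.card_filter]
    push_cast
    rfl
  rw [h4, h5, Finset.mul_sum, Finset.mul_sum, ← Finset.sum_add_distrib]
  apply Finset.sum_le_sum
  intro m hm
  rw [Finset.mem_Icc] at hm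
  have ha : (0 : ℝ) ≤ 2 * (if m.Prime then (1 : ℝ) else 0) := by split_ifs <;> norm_num
  have hb : (0 : ℝ) ≤ 2 * (if ArithmeticFunction.cardFactors m = 3 ∧
      ∀ r, r.Prime → r < zz N → ¬ r ∣ m then (1 : ℝ) else 0) := by split_ifs <;> norm_num
  by_cases hr : ∀ r, r.Prime → r < yp N p → ¬ r ∣ m
  · rw [if_pos hr]
    rcases Nat.even_or_odd (ArithmeticFunction.cardFactors m) with he | ho
    · rw [b7_lam_even he]
      linarith
    · rw [b7_lam_odd ho]
      rcases b7_term hNp hm.1 hm.2 hr ho with h | h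
      · rw [if_pos h] at ha ⊢
        linarith
      · rw [if_pos h] at hb ⊢
        linarith
  · rw [if_neg hr]
    linarith

theorem sum_rk3 (N : ℕ) (hN : 2 ≤ N) :
    ∑ p ∈ P (zz N) (yy N), wt N p * (rk 3 (N / p) (zz N) : ℝ) ≤
      4 * (464 / 589) * (rk 4 N (zz N) : ℝ) := by
  classical
  have h1 : ∑ p ∈ P (zz N) (yy N), wt N p * (rk 3 (N / p) (zz N) : ℝ) ≤
      ∑ p ∈ P (zz N) (yy N), 464 / 589 * (rk 3 (N / p) (zz N) : ℝ) :=
    Finset.sum_le_sum fun p hp => mul_le_mul_of_nonneg_right (wt_le hN hp) (Nat.cast_nonneg _)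
  refine h1.trans ?_
  rw [← Finset.mul_sum]
  have h2 : ∑ p ∈ P (zz N) (yy N), rk 3 (N / p) (zz N) ≤ 4 * rk 4 N (zz N) := by
    set R4 : Finset ℕ := (Finset.Icc 1 N).filter
      (fun m => ArithmeticFunction.cardFactors m = 4 ∧
        ∀ p, p.Prime → p < zz N → ¬ p ∣ m) with hR4
    have h3 : ∑ p ∈ P (zz N) (yy N), rk 3 (N / p) (zz N) ≤
        (R4.sigma (fun m => m.primeFactors)).card := by
      have h4 : ∑ p ∈ P (zz N) (yy N), rk 3 (N / p) (zz N) =
          ((P (zz N) (yy N)).sigma (fun p => (Finset.Icc 1 (N / p)).filter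
            (fun m => ArithmeticFunction.cardFactors m = 3 ∧
              ∀ q, q.Prime → q < zz N → ¬ q ∣ m))).card := by
        rw [Finset.card_sigma]
        apply Finset.sum_congr rfl
        intro p _
        unfold rk
        congr 1
      rw [h4]
      apply Finset.card_le_card_of_injOn (fun x : (_ : ℕ) × ℕ => (⟨x.1 * x.2, x.1⟩ : (_ : ℕ) × ℕ))
      · rintro ⟨p, m⟩ hx
        rw [Finset.mem_coe, Finset.mem_sigma] at hx
        obtain ⟨hp, hm⟩ := hx
        simp only [Finset.mem_filter, Finset.mem_Icc] at hm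
        obtain ⟨⟨hm1, hmN⟩, hm3, hmz⟩ := hm
        obtain ⟨⟨hzp, -⟩, hpr⟩ := mem_P.1 hp
        simp only [Finset.coe_sigma, Set.mem_sigma_iff, Finset.mem_coe] at *
        have hm0 : m ≠ 0 := by omega
        refine ⟨?_, ?_⟩
        · rw [hR4, Finset.mem_filter, Finset.mem_Icc]
          refine ⟨⟨Nat.mul_pos hpr.pos (by omega), ?_⟩, ?_, ?_⟩
          · calc p * m ≤ p * (N / p) := Nat.mul_le_mul_left p hmN
              _ ≤ N := Nat.mul_div_le N p
          · rw [ArithmeticFunction.cardFactors_mul hpr.ne_zero hm0,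
              ArithmeticFunction.cardFactors_apply_prime hpr, hm3]
          · intro q hq hqz hqd
            rcases (hq.dvd_mul).1 hqd with h | h
            · rw [Nat.prime_dvd_prime_iff_eq hq hpr] at h
              omega
            · exact hmz q hq hqz h
        · rw [Nat.mem_primeFactors]
          exact ⟨hpr, Dvd.intro m rfl, Nat.mul_ne_zero hpr.ne_zero hm0⟩
      · rintro ⟨p, m⟩ hx ⟨q, k⟩ hy hxy
        rw [Finset.mem_coe, Finset.mem_sigma] at hx
        obtain ⟨⟨-, -⟩, hpr⟩ := mem_P.1 hx.1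
        simp only [Sigma.mk.injEq, heq_eq_eq] at hxy
        obtain ⟨e1, rfl⟩ := hxy
        have := Nat.eq_of_mul_eq_mul_left hpr.pos e1
        rw [this]
    refine h3.trans ?_
    rw [Finset.card_sigma]
    have h5 : ∀ m ∈ R4, m.primeFactors.card ≤ 4 := by
      intro m hm
      rw [hR4, Finset.mem_filter] at hm
      have h6 : m.primeFactors.card ≤ m.primeFactorsList.length := List.toFinset_card_le _
      rw [← ArithmeticFunction.cardFactors_apply, hm.2.1] at h6
      exact h6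
    calc ∑ m ∈ R4, m.primeFactors.card ≤ ∑ m ∈ R4, 4 := Finset.sum_le_sum h5
      _ = 4 * rk 4 N (zz N) := by
          rw [Finset.sum_const, smul_eq_mul, mul_comm]
          rfl
  have h7 : (∑ p ∈ P (zz N) (yy N), (rk 3 (N / p) (zz N) : ℝ)) ≤ 4 * (rk 4 N (zz N) : ℝ) := by
    exact_mod_cast h2
  nlinarith [h7]

end Pool.Agent.Lib.MP_f75418_nt.FF
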