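import Pool.Agent.Lib.MP_f75418_nt.FF.Defs

/-!
Row B11. The numerical margin: `log (15/4) = 1.321756`, `II = 1.513081`, `lamR = 0.8468`, `c4 = 0.0139160`,
`4 lamR 464/589 - 1 = 1.668358`: the right side is `0.01726`. (`log (589/125) = log 19 + log 31 - 3 log 5`,
`log (1/125) = -3 log 5`, `log (15/19)`; crude bounds with error `10^(-3)` suffice, e.g. from `Real.exp_bound'`,
`Real.log_two_gt_d9`, or bounds for `Real.exp` at rationals.) `num2`: the condition of the weights.
-/

open Finset

namespace Pool.Agent.Lib.MP_f75418_nt.FF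

open Pool.Agent.Lib.MP_f75418_nt

private theorem num_a : (13215 : ℝ) / 10000 ≤ Real.log (15 / 4) := by
  have h1 := Real.abs_log_sub_add_sum_range_le (x := 1 / 16) (by rw [abs_of_pos] <;> norm_num) 2
  rw [abs_of_pos (by norm_num : (0 : ℝ) < 1 / 16)] at h1
  have h2 := (abs_le.1 h1).1
  norm_num [sum_range_succ] at h2
  have h3 : Real.log (15 / 4) = 2 * Real.log 2 + Real.log (15 / 16) := by
    have : (15 : ℝ) / 4 = 2 ^ 2 * (15 / 16) := by norm_num
    rw [this, Real.log_mul (by norm_num) (by norm_num), Real.log_pow]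
    norm_num
  have h4 := Real.log_two_gt_d9
  rw [h3]
  linarith

private theorem num_b : Real.log (589 / 125) ≤ 15506 / 10000 := by
  have h1 := Real.abs_log_sub_add_sum_range_le (x := 89 / 589) (by rw [abs_of_pos] <;> norm_num) 3
  rw [abs_of_pos (by norm_num : (0 : ℝ) < 89 / 589)] at h1
  have h2 := (abs_le.1 h1).1
  norm_num [sum_range_succ] at h2
  have h3 : Real.log (589 / 125) = 2 * Real.log 2 - Real.log (500 / 589) := by
    have : (589 : ℝ) / 125 = 2 ^ 2 / (500 / 589) := by norm_num
    rw [this, Real.log_div (by norm_num) (by norm_num), Real.log_pow]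
    norm_num
  have h4 := Real.log_two_lt_d9
  rw [h3]
  linarith

private theorem num_c : (4158 : ℝ) / 1000 ≤ Real.log (15 / 19) - Real.log (1 / 125) := by
  have h1 : Real.log (15 / 19) - Real.log (1 / 125) = Real.log (1875 / 19) := by
    rw [← Real.log_div (by norm_num) (by norm_num)]
    norm_num
  have h2 : Real.log (2 ^ 6) ≤ Real.log (1875 / 19) := Real.log_le_log (by norm_num) (by norm_num)
  rw [Real.log_pow] at h2
  have h4 := Real.log_two_gt_d9
  rw [h1]
  push_cast at h2
  linarith

theorem num : (1 : ℝ) / 100 ≤ Real.log (15 / 4) - lamR * II - (4 * lamR * (464 / 589) - 1) * c4 := by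
  have ha := num_a
  have hb := num_b
  have hc := num_c
  unfold II lamR c4
  norm_num
  norm_num at ha hb hc
  linarith

/-- `lamR (5 - log 9 / (0.58 * 0.992)) = 1.00018` -/
theorem num2 : (10001 : ℝ) / 10000 ≤ lamR * (5 - 2 * Real.log 3 / (124 / 125 * (29 / 50))) := by
  have h1 : Real.log 3 ≤ 109862 / 100000 := by
    have := Real.log_three_lt_d9
    linarith
  unfold lamR
  have h2 : 2 * Real.log 3 / (124 / 125 * (29 / 50)) ≤ 2 * (109862 / 100000) / (124 / 125 * (29 / 50)) := by
    gcongr
  have h3 : (10001 : ℝ) / 10000 ≤ 2117 / 2500 * (5 - 2 * (109862 / 100000) / (124 / 125 * (29 / 50))) := by norm_num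
  linarith

end Pool.Agent.Lib.MP_f75418_nt.FF
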