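import Pool.Agent.Lib.MP_f75418_nt.FF.Defs
import Pool.Agent.Lib.SW.SC.PIA

/-!
Row B8p. The prime number theorem for `N/d`: `PIA_pi` (SW/SC/PIA.lean: `π(X) log X / X → 1`) at `X = N/d` (natural division;
`X ≥ N^(1/125) - 1 → ∞` uniformly), `X/(N/d) → 1`, `log X/(log N - log d) → 1` uniformly.
-/

open Finset

namespace Pool.Agent.Lib.MP_f75418_nt.FF

open Pool.Agent.Lib.MP_f75418_nt
open Filter Topology

private theorem b8p_log : Tendsto (fun y : ℝ => Real.log y / Real.log (⌊y⌋₊ : ℝ)) atTop (𝓝 1) := by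
  have hB : Tendsto (fun y : ℝ => (⌊y⌋₊ : ℝ) / y) atTop (𝓝 1) := tendsto_nat_floor_div_atTop
  have h1 : Tendsto (fun y : ℝ => Real.log ((⌊y⌋₊ : ℝ) / y)) atTop (𝓝 0) := by
    have h := (Real.continuousAt_log (one_ne_zero)).tendsto.comp hB
    rw [Real.log_one] at h
    exact h
  have h2 : Tendsto (fun y : ℝ => Real.log ((⌊y⌋₊ : ℝ) / y) / Real.log y) atTop (𝓝 0) :=
    h1.div_atTop Real.tendsto_log_atTop
  have h3 : Tendsto (fun y : ℝ => 1 + Real.log ((⌊y⌋₊ : ℝ) / y) / Real.log y) atTop (𝓝 1) := by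
    have h := h2.const_add 1
    rwa [add_zero] at h
  have h4 := h3.inv₀ one_ne_zero
  rw [inv_one] at h4
  refine h4.congr' ?_
  filter_upwards [eventually_ge_atTop 2] with y hy
  have hy0 : (0 : ℝ) < y := by linarith
  have hl : 0 < Real.log y := Real.log_pos (by linarith)
  have hf : (⌊y⌋₊ : ℝ) ≠ 0 := by
    have : 0 < ⌊y⌋₊ := Nat.floor_pos.2 (by linarith)
    exact_mod_cast this.ne'
  rw [Real.log_div hf hy0.ne']
  have h5 : 1 + (Real.log (⌊y⌋₊ : ℝ) - Real.log y) / Real.log y =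
      Real.log (⌊y⌋₊ : ℝ) / Real.log y := by
    rw [sub_div, div_self hl.ne']
    ring
  rw [h5, inv_div]

private theorem b8p_F :
    Tendsto (fun y : ℝ => (Nat.primeCounting ⌊y⌋₊ : ℝ) * Real.log y / y) atTop (𝓝 1) := by
  have hA : Tendsto (fun y : ℝ => (Nat.primeCounting ⌊y⌋₊ : ℝ) * Real.log (⌊y⌋₊ : ℝ) / (⌊y⌋₊ : ℝ))
      atTop (𝓝 1) := Pool.Agent.Lib.SW.PIA_pi.comp tendsto_nat_floor_atTop
  have hB : Tendsto (fun y : ℝ => (⌊y⌋₊ : ℝ) / y) atTop (𝓝 1) := tendsto_nat_floor_div_atTop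
  have h1 := (hA.mul b8p_log).mul hB
  rw [one_mul, one_mul] at h1
  refine h1.congr' ?_
  filter_upwards [eventually_ge_atTop 2] with y hy
  have hy0 : (0 : ℝ) < y := by linarith
  have hf2 : 2 ≤ ⌊y⌋₊ := Nat.le_floor (by exact_mod_cast hy)
  have hf2' : (2 : ℝ) ≤ (⌊y⌋₊ : ℝ) := by exact_mod_cast hf2
  have hl : 0 < Real.log (⌊y⌋₊ : ℝ) := Real.log_pos (by linarith)
  have hf : (⌊y⌋₊ : ℝ) ≠ 0 := by linarith
  field_simp

theorem pi_div (ε : ℝ) (hε : 0 < ε) : ∃ N₀ : ℕ, ∀ N : ℕ, N₀ ≤ N → ∀ d : ℕ, 1 ≤ d →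
    (d : ℝ) ≤ (N : ℝ) ^ (124 / 125 : ℝ) →
    (1 - ε) * ((N : ℝ) / d / (Real.log N - Real.log d)) ≤ (Nat.primeCounting (N / d) : ℝ) ∧
    (Nat.primeCounting (N / d) : ℝ) ≤ (1 + ε) * ((N : ℝ) / d / (Real.log N - Real.log d)) := by
  have h1 : ∀ᶠ y : ℝ in atTop,
      |(Nat.primeCounting ⌊y⌋₊ : ℝ) * Real.log y / y - 1| < ε := by
    have h := (Metric.tendsto_nhds.1 b8p_F) ε hε
    simpa [Real.dist_eq] using h
  obtain ⟨Y, hY⟩ := eventually_atTop.1 h1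
  have h2 : Tendsto (fun N : ℕ => (N : ℝ) ^ (1 / 125 : ℝ)) atTop atTop :=
    (tendsto_rpow_atTop (by norm_num)).comp tendsto_natCast_atTop_atTop
  obtain ⟨N₁, hN₁⟩ := eventually_atTop.1 (h2.eventually_ge_atTop (max Y 2))
  refine ⟨max N₁ 1, fun N hN d hd hdN => ?_⟩
  have hN1 : 1 ≤ N := le_trans (le_max_right _ _) hN
  have hN0 : (0 : ℝ) < N := by exact_mod_cast hN1
  have hd0 : (0 : ℝ) < d := by exact_mod_cast hd
  have hy : (N : ℝ) ^ (1 / 125 : ℝ) ≤ (N : ℝ) / d := by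
    rw [le_div_iff₀ hd0]
    calc (N : ℝ) ^ (1 / 125 : ℝ) * d ≤ (N : ℝ) ^ (1 / 125 : ℝ) * (N : ℝ) ^ (124 / 125 : ℝ) :=
          mul_le_mul_of_nonneg_left hdN (by positivity)
      _ = (N : ℝ) := by
          rw [← Real.rpow_add hN0]
          norm_num
  have hge := hN₁ N (le_trans (le_max_left _ _) hN)
  have hyY : Y ≤ (N : ℝ) / d := le_trans (le_max_left _ _) (hge.trans hy)
  have hy2 : 2 ≤ (N : ℝ) / d := le_trans (le_max_right _ _) (hge.trans hy)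
  have h3 := hY _ hyY
  rw [Nat.floor_div_eq_div, abs_lt] at h3
  obtain ⟨h4, h5⟩ := h3
  have hlog : Real.log ((N : ℝ) / d) = Real.log N - Real.log d :=
    Real.log_div hN0.ne' hd0.ne'
  rw [← hlog]
  have hl : 0 < Real.log ((N : ℝ) / d) := Real.log_pos (by linarith)
  have hy0 : 0 < (N : ℝ) / d := by linarith
  have hq : 0 < (N : ℝ) / d / Real.log ((N : ℝ) / d) := div_pos hy0 hl
  have e : (Nat.primeCounting (N / d) : ℝ) =
      ((Nat.primeCounting (N / d) : ℝ) * Real.log ((N : ℝ) / d) / ((N : ℝ) / d)) *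
        ((N : ℝ) / d / Real.log ((N : ℝ) / d)) := by
    have hy0' := hy0.ne'
    have hl' := hl.ne'
    rw [div_mul_div_comm, eq_div_iff (mul_ne_zero hy0' hl')]
    ring
  constructor
  · calc (1 - ε) * ((N : ℝ) / d / Real.log ((N : ℝ) / d)) ≤
        ((Nat.primeCounting (N / d) : ℝ) * Real.log ((N : ℝ) / d) / ((N : ℝ) / d)) *
        ((N : ℝ) / d / Real.log ((N : ℝ) / d)) :=
          mul_le_mul_of_nonneg_right (by linarith) hq.le
      _ = _ := e.symm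
  · calc (Nat.primeCounting (N / d) : ℝ) =
        ((Nat.primeCounting (N / d) : ℝ) * Real.log ((N : ℝ) / d) / ((N : ℝ) / d)) *
        ((N : ℝ) / d / Real.log ((N : ℝ) / d)) := e
      _ ≤ (1 + ε) * ((N : ℝ) / d / Real.log ((N : ℝ) / d)) :=
          mul_le_mul_of_nonneg_right (by linarith) hq.le

end Pool.Agent.Lib.MP_f75418_nt.FF
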