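import Pool.Agent.Lib.MP_f75418_nt.FF.Defs
import Pool.Agent.Lib.MP_f75418_nt.FF.PiN
import Pool.Agent.Lib.MP_f75418_nt.FF.Facts
import Pool.Agent.Lib.MP_092512_nt.P3.D1

/-!
Row B8a. Numbers with two prime factors, lower bound.

The products `p q` with `p ∈ PP N (4/19) (1/2)` (so `p ≥ zz N`, `p ≤ √N`) and `q` prime, `√N < q ≤ N/p`, are different:
`rk 2 N (zz N) ≥ ∑_p (π(N/p) - π(⌊√N⌋)) ≥ ∑_p π(N/p) - π(√N)²`, `π(√N)² ≤ C N/(log N)²`. `pi_div`:
`π(N/p) ≥ (1-ε) N/(log N) * (lg N p / p) * ψ(lg N p)`, `ψ t = 1/(t (1-t))`, and `D1_one (4/19) (1/2) ψ` with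
`∫_{4/19}^{1/2} ψ = log (15/4)` (primitive `log t - log (1-t)`).
-/

open Finset

namespace Pool.Agent.Lib.MP_f75418_nt.FF

open Pool.Agent.Lib.MP_f75418_nt
open Pool.Agent.Lib.MP_45349e_nt.LS (P)
open Pool.Agent.Lib.MP_092512_nt.P3 (PP lg)

private theorem R2low_pi (M : ℕ) :
    Nat.primeCounting M = ((Finset.range (M + 1)).filter Nat.Prime).card := by
  rw [Nat.primeCounting, Nat.primeCounting', Nat.count_eq_card_filter_range]

private theorem R2low_Ioc (r M : ℕ) : (Nat.primeCounting M : ℝ) - Nat.primeCounting r ≤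
    (((Finset.Ioc r M).filter Nat.Prime).card : ℝ) := by
  have h : Nat.primeCounting M ≤ Nat.primeCounting r + ((Finset.Ioc r M).filter Nat.Prime).card := by
    rw [R2low_pi, R2low_pi]
    refine (Finset.card_le_card ?_).trans (Finset.card_union_le _ _)
    intro p hp
    rw [Finset.mem_filter, Finset.mem_range] at hp
    rw [Finset.mem_union, Finset.mem_filter, Finset.mem_filter, Finset.mem_range, Finset.mem_Ioc]
    by_cases h : p < r + 1
    · exact Or.inl ⟨h, hp.2⟩
    · exact Or.inr ⟨⟨by omega, by omega⟩, hp.2⟩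
  have h' : (Nat.primeCounting M : ℝ) ≤ Nat.primeCounting r +
      (((Finset.Ioc r M).filter Nat.Prime).card : ℝ) := by exact_mod_cast h
  linarith

private theorem R2low_count (N : ℕ) :
    ∑ p ∈ PP N (4 / 19) (1 / 2), ((Nat.primeCounting (N / p) : ℝ) -
      Nat.primeCounting ⌊(N : ℝ) ^ (1 / 2 : ℝ)⌋₊) ≤ (rk 2 N (zz N) : ℝ) := by
  classical
  set r : ℕ := ⌊(N : ℝ) ^ (1 / 2 : ℝ)⌋₊ with hr
  have h1 : ∑ p ∈ PP N (4 / 19) (1 / 2), ((Nat.primeCounting (N / p) : ℝ) -
      Nat.primeCounting r) ≤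
      ∑ p ∈ PP N (4 / 19) (1 / 2), (((Finset.Ioc r (N / p)).filter Nat.Prime).card : ℝ) :=
    Finset.sum_le_sum fun p _ => R2low_Ioc r (N / p)
  refine h1.trans ?_
  have h2 : ((PP N (4 / 19) (1 / 2)).sigma
      (fun p => (Finset.Ioc r (N / p)).filter Nat.Prime)).card ≤ rk 2 N (zz N) := by
    unfold rk
    refine Finset.card_le_card_of_injOn (fun x => x.1 * x.2) ?_ ?_
    · rintro ⟨p, q⟩ hx
      obtain ⟨hp, hq⟩ := Finset.mem_sigma.1 (Finset.mem_coe.1 hx)
      obtain ⟨hpp, hp1, hp2⟩ := Pool.Agent.Lib.MP_092512_nt.P3.mem_PP.1 hp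
      have hq' := Finset.mem_filter.1 hq
      have hq1 := Finset.mem_Ioc.1 hq'.1
      have hqp : q.Prime := hq'.2
      have hpr : p ≤ r := (Nat.le_floor_iff (by positivity)).2 hp2
      have hz : zz N ≤ p := by
        unfold zz
        exact (Nat.floor_lt (by positivity)).2 hp1
      have hpq : p * q ≤ N := by
        calc p * q ≤ p * (N / p) := Nat.mul_le_mul_left _ hq1.2
          _ ≤ N := Nat.mul_div_le _ _
      refine Finset.mem_coe.2 (Finset.mem_filter.2 ⟨Finset.mem_Icc.2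
        ⟨Nat.mul_pos hpp.pos hqp.pos, hpq⟩, ?_, ?_⟩)
      · change ArithmeticFunction.cardFactors (p * q) = 2
        rw [ArithmeticFunction.cardFactors_mul hpp.ne_zero hqp.ne_zero,
          ArithmeticFunction.cardFactors_apply_prime hpp,
          ArithmeticFunction.cardFactors_apply_prime hqp]
      · intro l hl hlz hld
        have hld' : l ∣ p * q := hld
        rcases (Nat.Prime.dvd_mul hl).1 hld' with h | h
        · have h4 : l = p := (Nat.prime_dvd_prime_iff_eq hl hpp).1 h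
          omega
        · have h4 : l = q := (Nat.prime_dvd_prime_iff_eq hl hqp).1 h
          have h3 : r < q := hq1.1
          omega
    · rintro ⟨p, q⟩ hx ⟨p', q'⟩ hy hxy
      obtain ⟨hp, hq⟩ := Finset.mem_sigma.1 (Finset.mem_coe.1 hx)
      obtain ⟨hp', hq'⟩ := Finset.mem_sigma.1 (Finset.mem_coe.1 hy)
      obtain ⟨hpp, hp1, hp2⟩ := Pool.Agent.Lib.MP_092512_nt.P3.mem_PP.1 hp
      obtain ⟨hpp', hp1', hp2'⟩ := Pool.Agent.Lib.MP_092512_nt.P3.mem_PP.1 hp'
      have hq2 := Finset.mem_filter.1 hq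
      have hq3 := Finset.mem_Ioc.1 hq2.1
      have hq2' := Finset.mem_filter.1 hq'
      have hq3' := Finset.mem_Ioc.1 hq2'.1
      have hpr : p ≤ r := (Nat.le_floor_iff (by positivity)).2 hp2
      have hxy' : p * q = p' * q' := hxy
      have h3 : p ∣ p' * q' := ⟨q, hxy'.symm⟩
      have h4 : p = p' := by
        rcases (Nat.Prime.dvd_mul hpp).1 h3 with h | h
        · exact (Nat.prime_dvd_prime_iff_eq hpp hpp').1 h
        · have h5 : p = q' := (Nat.prime_dvd_prime_iff_eq hpp hq2'.2).1 h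
          have h6 : r < q' := hq3'.1
          omega
      subst h4
      have h7 : q = q' := Nat.eq_of_mul_eq_mul_left hpp.pos hxy'
      subst h7
      rfl
  rw [Finset.card_sigma] at h2
  exact_mod_cast h2

private theorem R2low_int : ∫ u in (4 / 19 : ℝ)..(1 / 2), 1 / (u * (1 - u)) = Real.log (15 / 4) := by
  have hd : ∀ x ∈ Set.uIcc (4 / 19 : ℝ) (1 / 2),
      HasDerivAt (fun t => Real.log t - Real.log (1 - t)) (1 / (x * (1 - x))) x := by
    intro x hx
    rw [Set.uIcc_of_le (by norm_num)] at hx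
    have hx0 : x ≠ 0 := by linarith [hx.1]
    have hx1 : 1 - x ≠ 0 := by linarith [hx.2]
    have h1 := Real.hasDerivAt_log hx0
    have h2 : HasDerivAt (fun t : ℝ => 1 - t) (-1) x := by
      simpa using (hasDerivAt_id x).const_sub 1
    have h3 := h2.log hx1
    have h4 := h1.sub h3
    have h5 : 1 / (x * (1 - x)) = x⁻¹ - (-1) / (1 - x) := by
      field_simp
      ring
    rw [h5]
    exact h4
  have hc : ContinuousOn (fun u : ℝ => 1 / (u * (1 - u))) (Set.uIcc (4 / 19 : ℝ) (1 / 2)) := by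
    rw [Set.uIcc_of_le (by norm_num)]
    refine ContinuousOn.div continuousOn_const (by fun_prop) ?_
    intro x hx
    have hx0 : 0 < x := by linarith [hx.1]
    have hx1 : 0 < 1 - x := by linarith [hx.2]
    positivity
  rw [intervalIntegral.integral_eq_sub_of_hasDerivAt hd hc.intervalIntegrable]
  have e1 : (1 - 1 / 2 : ℝ) = 1 / 2 := by norm_num
  have e2 : (1 - 4 / 19 : ℝ) = 15 / 19 := by norm_num
  simp only [e1, e2]
  rw [sub_self, zero_sub, neg_sub, ← Real.log_div (by norm_num) (by norm_num)]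
  norm_num

private theorem R2low_aux (ε : ℝ) (hε : 0 < ε) (hε1 : ε ≤ 1) : ∃ N₀ : ℕ, ∀ N : ℕ, N₀ ≤ N →
    (Real.log (15 / 4) - ε) * (N / Real.log N) ≤ (rk 2 N (zz N) : ℝ) := by
  classical
  have hL2 : Real.log (15 / 4) ≤ 2 := by
    rw [Real.log_le_iff_le_exp (by norm_num)]
    have := Real.quadratic_le_exp_of_nonneg (show (0 : ℝ) ≤ 2 by norm_num)
    linarith
  have hL0 : 1 ≤ Real.log (15 / 4) := by
    rw [Real.le_log_iff_exp_le (by norm_num)]
    have := Real.exp_one_lt_d9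
    linarith
  obtain ⟨N1, h1⟩ := pi_div (ε / 8) (by positivity)
  obtain ⟨N2, h2⟩ := pi_div 1 one_pos
  have hψ : ContinuousOn (fun u : ℝ => 1 / (u * (1 - u))) (Set.Icc (4 / 19 : ℝ) (1 / 2)) := by
    refine ContinuousOn.div continuousOn_const (by fun_prop) ?_
    intro x hx
    have hx0 : 0 < x := by linarith [hx.1]
    have hx1 : 0 < 1 - x := by linarith [hx.2]
    positivity
  have hD := Pool.Agent.Lib.MP_092512_nt.P3.D1_one (4 / 19) (1 / 2) (by norm_num) (by norm_num)
    (fun u : ℝ => 1 / (u * (1 - u))) hψ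
  rw [R2low_int] at hD
  have hD' := (tendsto_order.1 hD).1 (Real.log (15 / 4) - ε / 4) (by linarith)
  obtain ⟨N3, h3⟩ := Filter.eventually_atTop.1 hD'
  have hlog : Filter.Tendsto (fun N : ℕ => Real.log (N : ℝ)) Filter.atTop Filter.atTop :=
    Real.tendsto_log_atTop.comp tendsto_natCast_atTop_atTop
  obtain ⟨N4, h4⟩ := Filter.eventually_atTop.1 (hlog.eventually_ge_atTop (256 / ε))
  refine ⟨N1 + N2 ^ 2 + N3 + N4 + 16, fun N hN => ?_⟩
  have hN16 : 16 ≤ N := by omega
  have hN16' : (16 : ℝ) ≤ N := by exact_mod_cast hN16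
  have hN0 : (0 : ℝ) < N := by linarith
  have hl := h4 N (by omega)
  have hl0 : 0 < Real.log N := lt_of_lt_of_le (by positivity) hl
  have hS := h3 N (by omega)
  set r : ℕ := ⌊(N : ℝ) ^ (1 / 2 : ℝ)⌋₊ with hr
  set L := Real.log (N : ℝ) with hLdef
  have hsq : (N : ℝ) ^ (1 / 2 : ℝ) = Real.sqrt N := (Real.sqrt_eq_rpow (N : ℝ)).symm
  have hsq4 : (4 : ℝ) ≤ Real.sqrt N := by
    rw [show (4 : ℝ) = Real.sqrt (4 ^ 2) by rw [Real.sqrt_sq]; norm_num]
    apply Real.sqrt_le_sqrt
    linarith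
  have hrle : (r : ℝ) ≤ Real.sqrt N := by
    rw [← hsq]
    exact Nat.floor_le (by positivity)
  have hrlt : Real.sqrt N < r + 1 := by
    rw [← hsq]
    exact Nat.lt_floor_add_one _
  have hr3 : (3 : ℝ) < r := by linarith
  have hr0 : (0 : ℝ) < r := by linarith
  -- `r ≥ N2`
  have hrN2 : N2 ≤ r := by
    rw [hr]
    apply Nat.le_floor
    rw [hsq]
    apply Real.le_sqrt_of_sq_le
    have : N2 ^ 2 ≤ N := by omega
    exact_mod_cast this
  -- the bound of `π(r)`
  have hpr : (Nat.primeCounting r : ℝ) ≤ 2 * (r / Real.log r) := by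
    have h5 := (h2 r hrN2 1 le_rfl (by
      rw [Nat.cast_one]
      exact Real.one_le_rpow (by linarith) (by norm_num))).2
    rw [Nat.div_one, Nat.cast_one, Real.log_one, div_one, sub_zero] at h5
    linarith
  have hlr : L / 4 ≤ Real.log r := by
    have h5 : Real.sqrt N / 2 ≤ r := by linarith
    have h6 := Real.log_le_log (by positivity) h5
    rw [Real.log_div (by positivity) (by norm_num), Real.log_sqrt hN0.le] at h6
    have h7 : Real.log 2 ≤ L / 4 := by
      have h8 : Real.log (2 ^ 4 : ℝ) ≤ L := Real.log_le_log (by norm_num) (by linarith)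
      rw [Real.log_pow] at h8
      push_cast at h8
      linarith
    linarith
  have hlr0 : 0 < Real.log r := lt_of_lt_of_le (by positivity) hlr
  have hpr2 : (Nat.primeCounting r : ℝ) ^ 2 ≤ ε / 4 * (N / L) := by
    have h5 : (Nat.primeCounting r : ℝ) ^ 2 ≤ (2 * (r / Real.log r)) ^ 2 :=
      pow_le_pow_left₀ (Nat.cast_nonneg _) hpr 2
    have h6 : (2 * (r / Real.log r)) ^ 2 ≤ 64 * (N / L ^ 2) := by
      have h7 : (r : ℝ) / Real.log r ≤ Real.sqrt N / (L / 4) :=
        div_le_div₀ (Real.sqrt_nonneg _) hrle (by positivity) hlr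
      have h8 : 0 ≤ (r : ℝ) / Real.log r := by positivity
      calc (2 * (r / Real.log r)) ^ 2 ≤ (2 * (Real.sqrt N / (L / 4))) ^ 2 :=
            pow_le_pow_left₀ (by positivity) (by linarith) 2
        _ = 64 * (Real.sqrt N ^ 2 / L ^ 2) := by field_simp; ring
        _ = 64 * (N / L ^ 2) := by rw [Real.sq_sqrt hN0.le]
    have h9 : 64 * (N / L ^ 2) ≤ ε / 4 * (N / L) := by
      have h10 : 256 ≤ ε * L := by
        rw [div_le_iff₀ hε] at hl
        linarith
      rw [← mul_div_assoc, ← mul_div_assoc, div_le_div_iff₀ (by positivity) hl0]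
      nlinarith [mul_pos hN0 hl0]
    linarith
  -- the number of primes
  have hcardS : ((PP N (4 / 19) (1 / 2)).card : ℝ) ≤ Nat.primeCounting r := by
    have h5 : (PP N (4 / 19) (1 / 2)).card ≤ Nat.primeCounting r := by
      rw [R2low_pi]
      apply Finset.card_le_card
      intro p hp
      obtain ⟨hp1, hp2, hp3⟩ := Pool.Agent.Lib.MP_092512_nt.P3.mem_PP.1 hp
      rw [Finset.mem_filter, Finset.mem_range]
      have : p ≤ r := (Nat.le_floor_iff (by positivity)).2 hp3
      exact ⟨by omega, hp1⟩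
    exact_mod_cast h5
  have hcount := R2low_count N
  rw [← hr] at hcount
  rw [Finset.sum_sub_distrib, Finset.sum_const, nsmul_eq_mul] at hcount
  have hB : ((PP N (4 / 19) (1 / 2)).card : ℝ) * Nat.primeCounting r ≤
      (Nat.primeCounting r : ℝ) ^ 2 := by
    rw [sq]
    exact mul_le_mul_of_nonneg_right hcardS (Nat.cast_nonneg _)
  have hA : (1 - ε / 8) * ((N / L) * ∑ p ∈ PP N (4 / 19) (1 / 2),
      1 / (lg N p * (1 - lg N p)) * (lg N p / (p : ℝ))) ≤
      ∑ p ∈ PP N (4 / 19) (1 / 2), (Nat.primeCounting (N / p) : ℝ) := by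
    rw [Finset.mul_sum, Finset.mul_sum]
    refine Finset.sum_le_sum fun p hp => ?_
    obtain ⟨hp1, hp2, hp3⟩ := Pool.Agent.Lib.MP_092512_nt.P3.mem_PP.1 hp
    obtain ⟨hlg1, hlg2⟩ := Pool.Agent.Lib.MP_092512_nt.P3.PP_lg (by omega : 2 ≤ N) hp
    have hp0 : (0 : ℝ) < p := by exact_mod_cast hp1.pos
    have h5 := (h1 N (by omega) p hp1.one_lt.le (hp3.trans
      (Real.rpow_le_rpow_of_exponent_le (by linarith) (by norm_num)))).1
    refine le_trans (le_of_eq ?_) h5
    congr 1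
    have h6 : Real.log p = lg N p * L := by
      change Real.log p = Real.log p / L * L
      rw [div_mul_cancel₀ _ hl0.ne']
    rw [h6]
    have h7 : lg N p ≠ 0 := by linarith
    have h8 : 1 - lg N p ≠ 0 := by linarith
    have h9 : L - lg N p * L = L * (1 - lg N p) := by ring
    rw [h9]
    field_simp
  have hNL : 0 < (N : ℝ) / L := by positivity
  have hmain : (Real.log (15 / 4) - ε / 2) * (N / L) ≤ (1 - ε / 8) * ((N / L) *
      ∑ p ∈ PP N (4 / 19) (1 / 2), 1 / (lg N p * (1 - lg N p)) * (lg N p / (p : ℝ))) := by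
    have h5 : (N / L) * (Real.log (15 / 4) - ε / 4) ≤ (N / L) *
        ∑ p ∈ PP N (4 / 19) (1 / 2), 1 / (lg N p * (1 - lg N p)) * (lg N p / (p : ℝ)) :=
      mul_le_mul_of_nonneg_left hS.le hNL.le
    have h6 : (1 - ε / 8) * ((N / L) * (Real.log (15 / 4) - ε / 4)) ≤ (1 - ε / 8) * ((N / L) *
        ∑ p ∈ PP N (4 / 19) (1 / 2), 1 / (lg N p * (1 - lg N p)) * (lg N p / (p : ℝ))) :=
      mul_le_mul_of_nonneg_left h5 (by linarith)
    refine le_trans ?_ h6
    have h7 : Real.log (15 / 4) - ε / 2 ≤ (1 - ε / 8) * (Real.log (15 / 4) - ε / 4) := by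
      nlinarith
    calc (Real.log (15 / 4) - ε / 2) * (N / L)
        ≤ ((1 - ε / 8) * (Real.log (15 / 4) - ε / 4)) * (N / L) :=
          mul_le_mul_of_nonneg_right h7 hNL.le
      _ = _ := by ring
  have hfin : (Real.log (15 / 4) - ε) * (N / L) ≤
      (Real.log (15 / 4) - ε / 2) * (N / L) - ε / 4 * (N / L) := by
    have : (Real.log (15 / 4) - ε / 2) * (N / L) - ε / 4 * (N / L) =
        (Real.log (15 / 4) - ε) * (N / L) + ε / 4 * (N / L) := by ring
    rw [this]
    have h5 : 0 ≤ ε / 4 * (N / L) := by positivity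
    linarith
  linarith

theorem R2low (ε : ℝ) (hε : 0 < ε) : ∃ N₀ : ℕ, ∀ N : ℕ, N₀ ≤ N →
    (Real.log (15 / 4) - ε) * (N / Real.log N) ≤ (rk 2 N (zz N) : ℝ) := by
  obtain ⟨N₀, h⟩ := R2low_aux (min ε 1) (lt_min hε one_pos) (min_le_right _ _)
  refine ⟨N₀, fun N hN => le_trans ?_ (h N hN)⟩
  have h1 : 0 ≤ (N : ℝ) / Real.log N := by
    have := Real.log_natCast_nonneg N
    positivity
  exact mul_le_mul_of_nonneg_right (by linarith [min_le_left ε 1]) h1

end Pool.Agent.Lib.MP_f75418_nt.FF
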