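import Pool.Agent.Lib.MP_f75418_nt.FF.Defs
import Pool.Agent.Lib.MP_f75418_nt.FF.Facts
import Pool.Agent.Lib.MP_092512_nt.P3.D1
import Pool.Agent.Lib.MP_092512_nt.P3.D0m

/-!
Row B8m. The triple sum of Mertens type. Let `a = 4/19`, `L = log N`, `J ≥ 1`, `δ = (3/19)/J`, cells `(a + iδ, a + (i+1)δ]`, `i < J`. For a
triple of `T3 N (zz N)`: each `p > N^a` and `p ≤ N/(q r z) ≤ N^(1-3a) = N^(a + 3/19)`, so `lg N p` lies in a cell `i`; if the cells
are `i, j, k` then `3a + (i+j+k)δ < lg p + lg q + lg r ≤ 1 - a = 3a + Jδ`, so `i + j + k < J`: `J(J+1)(J+2)/6` possibilities.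
`D0_mertens` on each cell: `∑ lg N p/p → δ`. Hence `∑_{T3} ∏ lg/p ≤ J(J+1)(J+2)/6 (δ(1+ε'))³` for large `N`, and
`J(J+1)(J+2)/J³ → 1`.
-/

open Finset

namespace Pool.Agent.Lib.MP_f75418_nt.FF

open Pool.Agent.Lib.MP_f75418_nt
open Pool.Agent.Lib.MP_092512_nt.P3 (PP lg)

private theorem merT_H (n : ℕ) : ∑ j ∈ range n, ((n - j : ℕ) : ℝ) = n * (n + 1) / 2 := by
  induction n with
  | zero => simp
  | succ n ih =>
    rw [sum_range_succ']
    have : ∑ j ∈ range n, ((n + 1 - (j + 1) : ℕ) : ℝ) = ∑ j ∈ range n, ((n - j : ℕ) : ℝ) :=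
      sum_congr rfl fun j _ => by rw [Nat.add_sub_add_right]
    rw [this, ih, Nat.sub_zero]
    push_cast
    ring

private theorem merT_G (J : ℕ) : ∑ i ∈ range J, (((J - i : ℕ) : ℝ) * (((J - i : ℕ) : ℝ) + 1) / 2) =
    (J : ℝ) * (J + 1) * (J + 2) / 6 := by
  induction J with
  | zero => simp
  | succ n ih =>
    rw [sum_range_succ']
    have : ∑ j ∈ range n, (((n + 1 - (j + 1) : ℕ) : ℝ) * (((n + 1 - (j + 1) : ℕ) : ℝ) + 1) / 2) =
        ∑ j ∈ range n, (((n - j : ℕ) : ℝ) * (((n - j : ℕ) : ℝ) + 1) / 2) :=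
      sum_congr rfl fun j _ => by rw [Nat.add_sub_add_right]
    rw [this, ih, Nat.sub_zero]
    push_cast
    ring

private theorem merT_count (J : ℕ) (c : ℝ) :
    ∑ i ∈ range J, ∑ j ∈ range (J - i), ∑ _k ∈ range (J - i - j), c = (J : ℝ) * (J + 1) * (J + 2) / 6 * c := by
  have h1 : ∀ i, ∑ j ∈ range (J - i), ∑ _k ∈ range (J - i - j), c =
      (((J - i : ℕ) : ℝ) * (((J - i : ℕ) : ℝ) + 1) / 2) * c := by
    intro i
    rw [← merT_H, sum_mul]
    refine sum_congr rfl fun j _ => ?_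
    rw [sum_const, card_range, nsmul_eq_mul]
  simp only [h1]
  rw [← sum_mul, merT_G]

/-- the cells -/
private noncomputable def merT_cell (J N i : ℕ) : Finset ℕ :=
  PP N (4 / 19 + i * (3 / 19 / J)) (4 / 19 + (i + 1) * (3 / 19 / J))

private theorem merT_mem {J N p : ℕ} (hJ : 1 ≤ J) (hN : 2 ≤ N) (hp : p.Prime) (h1 : 4 / 19 < lg N p)
    {s : ℝ} (h2 : lg N p - 4 / 19 ≤ s * (3 / 19 / J)) :
    ∃ i : ℕ, (i : ℝ) < s ∧ (i : ℝ) * (3 / 19 / J) < lg N p - 4 / 19 ∧ p ∈ merT_cell J N i := by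
  have hJ0 : (0 : ℝ) < J := by exact_mod_cast hJ
  set δ : ℝ := 3 / 19 / J with hδ
  have hδ0 : 0 < δ := by positivity
  set x : ℝ := (lg N p - 4 / 19) / δ with hx
  have hx0 : 0 < x := div_pos (by linarith) hδ0
  have hxs : x ≤ s := by rw [hx, div_le_iff₀ hδ0]; exact h2
  have hc1 : (⌈x⌉₊ : ℝ) < x + 1 := Nat.ceil_lt_add_one hx0.le
  have hc2 : x ≤ ⌈x⌉₊ := Nat.le_ceil x
  have hc3 : 1 ≤ ⌈x⌉₊ := Nat.one_le_iff_ne_zero.2 (Nat.ceil_pos.2 hx0).ne'
  have hcast : ((⌈x⌉₊ - 1 : ℕ) : ℝ) = (⌈x⌉₊ : ℝ) - 1 := by rw [Nat.cast_sub hc3, Nat.cast_one]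
  have hxe : lg N p - 4 / 19 = x * δ := by rw [hx]; field_simp
  have hN1 : (1 : ℝ) < N := by exact_mod_cast hN
  have hN0 : (0 : ℝ) < N := by linarith
  have hp0 : (0 : ℝ) < p := by exact_mod_cast hp.pos
  have hl : 0 < Real.log N := Real.log_pos hN1
  have hlp : Real.log p = lg N p * Real.log N := by unfold lg; field_simp
  have hpe : (p : ℝ) = (N : ℝ) ^ (lg N p) := by
    rw [Real.rpow_def_of_pos hN0, mul_comm, ← hlp, Real.exp_log hp0]
  refine ⟨⌈x⌉₊ - 1, ?_, ?_, ?_⟩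
  · rw [hcast]; linarith
  · rw [hxe, hcast]
    exact mul_lt_mul_of_pos_right (by linarith) hδ0
  · unfold merT_cell
    rw [MP_092512_nt.P3.mem_PP]
    refine ⟨hp, ?_, ?_⟩
    · rw [hpe]
      refine Real.rpow_lt_rpow_of_exponent_lt hN1 ?_
      rw [← hδ, hcast]
      nlinarith
    · rw [hpe]
      refine Real.rpow_le_rpow_of_exponent_le hN1.le ?_
      rw [← hδ, hcast]
      nlinarith

private theorem merT_bound (J N : ℕ) (hJ : 1 ≤ J) (hN : 2 ≤ N) :
    ∑ t ∈ T3 N (zz N), lg N t.1 / (t.1 : ℝ) * (lg N t.2.1 / (t.2.1 : ℝ)) * (lg N t.2.2 / (t.2.2 : ℝ)) ≤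
      ∑ i ∈ range J, ∑ j ∈ range (J - i), ∑ k ∈ range (J - i - j),
        (∑ p ∈ merT_cell J N i, lg N p / (p : ℝ)) * (∑ p ∈ merT_cell J N j, lg N p / (p : ℝ)) *
          (∑ p ∈ merT_cell J N k, lg N p / (p : ℝ)) := by
  classical
  have hJ0 : (0 : ℝ) < J := by exact_mod_cast hJ
  have hN1 : (1 : ℝ) < N := by exact_mod_cast hN
  have hN0 : (0 : ℝ) < N := by linarith
  have hl : 0 < Real.log N := Real.log_pos hN1
  set f : ℕ × ℕ × ℕ → ℝ := fun t => lg N t.1 / (t.1 : ℝ) * (lg N t.2.1 / (t.2.1 : ℝ)) * (lg N t.2.2 / (t.2.2 : ℝ)) with hf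
  have hf0 : ∀ t, 0 ≤ f t := fun t => mul_nonneg (mul_nonneg MP_092512_nt.P3.D1_wt_nonneg
    MP_092512_nt.P3.D1_wt_nonneg) MP_092512_nt.P3.D1_wt_nonneg
  have hstep : ∀ t ∈ T3 N (zz N), f t ≤ ∑ i ∈ range J, ∑ j ∈ range (J - i), ∑ k ∈ range (J - i - j),
      if t ∈ merT_cell J N i ×ˢ merT_cell J N j ×ˢ merT_cell J N k then f t else 0 := by
    rintro ⟨p, q, r⟩ ht
    simp only [T3, mem_filter, mem_product, mem_Icc] at ht
    obtain ⟨_, ⟨hp, hpz⟩, ⟨hq, hqz⟩, ⟨hr, hrz⟩, hprod⟩ := ht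
    have hz := lt_zz N
    have hlow : ∀ {x : ℕ}, x.Prime → zz N ≤ x → 4 / 19 < lg N x := by
      intro x hx hzx
      have h1 : (N : ℝ) ^ (4 / 19 : ℝ) < x := hz.trans_le (by exact_mod_cast hzx)
      unfold lg
      rw [lt_div_iff₀ hl, ← Real.log_rpow hN0]
      exact Real.log_lt_log (by positivity) h1
    have hsum : lg N p + lg N q + lg N r ≤ 15 / 19 := by
      have hp0 : (0 : ℝ) < p := by exact_mod_cast hp.pos
      have hq0 : (0 : ℝ) < q := by exact_mod_cast hq.pos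
      have hr0 : (0 : ℝ) < r := by exact_mod_cast hr.pos
      have hz0 : (0 : ℝ) < zz N := lt_of_le_of_lt (by positivity) hz
      have h1 : (p : ℝ) * q * r * zz N ≤ N := by exact_mod_cast hprod
      have h2 := Real.log_le_log (by positivity) h1
      rw [Real.log_mul (by positivity) hz0.ne', Real.log_mul (by positivity) hr0.ne', Real.log_mul hp0.ne' hq0.ne'] at h2
      have h3 : 4 / 19 * Real.log N ≤ Real.log (zz N) := by
        rw [← Real.log_rpow hN0]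
        exact Real.log_le_log (by positivity) hz.le
      unfold lg
      rw [← add_div, ← add_div, div_le_iff₀ hl]
      linarith
    have l1 := hlow hp hpz
    have l2 := hlow hq hqz
    have l3 := hlow hr hrz
    have hδ0 : (0 : ℝ) < 3 / 19 / J := by positivity
    have hJδ : (J : ℝ) * (3 / 19 / J) = 3 / 19 := by field_simp
    obtain ⟨i, hi1, hi2, hi3⟩ := merT_mem (s := J) hJ hN hp l1 (by rw [hJδ]; linarith)
    obtain ⟨j, hj1, hj2, hj3⟩ := merT_mem (s := J - i) hJ hN hq l2 (by rw [sub_mul, hJδ]; linarith)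
    obtain ⟨k, hk1, hk2, hk3⟩ := merT_mem (s := (J : ℝ) - i - j) hJ hN hr l3 (by
      rw [sub_mul, sub_mul, hJδ]; linarith)
    have hiJ : i < J := by exact_mod_cast hi1
    have hjJ : i + j < J := by
      have : (i : ℝ) + j < J := by linarith
      exact_mod_cast this
    have hkJ : i + j + k < J := by
      have : (i : ℝ) + j + k < J := by linarith
      exact_mod_cast this
    have hnn : ∀ (i j k : ℕ), 0 ≤ (if (p, q, r) ∈ merT_cell J N i ×ˢ merT_cell J N j ×ˢ merT_cell J N k then f (p, q, r) else 0) := by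
      intro i j k
      split_ifs
      · exact hf0 _
      · exact le_rfl
    calc f (p, q, r) = (if (p, q, r) ∈ merT_cell J N i ×ˢ merT_cell J N j ×ˢ merT_cell J N k then f (p, q, r) else 0) := by
          rw [if_pos]
          simp only [mem_product]
          exact ⟨hi3, hj3, hk3⟩
      _ ≤ ∑ k ∈ range (J - i - j), (if (p, q, r) ∈ merT_cell J N i ×ˢ merT_cell J N j ×ˢ merT_cell J N k then f (p, q, r) else 0) :=
          single_le_sum (f := fun k => if (p, q, r) ∈ merT_cell J N i ×ˢ merT_cell J N j ×ˢ merT_cell J N k then f (p, q, r) else 0)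
            (fun k _ => hnn i j k) (mem_range.2 (by omega))
      _ ≤ ∑ j ∈ range (J - i), ∑ k ∈ range (J - i - j), (if (p, q, r) ∈ merT_cell J N i ×ˢ merT_cell J N j ×ˢ merT_cell J N k then f (p, q, r) else 0) :=
          single_le_sum (f := fun j => ∑ k ∈ range (J - i - j), (if (p, q, r) ∈ merT_cell J N i ×ˢ merT_cell J N j ×ˢ merT_cell J N k then f (p, q, r) else 0))
            (fun j _ => sum_nonneg fun k _ => hnn i j k) (mem_range.2 (by omega))
      _ ≤ _ :=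
          single_le_sum (f := fun i => ∑ j ∈ range (J - i), ∑ k ∈ range (J - i - j), (if (p, q, r) ∈ merT_cell J N i ×ˢ merT_cell J N j ×ˢ merT_cell J N k then f (p, q, r) else 0))
            (fun i _ => sum_nonneg fun j _ => sum_nonneg fun k _ => hnn i j k) (mem_range.2 hiJ)
  calc ∑ t ∈ T3 N (zz N), f t ≤ ∑ t ∈ T3 N (zz N), ∑ i ∈ range J, ∑ j ∈ range (J - i), ∑ k ∈ range (J - i - j),
      (if t ∈ merT_cell J N i ×ˢ merT_cell J N j ×ˢ merT_cell J N k then f t else 0) := sum_le_sum hstep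
    _ = ∑ i ∈ range J, ∑ j ∈ range (J - i), ∑ k ∈ range (J - i - j), ∑ t ∈ T3 N (zz N),
      (if t ∈ merT_cell J N i ×ˢ merT_cell J N j ×ˢ merT_cell J N k then f t else 0) := by
        rw [sum_comm]
        refine sum_congr rfl fun i _ => ?_
        rw [sum_comm]
        refine sum_congr rfl fun j _ => ?_
        rw [sum_comm]
    _ ≤ _ := by
        refine sum_le_sum fun i _ => sum_le_sum fun j _ => sum_le_sum fun k _ => ?_
        rw [← sum_filter]
        calc _ ≤ ∑ t ∈ merT_cell J N i ×ˢ merT_cell J N j ×ˢ merT_cell J N k, f t :=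
              sum_le_sum_of_subset_of_nonneg (fun t ht => (mem_filter.1 ht).2) fun t _ _ => hf0 t
          _ = _ := by
              rw [sum_product]
              simp only [sum_product, hf]
              rw [sum_mul_sum, sum_mul]
              refine sum_congr rfl fun p _ => ?_
              rw [sum_mul]
              refine sum_congr rfl fun q _ => ?_
              rw [← mul_sum]

theorem merT (ε : ℝ) (hε : 0 < ε) : ∃ N₀ : ℕ, ∀ N : ℕ, N₀ ≤ N →
    ∑ t ∈ T3 N (zz N), lg N t.1 / (t.1 : ℝ) * (lg N t.2.1 / (t.2.1 : ℝ)) *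
      (lg N t.2.2 / (t.2.2 : ℝ)) ≤ (3 / 19) ^ 3 / 6 + ε := by
  obtain ⟨J, hJ1, hJ⟩ : ∃ J : ℕ, 1 ≤ J ∧ (J : ℝ) * (J + 1) * (J + 2) / 6 * (3 / 19 / J) ^ 3 < (3 / 19) ^ 3 / 6 + ε := by
    have h1 : Filter.Tendsto (fun J : ℕ => (3 / 19 : ℝ) ^ 3 / 6 * ((1 + 1 / (J : ℝ)) * (1 + 2 * (1 / (J : ℝ))))) Filter.atTop
        (nhds ((3 / 19 : ℝ) ^ 3 / 6 * ((1 + 0) * (1 + 2 * 0)))) := by
      have h2 : Filter.Tendsto (fun J : ℕ => 1 / (J : ℝ)) Filter.atTop (nhds 0) := tendsto_one_div_atTop_nhds_zero_nat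
      exact ((h2.const_add 1).mul ((h2.const_mul 2).const_add 1)).const_mul _
    have h3 := h1.eventually_lt_const (show (3 / 19 : ℝ) ^ 3 / 6 * ((1 + 0) * (1 + 2 * 0)) < (3 / 19) ^ 3 / 6 + ε by linarith)
    obtain ⟨J, hJ1, hJ2⟩ := (h3.and (Filter.eventually_ge_atTop 1)).exists
    refine ⟨J, hJ2, lt_of_le_of_lt (le_of_eq ?_) hJ1⟩
    have hJ0 : (0 : ℝ) < J := by exact_mod_cast hJ2
    field_simp
  have hJ0 : (0 : ℝ) < J := by exact_mod_cast hJ1
  have hcell : ∀ i : ℕ, Filter.Tendsto (fun N : ℕ => ∑ p ∈ merT_cell J N i, lg N p / (p : ℝ)) Filter.atTop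
      (nhds (3 / 19 / J)) := by
    intro i
    have h1 := MP_092512_nt.P3.D0_mertens (4 / 19 + i * (3 / 19 / J)) (4 / 19 + (i + 1) * (3 / 19 / J))
      (by positivity) (by
        have : (0 : ℝ) < 3 / 19 / J := by positivity
        nlinarith)
    have e : 4 / 19 + ((i : ℝ) + 1) * (3 / 19 / J) - (4 / 19 + i * (3 / 19 / J)) = 3 / 19 / J := by ring
    rw [e] at h1
    exact h1
  have hlim : Filter.Tendsto (fun N : ℕ => ∑ i ∈ range J, ∑ j ∈ range (J - i), ∑ k ∈ range (J - i - j),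
        (∑ p ∈ merT_cell J N i, lg N p / (p : ℝ)) * (∑ p ∈ merT_cell J N j, lg N p / (p : ℝ)) *
          (∑ p ∈ merT_cell J N k, lg N p / (p : ℝ))) Filter.atTop
      (nhds (∑ i ∈ range J, ∑ j ∈ range (J - i), ∑ k ∈ range (J - i - j), (3 / 19 / (J : ℝ)) * (3 / 19 / J) * (3 / 19 / J))) :=
    tendsto_finsetSum _ fun i _ => tendsto_finsetSum _ fun j _ => tendsto_finsetSum _ fun k _ =>
      ((hcell i).mul (hcell j)).mul (hcell k)
  rw [merT_count] at hlim
  have hlt : (J : ℝ) * (J + 1) * (J + 2) / 6 * (3 / 19 / (J : ℝ) * (3 / 19 / J) * (3 / 19 / J)) < (3 / 19) ^ 3 / 6 + ε := by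
    have : (3 / 19 / (J : ℝ) * (3 / 19 / J) * (3 / 19 / J)) = (3 / 19 / J) ^ 3 := by ring
    rw [this]
    exact hJ
  obtain ⟨N₀, hN₀⟩ := Filter.eventually_atTop.1 ((hlim.eventually_lt_const hlt).and (Filter.eventually_ge_atTop 2))
  refine ⟨N₀, fun N hN => ?_⟩
  obtain ⟨h1, h2⟩ := hN₀ N hN
  exact (merT_bound J N hJ1 h2).trans h1.le

end Pool.Agent.Lib.MP_f75418_nt.FF
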