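import Pool.Agent.Lib.MP_f75418_nt.FF.Defs

/-!
Row B8t. Numbers with four prime factors and triples.

`m ≤ N` with exactly four prime factors, all `≥ z`. If `m = p₁p₂p₃p₄` is squarefree, its `24` orderings `(a, b, c, d)` are different and
have `(a,b,c) ∈ T3 N z` (`a b c z ≤ a b c d = m ≤ N`) and `d ≤ N/(abc)` prime; the map `(a,b,c,d) ↦ m` together with the
ordering is injective, so `24 #{m} ≤ ∑_{T3} π(N/(abc))`. (Formally: for fixed squarefree `m` the tuples with product `m` are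
the injective enumerations of `m.primeFactors`, of card `4`: `24` of them.) If `m` is not squarefree it is divisible by
`p²`, `p ≥ z` prime: at most `∑_{k ≥ z} N/k² ≤ N/(z-1) ≤ 2N/z` such `m`.
-/

open Finset

namespace Pool.Agent.Lib.MP_f75418_nt.FF

open Pool.Agent.Lib.MP_f75418_nt

/-- twenty-four triples of different elements in a set with four elements -/
private theorem tri_24 (s : Finset ℕ) (hs : s.card = 4) :
    24 ≤ ((s ×ˢ s ×ˢ s).filter
      (fun t => t.1 ≠ t.2.1 ∧ t.1 ≠ t.2.2 ∧ t.2.1 ≠ t.2.2)).card := by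
  have h24 : ((Finset.univ : Finset (Fin 4 × Fin 4 × Fin 4)).filter
      (fun t => t.1 ≠ t.2.1 ∧ t.1 ≠ t.2.2 ∧ t.2.1 ≠ t.2.2)).card = 24 := by decide
  rw [← h24]
  set e := s.orderEmbOfFin hs with he
  refine Finset.card_le_card_of_injOn (fun t => (e t.1, e t.2.1, e t.2.2)) ?_ ?_
  · intro t ht
    simp only [Finset.coe_filter, Finset.mem_univ, true_and, Set.mem_ofPred_eq] at ht
    simp only [Finset.coe_filter, Finset.mem_product, Set.mem_ofPred_eq]
    refine ⟨⟨Finset.orderEmbOfFin_mem s hs _, Finset.orderEmbOfFin_mem s hs _,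
      Finset.orderEmbOfFin_mem s hs _⟩, ?_, ?_, ?_⟩
    · intro h; exact ht.1 (e.injective h)
    · intro h; exact ht.2.1 (e.injective h)
    · intro h; exact ht.2.2 (e.injective h)
  · intro t _ t' _ h
    simp only [Prod.mk.injEq] at h
    exact Prod.ext (e.injective h.1) (Prod.ext (e.injective h.2.1) (e.injective h.2.2))

open Classical in
/-- the squarefree numbers -/
private noncomputable def triS (N z : ℕ) : Finset ℕ :=
  (Finset.Icc 1 N).filter (fun m => (ArithmeticFunction.cardFactors m = 4 ∧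
    ∀ p, p.Prime → p < z → ¬ p ∣ m) ∧ Squarefree m)

open Classical in
/-- the others -/
private noncomputable def triO (N z : ℕ) : Finset ℕ :=
  (Finset.Icc 1 N).filter (fun m => (ArithmeticFunction.cardFactors m = 4 ∧
    ∀ p, p.Prime → p < z → ¬ p ∣ m) ∧ ¬ Squarefree m)

private theorem tri_split (N z : ℕ) : rk 4 N z = (triS N z).card + (triO N z).card := by
  classical
  unfold rk triS triO
  rw [← Finset.card_filter_add_card_filter_not (s := (Finset.Icc 1 N).filter
    (fun m => ArithmeticFunction.cardFactors m = 4 ∧ ∀ p, p.Prime → p < z → ¬ p ∣ m))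
    (fun m => Squarefree m)]
  rw [Finset.filter_filter, Finset.filter_filter]

private theorem tri_other (N z : ℕ) (hz : 2 ≤ z) : ((triO N z).card : ℝ) ≤ 2 * (N / z) := by
  classical
  have hz0 : (0 : ℝ) < z := by positivity
  have hN0 : (0 : ℝ) ≤ N := Nat.cast_nonneg N
  rcases Nat.lt_or_ge N z with hNz | hNz
  · have : triO N z = ∅ := by
      rw [Finset.eq_empty_iff_forall_notMem]
      intro m hm
      unfold triO at hm
      simp only [Finset.mem_filter, Finset.mem_Icc] at hm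
      obtain ⟨⟨h1, hN⟩, ⟨_, hr⟩, hsq⟩ := hm
      rw [Nat.squarefree_iff_prime_squarefree] at hsq
      push Not at hsq
      obtain ⟨p, hp, hpp⟩ := hsq
      have h2 : p ∣ m := dvd_trans (dvd_mul_right p p) hpp
      have h3 : z ≤ p := by
        by_contra h
        exact hr p hp (by omega) h2
      have h4 := Nat.le_of_dvd (by omega) h2
      omega
    rw [this]
    simp only [Finset.card_empty, Nat.cast_zero]
    positivity
  have hsub : triO N z ⊆ (Finset.Ioc (z - 1) N).biUnion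
      (fun k => (Finset.Icc 1 N).filter (fun m => k ^ 2 ∣ m)) := by
    intro m hm
    unfold triO at hm
    simp only [Finset.mem_filter, Finset.mem_Icc] at hm
    obtain ⟨⟨h1, hN⟩, ⟨_, hr⟩, hsq⟩ := hm
    rw [Nat.squarefree_iff_prime_squarefree] at hsq
    push Not at hsq
    obtain ⟨p, hp, hpp⟩ := hsq
    have h2 : p ∣ m := dvd_trans (dvd_mul_right p p) hpp
    have h3 : z ≤ p := by
      by_contra h
      exact hr p hp (by omega) h2
    have h4 := Nat.le_of_dvd (by omega) h2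
    simp only [Finset.mem_biUnion, Finset.mem_filter, Finset.mem_Icc, Finset.mem_Ioc]
    exact ⟨p, ⟨by omega, by omega⟩, ⟨h1, hN⟩, by rw [sq]; exact hpp⟩
  have h1 : ((triO N z).card : ℝ) ≤ ∑ k ∈ Finset.Ioc (z - 1) N, (N : ℝ) * ((k : ℝ) ^ 2)⁻¹ := by
    have h2 : (triO N z).card ≤ ∑ k ∈ Finset.Ioc (z - 1) N,
        ((Finset.Icc 1 N).filter (fun m => k ^ 2 ∣ m)).card :=
      (Finset.card_le_card hsub).trans Finset.card_biUnion_le
    refine (Nat.cast_le.mpr h2).trans ?_
    rw [Nat.cast_sum]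
    refine Finset.sum_le_sum fun k hk => ?_
    have h3 : (Finset.Icc 1 N).filter (fun m => k ^ 2 ∣ m) = (Finset.Ioc 0 N).filter (fun m => k ^ 2 ∣ m) := by
      ext m
      simp only [Finset.mem_filter, Finset.mem_Icc, Finset.mem_Ioc]
      constructor <;> rintro ⟨⟨a, b⟩, c⟩ <;> exact ⟨⟨by omega, b⟩, c⟩
    rw [h3, Nat.Ioc_filter_dvd_card_eq_div]
    refine (Nat.cast_div_le (α := ℝ)).trans ?_
    rw [div_eq_mul_inv]
    push_cast
    exact le_refl _
  refine h1.trans ?_
  rw [← Finset.mul_sum]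
  have h5 := sum_Ioc_inv_sq_le_sub (α := ℝ) (k := z - 1) (n := N) (by omega) (by omega)
  have h6 : ((z - 1 : ℕ) : ℝ)⁻¹ ≤ 2 / z := by
    have h7 : ((z - 1 : ℕ) : ℝ) = (z : ℝ) - 1 := by
      rw [Nat.cast_sub (by omega)]
      simp
    rw [h7, inv_eq_one_div, div_le_div_iff₀ _ hz0]
    · have : (2 : ℝ) ≤ z := by exact_mod_cast hz
      linarith
    · have : (2 : ℝ) ≤ z := by exact_mod_cast hz
      linarith
  have h8 : (0 : ℝ) ≤ ((N : ℕ) : ℝ)⁻¹ := by positivity
  calc (N : ℝ) * ∑ k ∈ Finset.Ioc (z - 1) N, ((k : ℝ) ^ 2)⁻¹ ≤ N * (2 / z) := by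
        refine mul_le_mul_of_nonneg_left ?_ hN0
        linarith
    _ = 2 * (N / z) := by ring

open Classical in
/-- the triples of `m` -/
private noncomputable def triT (N z m : ℕ) : Finset (ℕ × ℕ × ℕ) :=
  (T3 N z).filter (fun t => t.1 * t.2.1 * t.2.2 ∣ m ∧ (m / (t.1 * t.2.1 * t.2.2)).Prime)

private theorem tri_low (N z m : ℕ) (hm : m ∈ triS N z) : 24 ≤ (triT N z m).card := by
  classical
  unfold triS at hm
  simp only [Finset.mem_filter, Finset.mem_Icc] at hm
  obtain ⟨⟨h1, hN⟩, ⟨h4, hr⟩, hsq⟩ := hm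
  have hm0 : m ≠ 0 := by omega
  have hc : m.primeFactors.card = 4 := by
    have h5 := (ArithmeticFunction.cardDistinctFactors_eq_cardFactors_iff_squarefree hm0).mpr hsq
    rw [h4, ArithmeticFunction.cardDistinctFactors_apply] at h5
    rw [← h5]
    exact List.card_toFinset _
  refine (tri_24 _ hc).trans (Finset.card_le_card ?_)
  intro t ht
  simp only [Finset.mem_filter, Finset.mem_product] at ht
  obtain ⟨⟨ha, hb, hcc⟩, hab, hac, hbc⟩ := ht
  set s := m.primeFactors with hs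
  have hz' : ∀ p ∈ s, p.Prime ∧ z ≤ p ∧ p ∣ m := by
    intro p hp
    have hpp := Nat.prime_of_mem_primeFactors hp
    have hpd := Nat.dvd_of_mem_primeFactors hp
    refine ⟨hpp, ?_, hpd⟩
    by_contra h
    exact hr p hpp (by omega) hpd
  have hb' : t.2.1 ∈ s.erase t.1 := Finset.mem_erase.mpr ⟨Ne.symm hab, hb⟩
  have hc' : t.2.2 ∈ (s.erase t.1).erase t.2.1 :=
    Finset.mem_erase.mpr ⟨Ne.symm hbc, Finset.mem_erase.mpr ⟨Ne.symm hac, hcc⟩⟩
  have hcard : (((s.erase t.1).erase t.2.1).erase t.2.2).card = 1 := by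
    rw [Finset.card_erase_of_mem hc', Finset.card_erase_of_mem hb', Finset.card_erase_of_mem ha, hc]
  obtain ⟨d, hd⟩ := Finset.card_eq_one.mp hcard
  have hds : d ∈ s := by
    have : d ∈ ((s.erase t.1).erase t.2.1).erase t.2.2 := by rw [hd]; exact Finset.mem_singleton_self d
    exact Finset.mem_of_mem_erase (Finset.mem_of_mem_erase (Finset.mem_of_mem_erase this))
  have hprod : m = t.1 * t.2.1 * t.2.2 * d := by
    have h6 := Nat.prod_primeFactors_of_squarefree hsq
    rw [← hs, ← Finset.mul_prod_erase s _ ha, ← Finset.mul_prod_erase _ _ hb',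
      ← Finset.mul_prod_erase _ _ hc', hd, Finset.prod_singleton] at h6
    rw [← h6]
    ring
  obtain ⟨pa, za, da⟩ := hz' _ ha
  obtain ⟨pb, zb, db⟩ := hz' _ hb
  obtain ⟨pc, zc, dc⟩ := hz' _ hcc
  obtain ⟨pd, zd, dd⟩ := hz' _ hds
  have hpos : 0 < t.1 * t.2.1 * t.2.2 := Nat.mul_pos (Nat.mul_pos pa.pos pb.pos) pc.pos
  have hle : ∀ p, p ∣ m → p ≤ N := fun p hp => (Nat.le_of_dvd (by omega) hp).trans hN
  unfold triT T3
  simp only [Finset.mem_filter, Finset.mem_product, Finset.mem_Icc]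
  refine ⟨⟨⟨⟨pa.pos, hle _ da⟩, ⟨pb.pos, hle _ db⟩, ⟨pc.pos, hle _ dc⟩⟩,
    ⟨pa, za⟩, ⟨pb, zb⟩, ⟨pc, zc⟩, ?_⟩, ?_, ?_⟩
  · calc t.1 * t.2.1 * t.2.2 * z ≤ t.1 * t.2.1 * t.2.2 * d := Nat.mul_le_mul_left _ zd
      _ = m := hprod.symm
      _ ≤ N := hN
  · exact ⟨d, hprod⟩
  · rw [hprod, Nat.mul_div_cancel_left _ hpos]
    exact pd

private theorem tri_up (N z : ℕ) (t : ℕ × ℕ × ℕ) (ht : t ∈ T3 N z) :
    ((triS N z).filter (fun m => t ∈ triT N z m)).card ≤
      Nat.primeCounting (N / (t.1 * t.2.1 * t.2.2)) := by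
  classical
  have hpos : 0 < t.1 * t.2.1 * t.2.2 := by
    unfold T3 at ht
    simp only [Finset.mem_filter] at ht
    obtain ⟨_, ⟨pa, _⟩, ⟨pb, _⟩, ⟨pc, _⟩, _⟩ := ht
    exact Nat.mul_pos (Nat.mul_pos pa.pos pb.pos) pc.pos
  have h1 : Nat.primeCounting (N / (t.1 * t.2.1 * t.2.2)) =
      ((Finset.range (N / (t.1 * t.2.1 * t.2.2) + 1)).filter Nat.Prime).card := by
    rw [Nat.primeCounting, Nat.primeCounting', Nat.count_eq_card_filter_range]
  rw [h1]
  refine Finset.card_le_card_of_injOn (fun m => m / (t.1 * t.2.1 * t.2.2)) ?_ ?_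
  · intro m hm
    simp only [Finset.coe_filter, Set.mem_ofPred_eq, triT, Finset.mem_filter, triS, Finset.mem_Icc] at hm
    simp only [Finset.coe_filter, Set.mem_ofPred_eq, Finset.mem_range]
    exact ⟨Nat.lt_succ_of_le (Nat.div_le_div_right hm.1.1.2), hm.2.2.2⟩
  · intro m hm m' hm' h
    simp only [Finset.coe_filter, Set.mem_ofPred_eq, triT, Finset.mem_filter] at hm hm'
    have h2 := Nat.mul_div_cancel' hm.2.2.1
    have h3 := Nat.mul_div_cancel' hm'.2.2.1
    rw [← h2, ← h3]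
    simp only at h
    rw [h]

theorem tri (N z : ℕ) (hz : 2 ≤ z) : 24 * (rk 4 N z : ℝ) ≤
    ∑ t ∈ T3 N z, (Nat.primeCounting (N / (t.1 * t.2.1 * t.2.2)) : ℝ) + 48 * (N / z) := by
  classical
  have h1 : 24 * (triS N z).card ≤ ∑ t ∈ T3 N z, Nat.primeCounting (N / (t.1 * t.2.1 * t.2.2)) := by
    calc 24 * (triS N z).card = ∑ m ∈ triS N z, 24 := by
          rw [Finset.sum_const, smul_eq_mul, mul_comm]
      _ ≤ ∑ m ∈ triS N z, (triT N z m).card := Finset.sum_le_sum fun m hm => tri_low N z m hm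
      _ = ∑ m ∈ triS N z, ∑ t ∈ T3 N z, if t ∈ triT N z m then 1 else 0 := by
          refine Finset.sum_congr rfl fun m _ => ?_
          rw [← Finset.card_filter]
          congr 1
          ext t
          simp only [triT, Finset.mem_filter]
          tauto
      _ = ∑ t ∈ T3 N z, ∑ m ∈ triS N z, if t ∈ triT N z m then 1 else 0 := Finset.sum_comm
      _ ≤ ∑ t ∈ T3 N z, Nat.primeCounting (N / (t.1 * t.2.1 * t.2.2)) := by
          refine Finset.sum_le_sum fun t ht => ?_
          rw [← Finset.card_filter]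
          exact tri_up N z t ht
  have h2 : 24 * ((triS N z).card : ℝ) ≤
      ∑ t ∈ T3 N z, (Nat.primeCounting (N / (t.1 * t.2.1 * t.2.2)) : ℝ) := by
    exact_mod_cast h1
  have h3 := tri_other N z hz
  rw [tri_split]
  push_cast
  linarith

end Pool.Agent.Lib.MP_f75418_nt.FF
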