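import Pool.Agent.Lib.MP_f75418_nt.FF.Defs
import Pool.Agent.Lib.MP_f75418_nt.FF.Tri
import Pool.Agent.Lib.MP_f75418_nt.FF.MerT
import Pool.Agent.Lib.MP_f75418_nt.FF.PiN
import Pool.Agent.Lib.MP_f75418_nt.FF.Facts

/-!
Row B8c. Numbers with four prime factors, upper bound. `tri` with `z = zz N` (`48 N/z ≤ ε N/log N`), `pi_div` at `d = t.1 t.2.1 t.2.2 ≤ N/z ≤
N^(15/19) ≤ N^(124/125)`: `π(N/d) ≤ (1+ε) N/(d (log N - log d))`, `log N - log d ≥ log z ≥ (4/19) log N`, and `1 ≤ (19/4) lg N p` for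
each of the three primes: `π(N/d) ≤ (1+ε) (19/4)^4 N/log N ∏ (lg/p)`. `merT`: `(19/4)^4 (3/19)^3/6 = (19/4)(3/4)^3/6 = 24 c4`.
-/

open Finset

namespace Pool.Agent.Lib.MP_f75418_nt.FF

open Pool.Agent.Lib.MP_f75418_nt
open Pool.Agent.Lib.MP_092512_nt.P3 (lg)

private theorem r4_small (ε : ℝ) (hε : 0 < ε) : ∃ N₀ : ℕ, ∀ N : ℕ, N₀ ≤ N →
    Real.log N / (N : ℝ) ^ (4 / 19 : ℝ) ≤ ε := by
  have h1 : Filter.Tendsto (fun x : ℝ => Real.log x / x ^ (4 / 19 : ℝ)) Filter.atTop (nhds 0) :=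
    (isLittleO_log_rpow_atTop (by norm_num)).tendsto_div_nhds_zero
  have h2 := h1.comp (tendsto_natCast_atTop_atTop (R := ℝ))
  obtain ⟨N₀, hN₀⟩ := Filter.eventually_atTop.1 (h2.eventually_le_const hε)
  exact ⟨N₀, fun N hN => hN₀ N hN⟩

private theorem r4_term {N : ℕ} (hN : 2 ≤ N) {ε : ℝ} (hε : 0 < ε) (hpi : ∀ d : ℕ, 1 ≤ d →
    (d : ℝ) ≤ (N : ℝ) ^ (124 / 125 : ℝ) →
    (Nat.primeCounting (N / d) : ℝ) ≤ (1 + ε) * ((N : ℝ) / d / (Real.log N - Real.log d)))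
    {t : ℕ × ℕ × ℕ} (ht : t ∈ T3 N (zz N)) :
    (Nat.primeCounting (N / (t.1 * t.2.1 * t.2.2)) : ℝ) ≤ (1 + ε) * (19 / 4) ^ 4 * (N / Real.log N) *
      (lg N t.1 / (t.1 : ℝ) * (lg N t.2.1 / (t.2.1 : ℝ)) * (lg N t.2.2 / (t.2.2 : ℝ))) := by
  classical
  obtain ⟨p, q, r⟩ := t
  simp only [T3, mem_filter, mem_product, mem_Icc] at ht
  obtain ⟨_, ⟨hp, hpz⟩, ⟨hq, hqz⟩, ⟨hr, hrz⟩, hprod⟩ := ht
  have hN1 : (1 : ℝ) < N := by exact_mod_cast hN
  have hN0 : (0 : ℝ) < N := by linarith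
  have hl : 0 < Real.log N := Real.log_pos hN1
  have hz := lt_zz N
  have hz0 : (0 : ℝ) < zz N := lt_of_le_of_lt (by positivity) hz
  have hp0 : (0 : ℝ) < p := by exact_mod_cast hp.pos
  have hq0 : (0 : ℝ) < q := by exact_mod_cast hq.pos
  have hr0 : (0 : ℝ) < r := by exact_mod_cast hr.pos
  have hlow : ∀ {x : ℕ}, x.Prime → zz N ≤ x → 1 ≤ 19 / 4 * lg N x := by
    intro x hx hzx
    have h1 : (N : ℝ) ^ (4 / 19 : ℝ) < x := hz.trans_le (by exact_mod_cast hzx)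
    have h2 : 4 / 19 * Real.log N ≤ Real.log x := by
      rw [← Real.log_rpow hN0]
      exact Real.log_le_log (by positivity) h1.le
    unfold lg
    rw [← mul_div_assoc, le_div_iff₀ hl]
    linarith
  have h1 : (p : ℝ) * q * r * zz N ≤ N := by exact_mod_cast hprod
  have hd0 : (0 : ℝ) < (p : ℝ) * q * r := by positivity
  have hlz : 4 / 19 * Real.log N ≤ Real.log (zz N) := by
    rw [← Real.log_rpow hN0]
    exact Real.log_le_log (by positivity) hz.le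
  have hld : 4 / 19 * Real.log N ≤ Real.log N - Real.log ((p : ℝ) * q * r) := by
    have h2 := Real.log_le_log (by positivity) h1
    rw [Real.log_mul hd0.ne' hz0.ne'] at h2
    linarith
  have hdle : (p : ℝ) * q * r ≤ (N : ℝ) ^ (124 / 125 : ℝ) := by
    have e1 : (p : ℝ) * q * r * (N : ℝ) ^ (4 / 19 : ℝ) ≤ (N : ℝ) ^ (124 / 125 : ℝ) * (N : ℝ) ^ (4 / 19 : ℝ) := by
      calc (p : ℝ) * q * r * (N : ℝ) ^ (4 / 19 : ℝ) ≤ (p : ℝ) * q * r * zz N := by gcongr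
        _ ≤ N := h1
        _ = (N : ℝ) ^ (1 : ℝ) := (Real.rpow_one _).symm
        _ ≤ (N : ℝ) ^ (124 / 125 + 4 / 19 : ℝ) := Real.rpow_le_rpow_of_exponent_le hN1.le (by norm_num)
        _ = _ := Real.rpow_add hN0 _ _
    exact le_of_mul_le_mul_right e1 (by positivity)
  have hdcast : (((p * q * r : ℕ)) : ℝ) = (p : ℝ) * q * r := by push_cast; ring
  have h2 := hpi (p * q * r) (Nat.one_le_iff_ne_zero.2 (mul_ne_zero (mul_ne_zero hp.ne_zero hq.ne_zero) hr.ne_zero))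
    (by rw [hdcast]; exact hdle)
  rw [hdcast] at h2
  refine h2.trans ?_
  have h3 : (N : ℝ) / ((p : ℝ) * q * r) / (Real.log N - Real.log ((p : ℝ) * q * r)) ≤
      (N : ℝ) / ((p : ℝ) * q * r) / (4 / 19 * Real.log N) := by
    gcongr
  have l1 := hlow hp hpz
  have l2 := hlow hq hqz
  have l3 := hlow hr hrz
  have h4 : 1 ≤ (19 / 4 * lg N p) * (19 / 4 * lg N q) * (19 / 4 * lg N r) := by
    have := one_le_mul_of_one_le_of_one_le (one_le_mul_of_one_le_of_one_le l1 l2) l3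
    exact this
  calc (1 + ε) * ((N : ℝ) / ((p : ℝ) * q * r) / (Real.log N - Real.log ((p : ℝ) * q * r)))
      ≤ (1 + ε) * ((N : ℝ) / ((p : ℝ) * q * r) / (4 / 19 * Real.log N)) := by gcongr
    _ = (1 + ε) * ((N : ℝ) / ((p : ℝ) * q * r) / (4 / 19 * Real.log N)) * 1 := (mul_one _).symm
    _ ≤ (1 + ε) * ((N : ℝ) / ((p : ℝ) * q * r) / (4 / 19 * Real.log N)) *
        ((19 / 4 * lg N p) * (19 / 4 * lg N q) * (19 / 4 * lg N r)) := by gcongr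
    _ = _ := by
        field_simp

theorem R4up (ε : ℝ) (hε : 0 < ε) : ∃ N₀ : ℕ, ∀ N : ℕ, N₀ ≤ N →
    (rk 4 N (zz N) : ℝ) ≤ (c4 + ε) * (N / Real.log N) := by
  set δ : ℝ := min 1 ε with hδ
  have hδ0 : 0 < δ := lt_min one_pos hε
  have hδ1 : δ ≤ 1 := min_le_left _ _
  have hδε : δ ≤ ε := min_le_right _ _
  obtain ⟨N1, h1⟩ := pi_div δ hδ0
  obtain ⟨N2, h2⟩ := merT (δ / 1020) (by positivity)
  obtain ⟨N3, h3⟩ := r4_small (δ / 48) (by positivity)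
  refine ⟨max (max N1 N2) (max N3 3), fun N hN => ?_⟩
  have hN1 : N1 ≤ N := (le_max_left _ _).trans ((le_max_left _ _).trans hN)
  have hN2 : N2 ≤ N := (le_max_right _ _).trans ((le_max_left _ _).trans hN)
  have hN3 : N3 ≤ N := (le_max_left _ _).trans ((le_max_right _ _).trans hN)
  have hN4 : 3 ≤ N := (le_max_right _ _).trans ((le_max_right _ _).trans hN)
  have hNr : (1 : ℝ) < N := by exact_mod_cast (by omega : 1 < N)
  have hN0 : (0 : ℝ) < N := by linarith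
  have hl : 0 < Real.log N := Real.log_pos hNr
  have hz := lt_zz N
  have hz0 : (0 : ℝ) < zz N := lt_of_le_of_lt (by positivity) hz
  have hz2 : 2 ≤ zz N := by
    have h4 : (1 : ℝ) < (N : ℝ) ^ (4 / 19 : ℝ) := Real.one_lt_rpow hNr (by norm_num)
    have h5 : (1 : ℝ) < zz N := h4.trans hz
    exact_mod_cast h5
  have htri := tri N (zz N) hz2
  have hsum : ∑ t ∈ T3 N (zz N), (Nat.primeCounting (N / (t.1 * t.2.1 * t.2.2)) : ℝ) ≤
      (1 + δ) * (19 / 4) ^ 4 * (N / Real.log N) * ((3 / 19) ^ 3 / 6 + δ / 1020) := by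
    calc _ ≤ ∑ t ∈ T3 N (zz N), (1 + δ) * (19 / 4) ^ 4 * (N / Real.log N) *
          (lg N t.1 / (t.1 : ℝ) * (lg N t.2.1 / (t.2.1 : ℝ)) * (lg N t.2.2 / (t.2.2 : ℝ))) :=
          sum_le_sum fun t ht => r4_term (by omega) hδ0 (fun d hd1 hd2 => (h1 N hN1 d hd1 hd2).2) ht
      _ = (1 + δ) * (19 / 4) ^ 4 * (N / Real.log N) * ∑ t ∈ T3 N (zz N),
          (lg N t.1 / (t.1 : ℝ) * (lg N t.2.1 / (t.2.1 : ℝ)) * (lg N t.2.2 / (t.2.2 : ℝ))) := by rw [mul_sum]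
      _ ≤ _ := by
          gcongr
          exact h2 N hN2
  have hsm : 48 * ((N : ℝ) / (zz N : ℝ)) ≤ δ * (N / Real.log N) := by
    have e1 := h3 N hN3
    rw [div_le_iff₀ (by positivity)] at e1
    have e2 : Real.log N ≤ δ / 48 * zz N := e1.trans (by gcongr)
    rw [← mul_div_assoc, div_le_iff₀ hz0, ← mul_div_assoc, div_mul_eq_mul_div, le_div_iff₀ hl]
    calc 48 * (N : ℝ) * Real.log N ≤ 48 * (N : ℝ) * (δ / 48 * zz N) := by gcongr
      _ = δ * N * zz N := by ring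
  have hX : 0 ≤ (N : ℝ) / Real.log N := by positivity
  set X : ℝ := (N : ℝ) / Real.log N with hXdef
  have hfin : 24 * (rk 4 N (zz N) : ℝ) ≤ 24 * ((c4 + ε) * X) := by
    have hc : c4 = 19 / 4 * (3 / 4) ^ 3 / 144 := rfl
    have e1 : (1 + δ) * (19 / 4) ^ 4 * X * ((3 / 19) ^ 3 / 6 + δ / 1020) + δ * X ≤ 24 * ((c4 + ε) * X) := by
      rw [hc]
      have e2 : (1 + δ) * (19 / 4) ^ 4 * ((3 / 19) ^ 3 / 6 + δ / 1020) + δ ≤ 24 * (19 / 4 * (3 / 4) ^ 3 / 144 + ε) := by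
        nlinarith
      calc _ = ((1 + δ) * (19 / 4) ^ 4 * ((3 / 19) ^ 3 / 6 + δ / 1020) + δ) * X := by ring
        _ ≤ (24 * (19 / 4 * (3 / 4) ^ 3 / 144 + ε)) * X := by gcongr
        _ = _ := by ring
    linarith
  linarith

end Pool.Agent.Lib.MP_f75418_nt.FF
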