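import Pool.Agent.Lib.MP_f75418_nt.FF.Defs
import Pool.Agent.Lib.MP_f75418_nt.FF.LU2
import Pool.Agent.Lib.MP_45349e_nt.LS.Main1

/-!
Row B6a. The upper bound for the multiples of one prime `p`: chain `[p]`, `b = true` (`b = true ↔ Odd l.length`), `D = D0/p`.

`buch_LU` with `b = true`: `SS_A([p], y) = LU_A - RR_A ≤ LU_A` (`RR_nonneg`), `LU_M = SS_M([p], y) + RR_M`,
`|LU_(A - ρM)| ≤ B/p ∏ + ∑ R` by `LU_bound2` (`l = [p]`, `Chn w z y [p]`, `D * l.prod = D0`), and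
`RR_M ≤ 2 (D0/p) (∏ - 1) + C N / p ∑ W` by `RR_bound` (`c1 = 2`, `c2 = C N`, hypothesis = `modS` with this `D0`,
`Vv = N/D0`). Take `k = y` as fuel.
-/

open Finset

namespace Pool.Agent.Lib.MP_f75418_nt.FF

open Pool.Agent.Lib.MP_f75418_nt
open Pool.Agent.Lib.MP_45349e_nt.LS (P Chn AA SS V am Hm)

private theorem upA_smul (w : ℕ) (A : List ℕ → ℝ) (c : ℝ) (k : ℕ) (b : Bool) (D : ℝ) (y : ℕ)
    (l : List ℕ) :
    MP_45349e_nt.LS.LU w (fun l => c * A l) k b D y l = c * MP_45349e_nt.LS.LU w A k b D y l := by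
  classical
  induction k generalizing b D y l with
  | zero => rfl
  | succ k ih =>
    unfold MP_45349e_nt.LS.LU
    rw [mul_sub, Finset.mul_sum]
    congr 1
    refine Finset.sum_congr rfl fun p _ => ?_
    by_cases hc : b = true ∧ D ≤ (p : ℝ) ^ 3
    · rw [if_pos hc, if_pos hc, mul_zero]
    · rw [if_neg hc, if_neg hc, ih]

theorem upA : ∃ C : ℝ, 0 < C ∧ ∀ {ι : Type} (I : Finset ι) (a : ι → ℝ) (H : ℕ → ι → Prop),
    (∀ i ∈ I, 0 ≤ a i) → ∀ (w z N : ℕ) (D0 B ρ : ℝ) (R : ℕ → ℝ), 2 ≤ w → 1 ≤ N → 1 < D0 →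
    0 ≤ B → 0 ≤ ρ → (∀ d, 0 ≤ R d) →
    (∀ l, Chn w z 0 l → (l.prod : ℝ) < D0 →
      |AA I a H l - ρ * AA (Finset.Icc 1 N) (am w) Hm l| ≤ B / l.prod + R l.prod) →
    ∀ p y : ℕ, p.Prime → w ≤ p → p < z → y ≤ p → 1 < D0 / p → (y : ℝ) ≤ D0 / p →
      SS w I a H [p] y ≤ ρ * SS w (Finset.Icc 1 N) (am w) Hm [p] y +
        B / p * ∏ q ∈ P w y, (1 + 1 / (q : ℝ)) + ∑ e ∈ Ee w y p D0, R (p * e) +
        ρ * (2 * (D0 / p) * ∏ q ∈ P w y, (1 + 1 / (q : ℝ)) +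
          C * (N / p) * ∑ j ∈ Finset.range (y + 1),
            MP_45349e_nt.LS.W w (N / D0) j true (D0 / p) y) := by
  obtain ⟨C, hC, hmod⟩ := MP_45349e_nt.LS.modS
  refine ⟨C, hC, ?_⟩
  intro ι I a H ha w z N D0 B ρ R hw hN hD0 hB hρ hR hA p y hp hwp hpz hyp hD1 hyD
  have hp0 : (0 : ℝ) < (p : ℝ) := by exact_mod_cast hp.pos
  have hchn : Chn w z y [p] := by
    refine ⟨List.pairwise_singleton _ _, ?_⟩
    intro q hq
    rw [List.mem_singleton] at hq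
    rw [hq]
    exact ⟨hp, hwp, hyp, hpz⟩
  have hyz : y ≤ z := by omega
  have h1 := MP_45349e_nt.LS.buch_LU w I a H y true (D0 / p) y [p] le_rfl
  have h2 := MP_45349e_nt.LS.buch_LU w (Finset.Icc 1 N) (am w) Hm y true (D0 / p) y [p] le_rfl
  have h3 : 0 ≤ MP_45349e_nt.LS.RR w (SS w I a H) y true (D0 / p) y [p] :=
    MP_45349e_nt.LS.RR_nonneg w _ (fun l y => MP_45349e_nt.LS.SS_nonneg w _ _ _ ha l y) _ _ _ _ _
  have h4 := MP_45349e_nt.LS.LU_sub w (AA I a H)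
    (fun l => ρ * AA (Finset.Icc 1 N) (am w) Hm l) y true (D0 / p) y [p]
  have h4' := upA_smul w (AA (Finset.Icc 1 N) (am w) Hm) ρ y true (D0 / p) y [p]
  have h5 := LU_bound2 w z (fun l => AA I a H l - ρ * AA (Finset.Icc 1 N) (am w) Hm l) B D0 hB R hR
    hA y true (D0 / p) y [p] hchn hyz hD1
    (by rw [List.prod_singleton, div_mul_cancel₀ _ hp0.ne']) (by simpa using hyD)
  have h6 := MP_45349e_nt.LS.RR_bound w z (SS w (Finset.Icc 1 N) (am w) Hm) D0 (N / D0) 2 (C * N)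
    (by norm_num) (by positivity) (hmod w z N D0 hw hN (by linarith)) y true (D0 / p) y [p] hchn
    hyz (by linarith) (by rw [List.prod_singleton, div_mul_cancel₀ _ hp0.ne']) (by simp)
    (by simpa using hyD)
  rw [List.prod_singleton] at h5 h6
  simp only [if_true] at h1 h2
  have h7 := (abs_le.mp h5).2
  rw [h4, h4'] at h7
  have h8 : MP_45349e_nt.LS.LU w (AA (Finset.Icc 1 N) (am w) Hm) y true (D0 / p) y [p] =
      SS w (Finset.Icc 1 N) (am w) Hm [p] y +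
        MP_45349e_nt.LS.RR w (SS w (Finset.Icc 1 N) (am w) Hm) y true (D0 / p) y [p] := by
    linarith
  rw [h8] at h7
  have h9 := mul_le_mul_of_nonneg_left h6 hρ
  have h10 : 0 ≤ ρ * (2 * (D0 / (p : ℝ))) := by
    apply mul_nonneg hρ
    linarith
  have e : C * (N / (p : ℝ)) = C * N / (p : ℝ) := by ring
  rw [e]
  nlinarith [h1, h3, h7, h9, h10]

end Pool.Agent.Lib.MP_f75418_nt.FF
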