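import Pool.Agent.Lib.MP_f75418_nt.FF.Defs
import Pool.Agent.Lib.MP_f75418_nt.FF.Cmp
import Pool.Agent.Lib.MP_f75418_nt.FF.UpA
import Pool.Agent.Lib.MP_f75418_nt.FF.SumR
import Pool.Agent.Lib.MP_f75418_nt.FF.Rlev
import Pool.Agent.Lib.MP_f75418_nt.FF.UpNum
import Pool.Agent.Lib.MP_f75418_nt.FF.Facts
import Pool.Agent.Lib.MP_45349e_nt.LS.ParEta

/-!
Row B6. The upper bound for the weighted sum, final form. Same parameters as in row B5, `z := yy N` as the bound of the chains,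
`y = yp N p` for each `p ∈ P (zz N) (yy N)` (`p < yy N`, `yp N p ≤ zz N ≤ p`; `sizes`). `upA` for each `p`, times
`0 ≤ wt N p ≤ 1`, summed: `∑ B/p ∏ ≤ 2 B C/η²` (`invLe`, `prodLe`), `∑_p ∑_e R (p e) ≤ ∑_{d ∈ DD} R d ≤ 3^n/n²` (`sumR_p`,
`rlev`), `ρ ∑ 2 D0/p ∏ ≤ 12·3^n N^(-η) C/η²`, `ρ C N ∑ 1/p ∑_j W ≤ 6 C 3^n (..)/log N` (`wTrue`). `SS_A([p], y) = SAp n p y` and
`SS_M([p], y) = M1 N p y` (the primes `< w` are in the weights, the primes in `[w, y)` in `SS`; `w ≤ y`).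
-/

open Finset

namespace Pool.Agent.Lib.MP_f75418_nt.FF

open Pool.Agent.Lib.MP_f75418_nt
open Pool.Agent.Lib.MP_45349e_nt.LS (P Chn AA SS V am Hm)

private theorem b6_cond {w y : ℕ} (hwy : w ≤ y) (m : ℕ) :
    (∀ r, r.Prime → r < y → ¬ r ∣ m) ↔
      (∀ q ∈ P 2 w, ¬ q ∣ m) ∧ ∀ q ∈ P w y, ¬ q ∣ m := by
  constructor
  · intro h
    refine ⟨fun q hq => ?_, fun q hq => ?_⟩
    · obtain ⟨⟨-, h2⟩, h3⟩ := mem_P.1 hq
      exact h q h3 (by omega)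
    · obtain ⟨⟨-, h2⟩, h3⟩ := mem_P.1 hq
      exact h q h3 h2
  · rintro ⟨h1, h2⟩ r hr hry
    rcases Nat.lt_or_ge r w with h | h
    · exact h1 r (mem_P.2 ⟨⟨hr.two_le, h⟩, hr⟩)
    · exact h2 r (mem_P.2 ⟨⟨h, hry⟩, hr⟩)

private theorem b6_SA (n w y p : ℕ) (hwy : w ≤ y) :
    SS w Finset.univ (aA n w) (HA n) [p] y = (SAp n p y : ℝ) := by
  classical
  unfold MP_45349e_nt.LS.SS SAp
  rw [Finset.card_filter]
  push_cast
  apply Finset.sum_congr rfl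
  intro b _
  unfold aA HA
  have hc := b6_cond hwy (av n b)
  by_cases h1 : p ∣ av n b
  · by_cases h2 : ∀ r, r.Prime → r < y → ¬ r ∣ av n b
    · obtain ⟨h3, h4⟩ := hc.1 h2
      rw [if_pos ⟨by simpa using h1, h4⟩, if_pos h3, if_pos ⟨h1, h2⟩]
    · rw [if_neg (fun h : p ∣ av n b ∧ ∀ r, r.Prime → r < y → ¬ r ∣ av n b => h2 h.2)]
      by_cases h3 : ∀ q ∈ P 2 w, ¬ q ∣ av n b
      · rw [if_neg (fun h => h2 (hc.2 ⟨h3, h.2⟩))]
      · rw [if_neg h3, ite_self]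
  · rw [if_neg (fun h : p ∣ av n b ∧ ∀ r, r.Prime → r < y → ¬ r ∣ av n b => h1 h.1),
      if_neg (fun h => h1 (h.1 p (by simp)))]

private theorem b6_SM (N w y p : ℕ) (hwy : w ≤ y) :
    SS w (Finset.Icc 1 N) (am w) Hm [p] y = M1 N p y := by
  classical
  unfold MP_45349e_nt.LS.SS M1
  apply Finset.sum_congr rfl
  intro m _
  unfold MP_45349e_nt.LS.am MP_45349e_nt.LS.ind MP_45349e_nt.LS.Hm
  have hc := b6_cond hwy m
  by_cases h1 : p ∣ m
  · by_cases h2 : ∀ r, r.Prime → r < y → ¬ r ∣ m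
    · obtain ⟨h3, h4⟩ := hc.1 h2
      rw [if_pos ⟨by simpa using h1, h4⟩, if_pos h3, if_pos ⟨h1, h2⟩, one_mul]
    · rw [if_neg (fun h : p ∣ m ∧ ∀ r, r.Prime → r < y → ¬ r ∣ m => h2 h.2)]
      by_cases h3 : ∀ q ∈ P 2 w, ¬ q ∣ m
      · rw [if_neg (fun h => h2 (hc.2 ⟨h3, h.2⟩))]
      · rw [if_neg h3, zero_mul, ite_self]
  · rw [if_neg (fun h : p ∣ m ∧ ∀ r, r.Prime → r < y → ¬ r ∣ m => h1 h.1),
      if_neg (fun h => h1 (h.1 p (by simp)))]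

private theorem b6_decay (η A c : ℝ) (hη : 0 < η) (hA : 0 < A) (hc : 0 < c) :
    ∃ n₀ : ℕ, ∀ n : ℕ, n₀ ≤ n →
      A * (n * ((Nn n : ℕ) : ℝ) ^ (-η)) ≤ c ∧ 1 / (n : ℝ) ≤ c ∧ 1 ≤ n := by
  obtain ⟨n₁, hn₁⟩ := log_Nn_half
  obtain ⟨n₂, hn₂⟩ := Nn_large 2
  have e1 : ∀ᶠ x : ℝ in Filter.atTop, ‖x ^ 1‖ ≤ c / A * ‖Real.exp (η / 2 * x)‖ :=
    (isLittleO_pow_exp_pos_mul_atTop 1 (by positivity)).def (by positivity)
  have e2 : ∀ᶠ x : ℝ in Filter.atTop, 1 / c ≤ x := Filter.eventually_ge_atTop _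
  obtain ⟨x₀, hx₀⟩ := (e1.and e2).exists_forall_of_atTop
  refine ⟨max (max n₁ n₂) (max ⌈x₀⌉₊ 1), fun n hn => ?_⟩
  have h1 : n₁ ≤ n := le_trans (le_trans (le_max_left _ _) (le_max_left _ _)) hn
  have h2 : n₂ ≤ n := le_trans (le_trans (le_max_right _ _) (le_max_left _ _)) hn
  have h3 : ⌈x₀⌉₊ ≤ n := le_trans (le_trans (le_max_left _ _) (le_max_right _ _)) hn
  have h4 : 1 ≤ n := le_trans (le_trans (le_max_right _ _) (le_max_right _ _)) hn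
  have h4r : (1 : ℝ) ≤ n := by exact_mod_cast h4
  have h5 : x₀ ≤ n := (Nat.le_ceil x₀).trans (by exact_mod_cast h3)
  obtain ⟨h6, h7⟩ := hx₀ n h5
  refine ⟨?_, ?_, h4⟩
  · have hN : 2 ≤ Nn n := hn₂ n h2
    have hNr : (0 : ℝ) < (Nn n : ℕ) := by
      have : (2 : ℝ) ≤ (Nn n : ℕ) := by exact_mod_cast hN
      linarith
    have h8 : ((Nn n : ℕ) : ℝ) ^ (-η) ≤ Real.exp (-(η / 2 * n)) := by
      rw [Real.rpow_def_of_pos hNr]
      apply Real.exp_le_exp.2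
      have := hn₁ n h1
      nlinarith
    rw [pow_one, Real.norm_of_nonneg (by linarith), Real.norm_of_nonneg (Real.exp_pos _).le] at h6
    have h9 : (n : ℝ) * Real.exp (-(η / 2 * n)) ≤ c / A := by
      have h10 := mul_le_mul_of_nonneg_right h6 (Real.exp_pos (-(η / 2 * n))).le
      rw [mul_assoc, ← Real.exp_add, add_neg_cancel, Real.exp_zero, mul_one] at h10
      exact h10
    calc A * (n * ((Nn n : ℕ) : ℝ) ^ (-η)) ≤ A * (n * Real.exp (-(η / 2 * n))) := by gcongr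
      _ ≤ A * (c / A) := by gcongr
      _ = c := mul_div_cancel₀ _ hA.ne'
  · rw [div_le_iff₀ (by linarith)]
    rw [div_le_iff₀ hc] at h7
    linarith

theorem up (ε : ℝ) (hε : 0 < ε) : ∃ n₀ : ℕ, ∀ n : ℕ, n₀ ≤ n →
    ∑ p ∈ P (zz (Nn n)) (yy (Nn n)), wt (Nn n) p * (SAp n p (yp (Nn n) p) : ℝ) ≤
      3 * 3 ^ n / (Nn n : ℕ) * ∑ p ∈ P (zz (Nn n)) (yy (Nn n)),
        wt (Nn n) p * M1 (Nn n) p (yp (Nn n) p) + ε * 3 ^ n / n := by
  classical
  obtain ⟨C1, hC1, K, hK, hcmp⟩ := cmp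
  obtain ⟨C2, hC2, hupA⟩ := upA
  obtain ⟨C3, hC3, hprod⟩ := prodLe
  obtain ⟨Ninv, hinv⟩ := invLe
  -- choice of i0
  obtain ⟨i0, hi0⟩ := exists_pow_lt_of_lt_one (show 0 < ε / 5 / (12 * C2 * 3600) by positivity)
    (show (5 / 6 : ℝ) < 1 by norm_num)
  -- choice of eta
  set A : ℝ := max (2 * C1 * C3) (12 * C2 * 10 ^ 6 / 52) with hA
  have hA0 : 0 < A := lt_max_of_lt_left (by positivity)
  obtain ⟨η, hη, hηK, hη500, -, hpar1, hpar2⟩ := MP_45349e_nt.LS.parEta (max K 125)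
    (le_max_of_le_left hK) (249 / 500) (by norm_num) (by norm_num) i0 A (ε / 5) hA0
    (by positivity)
  have hη1000 : η ≤ 1 / 1000 := by
    refine hηK.trans ?_
    have : (125 : ℝ) ≤ ((max K 125 : ℕ) : ℝ) := by exact_mod_cast le_max_right K 125
    rw [div_le_div_iff₀ (by linarith) (by norm_num)]
    linarith
  have hKr : (1 : ℝ) ≤ K := by exact_mod_cast hK
  have hKm : (K : ℝ) ≤ ((max K 125 : ℕ) : ℝ) := by exact_mod_cast le_max_left K 125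
  have hηK1 : η ≤ 1 / (8 * K) := by
    refine hηK.trans ?_
    apply one_div_le_one_div_of_le (by positivity)
    linarith
  have hη1 : η < 1 := by linarith
  -- first error
  have hE1 : 2 * C1 * C3 * (2 : ℝ) ^ (-(1 / (4 * η * K))) / η ^ 4 ≤ ε / 5 := by
    refine le_trans ?_ hpar1
    have h1 : (2 : ℝ) ^ (-(1 / (4 * η * K))) ≤
        (2 : ℝ) ^ (-(1 / (4 * η * ((max K 125 : ℕ) : ℝ)))) := by
      apply Real.rpow_le_rpow_of_exponent_le (by norm_num)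
      apply neg_le_neg
      apply one_div_le_one_div_of_le (by positivity)
      gcongr
    have h2 : 2 * C1 * C3 ≤ A := le_max_left _ _
    gcongr
  set L : ℝ := 1 + Real.log (1 / η ^ 2) with hL
  have hL1 : 1 ≤ L := by
    rw [hL]
    have : 0 ≤ Real.log (1 / η ^ 2) := by
      apply Real.log_nonneg
      rw [le_div_iff₀ (by positivity)]
      nlinarith
    linarith
  set X : ℝ := i0 * ((9 * L ^ 2) ^ i0 * (10 ^ 6 * η)) + 3600 * (5 / 6) ^ i0 with hX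
  have hX0 : 0 ≤ X := by rw [hX]; positivity
  have hE2 : 12 * C2 * X ≤ 2 * (ε / 5) := by
    rw [hX, mul_add]
    have h1 : 12 * C2 * (i0 * ((9 * L ^ 2) ^ i0 * (10 ^ 6 * η))) ≤ ε / 5 := by
      refine le_trans ?_ hpar2
      have h2 : 12 * C2 * 10 ^ 6 / 52 ≤ A := le_max_right _ _
      have h3 : 0 ≤ (i0 : ℝ) * ((9 * L ^ 2) ^ i0 * (52 * η)) := by positivity
      calc 12 * C2 * (i0 * ((9 * L ^ 2) ^ i0 * (10 ^ 6 * η)))
          = 12 * C2 * 10 ^ 6 / 52 * (i0 * ((9 * L ^ 2) ^ i0 * (52 * η))) := by ring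
        _ ≤ A * (i0 * ((9 * L ^ 2) ^ i0 * (52 * η))) := by gcongr
        _ = A * (i0 * (4 * 1 * (9 * L ^ 2) ^ i0 * (13 * η))) := by ring
        _ ≤ A * (i0 * (4 * L * (9 * L ^ 2) ^ i0 * (13 * η))) := by gcongr
    have h4 : 12 * C2 * (3600 * (5 / 6) ^ i0) ≤ ε / 5 := by
      rw [lt_div_iff₀ (by positivity)] at hi0
      nlinarith
    linarith
  obtain ⟨b, hb, n₁, hn₁⟩ := hcmp η hη hηK1
  obtain ⟨Nprod, hprod'⟩ := hprod η hη hη1000
  obtain ⟨Nsz, hsz⟩ := sizes η hη hη1000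
  obtain ⟨Nw, hw'⟩ := wTrue i0 η hη hη1000
  obtain ⟨n₂, hn₂⟩ := rlev η hη (by linarith) b hb ⟨n₁, fun n hn => (hn₁ n hn).1⟩
  obtain ⟨n₃, hn₃⟩ := b6_decay η (12 * C3 / η ^ 2) (ε / 5) hη (by positivity) (by positivity)
  obtain ⟨n₄, hn₄⟩ := log_Nn_half
  obtain ⟨n₅, hn₅⟩ := Nn_large (max (max (max Ninv Nprod) (max Nsz Nw)) 2)
  refine ⟨max (max n₁ n₂) (max n₃ (max n₄ n₅)), fun n hn => ?_⟩
  have hnn₁ : n₁ ≤ n := by omega
  have hnn₂ : n₂ ≤ n := by omega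
  have hnn₃ : n₃ ≤ n := by omega
  have hnn₄ : n₄ ≤ n := by omega
  have hnn₅ : n₅ ≤ n := by omega
  have hNbig := hn₅ n hnn₅
  obtain ⟨hcmp1, hcmp2⟩ := hn₁ n hnn₁
  have hR := hn₂ n hnn₂
  obtain ⟨hdec, hinvn, hn1⟩ := hn₃ n hnn₃
  have hlog := hn₄ n hnn₄
  clear hn₁ hn₂ hn₃ hn₄ hn₅ hcmp hn hnn₁ hnn₂ hnn₃ hnn₄ hnn₅
  set N : ℕ := Nn n with hN
  have hN2 : 2 ≤ N := by omega
  have hNr : (2 : ℝ) ≤ N := by exact_mod_cast hN2
  have hN0 : (0 : ℝ) < N := by linarith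
  have hn0 : (0 : ℝ) < n := by exact_mod_cast hn1
  have hS2 := hinv N (by omega)
  have hszN := hsz N (by omega)
  have hwN := hw' N (by omega)
  have hprodN := hprod' N (by omega)
  set w : ℕ := ww η N with hw
  have hw2 : 2 ≤ w := by
    have h1 : (1 : ℝ) < (N : ℝ) ^ (η ^ 2) := Real.one_lt_rpow (by linarith) (by positivity)
    have h2 : 1 < w := by
      rw [hw]
      unfold ww
      rw [Nat.lt_ceil]
      exact_mod_cast h1
    omega
  set D0 : ℝ := (N : ℝ) ^ (1 - η) with hD0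
  have hD1 : 1 < D0 := Real.one_lt_rpow (by linarith) (by linarith)
  set ρ : ℝ := 3 * 3 ^ n / (N : ℕ) with hρ
  have hρ0 : 0 ≤ ρ := by rw [hρ]; positivity
  set B : ℝ := C1 * (2 : ℝ) ^ (-(1 / (4 * η * K))) / η ^ 2 * (3 ^ n / n) with hB
  have hB0 : 0 ≤ B := by rw [hB]; positivity
  have hR0 : ∀ d, 0 ≤ RA n w b d := by
    intro d
    unfold RA
    apply mul_nonneg (by positivity)
    exact Finset.sum_nonneg fun _ _ => abs_nonneg _
  have ha0 : ∀ i ∈ (Finset.univ : Finset (Fin n → Fin 3)), 0 ≤ aA n w i := by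
    intro i _
    unfold aA
    split_ifs <;> norm_num
  have hlog0 : 0 < Real.log N := Real.log_pos (by linarith)
  -- each prime
  have hterm : ∀ p ∈ P (zz N) (yy N), (SAp n p (yp N p) : ℝ) ≤ ρ * M1 N p (yp N p) +
      ((B * (C3 / η ^ 2) + ρ * (2 * D0 * (C3 / η ^ 2) + C2 * N * (X / Real.log N))) * (1 / p) +
      ∑ e ∈ Ee w (yp N p) p D0, RA n w b (p * e)) := by
    intro p hp
    obtain ⟨⟨hzp, hpy⟩, hpr⟩ := mem_P.1 hp
    obtain ⟨hwy, hyz, hyD, hD1p⟩ := hszN p hp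
    have h1 := hupA Finset.univ (aA n w) (HA n) ha0 w (yy N) N D0 B ρ (RA n w b) hw2
      (by omega) hD1 hB0 hρ0 hR0 (fun l hl hlD => hcmp2 (yy N) l hl hlD) p (yp N p) hpr
      (by omega) hpy (by omega) hD1p hyD
    rw [b6_SA n w (yp N p) p hwy, b6_SM N w (yp N p) p hwy] at h1
    have hp0 : (0 : ℝ) < p := by exact_mod_cast hpr.pos
    have h2 := hprodN (yp N p) hwy hyz
    have h3 := hwN p hp
    rw [← hL, ← hX] at h3
    have h4 : B / p * ∏ q ∈ P w (yp N p), (1 + 1 / (q : ℝ)) ≤ B * (C3 / η ^ 2) * (1 / p) := by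
      calc B / p * ∏ q ∈ P w (yp N p), (1 + 1 / (q : ℝ)) ≤ B / p * (C3 / η ^ 2) := by gcongr
        _ = B * (C3 / η ^ 2) * (1 / p) := by ring
    have h5 : ρ * (2 * (D0 / p) * ∏ q ∈ P w (yp N p), (1 + 1 / (q : ℝ)) +
          C2 * (N / p) * ∑ j ∈ Finset.range (yp N p + 1),
            MP_45349e_nt.LS.W w (N / D0) j true (D0 / p) (yp N p)) ≤
        ρ * (2 * D0 * (C3 / η ^ 2) + C2 * N * (X / Real.log N)) * (1 / p) := by
      calc ρ * (2 * (D0 / p) * ∏ q ∈ P w (yp N p), (1 + 1 / (q : ℝ)) +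
          C2 * (N / p) * ∑ j ∈ Finset.range (yp N p + 1),
            MP_45349e_nt.LS.W w (N / D0) j true (D0 / p) (yp N p)) ≤
          ρ * (2 * (D0 / p) * (C3 / η ^ 2) + C2 * (N / p) * (X / Real.log N)) := by
            gcongr
        _ = ρ * (2 * D0 * (C3 / η ^ 2) + C2 * N * (X / Real.log N)) * (1 / p) := by ring
    linarith
  set E : ℝ := B * (C3 / η ^ 2) + ρ * (2 * D0 * (C3 / η ^ 2) + C2 * N * (X / Real.log N)) with hE
  have hE0 : 0 ≤ E := by rw [hE]; positivity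
  have hwt : ∀ p ∈ P (zz N) (yy N), wt N p * (SAp n p (yp N p) : ℝ) ≤
      ρ * (wt N p * M1 N p (yp N p)) + (E * (1 / p) +
      ∑ e ∈ Ee w (yp N p) p D0, RA n w b (p * e)) := by
    intro p hp
    have h0 := wt_nonneg hN2 hp
    have h1 : wt N p ≤ 1 := (wt_le hN2 hp).trans (by norm_num)
    have h2 := hterm p hp
    have h3 : 0 ≤ E * (1 / p) + ∑ e ∈ Ee w (yp N p) p D0, RA n w b (p * e) := by
      have : 0 ≤ ∑ e ∈ Ee w (yp N p) p D0, RA n w b (p * e) :=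
        Finset.sum_nonneg fun _ _ => hR0 _
      positivity
    have h4 := mul_le_mul_of_nonneg_left h2 h0
    have h5 := mul_le_mul_of_nonneg_right h1 h3
    linarith
  have hsum : ∑ p ∈ P (zz N) (yy N), wt N p * (SAp n p (yp N p) : ℝ) ≤
      ρ * ∑ p ∈ P (zz N) (yy N), wt N p * M1 N p (yp N p) +
      (E * ∑ p ∈ P (zz N) (yy N), 1 / (p : ℝ) +
        ∑ p ∈ P (zz N) (yy N), ∑ e ∈ Ee w (yp N p) p D0, RA n w b (p * e)) := by
    refine (Finset.sum_le_sum hwt).trans (le_of_eq ?_)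
    rw [Finset.sum_add_distrib, Finset.sum_add_distrib, Finset.mul_sum, Finset.mul_sum]
  refine hsum.trans ?_
  have hRsum : ∑ p ∈ P (zz N) (yy N), ∑ e ∈ Ee w (yp N p) p D0, RA n w b (p * e) ≤
      3 ^ n / (n : ℝ) ^ 2 := by
    rcases (P (zz N) (yy N)).eq_empty_or_nonempty with hem | ⟨p₀, hp₀⟩
    · rw [hem, Finset.sum_empty]
      positivity
    · refine le_trans (sumR_p w (zz N) (yy N) D0 (RA n w b) hR0 (yp N) ?_ ?_) hR
      · obtain ⟨h1, h2, -, -⟩ := hszN p₀ hp₀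
        omega
      · intro p hp
        obtain ⟨-, h2, -, -⟩ := hszN p hp
        have := (mem_P.1 hp).1.1
        omega
  have hEsum : E * ∑ p ∈ P (zz N) (yy N), 1 / (p : ℝ) ≤ E * 2 := by gcongr
  -- numerical evaluation
  have hE3 : E * 2 ≤ (ε / 5 + ε / 5 + 2 * (ε / 5)) * (3 ^ n / n) := by
    have h3n : (0 : ℝ) < 3 ^ n / n := by positivity
    have t1 : B * (C3 / η ^ 2) * 2 ≤ ε / 5 * (3 ^ n / n) := by
      have : B * (C3 / η ^ 2) * 2 =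
          2 * C1 * C3 * (2 : ℝ) ^ (-(1 / (4 * η * K))) / η ^ 4 * (3 ^ n / n) := by
        rw [hB]
        have : η ^ 4 = η ^ 2 * η ^ 2 := by ring
        rw [this]
        field_simp
      rw [this]
      gcongr
    have t2 : ρ * (2 * D0 * (C3 / η ^ 2)) * 2 ≤ ε / 5 * (3 ^ n / n) := by
      have hDN : D0 / N = (N : ℝ) ^ (-η) := by
        rw [hD0, sub_eq_add_neg, Real.rpow_add hN0, Real.rpow_one]
        field_simp
      have : ρ * (2 * D0 * (C3 / η ^ 2)) * 2 =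
          12 * C3 / η ^ 2 * (n * (N : ℝ) ^ (-η)) * (3 ^ n / n) := by
        rw [hρ, ← hDN]
        field_simp
        ring
      rw [this]
      gcongr
    have t3 : ρ * (C2 * N * (X / Real.log N)) * 2 ≤ 2 * (ε / 5) * (3 ^ n / n) := by
      have e1 : ρ * (C2 * N * (X / Real.log N)) * 2 = 6 * C2 * X * 3 ^ n / Real.log N := by
        rw [hρ]
        field_simp
        ring
      rw [e1]
      have e2 : 6 * C2 * X * 3 ^ n / Real.log N ≤ 6 * C2 * X * 3 ^ n / (n / 2) := by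
        gcongr
      refine e2.trans ?_
      have e3 : 6 * C2 * X * 3 ^ n / ((n : ℝ) / 2) = 12 * C2 * X * (3 ^ n / n) := by
        field_simp
        ring
      rw [e3]
      gcongr
    rw [hE]
    linarith
  have hlast : (3 : ℝ) ^ n / (n : ℝ) ^ 2 ≤ ε / 5 * (3 ^ n / n) := by
    have : (3 : ℝ) ^ n / (n : ℝ) ^ 2 = 1 / n * (3 ^ n / n) := by
      field_simp
    rw [this]
    gcongr
  have hfin : ε * 3 ^ n / n = ε * (3 ^ n / n) := by ring
  rw [hfin]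
  linarith

end Pool.Agent.Lib.MP_f75418_nt.FF
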