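import Pool.Agent.Lib.MP_f75418_nt.FF.Defs
import Pool.Agent.Lib.MP_f75418_nt.FF.PiN
import Pool.Agent.Lib.MP_f75418_nt.FF.Facts
import Pool.Agent.Lib.MP_092512_nt.P3.D1

/-!
Row B8b. `P (zz N) (yy N) = PP N (4/19) (124/125)` (`P_eq_PP`, row Facts), `wt N p = 1 - (125/124) lg N p ≥ 0`, `pi_div`:
`wt N p π(N/p) ≤ (1+ε) N/(log N) (lg N p / p) ψ(lg N p)` with `ψ t = (1 - 125/124 t)/(t (1-t)) = 1/t - (1/124)/(1-t)`; `D1_one`,
`∫_{4/19}^{124/125} ψ = [log t + (1/124) log (1-t)] = log (589/125) - (1/124)(log (15/19) - log (1/125)) = II`.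
-/

open Finset

namespace Pool.Agent.Lib.MP_f75418_nt.FF

open Pool.Agent.Lib.MP_f75418_nt
open Pool.Agent.Lib.MP_45349e_nt.LS (P)
open Pool.Agent.Lib.MP_092512_nt.P3 (PP lg)

private noncomputable def wpiPsi (t : ℝ) : ℝ := (1 - 125 / 124 * t) / (t * (1 - t))

private theorem wpi_cont : ContinuousOn wpiPsi (Set.Icc (4 / 19) (124 / 125)) := by
  unfold wpiPsi
  refine ContinuousOn.div (by fun_prop) (by fun_prop) ?_
  intro t ht
  have h1 : 0 < t := by linarith [ht.1]
  have h2 : 0 < 1 - t := by linarith [ht.2]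
  positivity

private theorem wpi_int : ∫ u in (4 / 19 : ℝ)..(124 / 125), wpiPsi u = II := by
  have hd : ∀ t ∈ Set.uIcc (4 / 19 : ℝ) (124 / 125),
      HasDerivAt (fun t : ℝ => Real.log t + 1 / 124 * Real.log (1 - t)) (wpiPsi t) t := by
    intro t ht
    rw [Set.uIcc_of_le (by norm_num)] at ht
    have h1 : 0 < t := by linarith [ht.1]
    have h2 : 0 < 1 - t := by linarith [ht.2]
    have h3 := Real.hasDerivAt_log h1.ne'
    have h4 : HasDerivAt (fun t : ℝ => 1 - t) (-1) t := by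
      simpa using (hasDerivAt_id t).const_sub 1
    have h5 := (h4.log h2.ne').const_mul (1 / 124 : ℝ)
    refine (h3.add h5).congr_deriv ?_
    unfold wpiPsi
    field_simp
    ring
  rw [intervalIntegral.integral_eq_sub_of_hasDerivAt hd]
  · have e1 : (1 : ℝ) - 124 / 125 = 1 / 125 := by norm_num
    have e2 : (1 : ℝ) - 4 / 19 = 15 / 19 := by norm_num
    have e3 : Real.log (589 / 125) = Real.log (124 / 125) - Real.log (4 / 19) := by
      rw [← Real.log_div (by norm_num) (by norm_num)]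
      norm_num
    rw [e1, e2, II, e3]
    ring
  · apply ContinuousOn.intervalIntegrable
    rw [Set.uIcc_of_le (by norm_num)]
    exact wpi_cont

theorem Wpi (ε : ℝ) (hε : 0 < ε) : ∃ N₀ : ℕ, ∀ N : ℕ, N₀ ≤ N →
    ∑ p ∈ P (zz N) (yy N), wt N p * (Nat.primeCounting (N / p) : ℝ) ≤
      (II + ε) * (N / Real.log N) := by
  obtain ⟨ε₁, hε₁⟩ : ∃ e : ℝ, e = min 1 (ε / (|II| + 2)) := ⟨_, rfl⟩
  have hden : 0 < |II| + 2 := by positivity
  have h0 : 0 < ε₁ := by
    rw [hε₁]
    exact lt_min one_pos (div_pos hε hden)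
  have h1 : ε₁ ≤ 1 := by
    rw [hε₁]
    exact min_le_left _ _
  have h2 : ε₁ * (|II| + 2) ≤ ε := by
    rw [← le_div_iff₀ hden, hε₁]
    exact min_le_right _ _
  have h3 : (1 + ε₁) * (II + ε₁) ≤ II + ε := by
    have h4 := le_abs_self II
    nlinarith [mul_le_mul_of_nonneg_left h4 h0.le, mul_le_mul_of_nonneg_left h1 h0.le]
  have hD := MP_092512_nt.P3.D1_one (4 / 19) (124 / 125) (by norm_num) (by norm_num) wpiPsi
    wpi_cont
  rw [wpi_int] at hD
  have hD' := hD.eventually_lt_const (show II < II + ε₁ by linarith)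
  obtain ⟨N₁, hN₁⟩ := Filter.eventually_atTop.mp hD'
  obtain ⟨N₂, hN₂⟩ := pi_div ε₁ h0
  refine ⟨max (max N₁ N₂) 2, fun N hN => ?_⟩
  have hN1 : N₁ ≤ N := ((le_max_left _ _).trans (le_max_left _ _)).trans hN
  have hN2 : N₂ ≤ N := ((le_max_right _ _).trans (le_max_left _ _)).trans hN
  have hN3 : 2 ≤ N := (le_max_right _ _).trans hN
  have hNr : (1 : ℝ) < N := by exact_mod_cast hN3
  have hl : 0 < Real.log N := Real.log_pos hNr
  have hNl : 0 ≤ (N : ℝ) / Real.log N := by positivity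
  have hterm : ∀ p ∈ P (zz N) (yy N), wt N p * (Nat.primeCounting (N / p) : ℝ) ≤
      (1 + ε₁) * (N / Real.log N) * (wpiPsi (lg N p) * (lg N p / (p : ℝ))) := by
    intro p hp
    obtain ⟨hpp, hp1, hp2⟩ := mem_zy.mp hp
    have hp0 : (0 : ℝ) < p := by exact_mod_cast hpp.pos
    have h4 := (hN₂ N hN2 p hpp.one_le hp2).2
    have h5 := mul_le_mul_of_nonneg_left h4 (wt_nonneg hN3 hp)
    refine h5.trans (le_of_eq ?_)
    have hmem : p ∈ PP N (4 / 19) (124 / 125) := by
      rw [← P_eq_PP]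
      exact hp
    have h6 := MP_092512_nt.P3.PP_lg hN3 hmem
    set t := lg N p with ht
    have ht0 : 0 < t := by linarith [h6.1]
    have ht1 : 0 < 1 - t := by linarith [h6.2]
    have hlp : Real.log p = t * Real.log N := by
      rw [ht]
      unfold lg
      field_simp
    have hw : wt N p = 1 - 125 / 124 * t := by
      unfold wt
      rw [hlp]
      field_simp
    rw [hw, hlp, show Real.log N - t * Real.log N = (1 - t) * Real.log N by ring]
    unfold wpiPsi
    field_simp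
  calc ∑ p ∈ P (zz N) (yy N), wt N p * (Nat.primeCounting (N / p) : ℝ)
      ≤ ∑ p ∈ P (zz N) (yy N),
          (1 + ε₁) * (N / Real.log N) * (wpiPsi (lg N p) * (lg N p / (p : ℝ))) :=
        Finset.sum_le_sum hterm
    _ = (1 + ε₁) * (N / Real.log N) *
          ∑ p ∈ PP N (4 / 19) (124 / 125), wpiPsi (lg N p) * (lg N p / (p : ℝ)) := by
        rw [← Finset.mul_sum, P_eq_PP]
    _ ≤ (1 + ε₁) * (N / Real.log N) * (II + ε₁) :=
        mul_le_mul_of_nonneg_left (hN₁ N hN1).le (mul_nonneg (by linarith) hNl)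
    _ = (1 + ε₁) * (II + ε₁) * (N / Real.log N) := by ring
    _ ≤ (II + ε) * (N / Real.log N) := mul_le_mul_of_nonneg_right h3 hNl

end Pool.Agent.Lib.MP_f75418_nt.FF
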