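import Pool.Agent.Lib.MP_f75418_nt.FF.Defs
import Pool.Agent.Lib.MP_f75418_nt.FF.Low
import Pool.Agent.Lib.MP_f75418_nt.FF.Up
import Pool.Agent.Lib.MP_f75418_nt.FF.Model
import Pool.Agent.Lib.MP_f75418_nt.FF.R2low
import Pool.Agent.Lib.MP_f75418_nt.FF.Wpi
import Pool.Agent.Lib.MP_f75418_nt.FF.R4up
import Pool.Agent.Lib.MP_f75418_nt.FF.Num
import Pool.Agent.Lib.MP_f75418_nt.FF.Facts

/-!
Row B9. Combination. With `N = Nn n`, `ρ = 3·3^n/N`: `low`, `up`, `M0_ge`, `M1_le`, `sum_rk3`, `wt ≥ 0`: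
`SA - lamR ∑ wt SAp ≥ 2ρ (R2 + R4 - lamR (∑ wt π + 4 (464/589) R4)) - (ε₁ + lamR ε₂) 3^n/n
 = 2ρ (R2 - lamR ∑ wt π - (4 lamR 464/589 - 1) R4) - ..`, and `R2low`, `Wpi`, `R4up`, `num` give
`≥ 2ρ (1/100 - ε') N/log N = 6·3^n (1/100 - ε')/log N` with `log N ≤ 29/50 n`.
-/

open Finset

namespace Pool.Agent.Lib.MP_f75418_nt.FF

open Pool.Agent.Lib.MP_f75418_nt
open Pool.Agent.Lib.MP_45349e_nt.LS (P)

theorem comb : ∃ c : ℝ, 0 < c ∧ ∃ n₀ : ℕ, ∀ n : ℕ, n₀ ≤ n →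
    c * 3 ^ n / n ≤ (SA n (zz (Nn n)) : ℝ) - lamR * ∑ p ∈ P (zz (Nn n)) (yy (Nn n)),
      wt (Nn n) p * (SAp n p (yp (Nn n) p) : ℝ) := by
  obtain ⟨n1, h1⟩ := low (1 / 100) (by norm_num)
  obtain ⟨n2, h2⟩ := up (1 / 100) (by norm_num)
  obtain ⟨N3, h3⟩ := R2low (1 / 1000) (by norm_num)
  obtain ⟨N4, h4⟩ := Wpi (1 / 1000) (by norm_num)
  obtain ⟨N5, h5⟩ := R4up (1 / 1000) (by norm_num)
  obtain ⟨N6, h6⟩ := M1_le
  obtain ⟨n7, h7⟩ := Nn_large (N3 + N4 + N5 + N6 + 3)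
  refine ⟨1 / 100, by norm_num, n1 + n2 + n7 + 1, fun n hn => ?_⟩
  have hlow := h1 n (by omega)
  have hup := h2 n (by omega)
  have hNb := h7 n (by omega)
  have hlog := log_Nn_le n
  have hn0 : (0 : ℝ) < n := by
    have : 0 < n := by omega
    exact_mod_cast this
  generalize Nn n = N at *
  have hN2 : 2 ≤ N := by omega
  have hN0 : (0 : ℝ) < N := by
    have : 0 < N := by omega
    exact_mod_cast this
  have hlogpos : 0 < Real.log N := Real.log_pos (by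
    have : 1 < N := by omega
    exact_mod_cast this)
  have hR2 := h3 N (by omega)
  have hW := h4 N (by omega)
  have hR4 := h5 N (by omega)
  have hM0 := M0_ge N (zz N)
  have hr3 := sum_rk3 N hN2
  have hnum := num
  have hT : ∑ p ∈ P (zz N) (yy N), wt N p * M1 N p (yp N p) ≤
      2 * ∑ p ∈ P (zz N) (yy N), wt N p * (Nat.primeCounting (N / p) : ℝ) +
      2 * ∑ p ∈ P (zz N) (yy N), wt N p * (rk 3 (N / p) (zz N) : ℝ) := by
    rw [Finset.mul_sum, Finset.mul_sum, ← Finset.sum_add_distrib]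
    refine Finset.sum_le_sum fun p hp => ?_
    have := mul_le_mul_of_nonneg_left (h6 N (by omega) p hp) (wt_nonneg hN2 hp)
    linarith
  generalize ∑ p ∈ P (zz N) (yy N), wt N p * (SAp n p (yp N p) : ℝ) = S at *
  generalize ∑ p ∈ P (zz N) (yy N), wt N p * M1 N p (yp N p) = T at *
  generalize ∑ p ∈ P (zz N) (yy N), wt N p * (Nat.primeCounting (N / p) : ℝ) = U at *
  generalize ∑ p ∈ P (zz N) (yy N), wt N p * (rk 3 (N / p) (zz N) : ℝ) = U3 at *
  generalize (rk 2 N (zz N) : ℝ) = r2 at *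
  generalize (rk 4 N (zz N) : ℝ) = r4 at *
  generalize M0 N (zz N) = m0 at *
  generalize (SA n (zz N) : ℝ) = s0 at *
  set L : ℝ := (N : ℝ) / Real.log N with hL
  have hL0 : 0 < L := div_pos hN0 hlogpos
  set A : ℝ := 3 * 3 ^ n / (N : ℝ) with hA
  have hA0 : 0 < A := by positivity
  set E : ℝ := (3 : ℝ) ^ n / n with hE
  have hE0 : 0 < E := by positivity
  have hAL : 150 / 29 * E ≤ A * L := by
    have e1 : A * L = 3 * 3 ^ n / Real.log N := by
      rw [hA, hL]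
      field_simp
    rw [e1, hE, le_div_iff₀ hlogpos]
    have e2 : 150 / 29 * ((3 : ℝ) ^ n / n) * Real.log N ≤
        150 / 29 * ((3 : ℝ) ^ n / n) * (29 / 50 * n) :=
      mul_le_mul_of_nonneg_left hlog (by positivity)
    refine e2.trans (le_of_eq ?_)
    field_simp
    ring
  have hlam : lamR = 2117 / 2500 := rfl
  rw [hlam] at hnum ⊢
  have hm : 12 / 1000 * L ≤ m0 - 2117 / 2500 * T := by
    have k1 : (Real.log (15 / 4) - 1 / 1000) * L - 2117 / 2500 * ((II + 1 / 1000) * L) -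
        (4 * (2117 / 2500) * (464 / 589) - 1) * ((c4 + 1 / 1000) * L) ≤
        r2 - 2117 / 2500 * U - (4 * (2117 / 2500) * (464 / 589) - 1) * r4 := by
      have := mul_le_mul_of_nonneg_left hR4
        (show (0 : ℝ) ≤ 4 * (2117 / 2500) * (464 / 589) - 1 by norm_num)
      linarith
    have k2 : 6 / 1000 * L ≤ (Real.log (15 / 4) - 1 / 1000) * L -
        2117 / 2500 * ((II + 1 / 1000) * L) -
        (4 * (2117 / 2500) * (464 / 589) - 1) * ((c4 + 1 / 1000) * L) := by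
      have := mul_le_mul_of_nonneg_right hnum hL0.le
      have : (Real.log (15 / 4) - 1 / 1000) * L - 2117 / 2500 * ((II + 1 / 1000) * L) -
        (4 * (2117 / 2500) * (464 / 589) - 1) * ((c4 + 1 / 1000) * L) =
        (Real.log (15 / 4) - 2117 / 2500 * II - (4 * (2117 / 2500) * (464 / 589) - 1) * c4) * L -
        (1 / 1000 + 2117 / 2500 * (1 / 1000) +
          (4 * (2117 / 2500) * (464 / 589) - 1) * (1 / 1000)) * L := by ring
      nlinarith
    linarith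
  have hfin : 12 / 1000 * (150 / 29 * E) ≤ A * (m0 - 2117 / 2500 * T) := by
    have := mul_le_mul_of_nonneg_left hm hA0.le
    linarith
  have e3 : (1 / 100 : ℝ) * 3 ^ n / n = 1 / 100 * E := by rw [hE]; ring
  rw [e3] at hlow hup ⊢
  linarith

end Pool.Agent.Lib.MP_f75418_nt.FF
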