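import Pool.Agent.Lib.MP_f75418_nt.AP.Final
import Pool.Agent.Lib.MP_45349e_nt.LS.Defs
import Pool.Agent.Lib.MP_092512_nt.P3.DDefs

/-!
# Antipalindromic numbers with at most four prime factors: definitions

Part A (level of distribution `exp (0.58 n)`): `ff` is the factor of one digit, `ph1`, `ph2` its
majorants with nonnegative Fourier coefficients (`ff ^ 3 ≤ ph1 * ph2 ^ 2`), `ka` their Fourier
coefficients, `gg` and `pp` the products over the digits, `Nd` the frequencies.

Part B (the sieve): `Nn n` is the level, `zz`, `yy` the bounds of the sieve and of the weights,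
`wt` the weights, `SA`, `SAp` the sifting functions, `M0`, `M1` those of the parity model.
-/

open Finset

namespace Pool.Agent.Lib.MP_f75418_nt.FF

open Pool.Agent.Lib.MP_f75418_nt

/-! ### Part A -/

/-- the factor of one digit -/
noncomputable def ff (x : ℝ) : ℝ := |1 + 2 * Real.cos (2 * Real.pi * x)| / 3

/-- first majorant -/
noncomputable def ph1 (x : ℝ) : ℝ :=
  17 / 50 + 201 / 500 * Real.cos (2 * Real.pi * x) + 129 / 500 * Real.cos (4 * Real.pi * x)

/-- second majorant -/
noncomputable def ph2 (x : ℝ) : ℝ := 359 / 500 + 141 / 500 * Real.cos (2 * Real.pi * x)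

/-- the factor of type `t` -/
noncomputable def ph (t : Fin 3) (x : ℝ) : ℝ := if t = 0 then 1 else if t = 1 then ph1 x else ph2 x

/-- Fourier coefficients of `ph t` -/
noncomputable def ka (t : Fin 3) (k : ℤ) : ℝ :=
  if t = 0 then (if k = 0 then 1 else 0)
  else if t = 1 then (if k = 0 then 17 / 50 else if k.natAbs = 1 then 201 / 1000 else
    if k.natAbs = 2 then 129 / 1000 else 0)
  else (if k = 0 then 359 / 500 else if k.natAbs = 1 then 141 / 1000 else 0)

/-- the frequency of `δ` -/
def Nd (n : ℕ) (δ : Fin n → ℤ) : ℤ :=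
  ∑ j : Fin n, δ j * (3 ^ (2 * (n + 1) - ((j : ℕ) + 1)) - 3 ^ ((j : ℕ) + 1))

/-- the product over the digits -/
noncomputable def gg (n : ℕ) (θ : ℝ) : ℝ := ∏ j : Fin n, ff (θ * cr n (j + 1))

/-- the product of the factors of types `τ j` -/
noncomputable def pp (n : ℕ) (τ : ℕ → Fin 3) (θ : ℝ) : ℝ :=
  ∏ j : Fin n, ph (τ j) (θ * cr n (j + 1))

/-- the types: `0` in the block `k` (of `6 V` digits) and beyond `6 V K`, otherwise `1` on the class
`i` modulo `3` and `2` on the other two classes -/
def tau (V K k i : ℕ) (j : ℕ) : Fin 3 :=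
  if 6 * V * K ≤ j ∨ (6 * V * k ≤ j ∧ j < 6 * V * (k + 1)) then 0 else
    if j % 3 = i then 1 else 2

/-- the sum of `gg` over the reduced fractions with denominator `q` -/
noncomputable def WW (n q : ℕ) : ℝ := ∑ c ∈ red q, gg n ((c : ℝ) / q)

/-- the number of digits (base `9`) used for the structured fractions -/
def Mm (n : ℕ) : ℕ := 3 * (n / 12000) * 2000

/-- the sum over the reduced fractions with denominator `q` which counts the structured ones -/
noncomputable def WG (M q : ℕ) : ℝ := ∑ c ∈ red q, GG 648 M (24 * ((c : ℝ) / q))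

/-! ### Part B -/

/-- the level -/
noncomputable def Nn (n : ℕ) : ℕ := ⌊Real.exp (29 / 50 * n)⌋₊

/-- the bound of the sieve: the primes `< zz N` are the primes `≤ N ^ (4/19)` -/
noncomputable def zz (N : ℕ) : ℕ := ⌊(N : ℝ) ^ (4 / 19 : ℝ)⌋₊ + 1

/-- the primes `< yy N` are the primes `≤ N ^ (124/125)` -/
noncomputable def yy (N : ℕ) : ℕ := ⌊(N : ℝ) ^ (124 / 125 : ℝ)⌋₊ + 1

/-- the bound of the sieve for the multiples of `p` -/
noncomputable def yp (N p : ℕ) : ℕ := min (zz N) (Nat.sqrt (N / p))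

/-- the weight of the prime `p` -/
noncomputable def wt (N p : ℕ) : ℝ := 1 - Real.log p / (124 / 125 * Real.log N)

/-- the weight constant -/
noncomputable def lamR : ℝ := 2117 / 2500

/-- the lower end of the range of the linear sieve -/
noncomputable def ww (η : ℝ) (N : ℕ) : ℕ := ⌈(N : ℝ) ^ (η ^ 2)⌉₊

open Classical in
/-- elements without prime factors `< z` -/
noncomputable def SA (n z : ℕ) : ℕ :=
  ((Finset.univ : Finset (Fin n → Fin 3)).filter
    (fun b => ∀ p, p.Prime → p < z → ¬ p ∣ av n b)).card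

open Classical in
/-- multiples of `p` without prime factors `< y` -/
noncomputable def SAp (n p y : ℕ) : ℕ :=
  ((Finset.univ : Finset (Fin n → Fin 3)).filter
    (fun b => p ∣ av n b ∧ ∀ r, r.Prime → r < y → ¬ r ∣ av n b)).card

open Classical in
/-- the model: integers without prime factors `< z` -/
noncomputable def M0 (N z : ℕ) : ℝ :=
  ∑ m ∈ Finset.Icc 1 N, if ∀ p, p.Prime → p < z → ¬ p ∣ m then 1 + MP_45349e_nt.LS.lam m else 0

open Classical in
/-- the model: multiples of `p` without prime factors `< y` -/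
noncomputable def M1 (N p y : ℕ) : ℝ :=
  ∑ m ∈ Finset.Icc 1 N,
    if p ∣ m ∧ ∀ r, r.Prime → r < y → ¬ r ∣ m then 1 + MP_45349e_nt.LS.lam m else 0

open Classical in
/-- the number of `m ≤ N` with exactly `k` prime factors, all `≥ z` -/
noncomputable def rk (k N z : ℕ) : ℕ :=
  ((Finset.Icc 1 N).filter (fun m => ArithmeticFunction.cardFactors m = k ∧
    ∀ p, p.Prime → p < z → ¬ p ∣ m)).card

open Classical in
/-- the weights of the antipalindromic numbers in the sieve: no prime factor `< w` -/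
noncomputable def aA (n w : ℕ) (b : Fin n → Fin 3) : ℝ :=
  if ∀ p ∈ MP_45349e_nt.LS.P 2 w, ¬ p ∣ av n b then 1 else 0

/-- divisibility -/
def HA (n p : ℕ) (b : Fin n → Fin 3) : Prop := p ∣ av n b

open Classical in
/-- the remainder of the modulus `d`, with the fundamental lemma for the primes `< w` -/
noncomputable def RA (n w b d : ℕ) : ℝ := ((Pool.Agent.Lib.GT.NJ w : ℝ) + 1) *
  ∑ e ∈ (Finset.Icc 1 (w ^ (12 * b))).filter (fun e => ∀ p, p.Prime → p ∣ e → p ∈ P5 (w - 1)),
    |(Ad n (d * e) : ℝ) - 3 ^ n / ((d : ℝ) * e)|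

open Classical in
/-- the integers in `[1, D]` without prime factors `< w` -/
noncomputable def DD (w D : ℕ) : Finset ℕ :=
  (Finset.Icc 1 D).filter (fun d => ∀ p, p.Prime → p ∣ d → w ≤ p)

open Classical in
/-- the `e ≥ 1` with all prime factors in `[w, y)` and `d e < D0` -/
noncomputable def Ee (w y d : ℕ) (D0 : ℝ) : Finset ℕ :=
  (Finset.Icc 1 ⌊D0⌋₊).filter
    (fun e => (∀ p, p.Prime → p ∣ e → w ≤ p ∧ p < y) ∧ (d : ℝ) * e < D0)

open Classical in
/-- triples of primes `≥ z` with product `≤ N / z` -/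
noncomputable def T3 (N z : ℕ) : Finset (ℕ × ℕ × ℕ) :=
  (Finset.Icc 1 N ×ˢ Finset.Icc 1 N ×ˢ Finset.Icc 1 N).filter
    (fun t => (t.1.Prime ∧ z ≤ t.1) ∧ (t.2.1.Prime ∧ z ≤ t.2.1) ∧ (t.2.2.Prime ∧ z ≤ t.2.2) ∧
      t.1 * t.2.1 * t.2.2 * z ≤ N)

/-- the integral of the weights -/
noncomputable def II : ℝ := Real.log (589 / 125) -
  1 / 124 * (Real.log (15 / 19) - Real.log (1 / 125))

/-- the constant of the integers with four prime factors -/
noncomputable def c4 : ℝ := 19 / 4 * (3 / 4) ^ 3 / 144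

open Classical in
/-- the sieve weight of an antipalindromic number -/
noncomputable def Wt (n : ℕ) (b : Fin n → Fin 3) : ℝ :=
  1 - lamR * ∑ p ∈ (MP_45349e_nt.LS.P (zz (Nn n)) (yy (Nn n))).filter (fun p => p ∣ av n b),
    wt (Nn n) p

end Pool.Agent.Lib.MP_f75418_nt.FF
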