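import Pool.Agent.Lib.MP_f75418_nt.FF.Defs
import Pool.Agent.Lib.MP_f75418_nt.FF.Far
import Pool.Agent.Lib.MP_f75418_nt.FF.StrSum

/-!
Row A9s. The structured fractions for the moduli `p²`. `sum_red_perm` as in row A9 (`p ≥ 5` prime, so `p²` is coprime to
`24`). For `p ∈ (3^(l-1), 3^l]`: `p² ≤ 9^l`, `single_all (p^2) l M`, `1/p² ≤ 9 / 9^l`, at most `3^l` primes in the scale: the
scale `l` contributes at most `9 e^9 3^l 9^(-l) 9^(l-M) 2^(min l M)`: for `l ≤ M` this is `9 e^9 (2/3)^l` with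
`l ≥ n/(10 ln 3) ≥ 0.09 n` (`(2/3)^l ≤ exp (-0.03 n)`), for `l > M` it is `9 e^9 3^l (2/9)^M ≤ C exp ((0.58-0.75) n)`.
-/

open Finset

namespace Pool.Agent.Lib.MP_f75418_nt.FF

open Pool.Agent.Lib.MP_f75418_nt

theorem a9s_fib (M L : ℕ) (hL : 1 ≤ L) (S : Finset ℕ)
    (hS : ∀ p ∈ S, 3 ^ (L - 1) < p ∧ p ≤ 3 ^ L ∧ Nat.Coprime (p ^ 2) 6) :
    ∑ p ∈ S, 1 / (p : ℝ) ^ 2 * WG M (p ^ 2) ≤
      9 / 3 ^ L * (Real.exp 9 * (9 ^ (L - M) * 2 ^ (min L M))) := by
  have h1 : ∀ p ∈ S, 1 / (p : ℝ) ^ 2 * WG M (p ^ 2) ≤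
      9 / 9 ^ L * (Real.exp 9 * (9 ^ (L - M) * 2 ^ (min L M))) := by
    intro p hp
    obtain ⟨h1, h2, h3⟩ := hS p hp
    have hp0 : 0 < p := lt_of_le_of_lt (Nat.zero_le _) h1
    have hp0' : (0 : ℝ) < p := by exact_mod_cast hp0
    have hq0 : 0 < p ^ 2 := pow_pos hp0 2
    have hq9 : p ^ 2 ≤ 9 ^ L := by
      calc p ^ 2 ≤ (3 ^ L) ^ 2 := Nat.pow_le_pow_left h2 2
        _ = 9 ^ L := by rw [← pow_mul, mul_comm, pow_mul]; norm_num
    rw [a9_WG M (p ^ 2) hq0 h3]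
    refine mul_le_mul ?_ (single_all (p ^ 2) L M hq0 hq9)
      (Finset.sum_nonneg fun _ _ => (GG_pos _ _ _).le) (by positivity)
    have h4 : (3 : ℝ) ^ L ≤ 3 * p := by
      have h6 : (3 : ℝ) ^ L = 3 * 3 ^ (L - 1) := by
        rw [← pow_succ']
        congr 1
        omega
      rw [h6]
      have h5 : ((3 ^ (L - 1) : ℕ) : ℝ) ≤ p := by exact_mod_cast h1.le
      push_cast at h5
      linarith
    have h7 : (9 : ℝ) ^ L ≤ 9 * (p : ℝ) ^ 2 := by
      calc (9 : ℝ) ^ L = (3 ^ L) ^ 2 := by rw [← pow_mul, mul_comm, pow_mul]; norm_num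
        _ ≤ (3 * (p : ℝ)) ^ 2 := pow_le_pow_left₀ (by positivity) h4 2
        _ = 9 * (p : ℝ) ^ 2 := by ring
    rw [div_le_div_iff₀ (by positivity) (by positivity)]
    linarith
  refine (Finset.sum_le_card_nsmul _ _ _ h1).trans ?_
  rw [nsmul_eq_mul]
  have hcard : (S.card : ℝ) ≤ 3 ^ L := by
    have : S ⊆ Finset.Icc 1 (3 ^ L) := by
      intro p hp
      rw [Finset.mem_Icc]
      have := hS p hp
      exact ⟨lt_of_le_of_lt (Nat.zero_le _) this.1, this.2.1⟩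
    have h8 := Finset.card_le_card this
    rw [Nat.card_Icc, Nat.add_sub_cancel] at h8
    exact_mod_cast h8
  have h9 : (9 : ℝ) ^ L = 3 ^ L * 3 ^ L := by rw [← mul_pow]; norm_num
  calc (S.card : ℝ) * (9 / 9 ^ L * (Real.exp 9 * (9 ^ (L - M) * 2 ^ (min L M))))
      ≤ 3 ^ L * (9 / 9 ^ L * (Real.exp 9 * (9 ^ (L - M) * 2 ^ (min L M)))) :=
        mul_le_mul_of_nonneg_right hcard (by positivity)
    _ = 9 / 3 ^ L * (Real.exp 9 * (9 ^ (L - M) * 2 ^ (min L M))) := by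
        have h10 : (3 : ℝ) ^ L * (9 / 9 ^ L) = 9 / 3 ^ L := by
          rw [h9]
          field_simp
        rw [← mul_assoc, h10]

theorem a9s_scale (n M L : ℕ) (hM : (n : ℝ) / 2 - 6000 ≤ M) (hL1 : Real.exp (n / 10) ≤ 3 ^ L)
    (hL2 : (3 : ℝ) ^ L ≤ 3 * Real.exp (29 / 50 * n)) :
    9 / 3 ^ L * (Real.exp 9 * (9 ^ (L - M) * 2 ^ (min L M))) ≤
      9 * Real.exp 9 * Real.exp (-(n / 30)) * Real.exp (-(1 / 27)) ^ L +
        27 * Real.exp 9 * Real.exp 9000 * Real.exp (-(17 / 100 * n)) := by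
  have h3 : (0 : ℝ) < 3 ^ L := by positivity
  rcases le_or_gt L M with h | h
  · have e0 : L - M = 0 := by omega
    rw [e0, min_eq_left h, pow_zero, one_mul]
    have h4 : (2 / 3 : ℝ) ^ L ≤ Real.exp (-(n / 30)) * Real.exp (-(1 / 27)) ^ L := by
      have h5 : ((2 / 3 : ℝ) ^ L) ^ 3 ≤ (Real.exp (-(n / 30)) * Real.exp (-(1 / 27)) ^ L) ^ 3 := by
        have h6 : ((2 / 3 : ℝ) ^ L) ^ 3 = (8 / 9) ^ L * (3 ^ L)⁻¹ := by
          rw [← pow_mul, mul_comm L 3, pow_mul, ← inv_pow, ← mul_pow]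
          norm_num
        have h7 : (Real.exp (-(n / 30)) * Real.exp (-(1 / 27)) ^ L) ^ 3 =
            Real.exp (-(1 / 9)) ^ L * (Real.exp (n / 10))⁻¹ := by
          rw [mul_pow, ← pow_mul, mul_comm L 3, pow_mul, ← Real.exp_nat_mul, ← Real.exp_nat_mul,
            ← Real.exp_neg, mul_comm]
          congr 2
          · congr 1
            norm_num
          · push_cast
            ring
        rw [h6, h7]
        refine mul_le_mul ?_ ?_ (by positivity) (by positivity)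
        · refine pow_le_pow_left₀ (by norm_num) ?_ L
          have := Real.add_one_le_exp (-(1 / 9 : ℝ))
          linarith
        · exact inv_anti₀ (Real.exp_pos _) hL1
      exact le_of_pow_le_pow_left₀ (by norm_num) (by positivity) h5
    have h5 : 9 / 3 ^ L * (Real.exp 9 * 2 ^ L) = 9 * Real.exp 9 * (2 / 3 : ℝ) ^ L := by
      rw [div_pow]
      ring
    rw [h5]
    have h6 : 9 * Real.exp 9 * (2 / 3 : ℝ) ^ L ≤
        9 * Real.exp 9 * (Real.exp (-(n / 30)) * Real.exp (-(1 / 27)) ^ L) :=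
      mul_le_mul_of_nonneg_left h4 (by positivity)
    have h7 : 0 ≤ 27 * Real.exp 9 * Real.exp 9000 * Real.exp (-(17 / 100 * n)) := by positivity
    linarith
  · rw [min_eq_right h.le]
    have h4 : (9 : ℝ) / 3 ^ L * (Real.exp 9 * (9 ^ (L - M) * 2 ^ M)) =
        9 * Real.exp 9 * (3 ^ L * (2 / 9) ^ M) := by
      have h5 : (9 : ℝ) ^ (L - M) * 9 ^ M = 3 ^ L * 3 ^ L := by
        rw [← pow_add, ← mul_pow]
        norm_num
        omega
      have h6 : (9 : ℝ) ^ (L - M) = 3 ^ L * 3 ^ L / 9 ^ M := by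
        rw [eq_div_iff (by positivity)]
        exact h5
      rw [h6, div_pow]
      field_simp
    rw [h4]
    have h5 : (2 / 9 : ℝ) ^ M ≤ Real.exp 9000 * Real.exp (-(3 / 4 * n)) := by
      calc (2 / 9 : ℝ) ^ M ≤ Real.exp (-(3 / 2)) ^ M := pow_le_pow_left₀ (by norm_num) a9_exp32 M
        _ = Real.exp (M * (-(3 / 2))) := (Real.exp_nat_mul _ _).symm
        _ ≤ Real.exp (9000 + -(3 / 4 * n)) := by
          rw [Real.exp_le_exp]
          linarith
        _ = _ := Real.exp_add _ _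
    have h6 : (3 : ℝ) ^ L * (2 / 9) ^ M ≤
        (3 * Real.exp (29 / 50 * n)) * (Real.exp 9000 * Real.exp (-(3 / 4 * n))) :=
      mul_le_mul hL2 h5 (by positivity) (by positivity)
    have h7 : (3 * Real.exp (29 / 50 * n)) * (Real.exp 9000 * Real.exp (-(3 / 4 * n))) =
        3 * Real.exp 9000 * Real.exp (-(17 / 100 * n)) := by
      have h8 : Real.exp (-(17 / 100 * n)) = Real.exp (29 / 50 * n) * Real.exp (-(3 / 4 * n)) := by
        rw [← Real.exp_add]
        congr 1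
        ring
      rw [h8]
      ring
    rw [h7] at h6
    have h8 : 9 * Real.exp 9 * ((3 : ℝ) ^ L * (2 / 9) ^ M) ≤
        9 * Real.exp 9 * (3 * Real.exp 9000 * Real.exp (-(17 / 100 * n))) :=
      mul_le_mul_of_nonneg_left h6 (by positivity)
    have h9 : 0 ≤ 9 * Real.exp 9 * Real.exp (-(n / 30)) * Real.exp (-(1 / 27)) ^ L := by
      positivity
    linarith

theorem strSq : ∃ C : ℝ, 0 < C ∧ ∀ n M : ℕ, (n : ℝ) / 2 - 6000 ≤ M → ∀ Q : Finset ℕ,
    (∀ p ∈ Q, p.Prime ∧ 5 ≤ p ∧ Real.exp (n / 10) < p ∧ (p : ℝ) ≤ Real.exp (29 / 50 * n)) →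
    ∑ p ∈ Q, 1 / (p : ℝ) ^ 2 * WG M (p ^ 2) ≤ C * Real.exp (-(n / 100)) := by
  have hr1 : Real.exp (-(1 / 27)) < 1 := by
    have h := Real.exp_lt_exp.mpr (show (-(1 / 27) : ℝ) < 0 by norm_num)
    rwa [Real.exp_zero] at h
  have hr0 : 0 < Real.exp (-(1 / 27)) := Real.exp_pos _
  refine ⟨9 * Real.exp 9 * (1 - Real.exp (-(1 / 27)))⁻¹ + 270 * Real.exp 9 * Real.exp 9000, ?_, ?_⟩
  · have : 0 < (1 - Real.exp (-(1 / 27)))⁻¹ := inv_pos.mpr (by linarith)
    positivity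
  intro n M hM Q hQ
  have hn0 : (0 : ℝ) ≤ n := Nat.cast_nonneg n
  have hclog : ∀ q ∈ Q, 1 ≤ Nat.clog 3 q ∧ 3 ^ (Nat.clog 3 q - 1) < q ∧ q ≤ 3 ^ Nat.clog 3 q ∧
      Nat.clog 3 q ≤ n := by
    intro q hq
    obtain ⟨h1, h1', h2, h3⟩ := hQ q hq
    have h5 : 1 < q := h1.one_lt
    refine ⟨Nat.clog_pos (by norm_num) h5, ?_, Nat.le_pow_clog (by norm_num) q, ?_⟩
    · have := Nat.pow_pred_clog_lt_self (b := 3) (by norm_num) h5
      rwa [Nat.pred_eq_sub_one] at this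
    · apply Nat.clog_le_of_le_pow
      have h6 : (q : ℝ) ≤ 3 ^ n := by
        refine h3.trans ?_
        calc Real.exp (29 / 50 * n) ≤ Real.exp (n * 1) := by
              rw [Real.exp_le_exp]
              linarith
          _ = Real.exp 1 ^ n := Real.exp_nat_mul _ _
          _ ≤ 3 ^ n := by
            refine pow_le_pow_left₀ (Real.exp_pos _).le ?_ _
            have := Real.exp_one_lt_d9
            linarith
      exact_mod_cast h6
  have hcop : ∀ q ∈ Q, Nat.Coprime (q ^ 2) 6 := by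
    intro q hq
    obtain ⟨h1, h2, -, -⟩ := hQ q hq
    apply Nat.Coprime.pow_left
    rw [Nat.Prime.coprime_iff_not_dvd h1]
    intro h3
    have h4 := Nat.le_of_dvd (by norm_num) h3
    interval_cases q
    · omega
    · revert h1; decide
  have h1 : ∑ q ∈ Q, 1 / (q : ℝ) ^ 2 * WG M (q ^ 2) =
      ∑ L ∈ Finset.range (n + 1), ∑ q ∈ Q.filter (fun q => Nat.clog 3 q = L),
        1 / (q : ℝ) ^ 2 * WG M (q ^ 2) := by
    rw [Finset.sum_fiberwise_of_maps_to]
    intro q hq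
    rw [Finset.mem_range]
    have := (hclog q hq).2.2.2
    omega
  rw [h1]
  have h2 : ∀ L ∈ Finset.range (n + 1),
      ∑ q ∈ Q.filter (fun q => Nat.clog 3 q = L), 1 / (q : ℝ) ^ 2 * WG M (q ^ 2) ≤
        9 * Real.exp 9 * Real.exp (-(n / 30)) * Real.exp (-(1 / 27)) ^ L +
        27 * Real.exp 9 * Real.exp 9000 * Real.exp (-(17 / 100 * n)) := by
    intro L _
    rcases (Q.filter (fun q => Nat.clog 3 q = L)).eq_empty_or_nonempty with he | ⟨q, hq⟩
    · rw [he, Finset.sum_empty]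
      positivity
    · rw [Finset.mem_filter] at hq
      obtain ⟨hq, hqL⟩ := hq
      obtain ⟨c1, c2, c3, c4⟩ := hclog q hq
      rw [hqL] at c1 c2 c3 c4
      refine (a9s_fib M L c1 _ ?_).trans (a9s_scale n M L hM ?_ ?_)
      · intro q' hq'
        rw [Finset.mem_filter] at hq'
        obtain ⟨d1, d2, d3, d4⟩ := hclog q' hq'.1
        rw [hq'.2] at d1 d2 d3 d4
        exact ⟨d2, d3, hcop q' hq'.1⟩
      · have h3 : (q : ℝ) ≤ 3 ^ L := by exact_mod_cast c3
        exact ((hQ q hq).2.2.1.le).trans h3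
      · have h3 : ((3 ^ (L - 1) : ℕ) : ℝ) ≤ q := by exact_mod_cast c2.le
        push_cast at h3
        have h6 : (3 : ℝ) ^ L = 3 * 3 ^ (L - 1) := by
          rw [← pow_succ']
          congr 1
          omega
        rw [h6]
        have := (hQ q hq).2.2.2
        linarith
  refine (Finset.sum_le_sum h2).trans ?_
  rw [Finset.sum_add_distrib, ← Finset.mul_sum, Finset.sum_const, Finset.card_range, nsmul_eq_mul]
  have h3 : ∑ L ∈ Finset.range (n + 1), Real.exp (-(1 / 27)) ^ L ≤ (1 - Real.exp (-(1 / 27)))⁻¹ := by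
    rw [geom_sum_eq hr1.ne, ← neg_div_neg_eq, neg_sub, neg_sub, inv_eq_one_div]
    have : 0 < Real.exp (-(1 / 27)) ^ (n + 1) := by positivity
    apply div_le_div_of_nonneg_right _ (by linarith)
    linarith
  have h4 : ((n + 1 : ℕ) : ℝ) * Real.exp (-(17 / 100 * n)) ≤ 10 * Real.exp (-(n / 100)) := by
    have h5 := Real.add_one_le_exp ((n : ℝ) / 10)
    have h6 : ((n + 1 : ℕ) : ℝ) ≤ 10 * Real.exp (n / 10) := by
      push_cast
      linarith
    calc ((n + 1 : ℕ) : ℝ) * Real.exp (-(17 / 100 * n))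
        ≤ (10 * Real.exp (n / 10)) * Real.exp (-(17 / 100 * n)) :=
          mul_le_mul_of_nonneg_right h6 (Real.exp_pos _).le
      _ = 10 * Real.exp (-(7 / 100 * n)) := by
          rw [mul_assoc, ← Real.exp_add]
          congr 2
          ring
      _ ≤ 10 * Real.exp (-(n / 100)) := by
          refine mul_le_mul_of_nonneg_left ?_ (by norm_num)
          rw [Real.exp_le_exp]
          linarith
  have h5 : 9 * Real.exp 9 * Real.exp (-(n / 30)) *
      ∑ L ∈ Finset.range (n + 1), Real.exp (-(1 / 27)) ^ L ≤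
      9 * Real.exp 9 * Real.exp (-(n / 100)) * (1 - Real.exp (-(1 / 27)))⁻¹ := by
    refine mul_le_mul ?_ h3 (Finset.sum_nonneg fun _ _ => by positivity) (by positivity)
    refine mul_le_mul_of_nonneg_left ?_ (by positivity)
    rw [Real.exp_le_exp]
    linarith
  have h6 : ((n + 1 : ℕ) : ℝ) * (27 * Real.exp 9 * Real.exp 9000 * Real.exp (-(17 / 100 * n))) ≤
      27 * Real.exp 9 * Real.exp 9000 * (10 * Real.exp (-(n / 100))) := by
    calc ((n + 1 : ℕ) : ℝ) * (27 * Real.exp 9 * Real.exp 9000 * Real.exp (-(17 / 100 * n)))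
        = 27 * Real.exp 9 * Real.exp 9000 *
          (((n + 1 : ℕ) : ℝ) * Real.exp (-(17 / 100 * n))) := by ring
      _ ≤ _ := mul_le_mul_of_nonneg_left h4 (by positivity)
  linarith

end Pool.Agent.Lib.MP_f75418_nt.FF
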