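import Pool.Agent.Lib.MP_f75418_nt.FF.Defs
import Pool.Agent.Lib.MP_f75418_nt.FF.Core
import Pool.Agent.Lib.MP_f75418_nt.FF.StrSum
import Pool.Agent.Lib.MP_f75418_nt.FF.StrSq
import Pool.Agent.Lib.MP_f75418_nt.FF.Base

/-!
Row A12. Divisibility by squares of large primes.

`Ad_sub_le_WW` with `d = p²`: the divisors of `p²` other than `1` are `p` and `p²`, so
`Ad n (p²) ≤ 3^n (1/p² + (1/p²) WW n (p²) + (1/p²) WW n p)`.
`∑ 1/p² ≤ 2 exp (-n/10)` (`p > exp (n/10)`, telescoping). `∑ (1/p²) WW n (p²)`: `core` with `Q' = {p²}` (image, injective,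
`#Q' ≤ exp (29/50 n)`) and `strSq` (`M = Mm n ≥ n/2 - 6000`, `exp (648 n/10^8 - n/100)`).
`∑ (1/p²) WW n p ≤ ∑ (1/p) WW n p`: `core` with `Q` and `strSum` (`exp (n/20000) ≤ exp (n/10) < p`, `p ≥ 5` prime so coprime
to `6`).
-/

open Finset

namespace Pool.Agent.Lib.MP_f75418_nt.FF

open Pool.Agent.Lib.MP_f75418_nt

private theorem squares_ioo (n : ℕ) (Q : Finset ℕ)
    (hQ : ∀ p ∈ Q, p.Prime ∧ 5 ≤ p ∧ Real.exp (n / 10) < p ∧ (p : ℝ) ≤ Real.exp (29 / 50 * n)) :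
    ∑ p ∈ Q, 1 / (p : ℝ) ^ 2 ≤ 2 * Real.exp (-(n / 10)) := by
  obtain ⟨k, hk⟩ : ∃ k : ℕ, k = ⌊Real.exp ((n : ℝ) / 10)⌋₊ := ⟨_, rfl⟩
  have hsub : Q ⊆ Finset.Ioo k (Q.sup id + 1) := by
    intro p hp
    rw [Finset.mem_Ioo]
    refine ⟨?_, ?_⟩
    · rw [hk, Nat.floor_lt (Real.exp_pos _).le]
      exact (hQ p hp).2.2.1
    · exact Nat.lt_succ_of_le (Finset.le_sup (f := id) hp)
  have h1 : ∑ p ∈ Q, 1 / (p : ℝ) ^ 2 ≤ ∑ i ∈ Finset.Ioo k (Q.sup id + 1), ((i : ℝ) ^ 2)⁻¹ := by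
    simp only [one_div]
    exact Finset.sum_le_sum_of_subset_of_nonneg hsub (fun i _ _ => by positivity)
  have h2 : ∑ i ∈ Finset.Ioo k (Q.sup id + 1), ((i : ℝ) ^ 2)⁻¹ ≤ 2 / ((k : ℝ) + 1) :=
    sum_Ioo_inv_sq_le k (Q.sup id + 1)
  have h3 : Real.exp ((n : ℝ) / 10) ≤ (k : ℝ) + 1 := by
    rw [hk]
    exact (Nat.lt_floor_add_one _).le
  have h4 : 2 / ((k : ℝ) + 1) ≤ 2 * Real.exp (-(n / 10)) := by
    rw [Real.exp_neg, ← div_eq_mul_inv]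
    exact div_le_div_of_nonneg_left (by norm_num) (Real.exp_pos _) h3
  linarith

private theorem squares_card (n : ℕ) (Q : Finset ℕ)
    (hQ : ∀ p ∈ Q, p.Prime ∧ 5 ≤ p ∧ Real.exp (n / 10) < p ∧ (p : ℝ) ≤ Real.exp (29 / 50 * n)) :
    (Q.card : ℝ) ≤ Real.exp (29 / 50 * n) := by
  have hsub : Q ⊆ Finset.Icc 1 ⌊Real.exp (29 / 50 * (n : ℝ))⌋₊ := by
    intro p hp
    rw [Finset.mem_Icc]
    exact ⟨(hQ p hp).1.one_le, Nat.le_floor (hQ p hp).2.2.2⟩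
  have h1 := Finset.card_le_card hsub
  rw [Nat.card_Icc, Nat.add_sub_cancel] at h1
  calc (Q.card : ℝ) ≤ (⌊Real.exp (29 / 50 * (n : ℝ))⌋₊ : ℝ) := by exact_mod_cast h1
    _ ≤ _ := Nat.floor_le (Real.exp_pos _).le

private theorem squares_Mm (n : ℕ) : (n : ℝ) / 2 - 6000 ≤ (Mm n : ℝ) := by
  have h1 : n ≤ 2 * Mm n + 12000 := by
    unfold Mm
    omega
  have h2 : (n : ℝ) ≤ 2 * (Mm n : ℝ) + 12000 := by exact_mod_cast h1
  linarith

private theorem squares_Ad (n p : ℕ) (hp : p.Prime) :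
    (Ad n (p ^ 2) : ℝ) ≤ 3 ^ n * (1 / (p : ℝ) ^ 2 + 1 / (p : ℝ) ^ 2 * WW n (p ^ 2) +
      1 / (p : ℝ) * WW n p) := by
  have hp0 : 0 < p := hp.pos
  have h1 := Ad_sub_le_WW (n := n) (d := p ^ 2) (by positivity)
  have hdiv : (p ^ 2).divisors.erase 1 = {p, p ^ 2} := by
    rw [Nat.divisors_prime_pow hp 2]
    ext x
    simp only [Finset.mem_erase, Finset.mem_map, Finset.mem_range, Function.Embedding.coeFn_mk,
      Finset.mem_insert, Finset.mem_singleton]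
    constructor
    · rintro ⟨h1, i, hi, rfl⟩
      interval_cases i
      · simp at h1
      · left; simp
      · right; rfl
    · rintro (rfl | rfl)
      · exact ⟨hp.one_lt.ne', 1, by norm_num, by simp⟩
      · exact ⟨(Nat.one_lt_pow (by norm_num) hp.one_lt).ne', 2, by norm_num, rfl⟩
  have hne : p ≠ p ^ 2 := by
    intro h
    have := hp.one_lt
    nlinarith
  rw [hdiv, Finset.sum_pair hne] at h1
  have h2 := (abs_le.1 h1).2
  have hcast : ((p ^ 2 : ℕ) : ℝ) = (p : ℝ) ^ 2 := by push_cast; rfl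
  rw [hcast] at h2
  have hp1 : (1 : ℝ) ≤ p := by exact_mod_cast hp.one_le
  have h3 : 1 / (p : ℝ) ^ 2 ≤ 1 / (p : ℝ) := by
    apply one_div_le_one_div_of_le (by linarith)
    nlinarith
  have h4 : 1 / (p : ℝ) ^ 2 * WW n p ≤ 1 / (p : ℝ) * WW n p :=
    mul_le_mul_of_nonneg_right h3 (WW_nonneg n p)
  have h5 : (3 : ℝ) ^ n / (p : ℝ) ^ 2 * (WW n p + WW n (p ^ 2)) = 3 ^ n * (1 / (p : ℝ) ^ 2 * WW n p +
      1 / (p : ℝ) ^ 2 * WW n (p ^ 2)) := by ring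
  have h6 : (3 : ℝ) ^ n / (p : ℝ) ^ 2 = 3 ^ n * (1 / (p : ℝ) ^ 2) := by ring
  rw [h5, h6] at h2
  have h7 : (0 : ℝ) < 3 ^ n := by positivity
  have h8 := mul_le_mul_of_nonneg_left h4 h7.le
  calc (Ad n (p ^ 2) : ℝ) ≤ 3 ^ n * (1 / (p : ℝ) ^ 2) + 3 ^ n * (1 / (p : ℝ) ^ 2 * WW n p +
        1 / (p : ℝ) ^ 2 * WW n (p ^ 2)) := by linarith
    _ = 3 ^ n * (1 / (p : ℝ) ^ 2 + 1 / (p : ℝ) ^ 2 * WW n (p ^ 2)) +
        3 ^ n * (1 / (p : ℝ) ^ 2 * WW n p) := by ring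
    _ ≤ 3 ^ n * (1 / (p : ℝ) ^ 2 + 1 / (p : ℝ) ^ 2 * WW n (p ^ 2)) +
        3 ^ n * (1 / (p : ℝ) * WW n p) := by linarith
    _ = _ := by ring

theorem squares : ∃ C : ℝ, 0 < C ∧ ∀ (n : ℕ) (Q : Finset ℕ),
    (∀ p ∈ Q, p.Prime ∧ 5 ≤ p ∧ Real.exp (n / 10) < p ∧ (p : ℝ) ≤ Real.exp (29 / 50 * n)) →
    ∑ p ∈ Q, (Ad n (p ^ 2) : ℝ) ≤ C * 3 ^ n * Real.exp (-(n / 10 ^ 13)) := by
  obtain ⟨C1, hC1, h1⟩ := core
  obtain ⟨C2, hC2, h2⟩ := strSq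
  obtain ⟨C3, hC3, h3⟩ := strSum
  refine ⟨2 + C1 + C2 + C1 + C3, by positivity, fun n Q hQ => ?_⟩
  have hn : (0 : ℝ) ≤ n := Nat.cast_nonneg n
  have hQc := squares_card n Q hQ
  have hinj : Set.InjOn (fun p : ℕ => p ^ 2) (Q : Set ℕ) := fun a _ b _ h =>
    Nat.pow_left_injective (by norm_num : (2 : ℕ) ≠ 0) h
  -- the squares
  have hA : ∑ p ∈ Q, 1 / (p : ℝ) ^ 2 * WW n (p ^ 2) ≤ C1 * Real.exp (-(n / 10 ^ 12)) +
      Real.exp (648 * (n / 10 ^ 8)) * (C2 * Real.exp (-(n / 100))) := by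
    have e1 := h1 n (Q.image (fun p => p ^ 2)) (by
      intro q hq
      rw [Finset.mem_image] at hq
      obtain ⟨p, hp, rfl⟩ := hq
      have := (hQ p hp).1.pos
      positivity) (by rw [Finset.card_image_of_injOn hinj]; exact hQc)
    rw [Finset.sum_image hinj, Finset.sum_image hinj] at e1
    have e2 := h2 n (Mm n) (squares_Mm n) Q hQ
    push_cast at e1
    exact e1.trans (add_le_add le_rfl (mul_le_mul_of_nonneg_left e2 (Real.exp_pos _).le))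
  have hB : ∑ p ∈ Q, 1 / (p : ℝ) * WW n p ≤ C1 * Real.exp (-(n / 10 ^ 12)) +
      Real.exp (648 * (n / 10 ^ 8)) * (C3 * Real.exp (-(n / 60000))) := by
    have e1 := h1 n Q (fun q hq => (hQ q hq).1.pos) hQc
    have e2 := h3 n (Mm n) (squares_Mm n) Q (by
      intro q hq
      obtain ⟨hp, h5, h6, h7⟩ := hQ q hq
      refine ⟨lt_of_le_of_lt ?_ h6, h7, ?_⟩
      · apply Real.exp_le_exp.2
        linarith
      · rw [Nat.Prime.coprime_iff_not_dvd hp]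
        intro h8
        have h9 := Nat.le_of_dvd (by norm_num) h8
        interval_cases q
        · norm_num at h8
        · norm_num at hp)
    exact e1.trans (add_le_add le_rfl (mul_le_mul_of_nonneg_left e2 (Real.exp_pos _).le))
  have hD := squares_ioo n Q hQ
  -- the exponents
  have x1 : Real.exp (-(n / 10)) ≤ Real.exp (-(n / 10 ^ 13)) := Real.exp_le_exp.2 (by linarith)
  have x2 : Real.exp (-(n / 10 ^ 12)) ≤ Real.exp (-(n / 10 ^ 13)) :=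
    Real.exp_le_exp.2 (by linarith)
  have x3 : Real.exp (648 * (n / 10 ^ 8)) * (C2 * Real.exp (-(n / 100))) ≤
      C2 * Real.exp (-(n / 10 ^ 13)) := by
    have : Real.exp (648 * (n / 10 ^ 8)) * (C2 * Real.exp (-(n / 100))) =
        C2 * Real.exp (648 * (n / 10 ^ 8) + -(n / 100)) := by rw [Real.exp_add]; ring
    rw [this]
    exact mul_le_mul_of_nonneg_left (Real.exp_le_exp.2 (by linarith)) hC2.le
  have x4 : Real.exp (648 * (n / 10 ^ 8)) * (C3 * Real.exp (-(n / 60000))) ≤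
      C3 * Real.exp (-(n / 10 ^ 13)) := by
    have : Real.exp (648 * (n / 10 ^ 8)) * (C3 * Real.exp (-(n / 60000))) =
        C3 * Real.exp (648 * (n / 10 ^ 8) + -(n / 60000)) := by rw [Real.exp_add]; ring
    rw [this]
    exact mul_le_mul_of_nonneg_left (Real.exp_le_exp.2 (by linarith)) hC3.le
  have x5 := mul_le_mul_of_nonneg_left x2 hC1.le
  have hsum : ∑ p ∈ Q, (1 / (p : ℝ) ^ 2 + 1 / (p : ℝ) ^ 2 * WW n (p ^ 2) + 1 / (p : ℝ) * WW n p) ≤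
      (2 + C1 + C2 + C1 + C3) * Real.exp (-(n / 10 ^ 13)) := by
    rw [Finset.sum_add_distrib, Finset.sum_add_distrib]
    calc _ ≤ 2 * Real.exp (-(n / 10)) + (C1 * Real.exp (-(n / 10 ^ 12)) +
          Real.exp (648 * (n / 10 ^ 8)) * (C2 * Real.exp (-(n / 100)))) +
          (C1 * Real.exp (-(n / 10 ^ 12)) +
          Real.exp (648 * (n / 10 ^ 8)) * (C3 * Real.exp (-(n / 60000)))) :=
          add_le_add (add_le_add hD hA) hB
      _ ≤ 2 * Real.exp (-(n / 10 ^ 13)) + (C1 * Real.exp (-(n / 10 ^ 13)) +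
          C2 * Real.exp (-(n / 10 ^ 13))) + (C1 * Real.exp (-(n / 10 ^ 13)) +
          C3 * Real.exp (-(n / 10 ^ 13))) := by linarith
      _ = _ := by ring
  calc ∑ p ∈ Q, (Ad n (p ^ 2) : ℝ) ≤ ∑ p ∈ Q, 3 ^ n * (1 / (p : ℝ) ^ 2 +
        1 / (p : ℝ) ^ 2 * WW n (p ^ 2) + 1 / (p : ℝ) * WW n p) :=
        Finset.sum_le_sum fun p hp => squares_Ad n p (hQ p hp).1
    _ = 3 ^ n * ∑ p ∈ Q, (1 / (p : ℝ) ^ 2 + 1 / (p : ℝ) ^ 2 * WW n (p ^ 2) +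
        1 / (p : ℝ) * WW n p) := by rw [Finset.mul_sum]
    _ ≤ 3 ^ n * ((2 + C1 + C2 + C1 + C3) * Real.exp (-(n / 10 ^ 13))) :=
        mul_le_mul_of_nonneg_left hsum (by positivity)
    _ = _ := by ring

end Pool.Agent.Lib.MP_f75418_nt.FF
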