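import Pool.Agent.Lib.MP_f75418_nt.FF.Defs
import Pool.Agent.Lib.MP_f75418_nt.FF.Facts
import Pool.Agent.Lib.MP_f75418_nt.FF.Num

/-!
Row B10. From the weights to at most four prime factors.

* `wgt_count`: `∑_{b rough} Wt n b = SA - lamR ∑_p wt(p) #{b rough : p ∣ av n b} ≥ SA - lamR ∑_p wt(p) SAp n p (yp)` (`wt ≥ 0` on
  `P (zz N) (yy N)`, `yp N p ≤ zz N`), and `Wt ≤ 1`, terms with `Wt ≤ 0` dropped.
* `wgt_four`: let `m = av n b < 3^(2n+3)` have `r ≥ 5` prime factors with multiplicity (`Nat.primeFactorsList`), `N = Nn n`. The primes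
  `p ≤ N^(124/125)` have multiplicity one in `m`, those above have `wt N p < 0`, so
  `∑_{p ∈ P zz yy, p ∣ m} wt N p ≥ ∑_{p in the list} wt N p = r - log m/(124/125 log N) ≥ 5 - (2n+3) log 3/(124/125 log N)`, and
  with `log N ≥ 29/50 n - 1` and `num2` the product with `lamR` is `≥ 1` for large `n`: `Wt n b ≤ 0`.
* `wgt_size`: `m^(1/18) ≤ 3^((2n+3)/18) = exp (0.12207 n + 0.19) ≤ N^(4/19) ~ exp (0.122105 n)` for large `n` (`n ≥ 6000`;
  `log 3 ≤ 1.0987`: `log_three` bounds; `1.0986123*2/18 = 0.1220680`, `29/50*4/19 = 0.1221053`), and every prime factor is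
  `≥ zz N > N^(4/19)`.
-/

open Finset

namespace Pool.Agent.Lib.MP_f75418_nt.FF

open Pool.Agent.Lib.MP_f75418_nt
open Pool.Agent.Lib.MP_45349e_nt.LS (P)

/-- the size of `av n b` -/
private lemma wgt_av (n : ℕ) (b : Fin n → Fin 3) : 0 < av n b ∧ av n b < 3 ^ (2 * n + 3) := by
  have h := (mem_antipals.mp (av_mem n b)).1
  constructor
  · exact lt_of_lt_of_le (by positivity) h.1
  · have h2 := h.2
    have e : 2 * (n + 1) + 1 = 2 * n + 3 := by ring
    rwa [e] at h2

private lemma wgt_log_av (n : ℕ) (b : Fin n → Fin 3) :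
    Real.log ((av n b : ℕ) : ℝ) ≤ (2 * n + 3) * Real.log 3 := by
  have h := wgt_av n b
  have h1 : ((av n b : ℕ) : ℝ) ≤ 3 ^ (2 * n + 3) := by exact_mod_cast h.2.le
  have h2 := Real.log_le_log (by exact_mod_cast h.1) h1
  rw [Real.log_pow] at h2
  push_cast at h2
  exact h2

private lemma wgt_lamR_pos : 0 < lamR := by unfold lamR; norm_num

open Classical in
private lemma wgt_Wt_le (n : ℕ) (hN : 2 ≤ Nn n) (b : Fin n → Fin 3) : Wt n b ≤ 1 := by
  unfold Wt
  have h : 0 ≤ ∑ p ∈ (P (zz (Nn n)) (yy (Nn n))).filter (fun p => p ∣ av n b), wt (Nn n) p :=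
    Finset.sum_nonneg fun p hp => wt_nonneg hN (Finset.mem_filter.mp hp).1
  have := mul_nonneg wgt_lamR_pos.le h
  linarith

open Classical in
theorem wgt_count (n : ℕ) (hN : 2 ≤ Nn n) :
    (SA n (zz (Nn n)) : ℝ) - lamR * ∑ p ∈ P (zz (Nn n)) (yy (Nn n)),
      wt (Nn n) p * (SAp n p (yp (Nn n) p) : ℝ) ≤
    (((Finset.univ : Finset (Fin n → Fin 3)).filter (fun b =>
      (∀ p, p.Prime → p < zz (Nn n) → ¬ p ∣ av n b) ∧ 0 < Wt n b)).card : ℝ) := by
  set R := (Finset.univ : Finset (Fin n → Fin 3)).filter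
    (fun b => ∀ p, p.Prime → p < zz (Nn n) → ¬ p ∣ av n b) with hR
  have hSA : (SA n (zz (Nn n)) : ℝ) = R.card := by unfold SA; rw [hR]
  -- the sum of the weights
  have h1 : ∑ b ∈ R, Wt n b = (R.card : ℝ) - lamR * ∑ p ∈ P (zz (Nn n)) (yy (Nn n)),
      wt (Nn n) p * ((R.filter (fun b => p ∣ av n b)).card : ℝ) := by
    unfold Wt
    rw [Finset.sum_sub_distrib, Finset.sum_const, nsmul_eq_mul, mul_one, ← Finset.mul_sum]
    congr 2
    calc ∑ b ∈ R, ∑ p ∈ (P (zz (Nn n)) (yy (Nn n))).filter (fun p => p ∣ av n b), wt (Nn n) p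
        = ∑ b ∈ R, ∑ p ∈ P (zz (Nn n)) (yy (Nn n)), if p ∣ av n b then wt (Nn n) p else 0 :=
          Finset.sum_congr rfl fun b _ => Finset.sum_filter _ _
      _ = ∑ p ∈ P (zz (Nn n)) (yy (Nn n)), ∑ b ∈ R, if p ∣ av n b then wt (Nn n) p else 0 :=
          Finset.sum_comm
      _ = _ := Finset.sum_congr rfl fun p _ => by
          rw [← Finset.sum_filter, Finset.sum_const, nsmul_eq_mul, mul_comm]
  have h2 : ∀ p, ((R.filter (fun b => p ∣ av n b)).card : ℝ) ≤ (SAp n p (yp (Nn n) p) : ℝ) := by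
    intro p
    unfold SAp
    norm_cast
    refine Finset.card_le_card fun b hb => ?_
    rw [Finset.mem_filter, hR, Finset.mem_filter] at hb
    rw [Finset.mem_filter]
    exact ⟨Finset.mem_univ _, hb.2, fun r hr hlt => hb.1.2 r hr (lt_of_lt_of_le hlt (yp_le _ _))⟩
  have h3 : (SA n (zz (Nn n)) : ℝ) - lamR * ∑ p ∈ P (zz (Nn n)) (yy (Nn n)),
      wt (Nn n) p * (SAp n p (yp (Nn n) p) : ℝ) ≤ ∑ b ∈ R, Wt n b := by
    rw [h1, hSA]
    have h4 : ∑ p ∈ P (zz (Nn n)) (yy (Nn n)),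
        wt (Nn n) p * ((R.filter (fun b => p ∣ av n b)).card : ℝ) ≤
        ∑ p ∈ P (zz (Nn n)) (yy (Nn n)), wt (Nn n) p * (SAp n p (yp (Nn n) p) : ℝ) :=
      Finset.sum_le_sum fun p hp => mul_le_mul_of_nonneg_left (h2 p) (wt_nonneg hN hp)
    have := mul_le_mul_of_nonneg_left h4 wgt_lamR_pos.le
    linarith
  refine h3.trans ?_
  calc ∑ b ∈ R, Wt n b ≤ ∑ b ∈ R, (if 0 < Wt n b then (1 : ℝ) else 0) := by
        refine Finset.sum_le_sum fun b _ => ?_
        split_ifs with h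
        · exact wgt_Wt_le n hN b
        · exact not_lt.mp h
    _ = ((R.filter (fun b => 0 < Wt n b)).card : ℝ) := by
        rw [← Finset.sum_filter, Finset.sum_const, nsmul_eq_mul, mul_one]
    _ ≤ _ := by
        norm_cast
        refine Finset.card_le_card fun b hb => ?_
        rw [Finset.mem_filter, hR, Finset.mem_filter] at hb
        rw [Finset.mem_filter]
        exact ⟨Finset.mem_univ _, hb.1.2, hb.2⟩

/-- the sum over the prime factors with multiplicity -/
private lemma wgt_sum_list (m : ℕ) (hm : 0 < m) (A : ℝ) :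
    (m.primeFactorsList.map (fun p : ℕ => 1 - Real.log (p : ℝ) / A)).sum =
      (m.primeFactorsList.length : ℝ) - Real.log (m : ℝ) / A := by
  have key : ∀ l : List ℕ, (∀ p ∈ l, p ≠ 0) →
      (l.map (fun p : ℕ => 1 - Real.log (p : ℝ) / A)).sum =
        (l.length : ℝ) - Real.log ((l.prod : ℕ) : ℝ) / A := by
    intro l
    induction l with
    | nil => intro _; simp
    | cons a l ih =>
      intro h
      have ha : (a : ℝ) ≠ 0 := by exact_mod_cast h a List.mem_cons_self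
      have hl : ((l.prod : ℕ) : ℝ) ≠ 0 := by
        have : l.prod ≠ 0 := by
          rw [Ne, List.prod_eq_zero_iff]
          exact fun h0 => h 0 (List.mem_cons_of_mem a h0) rfl
        exact_mod_cast this
      rw [List.map_cons, List.sum_cons, ih fun p hp => h p (List.mem_cons_of_mem a hp),
        List.length_cons, List.prod_cons, Nat.cast_mul, Real.log_mul ha hl]
      push_cast
      ring
  have h := key m.primeFactorsList fun p hp => (Nat.prime_of_mem_primeFactorsList hp).ne_zero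
  rwa [Nat.prod_primeFactorsList hm.ne'] at h

open Classical in
/-- the sum over the list is at most the sum over the primes of the weights -/
private lemma wgt_list_le (N m : ℕ) (hN : 2 ≤ N) (hm : 0 < m)
    (hz : ∀ p, p.Prime → p < zz N → ¬ p ∣ m)
    (hsq : ∀ p ∈ P (zz N) (yy N), ¬ p ^ 2 ∣ m) :
    (m.primeFactorsList.map (fun p => wt N p)).sum ≤
      ∑ p ∈ (P (zz N) (yy N)).filter (fun p => p ∣ m), wt N p := by
  have e1 : (m.primeFactorsList.map (fun p => wt N p)).sum =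
      ∑ p ∈ m.primeFactorsList.toFinset, (m.primeFactorsList.count p : ℝ) * wt N p := by
    have := Finset.sum_list_map_count m.primeFactorsList (fun p => wt N p)
    simpa [nsmul_eq_mul] using this
  rw [e1]
  set T := m.primeFactorsList.toFinset with hT
  have hmemT : ∀ p, p ∈ T ↔ p.Prime ∧ p ∣ m := by
    intro p
    rw [hT, List.mem_toFinset, Nat.mem_primeFactorsList hm.ne']
  rw [← Finset.sum_filter_add_sum_filter_not T (fun p => p < yy N)]
  have hA : ∑ p ∈ T.filter (fun p => ¬ p < yy N), (m.primeFactorsList.count p : ℝ) * wt N p ≤ 0 := by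
    refine Finset.sum_nonpos fun p hp => ?_
    rw [Finset.mem_filter] at hp
    exact mul_nonpos_of_nonneg_of_nonpos (Nat.cast_nonneg _) (wt_neg hN (not_lt.mp hp.2))
  have hB : ∑ p ∈ T.filter (fun p => p < yy N), (m.primeFactorsList.count p : ℝ) * wt N p =
      ∑ p ∈ (P (zz N) (yy N)).filter (fun p => p ∣ m), wt N p := by
    have hset : T.filter (fun p => p < yy N) = (P (zz N) (yy N)).filter (fun p => p ∣ m) := by
      ext p
      rw [Finset.mem_filter, Finset.mem_filter, hmemT, mem_P]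
      constructor
      · rintro ⟨⟨h1, h2⟩, h3⟩
        refine ⟨⟨⟨?_, h3⟩, h1⟩, h2⟩
        by_contra h4
        exact hz p h1 (not_le.mp h4) h2
      · rintro ⟨⟨⟨_, h3⟩, h1⟩, h2⟩
        exact ⟨⟨h1, h2⟩, h3⟩
    rw [hset]
    refine Finset.sum_congr rfl fun p hp => ?_
    rw [Finset.mem_filter] at hp
    have hp1 := (mem_P.mp hp.1).2
    have hc : m.primeFactorsList.count p = 1 := by
      rw [Nat.primeFactorsList_count_eq]
      have h1 : 1 ≤ m.factorization p := hp1.factorization_pos_of_dvd hm.ne' hp.2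
      have h2 : ¬ 2 ≤ m.factorization p := fun h =>
        hsq p hp.1 ((hp1.pow_dvd_iff_le_factorization hm.ne').mpr h)
      omega
    rw [hc]
    simp
  linarith

theorem wgt_four : ∃ n₀ : ℕ, ∀ n : ℕ, n₀ ≤ n → ∀ b : Fin n → Fin 3,
    (∀ p, p.Prime → p < zz (Nn n) → ¬ p ∣ av n b) → 0 < Wt n b →
    (∀ p ∈ P (zz (Nn n)) (yy (Nn n)), ¬ p ^ 2 ∣ av n b) →
    ArithmeticFunction.cardFactors (av n b) ≤ 4 := by
  classical
  obtain ⟨n₁, hn₁⟩ := Nn_large 2
  refine ⟨n₁ + 200000, fun n hn b hz hW hsq => ?_⟩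
  have hN : 2 ≤ Nn n := hn₁ n (by omega)
  have hnr : (200000 : ℝ) ≤ n := by
    have : 200000 ≤ n := by omega
    exact_mod_cast this
  have hlogN := log_Nn_ge n (by omega)
  have hm := (wgt_av n b).1
  by_contra hcon
  rw [not_le] at hcon
  have hr : (5 : ℝ) ≤ ((av n b).primeFactorsList.length : ℝ) := by
    have : 5 ≤ (av n b).primeFactorsList.length := by
      rw [ArithmeticFunction.cardFactors_apply] at hcon
      omega
    exact_mod_cast this
  have h1 := wgt_list_le (Nn n) (av n b) hN hm hz hsq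
  have h2 := wgt_sum_list (av n b) hm (124 / 125 * Real.log (Nn n : ℕ))
  have h3 : (((av n b).primeFactorsList).map (fun p => wt (Nn n) p)).sum =
      ((av n b).primeFactorsList.length : ℝ) -
        Real.log ((av n b : ℕ) : ℝ) / (124 / 125 * Real.log (Nn n : ℕ)) := h2
  rw [h3] at h1
  have hlog := wgt_log_av n b
  have hL3 : Real.log 3 < 1.0986122888 := Real.log_three_lt_d9
  have hL30 : 0 < Real.log 3 := Real.log_pos (by norm_num)
  set L := Real.log 3 with hL
  set Λ := Real.log ((Nn n : ℕ) : ℝ) with hΛ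
  have hΛpos : 0 < 29 / 50 * (n : ℝ) - 1 := by linarith
  have hA : Real.log ((av n b : ℕ) : ℝ) / (124 / 125 * Λ) ≤
      (2 * n + 3) * L / (124 / 125 * (29 / 50 * n - 1)) := by
    have hnum : 0 ≤ (2 * (n : ℝ) + 3) * L := by positivity
    calc Real.log ((av n b : ℕ) : ℝ) / (124 / 125 * Λ)
        ≤ (2 * n + 3) * L / (124 / 125 * Λ) :=
          div_le_div_of_nonneg_right hlog (by linarith)
      _ ≤ (2 * n + 3) * L / (124 / 125 * (29 / 50 * n - 1)) :=
          div_le_div_of_nonneg_left hnum (by linarith) (by linarith)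
  have hB : (2 * n + 3) * L / (124 / 125 * (29 / 50 * n - 1)) ≤
      2 * L / (124 / 125 * (29 / 50)) + 1 / 10000 := by
    rw [div_le_iff₀ (by linarith)]
    have e : (2 * L / (124 / 125 * (29 / 50)) + 1 / 10000) * (124 / 125 * (29 / 50 * (n : ℝ) - 1)) =
        2 * L * n - 2 * L / (29 / 50) + 1 / 10000 * (124 / 125 * (29 / 50 * (n : ℝ) - 1)) := by
      field_simp
    rw [e]
    nlinarith
  have hnum2 := num2
  have hW' : lamR * ∑ p ∈ (P (zz (Nn n)) (yy (Nn n))).filter (fun p => p ∣ av n b),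
      wt (Nn n) p < 1 := by
    unfold Wt at hW
    linarith
  have hlow : 5 - 2 * L / (124 / 125 * (29 / 50)) - 1 / 10000 ≤
      ∑ p ∈ (P (zz (Nn n)) (yy (Nn n))).filter (fun p => p ∣ av n b), wt (Nn n) p := by
    linarith
  have h5 := mul_le_mul_of_nonneg_left hlow wgt_lamR_pos.le
  have h6 : lamR * (5 - 2 * L / (124 / 125 * (29 / 50)) - 1 / 10000) =
      lamR * (5 - 2 * L / (124 / 125 * (29 / 50))) - lamR / 10000 := by ring
  have h7 : lamR ≤ 1 := by unfold lamR; norm_num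
  linarith

theorem wgt_size : ∃ n₀ : ℕ, ∀ n : ℕ, n₀ ≤ n → ∀ b : Fin n → Fin 3,
    (∀ p, p.Prime → p < zz (Nn n) → ¬ p ∣ av n b) →
    ∀ p, p.Prime → p ∣ av n b → ((av n b : ℕ) : ℝ) ^ (1 / 18 : ℝ) ≤ p := by
  obtain ⟨n₁, hn₁⟩ := Nn_large 2
  refine ⟨n₁ + 20000, fun n hn b hz p hp hdvd => ?_⟩
  have hN : 2 ≤ Nn n := hn₁ n (by omega)
  have hNpos : (0 : ℝ) < ((Nn n : ℕ) : ℝ) := by exact_mod_cast (by omega : 0 < Nn n)
  have hnr : (20000 : ℝ) ≤ n := by
    have : 20000 ≤ n := by omega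
    exact_mod_cast this
  have hlogN := log_Nn_ge n (by omega)
  have hm : (0 : ℝ) < ((av n b : ℕ) : ℝ) := by exact_mod_cast (wgt_av n b).1
  have hpz : zz (Nn n) ≤ p := by
    by_contra h
    exact hz p hp (not_le.mp h) hdvd
  have hpz' : ((zz (Nn n) : ℕ) : ℝ) ≤ p := by exact_mod_cast hpz
  have hlt := lt_zz (Nn n)
  have hlog := wgt_log_av n b
  have hL3 : Real.log 3 < 1.0986122888 := Real.log_three_lt_d9
  have hmain : ((av n b : ℕ) : ℝ) ^ (1 / 18 : ℝ) ≤ ((Nn n : ℕ) : ℝ) ^ (4 / 19 : ℝ) := by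
    rw [Real.rpow_def_of_pos hm, Real.rpow_def_of_pos hNpos]
    refine Real.exp_le_exp.mpr ?_
    have h1 : Real.log ((av n b : ℕ) : ℝ) ≤ (2 * n + 3) * 1.0986122888 :=
      hlog.trans (mul_le_mul_of_nonneg_left hL3.le (by positivity))
    nlinarith
  linarith

end Pool.Agent.Lib.MP_f75418_nt.FF
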