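import Pool.Agent.Lib.MP_f75418_nt.FF.Defs
import Pool.Agent.Lib.MP_f75418_nt.FF.Comb
import Pool.Agent.Lib.MP_f75418_nt.FF.Wgt
import Pool.Agent.Lib.MP_f75418_nt.FF.Squares
import Pool.Agent.Lib.MP_f75418_nt.FF.Facts

/-!
Row Z. Assembly: `comb` + `wgt_count` give `≥ c 3^n/n` rough `b` with `Wt > 0`; remove those with `p² ∣ av n b` for some
`p ∈ P (zz N) (yy N)`: at most `∑_p Ad n (p²) ≤ C 3^n exp (-n/10^13)` (`squares`; `p > N^(4/19) ≥ exp (n/10)`, `p ≤ exp (29/50 n)`);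
the others have at most four prime factors (`wgt_four`), all `≥ m^(1/18)` (`wgt_size`).
-/

open Finset

namespace Pool.Agent.Lib.MP_f75418_nt.FF

open Pool.Agent.Lib.MP_f75418_nt
open Pool.Agent.Lib.MP_45349e_nt.LS (P)

private theorem fin_decay (C c : ℝ) (hC : 0 < C) (hc : 0 < c) : ∃ n₀ : ℕ, ∀ n : ℕ, n₀ ≤ n →
    C * 3 ^ n * Real.exp (-(n / 10 ^ 13)) ≤ c / 2 * 3 ^ n / n := by
  obtain ⟨k, hk⟩ := exists_nat_ge (4 * C * 10 ^ 26 / c)
  refine ⟨k + 1, fun n hn => ?_⟩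
  have hn1 : 1 ≤ n := by omega
  have hnr : (0 : ℝ) < n := by exact_mod_cast hn1
  have h1 : 4 * C * 10 ^ 26 / c ≤ n := by
    have h3 : (k : ℝ) ≤ n := by exact_mod_cast (show k ≤ n by omega)
    linarith
  rw [div_le_iff₀ hc] at h1
  have h4 := Real.quadratic_le_exp_of_nonneg (show (0 : ℝ) ≤ n / 10 ^ 13 by positivity)
  have h5 : (n : ℝ) ^ 2 / (2 * 10 ^ 26) ≤ Real.exp (n / 10 ^ 13) := by
    refine le_trans ?_ h4
    have : (0 : ℝ) ≤ n / 10 ^ 13 := by positivity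
    have e : (n : ℝ) ^ 2 / (2 * 10 ^ 26) = (n / 10 ^ 13) ^ 2 / 2 := by ring
    rw [e]
    linarith
  have h6 : Real.exp (-(n / 10 ^ 13)) ≤ 2 * 10 ^ 26 / (n : ℝ) ^ 2 := by
    rw [Real.exp_neg, inv_le_comm₀ (Real.exp_pos _) (by positivity), inv_div]
    exact h5
  calc C * 3 ^ n * Real.exp (-(n / 10 ^ 13)) ≤ C * 3 ^ n * (2 * 10 ^ 26 / (n : ℝ) ^ 2) := by gcongr
    _ ≤ c / 2 * 3 ^ n / n := by
      rw [mul_div_assoc', div_le_div_iff₀ (by positivity) hnr]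
      have h7 : C * (2 * 10 ^ 26) ≤ c / 2 * n := by linarith
      have h8 : (0 : ℝ) ≤ 3 ^ n * n := by positivity
      calc C * 3 ^ n * (2 * 10 ^ 26) * n = (C * (2 * 10 ^ 26)) * (3 ^ n * n) := by ring
        _ ≤ (c / 2 * n) * (3 ^ n * n) := mul_le_mul_of_nonneg_right h7 h8
        _ = c / 2 * 3 ^ n * n ^ 2 := by ring

private theorem fin_size : ∃ n₀ : ℕ, ∀ n : ℕ, n₀ ≤ n →
    Real.exp (n / 10) ≤ ((Nn n : ℕ) : ℝ) ^ (4 / 19 : ℝ) ∧ 5 ≤ zz (Nn n) ∧ 2 ≤ Nn n := by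
  obtain ⟨n₁, h1⟩ := Nn_large 2
  refine ⟨n₁ + 40, fun n hn => ?_⟩
  have h2 := h1 n (by omega)
  have hN0 : (0 : ℝ) < (Nn n : ℕ) := by exact_mod_cast (show 0 < Nn n by omega)
  have h3 := log_Nn_ge n (by omega)
  have hn' : (40 : ℝ) ≤ n := by exact_mod_cast (show 40 ≤ n by omega)
  have h4 : Real.exp (n / 10) ≤ ((Nn n : ℕ) : ℝ) ^ (4 / 19 : ℝ) := by
    rw [Real.rpow_def_of_pos hN0, Real.exp_le_exp]
    linarith
  refine ⟨h4, ?_, h2⟩
  have h5 := lt_zz (Nn n)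
  have h6 : (4 : ℝ) < zz (Nn n) := by
    refine lt_of_le_of_lt (le_trans ?_ h4) h5
    have := Real.add_one_le_exp (n / 10 : ℝ)
    linarith
  have h7 : 4 < zz (Nn n) := by exact_mod_cast h6
  omega

open Classical in
theorem four_factors : ∃ c : ℝ, 0 < c ∧ ∃ n₀ : ℕ, ∀ n : ℕ, n₀ ≤ n →
    c * 3 ^ n / n ≤ (((Finset.univ : Finset (Fin n → Fin 3)).filter (fun b =>
      ArithmeticFunction.cardFactors (av n b) ≤ 4 ∧
      ∀ p, p.Prime → p ∣ av n b → ((av n b : ℕ) : ℝ) ^ (1 / 18 : ℝ) ≤ p)).card : ℝ) := by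
  obtain ⟨c, hc, n₁, h1⟩ := comb
  obtain ⟨n₂, h2⟩ := wgt_four
  obtain ⟨n₃, h3⟩ := wgt_size
  obtain ⟨C, hC, h4⟩ := squares
  obtain ⟨n₄, h5⟩ := fin_decay C c hC hc
  obtain ⟨n₅, h6⟩ := fin_size
  refine ⟨c / 2, by linarith, n₁ + n₂ + n₃ + n₄ + n₅, fun n hn => ?_⟩
  obtain ⟨hz, hz5, hN2⟩ := h6 n (by omega)
  have e1 := (h1 n (by omega)).trans (wgt_count n hN2)
  set G := (Finset.univ : Finset (Fin n → Fin 3)).filter (fun b =>
      (∀ p, p.Prime → p < zz (Nn n) → ¬ p ∣ av n b) ∧ 0 < Wt n b) with hG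
  set Bd := (P (zz (Nn n)) (yy (Nn n))).biUnion (fun p =>
    (Finset.univ : Finset (Fin n → Fin 3)).filter (fun b => p ^ 2 ∣ av n b)) with hBd
  set T := (Finset.univ : Finset (Fin n → Fin 3)).filter (fun b =>
      ArithmeticFunction.cardFactors (av n b) ≤ 4 ∧
      ∀ p, p.Prime → p ∣ av n b → ((av n b : ℕ) : ℝ) ^ (1 / 18 : ℝ) ≤ p) with hT
  have hsub : G ⊆ T ∪ Bd := by
    intro b hb
    rw [hG, Finset.mem_filter] at hb
    rw [Finset.mem_union]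
    by_cases hsq : ∀ p ∈ P (zz (Nn n)) (yy (Nn n)), ¬ p ^ 2 ∣ av n b
    · left
      rw [hT, Finset.mem_filter]
      exact ⟨Finset.mem_univ _, h2 n (by omega) b hb.2.1 hb.2.2 hsq, h3 n (by omega) b hb.2.1⟩
    · right
      push Not at hsq
      obtain ⟨p, hp, hpd⟩ := hsq
      rw [hBd, Finset.mem_biUnion]
      exact ⟨p, hp, Finset.mem_filter.mpr ⟨Finset.mem_univ _, hpd⟩⟩
  have hcard : (G.card : ℝ) ≤ T.card + Bd.card := by
    exact_mod_cast (Finset.card_le_card hsub).trans (Finset.card_union_le _ _)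
  have hBcard : (Bd.card : ℝ) ≤ ∑ p ∈ P (zz (Nn n)) (yy (Nn n)), (Ad n (p ^ 2) : ℝ) := by
    have h7 : Bd.card ≤ ∑ p ∈ P (zz (Nn n)) (yy (Nn n)),
        ((Finset.univ : Finset (Fin n → Fin 3)).filter (fun b => p ^ 2 ∣ av n b)).card :=
      Finset.card_biUnion_le
    have h8 : ∀ p, ((Finset.univ : Finset (Fin n → Fin 3)).filter (fun b => p ^ 2 ∣ av n b)).card =
        Ad n (p ^ 2) := by
      intro p
      unfold Ad
      congr 1
    rw [Finset.sum_congr rfl fun p _ => h8 p] at h7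
    exact_mod_cast h7
  have hsq := h4 n (P (zz (Nn n)) (yy (Nn n))) (by
    intro p hp
    obtain ⟨q1, q2, q3⟩ := mem_zy.mp hp
    have q4 := (mem_P.mp hp).1.1
    refine ⟨q1, by omega, lt_of_le_of_lt hz q2, ?_⟩
    have hN1 : (1 : ℝ) ≤ (Nn n : ℕ) := by exact_mod_cast (show 1 ≤ Nn n by omega)
    have q5 : ((Nn n : ℕ) : ℝ) ^ (124 / 125 : ℝ) ≤ (Nn n : ℕ) := by
      conv_rhs => rw [← Real.rpow_one ((Nn n : ℕ) : ℝ)]
      apply Real.rpow_le_rpow_of_exponent_le hN1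
      norm_num
    exact q3.trans (q5.trans (Nn_le n)))
  have h9 := h5 n (by omega)
  have e2 : c * 3 ^ n / n = c / 2 * 3 ^ n / n + c / 2 * 3 ^ n / n := by ring
  rw [e2] at e1
  linarith

end Pool.Agent.Lib.MP_f75418_nt.FF
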