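import Pool.Agent.Lib.MP_f75418_nt.FF.Level2
import Pool.Agent.Lib.MP_f75418_nt.FF.Base

/-!
# Level of distribution `exp (0.58 n)` in all residue classes
-/

open Finset

namespace Pool.Agent.Lib.MP_f75418_nt.FF

open Pool.Agent.Lib.MP_f75418_nt

/-- the number of `b` with `d ∣ av n b + k` -/
def Ak (n d k : ℕ) : ℕ :=
  ((Finset.univ : Finset (Fin n → Fin 3)).filter (fun b => d ∣ av n b + k)).card

theorem Ak_sub_le {n d : ℕ} (hd : 0 < d) (k : ℕ) :
    |(Ak n d k : ℝ) - 3 ^ n / d| ≤ 3 ^ n / d * ∑ h ∈ Finset.Ico 1 d, gg n ((h : ℝ) / d) := by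
  have hd' : (0 : ℝ) < d := by exact_mod_cast hd
  have h1 : (d : ℂ) * (Ak n d k : ℂ) = ∑ h ∈ Finset.range d, ∑ b : Fin n → Fin 3,
      ee ((h : ℝ) / d * (av n b + k : ℕ)) := by
    rw [Finset.sum_comm]
    simp_rw [sum_ee hd]
    rw [← Finset.sum_filter, Finset.sum_const, nsmul_eq_mul, mul_comm]
    rfl
  have h2 : ∑ b : Fin n → Fin 3, ee (((0 : ℕ) : ℝ) / d * (av n b + k : ℕ)) = 3 ^ n := by
    simp [ee_zero]
  have h3 : (d : ℂ) * (Ak n d k : ℂ) - 3 ^ n = ∑ h ∈ Finset.Ico 1 d, ∑ b : Fin n → Fin 3,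
      ee ((h : ℝ) / d * (av n b + k : ℕ)) := by
    rw [h1, Finset.range_eq_Ico, Finset.sum_eq_sum_Ico_succ_bot hd, h2]
    ring
  have h4 : (d : ℝ) * |(Ak n d k : ℝ) - 3 ^ n / d| = ‖(d : ℂ) * (Ak n d k : ℂ) - 3 ^ n‖ := by
    rw [← abs_of_pos hd', ← abs_mul, abs_of_pos hd']
    have e : (d : ℝ) * ((Ak n d k : ℝ) - 3 ^ n / d) = d * Ak n d k - 3 ^ n := by
      field_simp
    rw [e, ← Real.norm_eq_abs, ← Complex.norm_real]
    push_cast
    rfl
  have h5 : (d : ℝ) * |(Ak n d k : ℝ) - 3 ^ n / d| ≤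
      ∑ h ∈ Finset.Ico 1 d, 3 ^ n * gg n ((h : ℝ) / d) := by
    rw [h4, h3]
    refine (norm_sum_le _ _).trans (Finset.sum_le_sum fun h _ => ?_)
    have e1 : ∀ b : Fin n → Fin 3, ee ((h : ℝ) / d * (av n b + k : ℕ)) =
        ee ((h : ℝ) / d * (av n b : ℕ)) * ee ((h : ℝ) / d * k) := by
      intro b
      rw [← ee_add]
      congr 1
      push_cast
      ring
    rw [Finset.sum_congr rfl fun b _ => e1 b, ← Finset.sum_mul, norm_mul, norm_ee, mul_one,
      charsum_eq]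
  rw [← Finset.mul_sum] at h5
  calc |(Ak n d k : ℝ) - 3 ^ n / d| = (d * |(Ak n d k : ℝ) - 3 ^ n / d|) / d := by field_simp
    _ ≤ (3 ^ n * ∑ h ∈ Finset.Ico 1 d, gg n ((h : ℝ) / d)) / d := by gcongr
    _ = _ := by ring

theorem Ak_sub_le_WW {n d : ℕ} (hd : 0 < d) (k : ℕ) :
    |(Ak n d k : ℝ) - 3 ^ n / d| ≤ 3 ^ n / d * ∑ q ∈ d.divisors.erase 1, WW n q := by
  refine (Ak_sub_le hd k).trans ?_
  refine mul_le_mul_of_nonneg_left ?_ (by positivity)
  exact sum_fractions_le hd (fun x => gg n x) (fun x => gg_nonneg n x)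

/-- the total weight of the fractions -/
theorem level_WW : ∃ C : ℝ, 0 < C ∧ ∀ n D : ℕ, (D : ℝ) ≤ Real.exp (29 / 50 * n) →
    ∑ d ∈ (Finset.Icc 1 D).filter (fun d => Nat.Coprime d 6), (1 / (d : ℝ)) *
      ∑ q ∈ d.divisors.erase 1, WW n q ≤ C * Real.exp (-(Real.sqrt n / 200)) := by
  classical
  obtain ⟨C1, hC1, hsmall⟩ := small
  obtain ⟨C2, hC2, hcore⟩ := core
  obtain ⟨C3, hC3, hstr⟩ := strSum
  refine ⟨C1 * 80000 + (C2 + C3) * (2 * 10 ^ 12 * Real.exp 12500000), by positivity, ?_⟩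
  intro n D hD
  have hn0 : (0 : ℝ) ≤ n := Nat.cast_nonneg n
  rcases Nat.eq_zero_or_pos D with hD0 | hD0
  · rw [hD0]
    simp
    positivity
  have hDr : (1 : ℝ) ≤ D := by exact_mod_cast hD0
  set S := (Finset.Icc 2 D).filter (fun q => Nat.Coprime q 6) with hS
  set D₀ := ⌊Real.exp (n / 20000)⌋₊ with hD₀
  have h2 := exchange D (fun q => WW n q) (fun q => WW_nonneg _ q)
  -- the splitting
  have h3 : ∑ q ∈ S, (1 / (q : ℝ)) * WW n q ≤
      C1 * Real.exp (-(Real.sqrt n / 100)) + (C2 + C3) * Real.exp (-(n / 10 ^ 12)) := by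
    rw [← Finset.sum_filter_add_sum_filter_not S (fun q => q ≤ D₀)]
    have hfl : (D₀ : ℝ) ≤ Real.exp (n / 20000) := Nat.floor_le (Real.exp_pos _).le
    have h4 : ∑ q ∈ S.filter (fun q => q ≤ D₀), (1 / (q : ℝ)) * WW n q ≤
        C1 * Real.exp (-(Real.sqrt n / 100)) := by
      refine le_trans (Finset.sum_le_sum_of_subset_of_nonneg ?_ ?_) (hsmall n D₀ hfl)
      · intro q hq
        rw [Finset.mem_filter, hS, Finset.mem_filter, Finset.mem_Icc] at hq
        rw [Finset.mem_filter, Finset.mem_Icc]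
        exact ⟨⟨hq.1.1.1, hq.2⟩, hq.1.2⟩
      · intro q _ _
        exact mul_nonneg (by positivity) (WW_nonneg _ q)
    have h5 : ∑ q ∈ S.filter (fun q => ¬ q ≤ D₀), (1 / (q : ℝ)) * WW n q ≤
        (C2 + C3) * Real.exp (-(n / 10 ^ 12)) := by
      have hQ : ∀ q ∈ S.filter (fun q => ¬ q ≤ D₀), Real.exp (n / 20000) < q ∧
          (q : ℝ) ≤ Real.exp (29 / 50 * n) ∧ Nat.Coprime q 6 := by
        intro q hq
        rw [Finset.mem_filter, hS, Finset.mem_filter, Finset.mem_Icc] at hq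
        obtain ⟨⟨⟨h6, h7⟩, h8⟩, h9⟩ := hq
        refine ⟨?_, ?_, h8⟩
        · have h10 := Nat.lt_floor_add_one (Real.exp (n / 20000))
          have h11 : D₀ + 1 ≤ q := by omega
          have h12 : ((D₀ + 1 : ℕ) : ℝ) ≤ q := by exact_mod_cast h11
          push_cast at h12
          exact lt_of_lt_of_le h10 h12
        · have h10 : (q : ℝ) ≤ D := by exact_mod_cast h7
          exact h10.trans hD
      have hcard : ((S.filter (fun q => ¬ q ≤ D₀)).card : ℝ) ≤ Real.exp (29 / 50 * n) := by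
        have h6 : (S.filter (fun q => ¬ q ≤ D₀)).card ≤ D := by
          refine (Finset.card_filter_le _ _).trans ((Finset.card_filter_le _ _).trans ?_)
          rw [Nat.card_Icc]
          omega
        have h7 : ((S.filter (fun q => ¬ q ≤ D₀)).card : ℝ) ≤ D := by exact_mod_cast h6
        exact h7.trans hD
      have hpos : ∀ q ∈ S.filter (fun q => ¬ q ≤ D₀), 0 < q := by
        intro q hq
        rw [Finset.mem_filter, hS, Finset.mem_filter, Finset.mem_Icc] at hq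
        omega
      have h6 := hcore n _ hpos hcard
      have h7 := hstr n (Mm n) (a11_Mm n) _ hQ
      have h8 : Real.exp (648 * (n / 10 ^ 8)) * ∑ q ∈ S.filter (fun q => ¬ q ≤ D₀),
          1 / (q : ℝ) * WG (Mm n) q ≤ C3 * Real.exp (-(n / 10 ^ 12)) := by
        calc Real.exp (648 * (n / 10 ^ 8)) * ∑ q ∈ S.filter (fun q => ¬ q ≤ D₀),
              1 / (q : ℝ) * WG (Mm n) q
            ≤ Real.exp (648 * (n / 10 ^ 8)) * (C3 * Real.exp (-(n / 60000))) :=
              mul_le_mul_of_nonneg_left h7 (Real.exp_pos _).le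
          _ = C3 * Real.exp (648 * (n / 10 ^ 8) + -(n / 60000)) := by
              rw [Real.exp_add]
              ring
          _ ≤ _ := by
              refine mul_le_mul_of_nonneg_left ?_ hC3.le
              rw [Real.exp_le_exp]
              linarith
      linarith
    linarith
  have hlog : 1 + Real.log D ≤ 1 + n := by
    have h4 : Real.log D ≤ 29 / 50 * n := by
      rw [Real.log_le_iff_le_exp (by linarith)]
      exact hD
    linarith
  have hT0 : 0 ≤ ∑ q ∈ S, (1 / (q : ℝ)) * WW n q :=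
    Finset.sum_nonneg fun q _ => mul_nonneg (by positivity) (WW_nonneg _ q)
  have h9 := a11_fin1 n
  have h10 := a11_fin2 n
  calc ∑ d ∈ (Finset.Icc 1 D).filter (fun d => Nat.Coprime d 6), (1 / (d : ℝ)) *
        ∑ q ∈ d.divisors.erase 1, WW n q
      ≤ (1 + Real.log D) * ∑ q ∈ S, (1 / (q : ℝ)) * WW n q := h2
    _ ≤ (1 + n) * (C1 * Real.exp (-(Real.sqrt n / 100)) +
          (C2 + C3) * Real.exp (-(n / 10 ^ 12))) := mul_le_mul hlog h3 hT0 (by positivity)
    _ = C1 * ((1 + (n : ℝ)) * Real.exp (-(Real.sqrt n / 100))) +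
          (C2 + C3) * ((1 + (n : ℝ)) * Real.exp (-(n / 10 ^ 12))) := by ring
    _ ≤ C1 * (80000 * Real.exp (-(Real.sqrt n / 200))) +
          (C2 + C3) * ((2 * 10 ^ 12 * Real.exp 12500000) * Real.exp (-(Real.sqrt n / 200))) :=
        add_le_add (mul_le_mul_of_nonneg_left h9 hC1.le)
          (mul_le_mul_of_nonneg_left h10 (by positivity))
    _ = _ := by ring

/-- **Level of distribution in all residue classes**: `k d` is any residue for each modulus. -/
theorem level_all : ∃ C : ℝ, 0 < C ∧ ∀ n D : ℕ, (D : ℝ) ≤ Real.exp (29 / 50 * n) → ∀ k : ℕ → ℕ,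
    ∑ d ∈ (Finset.Icc 1 D).filter (fun d => Nat.Coprime d 6), |(Ak n d (k d) : ℝ) - 3 ^ n / d| ≤
      C * 3 ^ n * Real.exp (-(Real.sqrt n / 200)) := by
  obtain ⟨C, hC, h⟩ := level_WW
  refine ⟨C, hC, fun n D hD k => ?_⟩
  have h1 : ∑ d ∈ (Finset.Icc 1 D).filter (fun d => Nat.Coprime d 6),
      |(Ak n d (k d) : ℝ) - 3 ^ n / d| ≤
      3 ^ n * ∑ d ∈ (Finset.Icc 1 D).filter (fun d => Nat.Coprime d 6), (1 / (d : ℝ)) *
        ∑ q ∈ d.divisors.erase 1, WW n q := by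
    rw [Finset.mul_sum]
    refine Finset.sum_le_sum fun d hd => ?_
    rw [Finset.mem_filter, Finset.mem_Icc] at hd
    refine (Ak_sub_le_WW (by omega) _).trans (le_of_eq ?_)
    rw [← mul_assoc, mul_one_div]
  refine h1.trans ?_
  have h2 := mul_le_mul_of_nonneg_left (h n D hD) (show (0 : ℝ) ≤ 3 ^ n by positivity)
  linarith

end Pool.Agent.Lib.MP_f75418_nt.FF
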